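import Pool.Agent.Helper77.HB.FourPt

/-!
# General facts on the Gromov boundary of a hyperbolic graph
-/

namespace Pool.Agent.Helper77.HB

variable {α : Type} {Γ : SimpleGraph α}

lemma near_mono {o : α} {R R' : ℝ} (h : R ≤ R') (ξ : GBd Γ) : near o R' ξ ⊆ near o R ξ := by
  rintro x ⟨y, hy, N, hN⟩
  exact ⟨y, hy, N, fun n hn => h.trans (hN n hn)⟩

lemma near_dist (hc : Γ.Connected) {o : α} {R : ℝ} {ξ : GBd Γ} {x : α} (hx : x ∈ near o R ξ) :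
    R ≤ Γ.dist o x := by
  obtain ⟨y, _, N, hN⟩ := hx
  exact (hN N le_rfl).trans (gp_le_left hc o x (y N))

lemma toInf_of_mem {ξ : GBd Γ} {y : ℕ → α} (hy : y ∈ ξ.1) : ToInf Γ y := by
  obtain ⟨c, y0, hy0, rfl⟩ := ξ
  exact hy.1

/-- every boundary point is the class of a sequence -/
lemma gbd_nonempty (ξ : GBd Γ) : ∃ y, y ∈ ξ.1 := by
  obtain ⟨c, y0, hy0, rfl⟩ := ξ
  exact ⟨y0, hy0, hy0⟩

/-- Changing the base point. -/
lemma near_base (hc : Γ.Connected) (o o' : α) (R : ℝ) (ξ : GBd Γ) :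
    near o (R + Γ.dist o o') ξ ⊆ near o' R ξ := by
  rintro x ⟨y, hy, N, hN⟩
  refine ⟨y, hy, N, fun n hn => ?_⟩
  have h1 := hN n hn
  have h2 := gp_base hc o o' x (y n)
  linarith

/-- The class of a sequence converging to infinity. -/
noncomputable def cls (Γ : SimpleGraph α) (y : ℕ → α) (hy : ToInf Γ y) : GBd Γ :=
  ⟨{z | ToInf Γ z ∧ Equ Γ y z}, y, hy, rfl⟩

lemma mem_cls {y : ℕ → α} (hy : ToInf Γ y) : y ∈ (cls Γ y hy).1 := ⟨hy, hy⟩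

lemma equ_symm {y z : ℕ → α} (h : Equ Γ y z) : Equ Γ z y := by
  intro o R
  obtain ⟨N, hN⟩ := h o R
  refine ⟨N, fun m hm n hn => ?_⟩
  rw [gp_comm]
  exact hN n hn m hm

lemma equ_trans {δ : ℕ} (h : Hyp Γ δ) {y z w : ℕ → α} (h1 : Equ Γ y z) (h2 : Equ Γ z w) :
    Equ Γ y w := by
  obtain ⟨C, hC0, hC⟩ := four_pt h
  intro o R
  obtain ⟨N1, hN1⟩ := h1 o (R + C)
  obtain ⟨N2, hN2⟩ := h2 o (R + C)
  refine ⟨max N1 N2, fun m hm n hn => ?_⟩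
  have a1 := hN1 m (le_of_max_le_left hm) (max N1 N2) (le_max_left _ _)
  have a2 := hN2 (max N1 N2) (le_max_right _ _) n (le_of_max_le_right hn)
  have a3 := hC o (y m) (z (max N1 N2)) (w n)
  have a4 := le_min a1 a2
  linarith

lemma cls_eq {δ : ℕ} (h : Hyp Γ δ) {ξ : GBd Γ} {y : ℕ → α} (hy : ToInf Γ y) (hm : y ∈ ξ.1) :
    cls Γ y hy = ξ := by
  obtain ⟨c, y0, hy0, rfl⟩ := ξ
  apply Subtype.ext
  ext z
  have h1 : Equ Γ y0 y := hm.2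
  constructor
  · rintro ⟨hz1, hz2⟩
    exact ⟨hz1, equ_trans h h1 hz2⟩
  · rintro ⟨hz1, hz2⟩
    exact ⟨hz1, equ_trans h (equ_symm h1) hz2⟩

/-- Two members of a boundary point are equivalent. -/
lemma equ_of_mem {δ : ℕ} (h : Hyp Γ δ) {ξ : GBd Γ} {y z : ℕ → α} (hy : y ∈ ξ.1) (hz : z ∈ ξ.1) :
    Equ Γ y z := by
  obtain ⟨c, y0, hy0, rfl⟩ := ξ
  exact equ_trans h (equ_symm hy.2) hz.2

lemma gbd_ext {δ : ℕ} (h : Hyp Γ δ) {ξ η : GBd Γ} {y : ℕ → α} (hy : y ∈ ξ.1) (hz : y ∈ η.1) :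
    ξ = η := by
  rw [← cls_eq h (toInf_of_mem hy) hy, ← cls_eq h (toInf_of_mem hy) hz]

lemma mem_of_equ {δ : ℕ} (h : Hyp Γ δ) {ξ : GBd Γ} {y z : ℕ → α} (hy : y ∈ ξ.1)
    (hz : ToInf Γ z) (hyz : Equ Γ y z) : z ∈ ξ.1 := by
  rw [← cls_eq h (toInf_of_mem hy) hy]
  exact ⟨hz, hyz⟩

/-- A sequence representing `ξ` is eventually near `ξ`. -/
lemma near_seq {ξ : GBd Γ} {y : ℕ → α} (hy : y ∈ ξ.1) (o : α) (R : ℝ) :
    ∃ N, ∀ n ≥ N, y n ∈ near o R ξ := by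
  obtain ⟨N, hN⟩ := toInf_of_mem hy o R
  exact ⟨N, fun n hn => ⟨y, hy, N, fun m hm => hN n hn m hm⟩⟩

/-- Nearness can be tested with any representative, up to a constant. -/
lemma near_iff_seq {δ : ℕ} (h : Hyp Γ δ) : ∃ C : ℝ, 0 ≤ C ∧ ∀ (o : α) (R : ℝ) (ξ : GBd Γ),
    ∀ y ∈ ξ.1, ∀ x ∈ near o (R + C) ξ, ∃ N, ∀ n ≥ N, R ≤ gp Γ o x (y n) := by
  obtain ⟨C, hC0, hC⟩ := four_pt h
  refine ⟨C, hC0, ?_⟩
  rintro o R ξ y hy x ⟨z, hz, N, hN⟩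
  obtain ⟨N2, hN2⟩ := equ_of_mem h hz hy o (R + C)
  refine ⟨N2, fun n hn => ?_⟩
  have a1 := hN (max N N2) (le_max_left _ _)
  have a2 := hN2 (max N N2) (le_max_right _ _) n hn
  have a3 := hC o x (z (max N N2)) (y n)
  have a4 := le_min a1 a2
  linarith

/-- A sequence which is eventually in all the sets `near o R ξ` represents `ξ`. -/
lemma mem_of_near {δ : ℕ} (h : Hyp Γ δ) {ξ : GBd Γ} {y : ℕ → α} (o : α)
    (hy : ∀ R : ℝ, ∃ N, ∀ n ≥ N, y n ∈ near o R ξ) : y ∈ ξ.1 := by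
  obtain ⟨C, hC0, hC⟩ := four_pt h
  obtain ⟨C1, hC10, hC1⟩ := near_iff_seq h
  obtain ⟨y0, hy0⟩ := gbd_nonempty ξ
  have hinf0 := toInf_of_mem hy0
  have key : ∀ R : ℝ, ∃ N, ∀ n ≥ N, ∃ N', ∀ k ≥ N', R ≤ gp Γ o (y n) (y0 k) := by
    intro R
    obtain ⟨N, hN⟩ := hy (R + C1)
    exact ⟨N, fun n hn => hC1 o R ξ y0 hy0 (y n) (hN n hn)⟩
  have hInf : ToInf Γ y := by
    intro o' R
    obtain ⟨N, hN⟩ := key (R + Γ.dist o o' + C)
    refine ⟨N, fun m hm n hn => ?_⟩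
    obtain ⟨k1, hk1⟩ := hN m hm
    obtain ⟨k2, hk2⟩ := hN n hn
    have a1 := hk1 (max k1 k2) (le_max_left _ _)
    have a2 := hk2 (max k1 k2) (le_max_right _ _)
    rw [gp_comm] at a2
    have a3 := hC o (y m) (y0 (max k1 k2)) (y n)
    have a4 := le_min a1 a2
    have a5 := gp_base h.1 o o' (y m) (y n)
    linarith
  refine mem_of_equ h hy0 hInf ?_
  intro o' R
  obtain ⟨N, hN⟩ := key (R + Γ.dist o o' + C)
  obtain ⟨N0, hN0⟩ := hinf0 o (R + Γ.dist o o' + C)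
  refine ⟨max N N0, fun m hm n hn => ?_⟩
  obtain ⟨k1, hk1⟩ := hN n (le_of_max_le_left hn)
  have a1 := hk1 (max k1 N0) (le_max_left _ _)
  rw [gp_comm] at a1
  have a2 := hN0 m (le_of_max_le_right hm) (max k1 N0) (le_max_right _ _)
  have a3 := hC o (y0 m) (y0 (max k1 N0)) (y n)
  have a4 := le_min a2 a1
  have a5 := gp_base h.1 o o' (y0 m) (y n)
  linarith

lemma near_trans {δ : ℕ} (h : Hyp Γ δ) : ∃ C : ℝ, 0 ≤ C ∧ ∀ (o : α) (R : ℝ) (ξ : GBd Γ),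
    ∀ y ∈ near o (R + C) ξ, ∀ x, R + C ≤ gp Γ o x y → x ∈ near o R ξ := by
  obtain ⟨C, hC0, hC⟩ := four_pt h
  refine ⟨C, hC0, ?_⟩
  rintro o R ξ y ⟨z, hz, N, hN⟩ x hx
  refine ⟨z, hz, N, fun n hn => ?_⟩
  have a1 := hN n hn
  have a3 := hC o x y (z n)
  have a4 := le_min hx a1
  linarith

/-- Two elements of `near o R ξ` have a large Gromov product. -/
lemma gp_of_near {δ : ℕ} (h : Hyp Γ δ) : ∃ C : ℝ, 0 ≤ C ∧ ∀ (o : α) (R : ℝ) (ξ : GBd Γ),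
    ∀ y ∈ near o (R + C) ξ, ∀ x ∈ near o (R + C) ξ, R ≤ gp Γ o x y := by
  obtain ⟨C, hC0, hC⟩ := four_pt h
  obtain ⟨C1, hC10, hC1⟩ := near_iff_seq h
  refine ⟨C + C1, by positivity, ?_⟩
  intro o R ξ y hy x hx
  obtain ⟨z, hz⟩ := gbd_nonempty ξ
  rw [← add_assoc] at hy hx
  obtain ⟨N1, hN1⟩ := hC1 o (R + C) ξ z hz y hy
  obtain ⟨N2, hN2⟩ := hC1 o (R + C) ξ z hz x hx
  have a1 := hN1 (max N1 N2) (le_max_left _ _)
  have a2 := hN2 (max N1 N2) (le_max_right _ _)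
  rw [gp_comm] at a1
  have a3 := hC o x (z (max N1 N2)) y
  have a4 := le_min a2 a1
  linarith

/-- Separation of two different boundary points. -/
lemma near_sep {δ : ℕ} (h : Hyp Γ δ) (o : α) {ξ η : GBd Γ} (hne : ξ ≠ η) :
    ∃ R : ℕ, Disjoint (near (Γ := Γ) o R ξ) (near o R η) := by
  obtain ⟨C, hC0, hC⟩ := four_pt h
  obtain ⟨C1, hC10, hC1⟩ := near_iff_seq h
  by_contra hcon
  push Not at hcon
  obtain ⟨y, hy⟩ := gbd_nonempty ξ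
  obtain ⟨z, hz⟩ := gbd_nonempty η
  apply hne
  have hE : Equ Γ y z := by
    intro o' R
    obtain ⟨M, hM⟩ := exists_nat_ge (R + Γ.dist o o' + C + C1)
    obtain ⟨x, hx1, hx2⟩ := Set.not_disjoint_iff.1 (hcon M)
    have hx1' := near_mono hM ξ hx1
    have hx2' := near_mono hM η hx2
    obtain ⟨N1, hN1⟩ := hC1 o (R + Γ.dist o o' + C) ξ y hy x hx1'
    obtain ⟨N2, hN2⟩ := hC1 o (R + Γ.dist o o' + C) η z hz x hx2'
    refine ⟨max N1 N2, fun m hm n hn => ?_⟩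
    have a1 := hN1 m (le_of_max_le_left hm)
    have a2 := hN2 n (le_of_max_le_right hn)
    rw [gp_comm] at a1
    have a3 := hC o (y m) x (z n)
    have a4 := le_min a1 a2
    have a5 := gp_base h.1 o o' (y m) (z n)
    linarith
  exact gbd_ext h (mem_of_equ h hy (toInf_of_mem hz) hE) hz

/-- `nearBd` and `near`: first direction. -/
lemma near_of_nearBd {δ : ℕ} (h : Hyp Γ δ) : ∃ C : ℝ, 0 ≤ C ∧ ∀ (o : α) (R : ℝ) (ξ η : GBd Γ),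
    η ∈ nearBd o (R + C) ξ → near o (R + C) η ⊆ near o R ξ := by
  obtain ⟨C, hC0, hC⟩ := four_pt h
  obtain ⟨C1, hC10, hC1⟩ := near_iff_seq h
  refine ⟨C + C1, by positivity, ?_⟩
  rintro o R ξ η ⟨y, hy, z, hz, N, hN⟩ x hx
  rw [← add_assoc] at hx
  obtain ⟨N1, hN1⟩ := hC1 o (R + C) η z hz x hx
  refine ⟨y, hy, N, fun m hm => ?_⟩
  have a1 := hN1 (max N1 N) (le_max_left _ _)
  have a2 := hN m hm (max N1 N) (le_max_right _ _)
  rw [gp_comm] at a2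
  have a3 := hC o x (z (max N1 N)) (y m)
  have a4 := le_min a1 (show R + C ≤ gp Γ o (z (max N1 N)) (y m) by linarith)
  linarith

/-- `nearBd` and `near`: second direction. -/
lemma nearBd_of_near {δ : ℕ} (h : Hyp Γ δ) : ∃ C : ℝ, 0 ≤ C ∧ ∀ (o : α) (R : ℝ) (ξ η : GBd Γ),
    ∀ x ∈ near (Γ := Γ) o (R + C) ξ, x ∈ near o (R + C) η → η ∈ nearBd o R ξ := by
  obtain ⟨C, hC0, hC⟩ := four_pt h
  refine ⟨C, hC0, ?_⟩
  rintro o R ξ η x ⟨y, hy, N1, hN1⟩ ⟨z, hz, N2, hN2⟩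
  refine ⟨y, hy, z, hz, max N1 N2, fun m hm n hn => ?_⟩
  have a1 := hN1 m (le_of_max_le_left hm)
  have a2 := hN2 n (le_of_max_le_right hn)
  rw [gp_comm] at a1
  have a3 := hC o (y m) x (z n)
  have a4 := le_min a1 a2
  linarith

end Pool.Agent.Helper77.HB
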