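import Pool.Agent.Helper77.HB.Gr

/-!
# The model of the boundary
-/

namespace Pool.Agent.Helper77.HB

open Matrix OnePoint

/-- The strict extension topology: `N q` is the family of the traces (on the space `X`) of the
neighbourhoods of the boundary point `q`. -/
def strictTop {X Y : Type} (N : Y → Set X → Prop) : TopologicalSpace Y :=
  TopologicalSpace.generateFrom (Set.range fun B : Set X => {q | N q B})

/-- The join of `∂F` and `{+∞, -∞}`: the boundary of `F × ℤ`.  `mer ξ t` is the point of height
`t` on the meridian through `ξ`; height `0` is `ξ` itself, the heights `1`, `-1` are the poles. -/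
inductive J where
  | pole (s : Bool)
  | mer (ξ : E) (t : Set.Ioo (-1 : ℝ) 1)

/-- the height -/
noncomputable def J.ht : J → ℝ
  | .pole s => (sg s : ℝ)
  | .mer _ t => t.1

/-- The size of an element of `F × ℤ`. -/
noncomputable def sz (u : F × ℤ) : ℝ := (u.1.norm : ℝ) + |(u.2 : ℝ)|

/-- The basic neighbourhoods, in `F × ℤ`, of the points of `J`. -/
def InJ (R : ℕ) (j : J) (u : F × ℤ) : Prop :=
  (R : ℝ) ≤ sz u ∧ (R : ℝ) * |(u.2 : ℝ) - j.ht * sz u| ≤ sz u ∧
    ∀ ξ t, j = J.mer ξ t → u.1 ∈ near (Γ := TF) 1 R ξ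

/-- The trace filter of `j` on `F × ℤ`. -/
def TrJ (j : J) (B : Set (F × ℤ)) : Prop := ∃ R : ℕ, ∀ u, InJ R j u → u ∈ B

/-- The model of the boundary of the group: `∂ Gr` and a copy of `J` for each vertex of `Gr`. -/
inductive MB where
  | inf (ξ : GBd Gr)
  | sig (v : Wd) (j : J)

/-- The trace on `GA` of the neighbourhoods of the points of the model of the boundary. -/
def Tr (lam : Bool) : MB → Set GA → Prop
  | .inf ξ, B => ∃ R : ℕ, ∀ h : GA, h • v0 ∈ near (Γ := Gr) v0 R ξ → h ∈ B
  | .sig v j, B => ∃ R : ℕ, ∀ h : GA, InJ R j (kap lam (pg (frame v) h)) → h ∈ B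

/-- The topology of the model. -/
def mbTop (lam : Bool) : TopologicalSpace MB := strictTop (Tr lam)

/-- The topology of `J`. -/
instance jTop : TopologicalSpace J := strictTop TrJ

/-- The end of the coset `w ⟨c⟩`, for the sign `s`. -/
noncomputable def cseq (w : F) (s : Bool) (n : ℕ) : F := w * FreeGroup.of true ^ (sg s * n)

/-- The sequence `a ^ n`. -/
def aseq (n : ℕ) : F := FreeGroup.of false ^ n

end Pool.Agent.Helper77.HB
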