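import Pool.Agent.Helper77.HB.Defs

/-!
# A criterion for hyperbolicity
-/

namespace Pool.Agent.Helper77.HB

/-- A colouring constant along edges far from `z` is constant along walks far from `z`. -/
lemma gate_walk {α κ : Type} (Γ : SimpleGraph α) (r : ℕ) (gate : α → α → κ) (z : α)
    (h1 : ∀ y y', Γ.Adj y y' → r < Γ.dist z y → r < Γ.dist z y' → gate z y = gate z y')
    {y y' : α} (w : Γ.Walk y y') (hw : ∀ v ∈ w.support, r < Γ.dist z v) :
    gate z y = gate z y' := by
  induction w with
  | nil => rfl
  | @cons u v t h p ih =>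
    have hu : r < Γ.dist z u := hw u (by simp)
    have hp : ∀ x ∈ p.support, r < Γ.dist z x := fun x hx => hw x (by simp [hx])
    have hv : r < Γ.dist z v := hp v (by simp)
    exact (h1 u v h hu hv).trans (ih hp)

/-- Distances along a geodesic add up. -/
lemma dist_add_of_mem_geod {α : Type} (Γ : SimpleGraph α) (hc : Γ.Connected) {a b z : α}
    (p : Γ.Walk a b) (hp : IsGeod Γ p) (hz : z ∈ p.support) :
    Γ.dist a z + Γ.dist z b = Γ.dist a b := by
  classical
  have h := congrArg SimpleGraph.Walk.length (p.take_spec hz)
  rw [SimpleGraph.Walk.length_append] at h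
  have h1 := SimpleGraph.dist_le (p.takeUntil z hz)
  have h2 := SimpleGraph.dist_le (p.dropUntil z hz)
  have h3 := hc.dist_triangle (u := a) (v := z) (w := b)
  unfold IsGeod at hp
  omega

/-- A connected graph with a family of gates (a colouring `gate z` of the vertices, for each
vertex `z`), constant along edges at distance `> r` from `z` and with different values at the end
points of geodesics through `z`, is `r`-hyperbolic. -/
theorem hyp_of_gates {α κ : Type} (Γ : SimpleGraph α) (r : ℕ) (hc : Γ.Connected)
    (gate : α → α → κ)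
    (h1 : ∀ z y y', Γ.Adj y y' → r < Γ.dist z y → r < Γ.dist z y' → gate z y = gate z y')
    (h2 : ∀ z y y', z ≠ y → z ≠ y' → Γ.dist y z + Γ.dist z y' = Γ.dist y y' →
      gate z y ≠ gate z y') : Hyp Γ r := by
  refine ⟨hc, ?_⟩
  intro a b c p q r' hp hq hr z hz
  by_contra hcon
  push Not at hcon
  obtain ⟨hq', hr''⟩ := hcon
  have e1 : gate z b = gate z c := gate_walk Γ r gate z (h1 z) q hq'
  have e2 : gate z a = gate z c := gate_walk Γ r gate z (h1 z) r' hr''
  have hb : r < Γ.dist z b := hq' b (by simp)
  have ha : r < Γ.dist z a := hr'' a (by simp)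
  have hza : z ≠ a := by
    rintro rfl
    simp at ha
  have hzb : z ≠ b := by
    rintro rfl
    simp at hb
  exact h2 z a b hza hzb (dist_add_of_mem_geod Γ hc p hp hz) (e2.trans e1.symm)

end Pool.Agent.Helper77.HB
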