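import Pool.Agent.Helper77.HB.Gr
import Pool.Agent.Helper77.HB.Bottle

/-!
# The tree `TF` and the line `ZL`
-/

namespace Pool.Agent.Helper77.HB

open FreeGroup in
lemma toWord_mul_of (w : F) (b : Bool) : (w * of b).toWord = w.toWord ++ [(b, true)] ∨
    w.toWord = (w * of b).toWord ++ [(b, false)] := by
  rcases List.eq_nil_or_concat' w.toWord with h | ⟨L, ⟨c, e⟩, h⟩
  · left
    have h1 : w = 1 := toWord_eq_nil_iff.1 h
    subst h1
    rw [one_mul, toWord_of, toWord_one, List.nil_append]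
  · have hred : IsReduced (L ++ [(c, e)]) := by
      rw [← h]; exact isReduced_toWord
    by_cases hc : c = b ∧ e = false
    · obtain ⟨rfl, rfl⟩ := hc
      right
      have h1 : w = mk (L ++ [(c, false)]) := by rw [← h, mk_toWord]
      have h2 : w * of c = mk L := by
        rw [h1, of, mul_mk]
        refine Quot.sound ?_
        have := @Red.Step.not_rev Bool L [] c true
        simpa using this
      have h3 : IsReduced L := List.IsChain.left_of_append hred
      rw [h2, toWord_mk, h3.reduce_eq, h]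
    · left
      have h2 : IsReduced ([(c, e)] ++ [(b, true)]) := by
        show IsReduced [(c, e), (b, true)]
        rw [isReduced_cons_cons]
        refine ⟨fun h3 => ?_, IsReduced.singleton⟩
        by_contra h4
        exact hc ⟨h3, by simpa using h4⟩
      rw [toWord_mul, toWord_of, h]
      exact (IsReduced.append_overlap hred h2 (by simp)).reduce_eq

open FreeGroup in
lemma head_mul_of (w : F) (b : Bool) (h1 : w ≠ 1) (h2 : w * of b ≠ 1) :
    (w * of b).toWord.head? = w.toWord.head? := by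
  have h1' : w.toWord ≠ [] := fun h => h1 (toWord_eq_nil_iff.1 h)
  have h2' : (w * of b).toWord ≠ [] := fun h => h2 (toWord_eq_nil_iff.1 h)
  rcases toWord_mul_of w b with h | h
  · rw [h, List.head?_append_of_ne_nil _ h1']
  · rw [h, List.head?_append_of_ne_nil _ h2']

open FreeGroup in
lemma TF_adj_mul (w : F) (s : Bool × Bool) : TF.Adj w (w * mk [s]) := by
  obtain ⟨b, e⟩ := s
  cases e
  · have h : w * mk [(b, false)] * of b = w := by
      rw [mul_assoc, of, mul_mk]
      have h1 : mk ([(b, false)] ++ [(b, true)]) = 1 := by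
        rw [one_eq_mk]
        refine Quot.sound ?_
        have := @Red.Step.not_rev Bool [] [] b true
        simpa using this
      rw [h1, mul_one]
    refine ⟨?_, Or.inr ⟨of b, ⟨b, rfl⟩, h.symm⟩⟩
    intro h2
    rw [← h2] at h
    exact of_ne_one b (mul_eq_left.1 h)
  · refine ⟨?_, Or.inl ⟨of b, ⟨b, rfl⟩, rfl⟩⟩
    intro h2
    exact of_ne_one b (mul_eq_left.1 h2.symm)

open FreeGroup in
lemma TF_walk (L : List (Bool × Bool)) : ∀ w : F, ∃ p : TF.Walk w (w * mk L),
    p.length = L.length := by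
  induction L with
  | nil =>
    intro w
    have h : w * mk [] = w := by rw [← one_eq_mk, mul_one]
    rw [h]
    exact ⟨SimpleGraph.Walk.nil, rfl⟩
  | cons s L ih =>
    intro w
    obtain ⟨p, hp⟩ := ih (w * mk [s])
    have h : w * mk (s :: L) = w * mk [s] * mk L := by
      rw [mul_assoc, mul_mk]; rfl
    rw [h]
    exact ⟨SimpleGraph.Walk.cons (TF_adj_mul w s) p, by simp [hp]⟩

open FreeGroup in
lemma TF_adj_iff {w w' : F} (h : TF.Adj w w') : (∃ b, w' = w * of b) ∨ (∃ b, w = w' * of b) := by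
  obtain ⟨-, ⟨s, ⟨b, rfl⟩, h⟩ | ⟨s, ⟨b, rfl⟩, h⟩⟩ := h
  · exact Or.inl ⟨b, h⟩
  · exact Or.inr ⟨b, h⟩

open FreeGroup in
lemma TF_norm_le {w w' : F} (p : TF.Walk w w') : (w⁻¹ * w').norm ≤ p.length := by
  induction p with
  | nil => simp
  | @cons u v x hadj p ih =>
    have h1 : (u⁻¹ * v).norm ≤ 1 := by
      rcases TF_adj_iff hadj with ⟨b, rfl⟩ | ⟨b, rfl⟩
      · rw [inv_mul_cancel_left, norm_of]
      · rw [mul_inv_rev, inv_mul_cancel_right, norm_inv_eq, norm_of]
    have h2 : u⁻¹ * x = (u⁻¹ * v) * (v⁻¹ * x) := by group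
    rw [h2, SimpleGraph.Walk.length_cons]
    exact (FreeGroup.norm_mul_le _ _).trans (by omega)

theorem TF_connected : TF.Connected := by
  have : Nonempty F := ⟨1⟩
  refine ⟨fun w w' => ?_⟩
  obtain ⟨p, -⟩ := TF_walk (w⁻¹ * w').toWord w
  rw [FreeGroup.mk_toWord, mul_inv_cancel_left] at p
  exact ⟨p⟩

/-- The distance in the tree is the length of the reduced word. -/
theorem TF_dist (w w' : F) : TF.dist w w' = (w⁻¹ * w').norm := by
  apply le_antisymm
  · obtain ⟨p, hp⟩ := TF_walk (w⁻¹ * w').toWord w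
    have h : w * FreeGroup.mk (w⁻¹ * w').toWord = w' := by
      rw [FreeGroup.mk_toWord, mul_inv_cancel_left]
    rw [FreeGroup.norm, ← hp]
    calc TF.dist w w' = TF.dist w (w * FreeGroup.mk (w⁻¹ * w').toWord) := by rw [h]
      _ ≤ p.length := SimpleGraph.dist_le p
  · obtain ⟨p, hp⟩ := (TF_connected w w').exists_walk_length_eq_dist
    rw [← hp]
    exact TF_norm_le p

open FreeGroup in
lemma norm_inv_mul_lt (u v : F) (s : Bool × Bool) (hu : u.toWord.head? = some s)
    (hv : v.toWord.head? = some s) : (u⁻¹ * v).norm < u.norm + v.norm := by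
  obtain ⟨L1, h1⟩ : ∃ L, u.toWord = s :: L := by
    cases hL : u.toWord with
    | nil => rw [hL] at hu; simp at hu
    | cons a L => rw [hL] at hu; simp at hu; exact ⟨L, by rw [hu]⟩
  obtain ⟨L2, h2⟩ : ∃ L, v.toWord = s :: L := by
    cases hL : v.toWord with
    | nil => rw [hL] at hv; simp at hv
    | cons a L => rw [hL] at hv; simp at hv; exact ⟨L, by rw [hv]⟩
  have hu' : u = mk [s] * mk L1 := by
    rw [mul_mk, ← mk_toWord (x := u), h1]; rfl
  have hv' : v = mk [s] * mk L2 := by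
    rw [mul_mk, ← mk_toWord (x := v), h2]; rfl
  have h3 : u⁻¹ * v = (mk L1)⁻¹ * mk L2 := by
    rw [hu', hv']; group
  have h4 : (u⁻¹ * v).norm ≤ L1.length + L2.length := by
    rw [h3]
    refine (FreeGroup.norm_mul_le _ _).trans ?_
    rw [norm_inv_eq]
    exact add_le_add norm_mk_le norm_mk_le
  have h5 : u.norm = L1.length + 1 := by rw [FreeGroup.norm, h1]; rfl
  have h6 : v.norm = L2.length + 1 := by rw [FreeGroup.norm, h2]; rfl
  omega

theorem TF_hyp : Hyp TF 0 := by
  refine hyp_of_gates TF 0 TF_connected (fun z y => (z⁻¹ * y).toWord.head?) ?_ ?_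
  · intro z y y' hadj hy hy'
    rw [TF_dist] at hy hy'
    have h1 : z⁻¹ * y ≠ 1 := by
      intro h; rw [h] at hy; simp at hy
    have h2 : z⁻¹ * y' ≠ 1 := by
      intro h; rw [h] at hy'; simp at hy'
    rcases TF_adj_iff hadj with ⟨b, rfl⟩ | ⟨b, rfl⟩
    · show (z⁻¹ * y).toWord.head? = (z⁻¹ * (y * FreeGroup.of b)).toWord.head?
      rw [← mul_assoc] at h2 ⊢
      exact (head_mul_of _ b h1 h2).symm
    · show (z⁻¹ * (y' * FreeGroup.of b)).toWord.head? = (z⁻¹ * y').toWord.head?
      rw [← mul_assoc] at h1 ⊢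
      exact head_mul_of _ b h2 h1
  · intro z y y' hy hy' hd heq
    rw [TF_dist, TF_dist, TF_dist] at hd
    have h0 : (z⁻¹ * y).toWord.head? ≠ none := by
      intro h
      rw [List.head?_eq_none_iff, FreeGroup.toWord_eq_nil_iff] at h
      exact hy (inv_mul_eq_one.1 h)
    obtain ⟨s, hs⟩ := Option.ne_none_iff_exists'.1 h0
    have h1 := norm_inv_mul_lt (z⁻¹ * y) (z⁻¹ * y') s hs (by rw [← hs]; exact heq.symm)
    have h2 : (z⁻¹ * y)⁻¹ * (z⁻¹ * y') = y⁻¹ * y' := by group
    have h3 : (y⁻¹ * z).norm = (z⁻¹ * y).norm := by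
      rw [← FreeGroup.norm_inv_eq]
      congr 1
      group
    rw [h2] at h1
    omega

lemma ZL_walk (k : ℕ) : ∀ m : ℤ, (∃ p : ZL.Walk m (m + k), p.length = k) ∧
    ∃ p : ZL.Walk m (m - k), p.length = k := by
  induction k with
  | zero =>
    intro m
    have h1 : m + ((0 : ℕ) : ℤ) = m := by simp
    have h2 : m - ((0 : ℕ) : ℤ) = m := by simp
    rw [h1, h2]
    exact ⟨⟨SimpleGraph.Walk.nil, rfl⟩, ⟨SimpleGraph.Walk.nil, rfl⟩⟩
  | succ k ih =>
    intro m
    constructor
    · obtain ⟨p, hp⟩ := (ih (m + 1)).1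
      have h : m + ((k + 1 : ℕ) : ℤ) = m + 1 + k := by push_cast; ring
      rw [h]
      have hadj : ZL.Adj m (m + 1) := Or.inr rfl
      exact ⟨SimpleGraph.Walk.cons hadj p, by simp [hp]⟩
    · obtain ⟨p, hp⟩ := (ih (m - 1)).2
      have h : m - ((k + 1 : ℕ) : ℤ) = m - 1 - k := by push_cast; ring
      rw [h]
      have hadj : ZL.Adj m (m - 1) := Or.inl (by ring)
      exact ⟨SimpleGraph.Walk.cons hadj p, by simp [hp]⟩

lemma ZL_le_walk {m n : ℤ} (p : ZL.Walk m n) : (m - n).natAbs ≤ p.length := by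
  induction p with
  | nil => simp
  | @cons u v x hadj p ih =>
    rw [SimpleGraph.Walk.length_cons]
    rcases hadj with h | h <;> omega

lemma ZL_exists_walk (m n : ℤ) : ∃ p : ZL.Walk m n, p.length = (m - n).natAbs := by
  rcases le_total m n with h | h
  · obtain ⟨p, hp⟩ := (ZL_walk (n - m).toNat m).1
    have h1 : m + ((n - m).toNat : ℤ) = n := by omega
    have h2 : (m - n).natAbs = (n - m).toNat := by omega
    exact ⟨p.copy rfl h1, by rw [SimpleGraph.Walk.length_copy, hp, h2]⟩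
  · obtain ⟨p, hp⟩ := (ZL_walk (m - n).toNat m).2
    have h1 : m - ((m - n).toNat : ℤ) = n := by omega
    have h2 : (m - n).natAbs = (m - n).toNat := by omega
    exact ⟨p.copy rfl h1, by rw [SimpleGraph.Walk.length_copy, hp, h2]⟩

lemma ZL_connected : ZL.Connected := by
  have : Nonempty ℤ := ⟨0⟩
  refine ⟨fun m n => ?_⟩
  obtain ⟨p, -⟩ := ZL_exists_walk m n
  exact ⟨p⟩

theorem ZL_dist (m n : ℤ) : ZL.dist m n = (m - n).natAbs := by
  apply le_antisymm
  · obtain ⟨p, hp⟩ := ZL_exists_walk m n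
    rw [← hp]
    exact SimpleGraph.dist_le p
  · obtain ⟨p, hp⟩ := (ZL_connected m n).exists_walk_length_eq_dist
    rw [← hp]
    exact ZL_le_walk p

theorem ZL_hyp : Hyp ZL 0 := by
  refine hyp_of_gates ZL 0 ZL_connected (fun z y => decide (z < y)) ?_ ?_
  · intro z y y' hadj hy hy'
    rw [ZL_dist] at hy hy'
    have h : z < y ↔ z < y' := by
      rcases hadj with h | h <;> omega
    simp [h]
  · intro z y y' hy hy' hd heq
    rw [ZL_dist, ZL_dist, ZL_dist] at hd
    have h : z < y ↔ z < y' := by simpa using heq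
    omega

/-- The end `s` of the line. -/
theorem ZL_toInf (s : Bool) : ToInf ZL (fun n : ℕ => sg s * (n : ℤ)) := by
  intro o R
  obtain ⟨K, hK⟩ := exists_nat_ge R
  refine ⟨K + o.natAbs, fun m hm n hn => ?_⟩
  rw [gp, ZL_dist, ZL_dist, ZL_dist]
  have key : (2 * K : ℤ) ≤ ((o - sg s * (m : ℤ)).natAbs : ℤ) + ((o - sg s * (n : ℤ)).natAbs : ℤ)
      - ((sg s * (m : ℤ) - sg s * (n : ℤ)).natAbs : ℤ) := by
    cases s
    · simp only [sg, Bool.false_eq_true, if_false]
      omega
    · simp only [sg, if_true]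
      omega
  have key' : (2 * K : ℝ) ≤ ((o - sg s * (m : ℤ)).natAbs : ℝ) + ((o - sg s * (n : ℤ)).natAbs : ℝ)
      - ((sg s * (m : ℤ) - sg s * (n : ℤ)).natAbs : ℝ) := by
    exact_mod_cast key
  linarith

end Pool.Agent.Helper77.HB
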