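import Pool.Agent.Helper77.HB.Gr
import Pool.Agent.Helper77.HB.GH
import Pool.Agent.Helper77.HB.Tree
import Pool.Agent.Helper77.HB.Model

/-!
# The ends of the tree
-/

namespace Pool.Agent.Helper77.HB

open Matrix OnePoint

section aux

open FreeGroup (mk_toWord toWord_mk norm_of_pow norm_inv_eq mul_mk inv_mk toWord_of_pow invRev)

private lemma norm_of_red {L : List (Bool × Bool)} (h : FreeGroup.IsReduced L) :
    (FreeGroup.mk L : F).norm = L.length := by
  rw [FreeGroup.norm, toWord_mk, h.reduce_eq]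

private lemma norm_zpow (b : Bool) (k : ℤ) : (FreeGroup.of b ^ k : F).norm = k.natAbs := by
  obtain ⟨n, rfl | rfl⟩ := k.eq_nat_or_neg
  · rw [zpow_natCast, norm_of_pow, Int.natAbs_natCast]
  · rw [_root_.zpow_neg, zpow_natCast, norm_inv_eq, norm_of_pow, Int.natAbs_neg, Int.natAbs_natCast]

private lemma gp_z (w : F) (b : Bool) (i j : ℤ) :
    gp TF w (w * FreeGroup.of b ^ i) (w * FreeGroup.of b ^ j) =
      ((i.natAbs : ℝ) + (j.natAbs : ℝ) - ((j - i).natAbs : ℝ)) / 2 := by
  have h1 : w⁻¹ * (w * FreeGroup.of b ^ i) = FreeGroup.of b ^ i := by group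
  have h2 : w⁻¹ * (w * FreeGroup.of b ^ j) = FreeGroup.of b ^ j := by group
  have h3 : (w * FreeGroup.of b ^ i)⁻¹ * (w * FreeGroup.of b ^ j) = FreeGroup.of b ^ (j - i) := by
    group
  rw [gp, TF_dist, TF_dist, TF_dist, h1, h2, h3, norm_zpow, norm_zpow, norm_zpow]

private lemma zgp (w : F) (b s : Bool) (i j : ℤ) (K : ℕ) (hi : (K : ℤ) ≤ sg s * i)
    (hj : (K : ℤ) ≤ sg s * j) :
    (K : ℝ) ≤ gp TF w (w * FreeGroup.of b ^ i) (w * FreeGroup.of b ^ j) := by
  rw [gp_z]
  have key : (2 * K : ℤ) ≤ (i.natAbs : ℤ) + (j.natAbs : ℤ) - ((j - i).natAbs : ℤ) := by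
    cases s
    · simp only [sg, Bool.false_eq_true, if_false] at hi hj
      omega
    · simp only [sg, if_true] at hi hj
      omega
  have key' : (2 * K : ℝ) ≤ (i.natAbs : ℝ) + (j.natAbs : ℝ) - ((j - i).natAbs : ℝ) := by
    exact_mod_cast key
  linarith

private lemma zgp' (w : F) (b s : Bool) (o : F) (R : ℝ) : ∃ K : ℕ, ∀ i j : ℤ,
    (K : ℤ) ≤ sg s * i → (K : ℤ) ≤ sg s * j →
      R ≤ gp TF o (w * FreeGroup.of b ^ i) (w * FreeGroup.of b ^ j) := by
  obtain ⟨K, hK⟩ := exists_nat_ge (R + TF.dist w o)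
  refine ⟨K, fun i j hi hj => ?_⟩
  have h1 := zgp w b s i j K hi hj
  have h2 := gp_base TF_connected w o (w * FreeGroup.of b ^ i) (w * FreeGroup.of b ^ j)
  linarith

private lemma sg_mul_sg (s : Bool) (n : ℤ) : sg s * (sg s * n) = n := by
  cases s <;> simp [sg]

private lemma phi_le' (L : List (Bool × Bool)) :
    |Multiplicative.toAdd (phi (FreeGroup.mk L))| ≤ L.length := by
  induction L with
  | nil =>
    have h : (FreeGroup.mk [] : F) = 1 := rfl
    rw [h, map_one]
    simp
  | cons s L ih =>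
    have h : (FreeGroup.mk (s :: L) : F) = FreeGroup.mk [s] * FreeGroup.mk L := by
      rw [mul_mk]; rfl
    have h1 : |Multiplicative.toAdd (phi (FreeGroup.mk [s]))| ≤ 1 := by
      have h3 : |Multiplicative.toAdd (phi (FreeGroup.of s.1))| ≤ 1 := by
        cases h4 : s.1 <;> simp [phi]
      obtain ⟨b, e⟩ := s
      cases e
      · have h5 : (FreeGroup.mk [(b, false)] : F) = (FreeGroup.of b)⁻¹ := rfl
        rw [h5, _root_.map_inv, toAdd_inv, abs_neg]
        exact h3
      · exact h3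
    rw [h, _root_.map_mul, toAdd_mul, List.length_cons]
    refine (abs_add_le _ _).trans ?_
    push_cast
    linarith

private lemma phi_le_norm (w : F) : |Multiplicative.toAdd (phi w)| ≤ w.norm := by
  have := phi_le' w.toWord
  rwa [mk_toWord] at this

private lemma red_rep (x : Bool × Bool) (n : ℕ) : FreeGroup.IsReduced (List.replicate n x) := by
  unfold FreeGroup.IsReduced
  exact List.isChain_replicate_of_rel n (fun _ => rfl)

private lemma red_rep2 (x y : Bool × Bool) (h : x.1 ≠ y.1) (n m : ℕ) :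
    FreeGroup.IsReduced (List.replicate n x ++ List.replicate m y) := by
  have h1 := red_rep x n
  have h2 := red_rep y m
  unfold FreeGroup.IsReduced at *
  rw [List.isChain_append]
  refine ⟨h1, h2, ?_⟩
  intro a ha b hb hab
  have ha' : a = x := List.eq_of_mem_replicate (List.mem_of_mem_getLast? ha)
  have hb' : b = y := List.eq_of_mem_replicate (List.mem_of_mem_head? hb)
  subst ha' hb'
  exact absurd hab h

private lemma mk_append (L L' : List (Bool × Bool)) :
    (FreeGroup.mk (L ++ L') : F) = FreeGroup.mk L * FreeGroup.mk L' := by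
  rw [mul_mk]

private lemma pow_eq_mk (b : Bool) (n : ℕ) :
    (FreeGroup.of b ^ n : F) = FreeGroup.mk (List.replicate n (b, true)) := by
  rw [← mk_toWord (x := (FreeGroup.of b ^ n : F)), toWord_of_pow]

private lemma inv_pow_eq_mk (b : Bool) (n : ℕ) :
    ((FreeGroup.of b ^ n)⁻¹ : F) = FreeGroup.mk (List.replicate n (b, false)) := by
  rw [pow_eq_mk, inv_mk]
  congr 1
  simp [invRev]

end aux

theorem cseq_toInf (w : F) (s : Bool) : ToInf TF (cseq w s) := by
  intro o R
  obtain ⟨K, hK⟩ := zgp' w true s o R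
  refine ⟨K, fun m hm n hn => hK _ _ ?_ ?_⟩
  · rw [sg_mul_sg]; exact_mod_cast hm
  · rw [sg_mul_sg]; exact_mod_cast hn

theorem aseq_toInf : ToInf TF aseq := by
  intro o R
  obtain ⟨K, hK⟩ := zgp' 1 false true o R
  refine ⟨K, fun m hm n hn => ?_⟩
  have h := hK m n (by simpa [sg] using hm) (by simpa [sg] using hn)
  rw [one_mul, one_mul, zpow_natCast, zpow_natCast] at h
  exact h

/-- The end `s` of the coset `w ⟨c⟩`. -/
noncomputable def endc (w : F) (s : Bool) : E := cls TF (cseq w s) (cseq_toInf w s)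

/-- The end `a ^ ∞`. -/
noncomputable def enda : E := cls TF aseq aseq_toInf

theorem ends_lim (w : F) (s : Bool) (R : ℕ) : ∃ M : ℤ, ∀ n : ℤ, M ≤ sg s * n →
    w * FreeGroup.of true ^ n ∈ near (Γ := TF) 1 R (endc w s) := by
  obtain ⟨N, hN⟩ := near_seq (mem_cls (cseq_toInf w s)) (1 : F) R
  refine ⟨N, fun n hn => ?_⟩
  have h0 : (0 : ℤ) ≤ sg s * n := le_trans (Int.natCast_nonneg N) hn
  have h1 := hN (sg s * n).toNat (by omega)
  have h2 : sg s * (((sg s * n).toNat : ℕ) : ℤ) = n := by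
    rw [Int.toNat_of_nonneg h0, sg_mul_sg]
  rw [cseq, h2] at h1
  exact h1

theorem endc_ne (w w' : F) : endc w true ≠ endc w' false := by
  intro heq
  have h1 : cseq w true ∈ (endc w true).1 := mem_cls (cseq_toInf w true)
  have h2 : cseq w' false ∈ (endc w true).1 := by
    rw [heq]; exact mem_cls (cseq_toInf w' false)
  set g : ℤ := |Multiplicative.toAdd (phi (w⁻¹ * w'))| with hg
  obtain ⟨N, hN⟩ := equ_of_mem TF_hyp h1 h2 1 ((w.norm + w'.norm + g : ℤ) / 2 + 1 : ℝ)
  have h3 := hN N le_rfl N le_rfl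
  rw [gp, TF_dist, TF_dist, TF_dist] at h3
  simp only [inv_one, one_mul, cseq, sg, if_true, Bool.false_eq_true, if_false] at h3
  have a1 : (w * FreeGroup.of true ^ ((N : ℤ)) : F).norm ≤ w.norm + N := by
    refine (FreeGroup.norm_mul_le _ _).trans ?_
    rw [norm_zpow, Int.natAbs_natCast]
  have a2 : (w' * FreeGroup.of true ^ (-1 * (N : ℤ)) : F).norm ≤ w'.norm + N := by
    refine (FreeGroup.norm_mul_le _ _).trans ?_
    rw [norm_zpow]
    omega
  have a3 := phi_le_norm ((w * FreeGroup.of true ^ ((N : ℤ)))⁻¹ *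
    (w' * FreeGroup.of true ^ (-1 * (N : ℤ))))
  have a4 : Multiplicative.toAdd (phi ((w * FreeGroup.of true ^ ((N : ℤ)))⁻¹ *
      (w' * FreeGroup.of true ^ (-1 * (N : ℤ))))) =
      Multiplicative.toAdd (phi (w⁻¹ * w')) - 2 * N := by
    simp only [map_mul, map_inv, map_zpow, toAdd_mul, toAdd_inv, toAdd_zpow]
    simp [phi]
    ring
  rw [a4] at a3
  have a5 : (2 * N : ℤ) - g ≤ |Multiplicative.toAdd (phi (w⁻¹ * w')) - 2 * N| := by
    have b1 := neg_abs_le (Multiplicative.toAdd (phi (w⁻¹ * w')) - 2 * N)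
    have b2 := le_abs_self (Multiplicative.toAdd (phi (w⁻¹ * w')))
    rw [hg]
    linarith
  have a6 : (2 * N : ℤ) - g ≤ (((w * FreeGroup.of true ^ ((N : ℤ)))⁻¹ *
    (w' * FreeGroup.of true ^ (-1 * (N : ℤ))) : F).norm : ℤ) := a5.trans a3
  have a6' : (2 * N : ℝ) - g ≤ (((w * FreeGroup.of true ^ ((N : ℤ)))⁻¹ *
    (w' * FreeGroup.of true ^ (-1 * (N : ℤ))) : F).norm : ℝ) := by exact_mod_cast a6
  have a1' : ((w * FreeGroup.of true ^ ((N : ℤ)) : F).norm : ℝ) ≤ w.norm + N := by
    exact_mod_cast a1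
  have a2' : ((w' * FreeGroup.of true ^ (-1 * (N : ℤ)) : F).norm : ℝ) ≤ w'.norm + N := by
    exact_mod_cast a2
  push_cast at h3
  linarith

/-- `w ⟨c⟩` accumulates only at its two ends. -/
theorem ends_coset (ξ : E) (w : F) (M : ℤ) : ∃ R : ℕ, ∀ n : ℤ,
    w * FreeGroup.of true ^ n ∈ near (Γ := TF) 1 R ξ →
      (ξ = endc w true ∧ M ≤ n) ∨ (ξ = endc w false ∧ n ≤ -M) := by
  have key : ∀ s, ∃ R : ℕ, ∃ K : ℤ, ∀ n : ℤ, w * FreeGroup.of true ^ n ∈ near (Γ := TF) 1 R ξ →
      ξ = endc w s ∨ sg s * n < K := by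
    intro s
    by_cases h : ξ = endc w s
    · exact ⟨0, 0, fun n _ => Or.inl h⟩
    · obtain ⟨R, hR⟩ := near_sep TF_hyp (1 : F) h
      obtain ⟨K, hK⟩ := ends_lim w s R
      refine ⟨R, K, fun n hn => Or.inr ?_⟩
      by_contra hlt
      exact Set.disjoint_left.1 hR hn (hK n (not_lt.1 hlt))
  obtain ⟨R1, K1, h1⟩ := key true
  obtain ⟨R2, K2, h2⟩ := key false
  obtain ⟨R3, hR3⟩ : ∃ R3 : ℕ, ∀ n : ℤ, n.natAbs ≤ K1.natAbs + K2.natAbs + M.natAbs →
      (w * FreeGroup.of true ^ n : F).norm < R3 := by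
    refine ⟨w.norm + (K1.natAbs + K2.natAbs + M.natAbs) + 1, fun n hn => ?_⟩
    have := FreeGroup.norm_mul_le w (FreeGroup.of true ^ n)
    rw [norm_zpow] at this
    omega
  refine ⟨max R1 (max R2 R3), fun n hn => ?_⟩
  have c1 := h1 n (near_mono (by exact_mod_cast le_max_left _ _) ξ hn)
  have c2 := h2 n (near_mono (by exact_mod_cast (le_max_left R2 R3).trans (le_max_right _ _)) ξ hn)
  have c3 := near_dist TF_connected (near_mono (R := (R3 : ℝ))
    (by exact_mod_cast (le_max_right R2 R3).trans (le_max_right _ _)) ξ hn)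
  rw [TF_dist, inv_one, one_mul] at c3
  have c3' : R3 ≤ (w * FreeGroup.of true ^ n : F).norm := by exact_mod_cast c3
  have c4 : ¬ n.natAbs ≤ K1.natAbs + K2.natAbs + M.natAbs := fun h => by
    have := hR3 n h
    omega
  simp only [sg, if_true, Bool.false_eq_true, if_false] at c1 c2
  rcases c1 with c1 | c1
  · rcases c2 with c2 | c2
    · exact absurd (c1.symm.trans c2) (endc_ne w w)
    · left
      refine ⟨c1, ?_⟩
      omega
  · rcases c2 with c2 | c2
    · right
      refine ⟨c2, ?_⟩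
      omega
    · exfalso
      omega

theorem endc_mul (w : F) (s : Bool) (n : ℤ) : endc (w * FreeGroup.of true ^ n) s = endc w s := by
  refine cls_eq TF_hyp (cseq_toInf _ s) ⟨cseq_toInf _ s, ?_⟩
  intro o R
  obtain ⟨K, hK⟩ := zgp' w true s o R
  refine ⟨K + n.natAbs, fun i hi j hj => ?_⟩
  have h : cseq (w * FreeGroup.of true ^ n) s j = w * FreeGroup.of true ^ (n + sg s * j) := by
    rw [cseq, mul_assoc, ← _root_.zpow_add]
  rw [h, cseq]
  refine hK _ _ ?_ ?_
  · rw [sg_mul_sg]; omega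
  · rw [mul_add, sg_mul_sg]
    cases s
    · simp only [sg, Bool.false_eq_true, if_false]
      omega
    · simp only [sg, if_true]
      omega

/-- The ends of the coset `a ^ k ⟨c⟩` converge to `a ^ ∞`. -/
theorem ends_a (R : ℕ) : ∃ k : ℕ, ∀ s, ∃ R' : ℕ, ∀ w : F,
    w ∈ near (Γ := TF) 1 R' (endc (FreeGroup.of false ^ k) s) →
      w ∈ near (Γ := TF) 1 R enda := by
  obtain ⟨C0, hC0, h0⟩ := four_pt TF_hyp
  obtain ⟨C1, hC1, h1⟩ := near_iff_seq TF_hyp
  obtain ⟨C2, hC2, h2⟩ := near_trans TF_hyp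
  obtain ⟨N, hN⟩ := near_seq (mem_cls aseq_toInf) (1 : F) (R + C2)
  obtain ⟨K, hK⟩ := exists_nat_ge ((R : ℝ) + C2 + C0)
  refine ⟨max N K, fun s => ?_⟩
  set k := max N K with hk
  obtain ⟨R', hR'⟩ := exists_nat_ge ((R : ℝ) + C2 + C0 + C1)
  refine ⟨R', fun w hw => ?_⟩
  refine h2 1 R enda (aseq k) (hN k (le_max_left _ _)) w ?_
  obtain ⟨n, hn⟩ := h1 1 (R + C2 + C0) _ _ (mem_cls (cseq_toInf (FreeGroup.of false ^ k) s)) w
    (near_mono hR' _ hw)
  have a1 := hn n le_rfl
  have a2 : (k : ℝ) ≤ gp TF 1 (cseq (FreeGroup.of false ^ k) s n) (aseq k) := by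
    rw [gp, TF_dist, TF_dist, TF_dist, inv_one, one_mul, one_mul]
    have b1 : (aseq k).norm = k := by rw [aseq, FreeGroup.norm_of_pow]
    have b2 : ((cseq (FreeGroup.of false ^ k) s n)⁻¹ * aseq k : F).norm = n := by
      have : (cseq (FreeGroup.of false ^ k) s n)⁻¹ * aseq k =
          (FreeGroup.of true ^ (sg s * n : ℤ))⁻¹ := by
        rw [cseq, aseq, _root_.mul_inv_rev, mul_assoc, inv_mul_cancel, mul_one]
      rw [this, FreeGroup.norm_inv_eq, norm_zpow]
      cases s
      · simp only [sg, Bool.false_eq_true, if_false]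
        omega
      · simp only [sg, if_true]
        omega
    have b3 : (cseq (FreeGroup.of false ^ k) s n : F).norm = k + n := by
      cases s
      · have : (cseq (FreeGroup.of false ^ k) false n : F) =
            FreeGroup.mk (List.replicate k (false, true) ++ List.replicate n (true, false)) := by
          rw [mk_append, ← pow_eq_mk, ← inv_pow_eq_mk, cseq]
          simp [sg]
        rw [this, norm_of_red (red_rep2 _ _ (by simp) _ _)]
        simp
      · have : (cseq (FreeGroup.of false ^ k) true n : F) =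
            FreeGroup.mk (List.replicate k (false, true) ++ List.replicate n (true, true)) := by
          rw [mk_append, ← pow_eq_mk, ← pow_eq_mk, cseq]
          simp [sg]
        rw [this, norm_of_red (red_rep2 _ _ (by simp) _ _)]
        simp
    rw [b1, b2, b3]
    push_cast
    linarith
  have a3 := h0 1 w (cseq (FreeGroup.of false ^ k) s n) (aseq k)
  have a4 : (R : ℝ) + C2 + C0 ≤ k := hK.trans (by exact_mod_cast le_max_right _ _)
  have a5 := le_min a1 (a4.trans a2)
  linarith

theorem near_nonempty (ξ : E) (R : ℕ) : (near (Γ := TF) 1 R ξ).Nonempty := by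
  obtain ⟨y, hy⟩ := gbd_nonempty ξ
  obtain ⟨N, hN⟩ := near_seq hy (1 : F) R
  exact ⟨y N, hN N le_rfl⟩

open FreeGroup in
private lemma exists_ext (u : F) : ∃ e : Bool, IsReduced (u.toWord ++ [(false, e)]) := by
  rcases List.eq_nil_or_concat' u.toWord with h | ⟨L, ⟨c, e⟩, h⟩
  · exact ⟨true, by rw [h]; exact IsReduced.singleton⟩
  · refine ⟨e, ?_⟩
    have hred : IsReduced (L ++ [(c, e)]) := by rw [← h]; exact isReduced_toWord
    rw [h]
    refine hred.append_overlap ?_ (by simp)
    show IsReduced [(c, e), (false, e)]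
    rw [isReduced_cons_cons]
    exact ⟨fun _ => rfl, IsReduced.singleton⟩

/-- `∂F` has no isolated point. -/
theorem ends_perfect (ξ : E) (R : ℕ) : {η : E | ∃ R' : ℕ,
    near (Γ := TF) 1 R' η ⊆ near (Γ := TF) 1 R ξ}.Infinite := by
  obtain ⟨C0, hC0, h0⟩ := four_pt TF_hyp
  obtain ⟨C1, hC1, h1⟩ := near_iff_seq TF_hyp
  obtain ⟨C2, hC2, h2⟩ := near_trans TF_hyp
  obtain ⟨K, hK⟩ := exists_nat_ge ((R : ℝ) + C2 + C0)
  obtain ⟨u, hu⟩ := near_nonempty ξ K
  obtain ⟨e, he⟩ := exists_ext u
  have hun : (K : ℝ) ≤ u.norm := by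
    have := near_dist TF_connected hu
    rwa [TF_dist, inv_one, one_mul] at this
  set B : ℕ → F := fun k => FreeGroup.mk (List.replicate k (false, e)) with hB
  have hBadd : ∀ k l, B (k + l) = B k * B l := by
    intro k l
    simp only [hB]
    rw [List.replicate_add, mk_append]
  have hBn : ∀ k, (B k).norm = k := by
    intro k
    simp only [hB]
    rw [norm_of_red (red_rep _ _), List.length_replicate]
  have hred1 : ∀ k, FreeGroup.IsReduced (u.toWord ++ List.replicate (k + 1) (false, e)) := by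
    intro k
    have h := he.append_overlap (L₃ := List.replicate k (false, e)) (red_rep (false, e) (k + 1))
      (by simp)
    rwa [List.append_assoc] at h
  have hword : ∀ k n : ℕ, (u * B (k + 1) * FreeGroup.of true ^ n : F).norm =
      u.norm + (k + 1) + n := by
    intro k n
    have h := (hred1 k).append_overlap
      (red_rep2 (false, e) (true, true) (by simp) (k + 1) n) (by simp)
    have h' : (u * B (k + 1) * FreeGroup.of true ^ n : F) = FreeGroup.mk
        (u.toWord ++ List.replicate (k + 1) (false, e) ++ List.replicate n (true, true)) := by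
      rw [mk_append, mk_append, FreeGroup.mk_toWord, pow_eq_mk]
    rw [h', norm_of_red h]
    simp [FreeGroup.norm]
    ring
  have hmid : ∀ k n : ℕ, ((FreeGroup.of true ^ n)⁻¹ * B (k + 1) * FreeGroup.of true ^ n : F).norm =
      n + (k + 1) + n := by
    intro k n
    have h := (red_rep2 (true, false) (false, e) (by simp) n (k + 1)).append_overlap
      (red_rep2 (false, e) (true, true) (by simp) (k + 1) n) (by simp)
    have h' : ((FreeGroup.of true ^ n)⁻¹ * B (k + 1) * FreeGroup.of true ^ n : F) = FreeGroup.mk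
        (List.replicate n (true, false) ++ List.replicate (k + 1) (false, e) ++
          List.replicate n (true, true)) := by
      rw [mk_append, mk_append, ← inv_pow_eq_mk, pow_eq_mk]
    rw [h', norm_of_red h]
    simp
    ring
  have hc : ∀ (w : F) (n : ℕ), cseq w true n = w * FreeGroup.of true ^ n := by
    intro w n
    simp [cseq, sg]
  have hlt : ∀ k l : ℕ, k < l → endc (u * B (k + 1)) true ≠ endc (u * B (l + 1)) true := by
    intro k l hkl heq
    have m1 : cseq (u * B (k + 1)) true ∈ (endc (u * B (k + 1)) true).1 :=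
      mem_cls (cseq_toInf _ true)
    have m2 : cseq (u * B (l + 1)) true ∈ (endc (u * B (k + 1)) true).1 := by
      rw [heq]; exact mem_cls (cseq_toInf _ true)
    obtain ⟨N, hN⟩ := equ_of_mem TF_hyp m1 m2 u (k + 2 : ℝ)
    have h3 := hN N le_rfl N le_rfl
    rw [hc, hc, gp, TF_dist, TF_dist, TF_dist] at h3
    obtain ⟨j, rfl⟩ : ∃ j, l = k + (j + 1) := ⟨l - k - 1, by omega⟩
    have e0 : B (k + (j + 1) + 1) = B (k + 1) * B (j + 1) := by
      rw [← hBadd]; congr 1; ring
    have e1 : u⁻¹ * (u * B (k + 1) * FreeGroup.of true ^ N) = B (k + 1) * FreeGroup.of true ^ N := by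
      group
    have e2 : u⁻¹ * (u * B (k + (j + 1) + 1) * FreeGroup.of true ^ N) =
        B (k + (j + 1) + 1) * FreeGroup.of true ^ N := by
      group
    have e3 : (u * B (k + 1) * FreeGroup.of true ^ N)⁻¹ *
        (u * B (k + (j + 1) + 1) * FreeGroup.of true ^ N) =
        (FreeGroup.of true ^ N)⁻¹ * B (j + 1) * FreeGroup.of true ^ N := by
      rw [e0]; group
    rw [e1, e2, e3, hmid] at h3
    have f1 : (B (k + 1) * FreeGroup.of true ^ N : F).norm ≤ (k + 1) + N := by
      refine (FreeGroup.norm_mul_le _ _).trans ?_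
      rw [hBn, FreeGroup.norm_of_pow]
    have f2 : (B (k + (j + 1) + 1) * FreeGroup.of true ^ N : F).norm ≤ (k + (j + 1) + 1) + N := by
      refine (FreeGroup.norm_mul_le _ _).trans ?_
      rw [hBn, FreeGroup.norm_of_pow]
    have f1' : ((B (k + 1) * FreeGroup.of true ^ N : F).norm : ℝ) ≤ (k + 1) + N := by
      exact_mod_cast f1
    have f2' : ((B (k + (j + 1) + 1) * FreeGroup.of true ^ N : F).norm : ℝ) ≤
        (k + (j + 1) + 1) + N := by
      exact_mod_cast f2
    push_cast at h3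
    linarith
  refine Set.infinite_of_injective_forall_mem (f := fun k : ℕ => endc (u * B (k + 1)) true) ?_ ?_
  · intro k l hkl
    rcases lt_trichotomy k l with h | h | h
    · exact absurd hkl (hlt k l h)
    · exact h
    · exact absurd hkl.symm (hlt l k h)
  · intro k
    obtain ⟨R', hR'⟩ := exists_nat_ge ((R : ℝ) + C2 + C0 + C1)
    refine ⟨R', fun x hx => ?_⟩
    have hu' : u ∈ near (Γ := TF) 1 (R + C2) ξ := near_mono (by linarith) ξ hu
    refine h2 1 R ξ u hu' x ?_
    obtain ⟨n, hn⟩ := h1 1 (R + C2 + C0) _ _ (mem_cls (cseq_toInf (u * B (k + 1)) true)) x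
      (near_mono hR' _ hx)
    have a1 := hn n le_rfl
    have a2 : (u.norm : ℝ) ≤ gp TF 1 (cseq (u * B (k + 1)) true n) u := by
      rw [hc, gp, TF_dist, TF_dist, TF_dist, inv_one, one_mul, one_mul, hword]
      have b2 : ((u * B (k + 1) * FreeGroup.of true ^ n)⁻¹ * u : F).norm ≤ (k + 1) + n := by
        have : (u * B (k + 1) * FreeGroup.of true ^ n)⁻¹ * u =
            (B (k + 1) * FreeGroup.of true ^ n)⁻¹ := by group
        rw [this, FreeGroup.norm_inv_eq]
        refine (FreeGroup.norm_mul_le _ _).trans ?_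
        rw [hBn, FreeGroup.norm_of_pow]
      have b2' : (((u * B (k + 1) * FreeGroup.of true ^ n)⁻¹ * u : F).norm : ℝ) ≤ (k + 1) + n := by
        exact_mod_cast b2
      push_cast
      linarith
    have a3 := h0 1 x (cseq (u * B (k + 1)) true n) u
    have a5 := le_min a1 ((hK.trans hun).trans a2)
    linarith

end Pool.Agent.Helper77.HB
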