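import Pool.Agent.Helper77.HB.HHMain
import Pool.Agent.Helper77.HB.Ends
import Pool.Agent.Helper77.HB.Model

/-!
# The boundary of `HH lam` and the model: definitions
-/

namespace Pool.Agent.Helper77.HB

open Matrix OnePoint

/-- The end `s` of the line. -/
noncomputable def zinf (s : Bool) : GBd ZL := cls ZL _ (ZL_toInf s)

private lemma gp_ZL (o a b : ℤ) : gp ZL o a b =
    ((((o - a).natAbs : ℤ) + ((o - b).natAbs : ℤ) - ((a - b).natAbs : ℤ) : ℤ) : ℝ) / 2 := by
  rw [gp, ZL_dist, ZL_dist, ZL_dist]
  simp only [Int.cast_sub, Int.cast_add, Int.cast_natCast]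

private lemma le_gp_ZL (K : ℤ) (o a b : ℤ) : (K : ℝ) ≤ gp ZL o a b ↔
    2 * K ≤ ((o - a).natAbs : ℤ) + ((o - b).natAbs : ℤ) - ((a - b).natAbs : ℤ) := by
  rw [gp_ZL, le_div_iff₀ (by norm_num)]
  constructor
  · intro h
    have h1 : ((K * 2 : ℤ) : ℝ) ≤
        ((((o - a).natAbs : ℤ) + ((o - b).natAbs : ℤ) - ((a - b).natAbs : ℤ) : ℤ) : ℝ) := by
      push_cast at h ⊢
      exact h
    have h2 := Int.cast_le.1 h1
    omega
  · intro h
    have h1 : K * 2 ≤ ((o - a).natAbs : ℤ) + ((o - b).natAbs : ℤ) - ((a - b).natAbs : ℤ) := by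
      omega
    have h2 : ((K * 2 : ℤ) : ℝ) ≤
        ((((o - a).natAbs : ℤ) + ((o - b).natAbs : ℤ) - ((a - b).natAbs : ℤ) : ℤ) : ℝ) :=
      Int.cast_le.2 h1
    push_cast at h2 ⊢
    exact h2

private lemma zinf_near' (s : Bool) (R : ℝ) (hR : 0 < R) (k : ℤ) :
    k ∈ near (Γ := ZL) 0 R (zinf s) ↔ R ≤ ((sg s * k : ℤ) : ℝ) := by
  constructor
  · rintro ⟨y, hy, N, hN⟩
    obtain ⟨N2, hN2⟩ := equ_of_mem ZL_hyp (mem_cls (ZL_toInf s)) hy 0 1
    set n := max N N2 with hn
    have h1 := hN n (le_max_left _ _)
    have h2 := hN2 n (le_max_right _ _) n (le_max_right _ _)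
    have h3 : ((1 : ℤ) : ℝ) ≤ gp ZL 0 (sg s * (n : ℤ)) (y n) := by
      push_cast
      exact h2
    rw [le_gp_ZL] at h3
    rw [gp_ZL] at h1
    have h4 : (0 : ℝ) < ((((0 - k).natAbs : ℤ) + ((0 - y n).natAbs : ℤ) -
        ((k - y n).natAbs : ℤ) : ℤ) : ℝ) := by linarith
    have h5 : 0 < ((0 - k).natAbs : ℤ) + ((0 - y n).natAbs : ℤ) - ((k - y n).natAbs : ℤ) := by
      exact_mod_cast h4
    have h6 : ((0 - k).natAbs : ℤ) + ((0 - y n).natAbs : ℤ) - ((k - y n).natAbs : ℤ) ≤
        2 * (sg s * k) := by
      cases s
      · simp only [sg, Bool.false_eq_true, if_false] at h3 ⊢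
        omega
      · simp only [sg, if_true] at h3 ⊢
        omega
    have h7 : ((((0 - k).natAbs : ℤ) + ((0 - y n).natAbs : ℤ) -
        ((k - y n).natAbs : ℤ) : ℤ) : ℝ) ≤ ((2 * (sg s * k) : ℤ) : ℝ) := Int.cast_le.2 h6
    have h8 : ((2 * (sg s * k) : ℤ) : ℝ) = 2 * ((sg s * k : ℤ) : ℝ) := by push_cast; ring
    rw [h8] at h7
    linarith
  · intro h
    have hpos : 0 < sg s * k := by
      have : (0 : ℝ) < ((sg s * k : ℤ) : ℝ) := lt_of_lt_of_le hR h
      exact_mod_cast this
    refine ⟨_, mem_cls (ZL_toInf s), k.natAbs, fun n hn => h.trans ?_⟩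
    rw [le_gp_ZL]
    cases s
    · simp only [sg, Bool.false_eq_true, if_false] at hpos ⊢
      omega
    · simp only [sg, if_true] at hpos ⊢
      omega

theorem zinf_bij : Function.Bijective zinf := by
  constructor
  · have hne : zinf true ≠ zinf false := by
      intro h
      have h1 : (1 : ℤ) ∈ near (Γ := ZL) 0 1 (zinf true) :=
        (zinf_near' true 1 one_pos 1).2 (by simp [sg])
      rw [h, zinf_near' false 1 one_pos 1] at h1
      norm_num [sg] at h1
    intro s t hst
    cases s <;> cases t
    · rfl
    · exact absurd hst.symm hne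
    · exact absurd hst hne
    · rfl
  · intro ξ
    obtain ⟨y, hy⟩ := gbd_nonempty ξ
    have hinf := toInf_of_mem hy
    obtain ⟨N, hN⟩ := hinf 0 1
    refine ⟨decide (0 < y N), ?_⟩
    set s := decide (0 < y N) with hs
    have hsign : ∀ n ≥ N, 1 ≤ sg s * y n := by
      intro n hn
      have h1 : ((1 : ℤ) : ℝ) ≤ gp ZL 0 (y N) (y n) := by
        push_cast
        exact hN N le_rfl n hn
      rw [le_gp_ZL] at h1
      by_cases h0 : 0 < y N
      · have : s = true := by rw [hs]; simp [h0]
        rw [this]
        simp only [sg, if_true]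
        omega
      · have : s = false := by rw [hs]; simp [h0]
        rw [this]
        simp only [sg, Bool.false_eq_true, if_false]
        omega
    refine gbd_ext ZL_hyp (y := y) ⟨hinf, ?_⟩ hy
    intro o R
    obtain ⟨K, hK⟩ := exists_nat_ge R
    obtain ⟨N2, hN2⟩ := hinf 0 ((K + o.natAbs : ℕ) : ℝ)
    refine ⟨max N (max N2 (K + o.natAbs)), fun m hm n hn => hK.trans ?_⟩
    have hm1 : K + o.natAbs ≤ m := (le_max_right _ _).trans ((le_max_right _ _).trans hm)
    have hn1 : N ≤ n := (le_max_left _ _).trans hn
    have hn2 : N2 ≤ n := (le_max_left _ _).trans ((le_max_right _ _).trans hn)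
    have h2 := hN2 n hn2 n hn2
    have h3 : (((K + o.natAbs : ℕ) : ℤ) : ℝ) ≤ gp ZL 0 (y n) (y n) := by
      rw [Int.cast_natCast]
      exact h2
    rw [le_gp_ZL] at h3
    have h4 := hsign n hn1
    have h5 : ((K : ℤ) : ℝ) ≤ gp ZL o (sg s * (m : ℤ)) (y n) := by
      rw [le_gp_ZL]
      cases hs' : s
      · rw [hs'] at h4
        simp only [sg, Bool.false_eq_true, if_false] at h4 ⊢
        omega
      · rw [hs'] at h4
        simp only [sg, if_true] at h4 ⊢
        omega
    exact_mod_cast h5

theorem zinf_near (s : Bool) (R : ℝ) (hR : 0 < R) (k : ℤ) :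
    k ∈ near (Γ := ZL) 0 R (zinf s) ↔ R ≤ ((sg s * k : ℤ) : ℝ) :=
  zinf_near' s R hR k

open Classical in
/-- The support. -/
noncomputable def suppMB : MB → Finset Dm
  | .inf _ => {.top}
  | .sig v (.pole _) => {.U v}
  | .sig v (.mer _ t) => if t.1 = 0 then {.V v} else {.V v, .U v}

open Classical in
/-- The weights. -/
noncomputable def wtMB : MB → Dm → ℝ
  | .inf _, .top => 1
  | .sig v j, .V v' => if v' = v then 1 - |j.ht| else 0
  | .sig v j, .U v' => if v' = v then |j.ht| else 0
  | _, _ => 0

/-- The boundary points of the domains. -/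
noncomputable def ptMB : (q : MB) → (D : Dm) → D ∈ suppMB q → GBd (DΓ D)
  | .inf ξ, .top, _ => ξ
  | .inf _, .V _, h => absurd h (by simp [suppMB])
  | .inf _, .U _, h => absurd h (by simp [suppMB])
  | .sig _ (.pole _), .top, h => absurd h (by simp [suppMB])
  | .sig _ (.mer _ t), .top, h => absurd h (by
      by_cases ht : t.1 = 0 <;> simp [suppMB, ht])
  | .sig _ (.pole s), .U _, _ => zinf s
  | .sig _ (.pole _), .V _, h => absurd h (by simp [suppMB])
  | .sig _ (.mer ξ _), .V _, _ => ξ
  | .sig _ (.mer _ t), .U _, _ => zinf (decide (0 < t.1))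

theorem suppMB_nonempty (q : MB) : (suppMB q).Nonempty := by
  match q with
  | .inf _ => exact ⟨.top, by simp [suppMB]⟩
  | .sig v (.pole _) => exact ⟨.U v, by simp [suppMB]⟩
  | .sig v (.mer _ t) => exact ⟨.V v, by by_cases ht : t.1 = 0 <;> simp [suppMB, ht]⟩

theorem suppMB_orth (q : MB) : ∀ U ∈ suppMB q, ∀ V ∈ suppMB q, U ≠ V → Dorth U V := by
  match q with
  | .inf _ =>
    intro U hU V hV h
    simp only [suppMB, Finset.mem_singleton] at hU hV
    exact absurd (hU.trans hV.symm) h
  | .sig v (.pole _) =>
    intro U hU V hV h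
    simp only [suppMB, Finset.mem_singleton] at hU hV
    exact absurd (hU.trans hV.symm) h
  | .sig v (.mer _ t) =>
    intro U hU V hV h
    by_cases ht : t.1 = 0
    · simp only [suppMB, ht, if_true, Finset.mem_singleton] at hU hV
      exact absurd (hU.trans hV.symm) h
    · simp only [suppMB, ht, if_false, Finset.mem_singleton, Finset.mem_insert] at hU hV
      rcases hU with rfl | rfl <;> rcases hV with rfl | rfl
      · exact absurd rfl h
      · exact rfl
      · exact rfl
      · exact absurd rfl h

private theorem abs_ht_pole (s : Bool) : |(J.pole s).ht| = 1 := by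
  cases s <;> simp [J.ht, sg]

private theorem abs_ht_mer (ξ : E) (t : Set.Ioo (-1 : ℝ) 1) : |(J.mer ξ t).ht| < 1 := by
  obtain ⟨t, h1, h2⟩ := t
  exact abs_lt.2 ⟨h1, h2⟩

theorem wtMB_pos (q : MB) : ∀ U ∈ suppMB q, 0 < wtMB q U := by
  match q with
  | .inf _ =>
    intro U hU
    simp only [suppMB, Finset.mem_singleton] at hU
    subst hU
    simp [wtMB]
  | .sig v (.pole s) =>
    intro U hU
    simp only [suppMB, Finset.mem_singleton] at hU
    subst hU
    simp [wtMB, abs_ht_pole]
  | .sig v (.mer ξ t) =>
    intro U hU
    have h1 := abs_ht_mer ξ t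
    by_cases ht : t.1 = 0
    · simp only [suppMB, ht, if_true, Finset.mem_singleton] at hU
      subst hU
      simp only [wtMB, if_true]
      linarith
    · simp only [suppMB, ht, if_false, Finset.mem_singleton, Finset.mem_insert] at hU
      rcases hU with rfl | rfl
      · simp only [wtMB, if_true]
        linarith
      · simp only [wtMB, if_true]
        exact abs_pos.2 ht

theorem wtMB_zero (q : MB) : ∀ U, U ∉ suppMB q → wtMB q U = 0 := by
  match q with
  | .inf _ =>
    intro U hU
    simp only [suppMB, Finset.mem_singleton] at hU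
    match U with
    | .top => exact absurd rfl hU
    | .V _ => rfl
    | .U _ => rfl
  | .sig v (.pole s) =>
    intro U hU
    simp only [suppMB, Finset.mem_singleton] at hU
    match U with
    | .top => rfl
    | .V w => simp [wtMB, abs_ht_pole]
    | .U w =>
      have : w ≠ v := fun h => hU (by rw [h])
      simp [wtMB, this]
  | .sig v (.mer ξ t) =>
    intro U hU
    match U with
    | .top => rfl
    | .V w =>
      have : w ≠ v := by
        intro h
        apply hU
        by_cases ht : t.1 = 0 <;> simp [suppMB, ht, h]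
      simp [wtMB, this]
    | .U w =>
      by_cases ht : t.1 = 0
      · simp [wtMB, J.ht, ht]
      · have : w ≠ v := by
          intro h
          apply hU
          simp [suppMB, ht, h]
        simp [wtMB, this]

open Classical in
theorem wtMB_sum (q : MB) : ∑ U ∈ suppMB q, wtMB q U = 1 := by
  match q with
  | .inf _ => simp [suppMB, wtMB]
  | .sig v (.pole s) => simp [suppMB, wtMB, abs_ht_pole]
  | .sig v (.mer ξ t) =>
    by_cases ht : t.1 = 0
    · simp [suppMB, wtMB, ht, J.ht]
    · simp only [suppMB, ht, if_false]
      rw [Finset.sum_pair (by simp)]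
      simp [wtMB]

/-- The boundary point of a point of the model. -/
noncomputable def ofMB (lam : Bool) (q : MB) : BPt (HH lam).toHHS where
  supp := suppMB q
  wt := wtMB q
  pt := ptMB q
  ne := suppMB_nonempty q
  orth := suppMB_orth q
  wt_pos := wtMB_pos q
  wt_zero := wtMB_zero q
  wt_sum := wtMB_sum q

private theorem BPt_ext' {X : Type} {ΓX : SimpleGraph X} {H : HHS ΓX} {p q : BPt H}
    (hs : p.supp = q.supp) (hw : p.wt = q.wt)
    (hp : ∀ U (h : U ∈ p.supp) (h' : U ∈ q.supp), p.pt U h = q.pt U h') : p = q := by
  obtain ⟨s, w, pt, _, _, _, _, _⟩ := p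
  obtain ⟨s', w', pt', _, _, _, _, _⟩ := q
  simp only at hs hw hp
  subst hs hw
  have : pt = pt' := by
    funext U h
    exact hp U h h
  subst this
  rfl

private theorem pt_congr {X : Type} {ΓX : SimpleGraph X} {H : HHS ΓX} {p q : BPt H}
    (e : p = q) (U : H.Dom) (h : U ∈ p.supp) (h' : U ∈ q.supp) : p.pt U h = q.pt U h' := by
  subst e
  rfl

private theorem mem_supp_mer_V {v : Wd} {ξ : E} {t : Set.Ioo (-1 : ℝ) 1} :
    Dm.V v ∈ suppMB (.sig v (.mer ξ t)) := by
  by_cases ht : t.1 = 0 <;> simp [suppMB, ht]

private theorem mem_supp_mer_U {v : Wd} {ξ : E} {t : Set.Ioo (-1 : ℝ) 1} (ht : t.1 ≠ 0) :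
    Dm.U v ∈ suppMB (.sig v (.mer ξ t)) := by
  simp [suppMB, ht]

open Classical in
private theorem surj_aux (S : Finset Dm) (w : Dm → ℝ) (pt : (U : Dm) → U ∈ S → GBd (DΓ U))
    (ne : S.Nonempty) (horth : ∀ U ∈ S, ∀ V ∈ S, U ≠ V → Dorth U V)
    (hpos : ∀ U ∈ S, 0 < w U) (hzero : ∀ U, U ∉ S → w U = 0) (hsum : ∑ U ∈ S, w U = 1) :
    ∃ q : MB, suppMB q = S ∧ wtMB q = w ∧ ∀ U (h : U ∈ suppMB q) (h' : U ∈ S),
      ptMB q U h = pt U h' := by
  by_cases htop : Dm.top ∈ S
  · have hs : S = {Dm.top} := by
      apply Finset.eq_singleton_iff_unique_mem.2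
      refine ⟨htop, fun U hU => ?_⟩
      by_contra h
      have h2 := horth U hU Dm.top htop h
      revert h2
      cases U <;> simp [Dorth]
    refine ⟨.inf (pt Dm.top htop), hs.symm, ?_, ?_⟩
    · funext U
      by_cases hU : U = Dm.top
      · subst hU
        rw [hs, Finset.sum_singleton] at hsum
        exact hsum.symm
      · have h1 : w U = 0 := hzero U (by rw [hs]; simpa using hU)
        have h2 : wtMB (.inf (pt Dm.top htop)) U = 0 :=
          wtMB_zero _ U (by simpa [suppMB] using hU)
        exact h2.trans h1.symm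
    · intro U h h'
      have hU : U = Dm.top := by simpa [suppMB] using h
      subst hU
      rfl
  · by_cases hV : ∃ v, Dm.V v ∈ S
    · obtain ⟨v, hv⟩ := hV
      have hsub : ∀ U ∈ S, U = Dm.V v ∨ U = Dm.U v := by
        intro U hU
        by_cases h : U = Dm.V v
        · exact Or.inl h
        · have h2 := horth U hU (Dm.V v) hv h
          match U with
          | .top => exact absurd hU htop
          | .V w => exact absurd h2 (by simp [Dorth])
          | .U w =>
            have h3 : w = v := h2
            exact Or.inr (by rw [h3])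
      by_cases hu : Dm.U v ∈ S
      · have hs : S = {Dm.V v, Dm.U v} := by
          ext U
          simp only [Finset.mem_insert, Finset.mem_singleton]
          constructor
          · exact hsub U
          · rintro (rfl | rfl)
            · exact hv
            · exact hu
        have hsum2 : w (Dm.V v) + w (Dm.U v) = 1 := by
          rw [hs, Finset.sum_pair (by simp)] at hsum
          exact hsum
        have hpV := hpos _ hv
        have hpU := hpos _ hu
        obtain ⟨s, hsz⟩ := zinf_bij.2 (pt (Dm.U v) hu)
        have hb : -1 < (sg s : ℝ) * w (Dm.U v) ∧ (sg s : ℝ) * w (Dm.U v) < 1 := by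
          cases s
          · simp only [sg]
            push_cast
            constructor <;> simp <;> linarith
          · simp only [sg]
            push_cast
            constructor <;> simp <;> linarith
        have hne : (sg s : ℝ) * w (Dm.U v) ≠ 0 := by
          cases s
          · simp [sg]; exact hpU.ne'
          · simp [sg]; exact hpU.ne'
        have habs : |(sg s : ℝ) * w (Dm.U v)| = w (Dm.U v) := by
          cases s
          · simp [sg, abs_of_pos hpU]
          · simp [sg, abs_of_pos hpU]
        have hdec : decide (0 < (sg s : ℝ) * w (Dm.U v)) = s := by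
          cases s
          · simp [sg]; exact hpU.le
          · simp [sg]; exact hpU
        refine ⟨.sig v (.mer (pt (Dm.V v) hv) ⟨(sg s : ℝ) * w (Dm.U v), hb⟩), ?_, ?_, ?_⟩
        · rw [hs]
          simp only [suppMB, hne, if_false]
        · funext U
          by_cases h1 : U = Dm.V v
          · subst h1
            simp only [wtMB, if_true, J.ht]
            rw [habs]
            linarith
          · by_cases h2 : U = Dm.U v
            · subst h2
              simp only [wtMB, if_true, J.ht]
              exact habs
            · rw [hzero U (fun h => (hsub U h).elim h1 h2)]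
              apply wtMB_zero
              simp only [suppMB, hne, if_false, Finset.mem_insert, Finset.mem_singleton]
              exact fun h => h.elim h1 h2
        · intro U h h'
          rcases hsub U h' with rfl | rfl
          · rfl
          · show zinf (decide (0 < (sg s : ℝ) * w (Dm.U v))) = _
            rw [hdec]
            exact hsz
      · have hs : S = {Dm.V v} := by
          apply Finset.eq_singleton_iff_unique_mem.2
          refine ⟨hv, fun U hU => ?_⟩
          rcases hsub U hU with rfl | rfl
          · rfl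
          · exact absurd hU hu
        have hsum2 : w (Dm.V v) = 1 := by
          rw [hs, Finset.sum_singleton] at hsum
          exact hsum
        refine ⟨.sig v (.mer (pt (Dm.V v) hv) ⟨0, by norm_num, by norm_num⟩), ?_, ?_, ?_⟩
        · rw [hs]
          simp only [suppMB, if_true]
        · funext U
          by_cases h1 : U = Dm.V v
          · subst h1
            simp only [wtMB, if_true, J.ht]
            rw [hsum2]
            simp
          · rw [hzero U (by rw [hs]; simpa using h1)]
            apply wtMB_zero
            simp only [suppMB, if_true, Finset.mem_singleton]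
            exact h1
        · intro U h h'
          rcases hsub U h' with rfl | rfl
          · rfl
          · exact absurd h' hu
    · obtain ⟨U0, hU0⟩ := ne
      match U0, hU0 with
      | .top, hU0 => exact absurd hU0 htop
      | .V v, hU0 => exact absurd ⟨v, hU0⟩ hV
      | .U v, hU0 =>
        have hs : S = {Dm.U v} := by
          apply Finset.eq_singleton_iff_unique_mem.2
          refine ⟨hU0, fun U hU => ?_⟩
          by_contra h
          have h2 := horth U hU (Dm.U v) hU0 h
          match U with
          | .top => exact absurd hU htop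
          | .V w => exact hV ⟨w, hU⟩
          | .U w => exact absurd h2 (by simp [Dorth])
        have hsum2 : w (Dm.U v) = 1 := by
          rw [hs, Finset.sum_singleton] at hsum
          exact hsum
        obtain ⟨s, hsz⟩ := zinf_bij.2 (pt (Dm.U v) hU0)
        refine ⟨.sig v (.pole s), ?_, ?_, ?_⟩
        · rw [hs]
          simp only [suppMB]
        · funext U
          by_cases h1 : U = Dm.U v
          · subst h1
            simp only [wtMB, if_true]
            rw [hsum2]
            exact abs_ht_pole s
          · rw [hzero U (by rw [hs]; simpa using h1)]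
            apply wtMB_zero
            simp only [suppMB, Finset.mem_singleton]
            exact h1
        · intro U h h'
          have hU : U = Dm.U v := by
            have h2 := h'
            rw [hs] at h2
            simpa using h2
          subst hU
          exact hsz

theorem ofMB_bijective (lam : Bool) : Function.Bijective (ofMB lam) := by
  constructor
  · intro q q' e
    have es : suppMB q = suppMB q' := congrArg BPt.supp e
    have ew : wtMB q = wtMB q' := congrArg BPt.wt e
    have ep : ∀ (U : Dm) (h : U ∈ suppMB q) (h' : U ∈ suppMB q'), ptMB q U h = ptMB q' U h' :=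
      fun U h h' => pt_congr e U h h'
    match q, q', es, ew, ep with
    | .inf ξ, .inf ξ', es, ew, ep =>
      have h := ep .top (by simp [suppMB]) (by simp [suppMB])
      have h2 : ξ = ξ' := h
      rw [h2]
    | .inf ξ, .sig v j, es, ew, ep =>
      have := congrFun ew .top
      simp [wtMB] at this
    | .sig v j, .inf ξ, es, ew, ep =>
      have := congrFun ew .top
      simp [wtMB] at this
    | .sig v (.pole s), .sig v' (.pole s'), es, ew, ep =>
      have hv : v = v' := by
        have : Dm.U v ∈ suppMB (.sig v' (.pole s')) := by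
          rw [← es]
          simp [suppMB]
        simpa [suppMB] using this
      subst hv
      have h := ep (.U v) (by simp [suppMB]) (by simp [suppMB])
      have h2 : zinf s = zinf s' := h
      rw [zinf_bij.1 h2]
    | .sig v (.pole s), .sig v' (.mer ξ t), es, ew, ep =>
      have : Dm.V v' ∈ suppMB (.sig v (.pole s)) := by
        rw [es]
        exact mem_supp_mer_V
      simp [suppMB] at this
    | .sig v (.mer ξ t), .sig v' (.pole s'), es, ew, ep =>
      have : Dm.V v ∈ suppMB (.sig v' (.pole s')) := by
        rw [← es]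
        exact mem_supp_mer_V
      simp [suppMB] at this
    | .sig v (.mer ξ t), .sig v' (.mer ξ' t'), es, ew, ep =>
      have hv : v = v' := by
        have : Dm.V v ∈ suppMB (.sig v' (.mer ξ' t')) := by
          rw [← es]
          exact mem_supp_mer_V
        by_cases ht' : t'.1 = 0 <;> simpa [suppMB, ht'] using this
      subst hv
      have h := ep (.V v) mem_supp_mer_V mem_supp_mer_V
      have h2 : ξ = ξ' := h
      subst h2
      have hw := congrFun ew (.U v)
      simp only [wtMB, if_true, J.ht] at hw
      have ht : t.1 = t'.1 := by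
        by_cases h0 : t.1 = 0
        · rw [h0, abs_zero] at hw
          rw [h0, abs_eq_zero.1 hw.symm]
        · have h0' : t'.1 ≠ 0 := by
            intro h
            rw [h, abs_zero] at hw
            exact h0 (abs_eq_zero.1 hw)
          have h := ep (.U v) (mem_supp_mer_U h0) (mem_supp_mer_U h0')
          have h2 : zinf (decide (0 < t.1)) = zinf (decide (0 < t'.1)) := h
          have h3 := zinf_bij.1 h2
          rw [decide_eq_decide] at h3
          rcases lt_or_gt_of_ne h0 with h4 | h4
          · have h5 : ¬ 0 < t'.1 := fun h => absurd (h3.2 h) (not_lt.2 h4.le)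
            have h6 : t'.1 < 0 := lt_of_le_of_ne (not_lt.1 h5) h0'
            rw [abs_of_neg h4, abs_of_neg h6] at hw
            linarith
          · have h5 : 0 < t'.1 := h3.1 h4
            rwa [abs_of_pos h4, abs_of_pos h5] at hw
      rw [Subtype.ext ht]
  · intro p
    obtain ⟨q, h1, h2, h3⟩ := surj_aux p.supp p.wt p.pt p.ne p.orth p.wt_pos p.wt_zero p.wt_sum
    exact ⟨q, BPt_ext' h1 h2 h3⟩

end Pool.Agent.Helper77.HB
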