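import Pool.Agent.Helper77.HB.GrGate2
import Pool.Agent.Helper77.HB.GH

/-!
# The colouring lemma
-/

namespace Pool.Agent.Helper77.HB

open Matrix OnePoint

/-- The vertices whose gate at `g v0` lies in `⟨c⟩`. -/
def Vx (g : GA) : Set Wd := {y | y ≠ g • v0 ∧ gt g y ∈ Cy}

lemma cl_c_v0 : cG • v0 = v0 := iP_smul_v0 cP

lemma cl_mul_c (k : GA) : (k * cG) • v0 = k • v0 := by rw [mul_smul, cl_c_v0]

lemma cl_c_pow (n : ℤ) : cG ^ n • v0 = v0 := by rw [cG_zpow, iP_smul_v0]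

lemma cl_mul_c_pow (k : GA) (n : ℤ) : (k * cG ^ n) • v0 = k • v0 := by
  rw [mul_smul, cl_c_pow]

/-- Adjacent vertices belong to the same `Vx`. -/
lemma cl_Vx_adj {g : GA} {y y' : Wd} (h : Gr.Adj y y') (hy : y ∈ Vx g) (hy' : y' ≠ g • v0) :
    y' ∈ Vx g := by
  obtain ⟨h1, h2⟩ := hy
  refine ⟨hy', ?_⟩
  have h3 : Gr.Adj (g⁻¹ • y) (g⁻¹ • y') := (Gr_adj_smul g⁻¹).2 h
  have h4 : g⁻¹ • y ≠ v0 := by rwa [Ne, inv_smul_eq_iff]
  have h5 : g⁻¹ • y' ≠ v0 := by rwa [Ne, inv_smul_eq_iff]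
  have hc : cP ∈ Cy := Subgroup.mem_zpowers cP
  unfold gt at h2 ⊢
  rcases fl_adj h3 h4 h5 with h6 | h6 | h6
  · rw [h6]; exact h2
  · rw [h6]; exact mul_mem h2 hc
  · rw [h6]; exact mul_mem h2 (inv_mem hc)

/-- The element `d`. -/
noncomputable def cl_dG : GA := cG * xG * cG

lemma cl_d_eq : cl_dG = xG * cG⁻¹ * xG := by
  have h2 : (xG * cG * xG)⁻¹ = (cG⁻¹ * xG * cG⁻¹)⁻¹ := by rw [xG_cG_rel]
  rw [_root_.mul_inv_rev, _root_.mul_inv_rev, _root_.mul_inv_rev, _root_.mul_inv_rev, xG_inv,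
    inv_inv, ← mul_assoc, ← mul_assoc] at h2
  exact h2.symm

lemma cl_d_pow (m : ℕ) : cl_dG ^ m = xG * cG ^ (-(m : ℤ)) * xG := by
  induction m with
  | zero => simp [xG_mul_self]
  | succ m ih =>
    rw [pow_succ, ih, cl_d_eq]
    have : xG * cG ^ (-(m : ℤ)) * xG * (xG * cG⁻¹ * xG)
        = xG * cG ^ (-(m : ℤ)) * (xG * xG) * cG⁻¹ * xG := by group
    rw [this, xG_mul_self, mul_one]
    congr 1
    rw [mul_assoc]
    congr 1
    push_cast
    rw [neg_add, _root_.zpow_add, _root_.zpow_neg_one]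

/-- The distance from `v` to the edge of the frame `k`. -/
noncomputable def cl_De (v : Wd) (k : GA) : ℝ :=
  min (Gr.dist v (k • v0) : ℝ) (Gr.dist v ((k * xG) • v0))

lemma cl_switch {v u : Wd} {k : GA} (hv : v ∉ Pos k) (hu : u ∈ Pos k) :
    ∃ m, m ∉ Pos k ∧ (m = k • v0 ∨ m = (k * xG) • v0) ∧
      (Gr.dist v m : ℝ) + Gr.dist m u = Gr.dist v u := by
  obtain ⟨w, hw⟩ := Gr_connected.exists_walk_length_eq_dist v u
  obtain ⟨m, hm, hA, hB⟩ := walk_switch (A := fun z => z ∉ Pos k) (B := fun z => z ∈ Pos k) w hv hu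
    (fun z _ => (Classical.em (z ∈ Pos k)).symm)
  rcases hB with hB | ⟨m', hadj, hm'⟩
  · exact absurd hB hA
  · exact ⟨m, hA, Pos_exit hadj.symm hm' hA, geod_split Gr_connected hw hm⟩

lemma cl_pos_dist {v u : Wd} {k : GA} (hv : v ∉ Pos k) (hu : u ∈ Pos k) :
    cl_De v k + 1 ≤ Gr.dist v u := by
  obtain ⟨m, hm, h1, h2⟩ := cl_switch hv hu
  have h3 : m ≠ u := fun h => hm (h ▸ hu)
  have h4 : (1 : ℝ) ≤ Gr.dist m u := by exact_mod_cast Gr_connected.pos_dist_of_ne h3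
  have h5 : cl_De v k ≤ Gr.dist v m := by
    rcases h1 with rfl | rfl
    · exact min_le_left _ _
    · exact min_le_right _ _
  linarith

lemma cl_edge (k : GA) : Gr.Adj (k • v0) ((k * xG) • v0) := ⟨k, rfl, rfl⟩

lemma cl_edge_dist {k : GA} {m m' : Wd} (h : m = k • v0 ∨ m = (k * xG) • v0)
    (h' : m' = k • v0 ∨ m' = (k * xG) • v0) : (Gr.dist m m' : ℝ) ≤ 1 := by
  have h1 : Gr.dist (k • v0) ((k * xG) • v0) = 1 := SimpleGraph.dist_eq_one_iff_adj.2 (cl_edge k)
  have h2 : Gr.dist ((k * xG) • v0) (k • v0) = 1 := by rw [SimpleGraph.dist_comm]; exact h1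
  rcases h with rfl | rfl <;> rcases h' with rfl | rfl
  · simp
  · rw [h1]; simp
  · rw [h2]; simp
  · simp

lemma cl_pos_gp {v u u' : Wd} {k : GA} (hv : v ∉ Pos k) (hu : u ∈ Pos k) (hu' : u' ∈ Pos k) :
    cl_De v k - 1 ≤ gp Gr v u u' := by
  obtain ⟨m, hm, h1, h2⟩ := cl_switch hv hu
  obtain ⟨m', hm', h1', h2'⟩ := cl_switch hv hu'
  have h5 : cl_De v k ≤ Gr.dist v m := by
    rcases h1 with rfl | rfl
    · exact min_le_left _ _
    · exact min_le_right _ _
  have h5' : cl_De v k ≤ Gr.dist v m' := by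
    rcases h1' with rfl | rfl
    · exact min_le_left _ _
    · exact min_le_right _ _
  have h6 := cl_edge_dist h1 h1'
  have t1 := tri_real Gr_connected u m u'
  have t2 := tri_real Gr_connected m m' u'
  have c1 : (Gr.dist u m : ℝ) = Gr.dist m u := by rw [Gr.dist_comm]
  unfold gp
  linarith

/-- The property of the frames in the nested sequence. -/
def cl_Q (g : GA) (col : Wd → Prop) (k : GA) : Prop :=
  g • v0 ∉ Pos k ∧ k • v0 ∈ Vx g ∧ (k * xG) • v0 ∈ Vx g ∧ ¬ (col (k • v0) ↔ col ((k * xG) • v0))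

lemma cl_step {g : GA} {col : Wd → Prop} {k : GA} (h : cl_Q g col k) :
    cl_Q g col (k * cG) ∨ cl_Q g col (k * cl_dG) := by
  obtain ⟨h1, h2, h3, h4⟩ := h
  have ht := third_mem_Pos k
  have hne : (k * cG * xG) • v0 ≠ g • v0 := fun h => h1 (h ▸ ht)
  have hadj : Gr.Adj (k • v0) ((k * cG * xG) • v0) := by
    have := cl_edge (k * cG)
    rwa [cl_mul_c] at this
  have htV : (k * cG * xG) • v0 ∈ Vx g := cl_Vx_adj hadj h2 hne
  by_cases hc : col (k • v0) ↔ col ((k * cG * xG) • v0)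
  · right
    refine ⟨fun h => h1 (Pos_d k h), ?_, ?_, ?_⟩
    · rw [cl_dG, d_smul]; exact htV
    · rw [cl_dG, dx_smul]; exact h3
    · rw [cl_dG, d_smul, dx_smul, ← hc]; exact h4
  · left
    refine ⟨fun h => h1 (Pos_c k h), ?_, htV, ?_⟩
    · rw [cl_mul_c]; exact h2
    · rw [cl_mul_c]; exact hc

lemma cl_seq {g : GA} {col : Wd → Prop} {k : GA} (h : cl_Q g col k) :
    ∃ K : ℕ → GA, (∀ n, cl_Q g col (K n)) ∧ ∀ n, K (n + 1) = K n * cG ∨ K (n + 1) = K n * cl_dG := by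
  classical
  have hex : ∀ s : {k // cl_Q g col k}, ∃ s' : {k // cl_Q g col k},
      s'.1 = s.1 * cG ∨ s'.1 = s.1 * cl_dG := by
    intro s
    rcases cl_step s.2 with h | h
    · exact ⟨⟨_, h⟩, Or.inl rfl⟩
    · exact ⟨⟨_, h⟩, Or.inr rfl⟩
  choose nx hnx using hex
  refine ⟨fun n => (Nat.rec (⟨k, h⟩ : {k // cl_Q g col k}) (fun _ s => nx s) n :
    {k // cl_Q g col k}).1, fun n => ?_, fun n => ?_⟩
  · exact Subtype.prop _
  · exact hnx _

/-- No nested sequence exists. -/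
lemma cl_noQ {g : GA} {col : Wd → Prop}
    (Hp : ∀ g' : GA, g' • v0 ∈ Vx g → ∀ s : Bool, ∃ M : ℤ, ∀ n : ℤ, M ≤ sg s * n →
      (g' * cG ^ n * xG) • v0 ∈ Vx g → (col ((g' * cG ^ n * xG) • v0) ↔ col (g' • v0)))
    (Hi : ∀ y : ℕ → Wd, ToInf Gr y → (∀ n, y n ∈ Vx g) →
      ∃ N, ∀ n ≥ N, (col (y n) ↔ col (y N))) (k : GA) : ¬ cl_Q g col k := by
  intro hk
  obtain ⟨K, hQ, hst⟩ := cl_seq hk
  by_cases hC : ∃ N, ∀ n ≥ N, K (n + 1) = K n * cG
  · obtain ⟨N, hN⟩ := hC
    have hpow : ∀ m : ℕ, K (N + m) = K N * cG ^ (m : ℤ) := by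
      intro m
      induction m with
      | zero => simp
      | succ m ih =>
        rw [← add_assoc, hN (N + m) (by omega), ih, mul_assoc]
        congr 1
        push_cast
        rw [_root_.zpow_add, zpow_one]
    obtain ⟨M, hM⟩ := Hp (K N) (hQ N).2.1 true
    obtain ⟨-, h2, h3, h4⟩ := hQ (N + M.toNat)
    rw [hpow] at h2 h3 h4
    rw [cl_mul_c_pow] at h4
    have h5 := hM (M.toNat : ℤ) (by simp only [sg, if_true, one_mul]; exact Int.self_le_toNat M) h3
    exact h4 h5.symm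
  by_cases hD : ∃ N, ∀ n ≥ N, K (n + 1) = K n * cl_dG
  · obtain ⟨N, hN⟩ := hD
    have hpow : ∀ m : ℕ, K (N + m) = K N * cl_dG ^ m := by
      intro m
      induction m with
      | zero => simp
      | succ m ih =>
        rw [← add_assoc, hN (N + m) (by omega), ih, mul_assoc, ← pow_succ]
    obtain ⟨M, hM⟩ := Hp (K N * xG) (hQ N).2.2.1 false
    obtain ⟨-, h2, h3, h4⟩ := hQ (N + M.toNat)
    rw [hpow] at h2 h3 h4
    have e1 : K N * cl_dG ^ M.toNat = K N * xG * cG ^ (-(M.toNat : ℤ)) * xG := by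
      rw [cl_d_pow]
      simp only [mul_assoc]
    have e2 : (K N * cl_dG ^ M.toNat * xG) • v0 = (K N * xG) • v0 := by
      rw [e1, mul_assoc, xG_mul_self, mul_one, cl_mul_c_pow]
    rw [e2, e1] at h4
    rw [e1] at h2
    have h5 := hM (-(M.toNat : ℤ)) (by
      simp only [sg, Bool.false_eq_true, if_false]
      have := Int.self_le_toNat M
      linarith) h2
    exact h4 h5
  push Not at hC hD
  set v := g • v0 with hv
  have hPos1 : ∀ n, Pos (K (n + 1)) ⊆ Pos (K n) := by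
    intro n
    rcases hst n with h | h
    · rw [h]; exact Pos_c _
    · rw [h]; exact Pos_d _
  have hPos : ∀ n m, n ≤ m → Pos (K m) ⊆ Pos (K n) := by
    intro n m hnm
    induction m, hnm using Nat.le_induction with
    | base => exact subset_rfl
    | succ m _ ih => exact (hPos1 m).trans ih
  have hA : ∀ n, ∃ N, ∀ m ≥ N, K m • v0 ∈ Pos (K n) := by
    intro n
    obtain ⟨n', hn', hne⟩ := hC n
    have hd := (hst n').resolve_left hne
    refine ⟨n' + 1, fun m hm => ?_⟩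
    induction m, hm using Nat.le_induction with
    | base =>
      rw [hd, cl_dG, d_smul]
      exact hPos n n' hn' (third_mem_Pos _)
    | succ m hm ih =>
      rcases hst m with h | h
      · rw [h, cl_mul_c]; exact ih
      · rw [h, cl_dG, d_smul]
        exact hPos n m (by omega) (third_mem_Pos _)
  have hB : ∀ n, ∃ N, ∀ m ≥ N, (K m * xG) • v0 ∈ Pos (K n) := by
    intro n
    obtain ⟨n', hn', hne⟩ := hD n
    have hc := (hst n').resolve_right hne
    refine ⟨n' + 1, fun m hm => ?_⟩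
    induction m, hm using Nat.le_induction with
    | base =>
      rw [hc]
      exact hPos n n' hn' (third_mem_Pos _)
    | succ m hm ih =>
      rcases hst m with h | h
      · rw [h]
        exact hPos n m (by omega) (third_mem_Pos _)
      · rw [h, cl_dG, dx_smul]; exact ih
  have hAB : ∀ n, ∃ N, ∀ m ≥ N, K m • v0 ∈ Pos (K n) ∧ (K m * xG) • v0 ∈ Pos (K n) := by
    intro n
    obtain ⟨N1, h1⟩ := hA n
    obtain ⟨N2, h2⟩ := hB n
    exact ⟨max N1 N2, fun m hm => ⟨h1 m (le_of_max_le_left hm), h2 m (le_of_max_le_right hm)⟩⟩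
  have hDe : ∀ j : ℕ, ∃ n, (j : ℝ) ≤ cl_De v (K n) := by
    intro j
    induction j with
    | zero => exact ⟨0, by simp [cl_De]⟩
    | succ j ih =>
      obtain ⟨n, hn⟩ := ih
      obtain ⟨N, hN⟩ := hAB n
      obtain ⟨h1, h2⟩ := hN N le_rfl
      refine ⟨N, ?_⟩
      have h3 := cl_pos_dist (hQ n).1 h1
      have h4 := cl_pos_dist (hQ n).1 h2
      push_cast
      exact le_min (by linarith) (by linarith)
  let y : ℕ → Wd := fun n => if n % 2 = 0 then K (n / 2) • v0 else (K (n / 2) * xG) • v0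
  have hyV : ∀ n, y n ∈ Vx g := by
    intro n
    by_cases h : n % 2 = 0
    · simp only [y, if_pos h]; exact (hQ _).2.1
    · simp only [y, if_neg h]; exact (hQ _).2.2.1
  have hyI : ToInf Gr y := by
    intro o R
    obtain ⟨j, hj⟩ := exists_nat_ge (R + Gr.dist v o + 1)
    obtain ⟨n, hn⟩ := hDe j
    obtain ⟨N, hN⟩ := hAB n
    have hyP : ∀ m ≥ 2 * N, y m ∈ Pos (K n) := by
      intro m hm
      obtain ⟨h1, h2⟩ := hN (m / 2) (by omega)
      by_cases h : m % 2 = 0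
      · simp only [y, if_pos h]; exact h1
      · simp only [y, if_neg h]; exact h2
    refine ⟨2 * N, fun a ha b hb => ?_⟩
    have h1 := cl_pos_gp (hQ n).1 (hyP a ha) (hyP b hb)
    have h2 := gp_base Gr_connected v o (y a) (y b)
    linarith
  obtain ⟨N, hN⟩ := Hi y hyI hyV
  have h1 := hN (2 * N) (by omega)
  have h2 := hN (2 * N + 1) (by omega)
  have e1 : y (2 * N) = K N • v0 := by
    simp only [y]
    rw [if_pos (by omega)]
    congr 2
    omega
  have e2 : y (2 * N + 1) = (K N * xG) • v0 := by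
    simp only [y]
    rw [if_neg (by omega)]
    have : (2 * N + 1) / 2 = N := by omega
    rw [this]
  rw [e1] at h1
  rw [e2] at h2
  exact (hQ N).2.2.2 (h1.trans h2.symm)

/-- A colouring of `Vx g` which is continuous at the points at infinity of `Gr` and at the points
`g' c ^ (±∞)` is constant. -/
theorem colour (g : GA) (col : Wd → Prop)
    (Hp : ∀ g' : GA, g' • v0 ∈ Vx g → ∀ s : Bool, ∃ M : ℤ, ∀ n : ℤ, M ≤ sg s * n →
      (g' * cG ^ n * xG) • v0 ∈ Vx g → (col ((g' * cG ^ n * xG) • v0) ↔ col (g' • v0)))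
    (Hi : ∀ y : ℕ → Wd, ToInf Gr y → (∀ n, y n ∈ Vx g) →
      ∃ N, ∀ n ≥ N, (col (y n) ↔ col (y N))) :
    ∀ y ∈ Vx g, ∀ y' ∈ Vx g, (col y ↔ col y') := by
  have hE : ∀ y y', Gr.Adj y y' → y ∈ Vx g → y' ∈ Vx g → (col y ↔ col y') := by
    rintro y y' ⟨k, rfl, rfl⟩ hy hy'
    by_contra hne
    have hd := Pos_x k
    rw [Set.disjoint_left] at hd
    by_cases hp : g • v0 ∈ Pos k
    · refine cl_noQ Hp Hi (k * xG) ⟨hd hp, hy', ?_, ?_⟩
      · rw [mul_assoc, xG_mul_self, mul_one]; exact hy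
      · rw [mul_assoc, xG_mul_self, mul_one]
        exact fun h => hne h.symm
    · exact cl_noQ Hp Hi k ⟨hp, hy, hy', hne⟩
  have hnb : ∀ j : ℤ, (g * cG ^ j * xG) • v0 ∈ Vx g := by
    intro j
    have h1 : g⁻¹ • (g * cG ^ j * xG) • v0 = cons (cP ^ j) zt tnil := by
      rw [← mul_smul, mul_assoc, inv_mul_cancel_left, cG_zpow, iP_xG_v0]
    refine ⟨?_, ?_⟩
    · rw [Ne, ← inv_smul_eq_iff, h1]
      exact cons_ne _ _ _
    · rw [gt, h1, fl_cons]
      exact zpow_mem_Cy j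
  have hadjn : ∀ j : ℤ, Gr.Adj ((g * cG ^ j * xG) • v0) ((g * cG ^ (j + 1) * xG) • v0) := by
    intro j
    have h1 := (Gr_adj_smul (g * cG ^ j)).2 tri
    rw [← mul_smul, ← mul_smul] at h1
    have e : g * cG ^ j * (cG * xG) = g * cG ^ (j + 1) * xG := by
      rw [_root_.zpow_add, zpow_one]
      simp only [mul_assoc]
    rwa [e] at h1
  have hall : ∀ j : ℤ, (col ((g * cG ^ j * xG) • v0) ↔ col ((g * cG ^ (0 : ℤ) * xG) • v0)) := by
    intro j
    induction j using Int.induction_on with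
    | zero => exact Iff.rfl
    | succ i ih => exact ((hE _ _ (hadjn i) (hnb _) (hnb _)).symm).trans ih
    | pred i ih =>
      have h1 := hE _ _ (hadjn (-(i : ℤ) - 1)) (hnb _) (hnb _)
      rw [sub_add_cancel] at h1
      exact h1.trans ih
  have hwalk : ∀ (y : Wd) (w : Gr.Walk y (g • v0)), y ∈ Vx g →
      (col y ↔ col ((g * cG ^ (0 : ℤ) * xG) • v0)) := by
    intro y w
    generalize hz : g • v0 = z at w
    induction w with
    | nil => intro hy; exact absurd hz.symm hy.1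
    | @cons y1 y2 y3 hadj p ih =>
      intro hy
      by_cases h2 : y2 = g • v0
      · subst h2
        have h3 : Gr.Adj v0 (g⁻¹ • y1) := by
          have := (Gr_adj_smul g⁻¹).2 hadj.symm
          rwa [inv_smul_smul] at this
        obtain ⟨p', hp'⟩ := adj_v0.1 h3
        have h4 : p' ∈ Cy := by
          have := hy.2
          rw [gt, hp', fl_cons] at this
          exact this
        obtain ⟨j, rfl⟩ := h4
        have h5 : y1 = (g * cG ^ j * xG) • v0 := by
          rw [inv_smul_eq_iff] at hp'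
          rw [hp', mul_assoc, mul_smul g, cG_zpow, iP_xG_v0]
        rw [h5]
        exact hall j
      · have h3 := cl_Vx_adj hadj hy h2
        exact (hE _ _ hadj hy h3).trans (ih hz h3)
  intro y hy y' hy'
  obtain ⟨w, -⟩ := Gr_connected.exists_walk_length_eq_dist y (g • v0)
  obtain ⟨w', -⟩ := Gr_connected.exists_walk_length_eq_dist y' (g • v0)
  exact (hwalk y w hy).trans (hwalk y' w' hy').symm

end Pool.Agent.Helper77.HB
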