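import Mathlib

/-!
# Hierarchically hyperbolic groups and their boundaries

General definitions, following Behrstock-Hagen-Sisto (hierarchically hyperbolic spaces and groups)
and Durham-Hagen-Sisto (the boundary and its topology).  All geodesic spaces are represented by
connected graphs with their path metric (on the vertices): the space `X` is a Cayley graph, and the
hyperbolic spaces `C U` are graphs.
-/

namespace Pool.Agent.Helper77.HB

/-! ## Graphs as metric spaces, hyperbolicity, Gromov boundary -/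

section Graph

variable {α : Type} (Γ : SimpleGraph α)

/-- A walk is geodesic if its length is the distance of its end points. -/
def IsGeod {a b : α} (w : Γ.Walk a b) : Prop := w.length = Γ.dist a b

/-- `Γ` is `δ`-hyperbolic: it is connected and all its geodesic triangles are `δ`-slim. -/
def Hyp (δ : ℕ) : Prop :=
  Γ.Connected ∧ ∀ (a b c : α) (p : Γ.Walk a b) (q : Γ.Walk b c) (r : Γ.Walk a c),
    IsGeod Γ p → IsGeod Γ q → IsGeod Γ r → ∀ z ∈ p.support,
      (∃ w ∈ q.support, Γ.dist z w ≤ δ) ∨ (∃ w ∈ r.support, Γ.dist z w ≤ δ)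

/-- The Gromov product of `x` and `y` based at `o`. -/
noncomputable def gp (o x y : α) : ℝ := ((Γ.dist o x : ℝ) + Γ.dist o y - Γ.dist x y) / 2

/-- The sequence `y` converges to infinity. -/
def ToInf (y : ℕ → α) : Prop :=
  ∀ (o : α) (R : ℝ), ∃ N, ∀ m ≥ N, ∀ n ≥ N, R ≤ gp Γ o (y m) (y n)

/-- Two sequences are equivalent (converge to the same point at infinity). -/
def Equ (y z : ℕ → α) : Prop :=
  ∀ (o : α) (R : ℝ), ∃ N, ∀ m ≥ N, ∀ n ≥ N, R ≤ gp Γ o (y m) (z n)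

/-- The Gromov boundary: equivalence classes of sequences converging to infinity. -/
def GBd : Type :=
  {c : Set (ℕ → α) // ∃ y, ToInf Γ y ∧ c = {z | ToInf Γ z ∧ Equ Γ y z}}

variable {Γ}

/-- The points `x` of the space with `(x | ξ)_o ≥ R`: the trace on the space of a basic
neighbourhood of the boundary point `ξ` in `Γ ∪ ∂Γ`. -/
def near (o : α) (R : ℝ) (ξ : GBd Γ) : Set α :=
  {x | ∃ y ∈ ξ.1, ∃ N, ∀ n ≥ N, R ≤ gp Γ o x (y n)}

/-- The boundary points `η` with `(η | ξ)_o ≥ R`: the trace on the boundary of a basic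
neighbourhood of the boundary point `ξ` in `Γ ∪ ∂Γ`. -/
def nearBd (o : α) (R : ℝ) (ξ : GBd Γ) : Set (GBd Γ) :=
  {η | ∃ y ∈ ξ.1, ∃ z ∈ η.1, ∃ N, ∀ m ≥ N, ∀ n ≥ N, R ≤ gp Γ o (y m) (z n)}

variable (Γ)

/-- `d(A, B) ≤ k` for subsets of a graph. -/
def Near (A B : Set α) (k : ℕ) : Prop := ∃ a ∈ A, ∃ b ∈ B, Γ.dist a b ≤ k

/-- `diam A ≤ k` for a subset of a graph. -/
def DiamLe (A : Set α) (k : ℕ) : Prop := ∀ a ∈ A, ∀ b ∈ A, Γ.dist a b ≤ k

/-- The distance `d(A, B)` of two subsets of a graph. -/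
noncomputable def sdist (A B : Set α) : ℕ := sInf {n | ∃ a ∈ A, ∃ b ∈ B, Γ.dist a b = n}

end Graph

/-! ## Hierarchically hyperbolic spaces -/

/-- A hierarchically hyperbolic structure on (the vertex set of) the graph `ΓX`. -/
structure HHS {X : Type} (ΓX : SimpleGraph X) where
  /-- the index set of domains -/
  Dom : Type
  /-- the hyperbolic space of a domain -/
  C : Dom → Type
  /-- its graph structure -/
  Γ : (U : Dom) → SimpleGraph (C U)
  /-- nesting `V ⊑ W` -/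
  nest : Dom → Dom → Prop
  /-- orthogonality `V ⊥ W` -/
  orth : Dom → Dom → Prop
  /-- the projections `π_U : X → 2^{C U}` -/
  pr : (U : Dom) → X → Set (C U)
  /-- the sets `ρ^V_W ⊆ C W`, used for `V ⊏ W` and for transverse `V, W` -/
  rho : (V W : Dom) → Set (C W)
  /-- the maps `ρ^W_V : C W → 2^{C V}`, used for `V ⊏ W` -/
  down : (W V : Dom) → C W → Set (C V)
  -- the constants
  δ : ℕ
  ξ : ℕ
  K : ℕ
  κ₀ : ℕ
  comp : ℕ
  lam : ℕ
  E : ℕ
  α : ℕ
  θ : ℕ → ℕ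
  lam_pos : 1 ≤ lam
  E_ge : ξ ≤ E ∧ κ₀ ≤ E
  /-- all `C U` are `δ`-hyperbolic -/
  hyp : ∀ U, Hyp (Γ U) δ
  -- (1) projections: uniformly bounded non-empty sets, coarsely Lipschitz and coarsely onto
  pr_ne : ∀ U x, (pr U x).Nonempty
  pr_diam : ∀ U x, DiamLe (Γ U) (pr U x) ξ
  pr_lip : ∀ U x y, ∀ a ∈ pr U x, ∀ b ∈ pr U y, (Γ U).dist a b ≤ K * ΓX.dist x y + K
  pr_onto : ∀ U (z : C U), ∃ x, ∃ a ∈ pr U x, (Γ U).dist z a ≤ K
  -- (2) nesting
  nest_refl : ∀ U, nest U U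
  nest_trans : ∀ U V W, nest U V → nest V W → nest U W
  nest_antisymm : ∀ U V, nest U V → nest V U → U = V
  exists_top : ∃ S, ∀ U, nest U S
  rho_ne : ∀ V W, V ≠ W → ¬ orth V W → ¬ nest W V → (rho V W).Nonempty
  rho_diam : ∀ V W, V ≠ W → ¬ orth V W → ¬ nest W V → DiamLe (Γ W) (rho V W) ξ
  -- (3) orthogonality
  orth_symm : ∀ V W, orth V W → orth W V
  orth_nest : ∀ U V W, nest V W → orth W U → orth V U
  orth_not_nest : ∀ V W, orth V W → ¬ nest V W
  container : ∀ T U, nest U T → (∃ V, nest V T ∧ orth V U) →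
    ∃ W, nest W T ∧ W ≠ T ∧ ∀ V, nest V T → orth V U → nest V W
  -- (4) transversality and consistency
  cons_trans : ∀ V W, ¬ nest V W → ¬ nest W V → ¬ orth V W → ∀ x,
    Near (Γ W) (pr W x) (rho V W) κ₀ ∨ Near (Γ V) (pr V x) (rho W V) κ₀
  cons_nest : ∀ V W, nest V W → V ≠ W → ∀ x,
    Near (Γ W) (pr W x) (rho V W) κ₀ ∨
      DiamLe (Γ V) (pr V x ∪ ⋃ a ∈ pr W x, down W V a) κ₀
  cons_rho : ∀ U V W, nest U V →
    ((nest V W ∧ V ≠ W) ∨ (¬ nest V W ∧ ¬ nest W V ∧ ¬ orth V W ∧ ¬ orth W U)) →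
      Near (Γ W) (rho U W) (rho V W) κ₀
  -- (5) finite complexity
  complexity : ∀ s : Finset Dom, (∀ U ∈ s, ∀ V ∈ s, nest U V ∨ nest V U) → s.card ≤ comp
  -- (6) large links
  large_links : ∀ W x x', ∃ T : List Dom,
    T.length ≤ lam * sdist (Γ W) (pr W x) (pr W x') + lam ∧
    (∀ V ∈ T, nest V W ∧ V ≠ W ∧
      Near (Γ W) (pr W x) (rho V W) (lam * sdist (Γ W) (pr W x) (pr W x') + lam)) ∧
    ∀ V, nest V W → V ≠ W → (∃ V' ∈ T, nest V V') ∨ sdist (Γ V) (pr V x) (pr V x') < E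
  -- (7) bounded geodesic image
  bgi : ∀ V W, nest V W → V ≠ W → ∀ (a b : C W) (w : (Γ W).Walk a b), IsGeod (Γ W) w →
    DiamLe (Γ V) (⋃ z ∈ w.support, down W V z) E ∨
      ∃ z ∈ w.support, ∃ r ∈ rho V W, (Γ W).dist z r ≤ E
  -- (8) partial realisation
  realisation : ∀ (s : Set Dom), (∀ U ∈ s, ∀ V ∈ s, U ≠ V → orth U V) →
    ∀ p : (V : Dom) → C V, (∀ V ∈ s, ∃ x, p V ∈ pr V x) →
      ∃ x, ∀ V ∈ s, (∃ a ∈ pr V x, (Γ V).dist a (p V) ≤ α) ∧
        (∀ W, nest V W → V ≠ W → Near (Γ W) (pr W x) (rho V W) α) ∧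
        (∀ W, ¬ nest V W → ¬ nest W V → ¬ orth V W → Near (Γ W) (pr W x) (rho V W) α)
  -- (9) uniqueness
  uniqueness : ∀ κ x y, θ κ ≤ ΓX.dist x y → ∃ V, κ ≤ sdist (Γ V) (pr V x) (pr V y)

/-! ## Hierarchically hyperbolic groups -/

/-- The Cayley graph of `G` with respect to `A`. -/
def Cay (G : Type) [Group G] (A : Set G) : SimpleGraph G :=
  SimpleGraph.fromRel (fun g h => ∃ s ∈ A, h = g * s)

/-- `G` is a (word-)hyperbolic group. -/
def IsHypGroup (G : Type) [Group G] : Prop :=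
  ∃ A : Set G, A.Finite ∧ Subgroup.closure A = ⊤ ∧ ∃ δ, Hyp (Cay G A) δ

/-- A hierarchically hyperbolic group structure on `G`: a hierarchically hyperbolic structure on
the Cayley graph of `G` with respect to the (finite, generating) set `A`, with a compatible
action of `G`. -/
structure HHG (G : Type) [Group G] (A : Set G) extends HHS (Cay G A) where
  /-- the action on the domains -/
  act : G → Dom → Dom
  act_one : ∀ U, act 1 U = U
  act_mul : ∀ g h U, act (g * h) U = act g (act h U)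
  act_nest : ∀ g U V, nest (act g U) (act g V) ↔ nest U V
  act_orth : ∀ g U V, orth (act g U) (act g V) ↔ orth U V
  /-- finitely many orbits of domains -/
  cofinite : ∃ s : Finset Dom, ∀ U, ∃ V ∈ s, ∃ g, act g V = U
  /-- the isometries `g : C U → C (g U)` -/
  mv : (g : G) → (U : Dom) → C U → C (act g U)
  mv_one : ∀ U a, (⟨act 1 U, mv 1 U a⟩ : Sigma C) = ⟨U, a⟩
  mv_mul : ∀ g h U a, (⟨act g (act h U), mv g (act h U) (mv h U a)⟩ : Sigma C) =
    ⟨act (g * h) U, mv (g * h) U a⟩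
  mv_surj : ∀ g U, Function.Surjective (mv g U)
  mv_dist : ∀ g U a b, (Γ (act g U)).dist (mv g U a) (mv g U b) = (Γ U).dist a b
  pr_equiv : ∀ g U x, pr (act g U) (g * x) = mv g U '' pr U x
  rho_equiv : ∀ g V W, V ≠ W → ¬ orth V W → ¬ nest W V →
    rho (act g V) (act g W) = mv g W '' rho V W
  down_equiv : ∀ g V W, nest V W → V ≠ W → ∀ a,
    down (act g W) (act g V) (mv g W a) = mv g V '' down W V a

/-! ## The boundary -/

section Boundary

variable {X : Type} {ΓX : SimpleGraph X}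

/-- A boundary point: a formal sum `∑ a_U p_U` over a non-empty finite set of pairwise orthogonal
domains `U`, with `a_U > 0`, `∑ a_U = 1` and `p_U ∈ ∂ (C U)`. -/
@[ext] structure BPt (H : HHS ΓX) where
  supp : Finset H.Dom
  wt : H.Dom → ℝ
  pt : (U : H.Dom) → U ∈ supp → GBd (H.Γ U)
  ne : supp.Nonempty
  orth : ∀ U ∈ supp, ∀ V ∈ supp, U ≠ V → H.orth U V
  wt_pos : ∀ U ∈ supp, 0 < wt U
  wt_zero : ∀ U, U ∉ supp → wt U = 0
  wt_sum : ∑ U ∈ supp, wt U = 1

variable {H : HHS ΓX}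

/-- `T` belongs to the orthogonal complement of the support of `p`. -/
def Perp (p : BPt H) (T : H.Dom) : Prop := ∀ S ∈ p.supp, H.orth T S

/-- `d_S(x₀, B)` -/
noncomputable def bdist (x₀ : X) (S : H.Dom) (B : Set (H.C S)) : ℝ :=
  sdist (H.Γ S) (H.pr S x₀) B

/-- The interior part of a basic neighbourhood of `p` (Durham-Hagen-Sisto, (I1)-(I3)). -/
def intNhd (x₀ : X) (p : BPt H) (o : (U : H.Dom) → H.C U) (R ε : ℝ) : Set X :=
  {x | (∀ S (hS : S ∈ p.supp), ∀ z ∈ H.pr S x, z ∈ near (o S) R (p.pt S hS)) ∧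
    (∀ S ∈ p.supp, ∀ S' ∈ p.supp,
      |bdist x₀ S (H.pr S x) / bdist x₀ S' (H.pr S' x) - p.wt S / p.wt S'| < ε) ∧
    (∀ S ∈ p.supp, ∀ T, Perp p T →
      bdist x₀ T (H.pr T x) / bdist x₀ S (H.pr S x) < ε)}

/-- The set `B` of points of the space belongs to the trace of the neighbourhood filter of `p`. -/
def InNhd (x₀ : X) (p : BPt H) (B : Set X) : Prop :=
  ∃ (o : (U : H.Dom) → H.C U) (R ε : ℝ), 0 < ε ∧ intNhd x₀ p o R ε ⊆ B

/-- `q` is remote with respect to `p`. -/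
def Remote (p q : BPt H) : Prop :=
  (∀ T ∈ q.supp, T ∉ p.supp) ∧ ∀ S ∈ p.supp, ∃ T ∈ q.supp, ¬ H.orth S T

/-- The boundary projection of `q` to the domain `S ∉ supp q`: the union, over the domains
`T ∈ supp q` not orthogonal to `S`, of `ρ^T_S` if `T ⊏ S` or `T, S` are transverse, and of the
values taken by `ρ^T_S` along sequences tending to `q_T` if `S ⊏ T`. -/
def bproj (q : BPt H) (S : H.Dom) : Set (H.C S) :=
  {z | ∃ T, ∃ hT : T ∈ q.supp, ¬ H.orth S T ∧ S ≠ T ∧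
    ((¬ H.nest S T ∧ z ∈ H.rho T S) ∨
     (H.nest S T ∧ ∃ y ∈ (q.pt T hT).1, ∀ N, ∃ n ≥ N, z ∈ H.down T S (y n)))}

open Classical in
/-- The remote part of a basic neighbourhood of `p` (Durham-Hagen-Sisto, (R1)-(R4)). -/
def remNhd (x₀ : X) (p : BPt H) (o : (U : H.Dom) → H.C U) (R ε : ℝ) : Set (BPt H) :=
  {q | Remote p q ∧
    (∀ S (hS : S ∈ p.supp), ∀ z ∈ bproj q S, z ∈ near (o S) R (p.pt S hS)) ∧
    (∑ T ∈ q.supp.filter (fun T => Perp p T), q.wt T) < ε ∧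
    (∀ S ∈ p.supp, ∀ S' ∈ p.supp,
      |bdist x₀ S (bproj q S) / bdist x₀ S' (bproj q S') - p.wt S / p.wt S'| < ε) ∧
    (∀ S ∈ p.supp, ∀ T, Perp p T → T ∉ q.supp → (∃ W ∈ q.supp, ¬ H.orth T W) →
      bdist x₀ T (bproj q T) / bdist x₀ S (bproj q S) < ε)}

open Classical in
/-- The non-remote part of a basic neighbourhood of `p` (Durham-Hagen-Sisto, (N1)-(N3)). -/
def nonNhd (p : BPt H) (o : (U : H.Dom) → H.C U) (R ε : ℝ) : Set (BPt H) :=
  {q | ¬ Remote p q ∧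
    (∀ T (hT : T ∈ p.supp) (hT' : T ∈ q.supp), q.pt T hT' ∈ nearBd (o T) R (p.pt T hT)) ∧
    (∀ T ∈ p.supp, T ∈ q.supp → |q.wt T - p.wt T| < ε) ∧
    (∑ V ∈ q.supp.filter (fun V => V ∉ p.supp), q.wt V) < ε}

end Boundary

end Pool.Agent.Helper77.HB
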