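import Pool.Agent.Helper77.HB.Model

/-!
# The strict extension topology
-/

namespace Pool.Agent.Helper77.HB

section

variable {X Y : Type} {N : Y → Set X → Prop}

/-- The family `N` consists of filters. -/
structure IsTrace (N : Y → Set X → Prop) : Prop where
  univ : ∀ q, N q Set.univ
  mono : ∀ q (B B' : Set X), B ⊆ B' → N q B → N q B'
  inter : ∀ q (B B' : Set X), N q B → N q B' → N q (B ∩ B')
  ne : ∀ q, ¬ N q ∅

lemma strict_isOpen_hat (B : Set X) : @IsOpen Y (strictTop N) {q | N q B} :=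
  TopologicalSpace.isOpen_generateFrom_of_mem ⟨B, rfl⟩

lemma strict_isOpen_iff (h : IsTrace N) (O : Set Y) :
    @IsOpen Y (strictTop N) O ↔ ∀ q ∈ O, ∃ B, N q B ∧ {q' | N q' B} ⊆ O := by
  constructor
  · intro hO
    have hO' : TopologicalSpace.GenerateOpen (Set.range fun B : Set X => {q | N q B}) O := hO
    induction hO' with
    | basic s hs =>
      obtain ⟨B, rfl⟩ := hs
      exact fun q hq => ⟨B, hq, subset_rfl⟩
    | univ => exact fun q _ => ⟨Set.univ, h.univ q, Set.subset_univ _⟩
    | inter s t hs ht ihs iht =>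
      rintro q ⟨hqs, hqt⟩
      obtain ⟨B, hB, hBs⟩ := ihs hs q hqs
      obtain ⟨B', hB', hBt⟩ := iht ht q hqt
      refine ⟨B ∩ B', h.inter q B B' hB hB', fun q' hq' => ⟨hBs ?_, hBt ?_⟩⟩
      · exact h.mono q' _ _ Set.inter_subset_left hq'
      · exact h.mono q' _ _ Set.inter_subset_right hq'
    | sUnion S hS ih =>
      rintro q ⟨s, hs, hq⟩
      obtain ⟨B, hB, hBs⟩ := ih s hs (hS s hs) q hq
      exact ⟨B, hB, hBs.trans (Set.subset_sUnion_of_mem hs)⟩
  · intro hO
    letI : TopologicalSpace Y := strictTop N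
    rw [isOpen_iff_forall_mem_open]
    intro q hq
    obtain ⟨B, hB, hBO⟩ := hO q hq
    exact ⟨_, hBO, strict_isOpen_hat B, hB⟩

lemma strict_mem_closure_iff (h : IsTrace N) (S : Set Y) (q : Y) :
    q ∈ @closure Y (strictTop N) S ↔ ∀ B, N q B → ∃ q' ∈ S, N q' B := by
  letI : TopologicalSpace Y := strictTop N
  rw [mem_closure_iff]
  constructor
  · intro hq B hB
    obtain ⟨q', h1, h2⟩ := hq _ (strict_isOpen_hat B) hB
    exact ⟨q', h2, h1⟩
  · intro hq O hO hqO
    obtain ⟨B, hB, hBO⟩ := (strict_isOpen_iff h O).1 hO q hqO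
    obtain ⟨q', h1, h2⟩ := hq B hB
    exact ⟨q', hBO h2, h1⟩

lemma strict_frontier (h : IsTrace N) (B : Set X) :
    @frontier Y (strictTop N) {q | N q B} ⊆ {q | ¬ N q B ∧ ¬ N q Bᶜ} := by
  letI : TopologicalSpace Y := strictTop N
  intro q hq
  have h1 : IsOpen {q | N q B} := strict_isOpen_hat B
  have h2 : q ∈ closure {q | N q B} \ {q | N q B} := by
    rw [← h1.frontier_eq]; exact hq
  refine ⟨h2.2, fun h3 => ?_⟩
  obtain ⟨q', h4, h5⟩ := (strict_mem_closure_iff h _ q).1 h2.1 Bᶜ h3
  have h6 := h.inter q' B Bᶜ h4 h5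
  rw [Set.inter_compl_self] at h6
  exact h.ne q' h6

/-- Two families which correspond to each other under a bijection give homeomorphic spaces. -/
lemma strict_homeo {Y' : Type} {N' : Y' → Set X → Prop} (e : Y ≃ Y')
    (he : ∀ q B, N q B ↔ N' (e q) B) :
    Nonempty (@Homeomorph Y Y' (strictTop N) (strictTop N')) := by
  letI : TopologicalSpace Y := strictTop N
  letI : TopologicalSpace Y' := strictTop N'
  refine ⟨{ toEquiv := e, continuous_toFun := ?_, continuous_invFun := ?_ }⟩
  · refine continuous_generateFrom_iff.2 ?_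
    rintro _ ⟨B, rfl⟩
    have h1 : e ⁻¹' {q | N' q B} = {q | N q B} := by
      ext q
      exact (he q B).symm
    have h2 : IsOpen (e ⁻¹' {q | N' q B}) := by
      rw [h1]; exact strict_isOpen_hat B
    exact h2
  · refine continuous_generateFrom_iff.2 ?_
    rintro _ ⟨B, rfl⟩
    have h1 : e.symm ⁻¹' {q | N q B} = {q | N' q B} := by
      ext q
      have := he (e.symm q) B
      rw [e.apply_symm_apply] at this
      exact this
    have h2 : IsOpen (e.symm ⁻¹' {q | N q B}) := by
      rw [h1]; exact strict_isOpen_hat B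
    exact h2

end

end Pool.Agent.Helper77.HB
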