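import Pool.Agent.Helper77.HB.Defs
import Pool.Agent.Helper77.HB.Strict

/-!
# The topology of Durham, Hagen and Sisto on the boundary
-/

namespace Pool.Agent.Helper77.HB

section

variable {X : Type} {ΓX : SimpleGraph X}

/-- The topology of Durham, Hagen and Sisto on the boundary: a set `O` is open if for each
`p ∈ O` it contains a basic neighbourhood of `p` (remote part and non-remote part). -/
@[reducible] def dhsTop (H : HHS ΓX) (x₀ : X) : TopologicalSpace (BPt H) :=
  TopologicalSpace.generateFrom {O | ∀ p ∈ O, ∃ (o : (U : H.Dom) → H.C U) (R ε : ℝ), 0 < ε ∧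
    remNhd x₀ p o R ε ∪ nonNhd p o R ε ⊆ O}

/-- `τ` is a regular topology on `X ∪ ∂X` such that the traces on `X` of the neighbourhoods of the
boundary points are those of Durham, Hagen and Sisto. -/
structure IsBord (H : HHS ΓX) (x₀ : X) (τ : TopologicalSpace (X ⊕ BPt H)) : Prop where
  regular : @RegularSpace _ τ
  trace : ∀ (p : BPt H) (B : Set X),
    (∃ O : Set (X ⊕ BPt H), @IsOpen _ τ O ∧ Sum.inr p ∈ O ∧ ∀ x, Sum.inl x ∈ O → x ∈ B) ↔
      InNhd x₀ p B

/-- For such a topology the boundary carries the strict extension topology. -/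
theorem bord_top (H : HHS ΓX) (x₀ : X) (τ : TopologicalSpace (X ⊕ BPt H)) (h : IsBord H x₀ τ)
    (hN : IsTrace (InNhd (H := H) x₀)) :
    TopologicalSpace.induced Sum.inr τ = strictTop (InNhd (H := H) x₀) := by
  letI : TopologicalSpace (X ⊕ BPt H) := τ
  haveI : RegularSpace (X ⊕ BPt H) := h.regular
  apply le_antisymm
  · refine le_generateFrom ?_
    rintro _ ⟨B, rfl⟩
    refine isOpen_induced_iff.2
      ⟨⋃₀ {O : Set (X ⊕ BPt H) | IsOpen O ∧ ∀ x, Sum.inl x ∈ O → x ∈ B}, ?_, ?_⟩
    · exact isOpen_sUnion fun O hO => hO.1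
    · ext q
      constructor
      · rintro ⟨O, ⟨hO, hOB⟩, hq⟩
        exact (h.trace q B).1 ⟨O, hO, hq, hOB⟩
      · intro hq
        obtain ⟨O, hO, hqO, hOB⟩ := (h.trace q B).2 hq
        exact ⟨O, ⟨hO, hOB⟩, hqO⟩
  · intro O₀ hO₀
    obtain ⟨O, hO, rfl⟩ := isOpen_induced_iff.1 hO₀
    refine (strict_isOpen_iff hN _).2 ?_
    intro q hq
    obtain ⟨C, hC, hCc, hCO⟩ := exists_mem_nhds_isClosed_subset (hO.mem_nhds hq)
    refine ⟨{x | Sum.inl x ∈ interior C}, ?_, ?_⟩
    · exact (h.trace q _).1 ⟨interior C, isOpen_interior, mem_interior_iff_mem_nhds.2 hC,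
        fun x hx => hx⟩
    · intro q' hq'
      refine hCO ?_
      have h1 : Sum.inr q' ∈ closure C := by
        rw [mem_closure_iff]
        intro W hW hqW
        have h2 : InNhd x₀ q' {x | Sum.inl x ∈ W} := (h.trace q' _).1 ⟨W, hW, hqW, fun x hx => hx⟩
        by_contra hcon
        have h3 := hN.inter q' _ _ hq' h2
        refine hN.ne q' (hN.mono q' _ _ ?_ h3)
        rintro x ⟨hx1, hx2⟩
        exact hcon ⟨_, hx2, interior_subset hx1⟩
      rwa [hCc.closure_eq] at h1

end

end Pool.Agent.Helper77.HB
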