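import Mathlib

/-!
# The Farey graph: `SL(2, ℤ)` acting on `ℙ¹(ℚ) = OnePoint ℚ`
-/

namespace Pool.Agent.Helper77.HB

open Matrix OnePoint

abbrev H2 := Matrix.SpecialLinearGroup (Fin 2) ℤ
abbrev P1 := OnePoint ℚ

/-- The action of `SL(2, ℤ)` on `ℙ¹(ℚ)`. -/
noncomputable def fa (h : H2) (r : P1) : P1 := Matrix.SpecialLinearGroup.mapGL ℚ h • r

/-- The translation by `n`. -/
def Tn (n : ℤ) : H2 := ModularGroup.T ^ n

lemma fa_one (r : P1) : fa 1 r = r := by simp [fa]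

lemma fa_mul (g h : H2) (r : P1) : fa (g * h) r = fa g (fa h r) := by
  simp [fa, mul_smul]

lemma fa_infty (h : H2) :
    fa h ∞ = if h 1 0 = 0 then (∞ : P1) else (((h 0 0 : ℚ) / (h 1 0 : ℚ) : ℚ) : P1) := by
  simp [fa, OnePoint.smul_infty_eq_ite]

lemma fa_coe (h : H2) (k : ℚ) :
    fa h (k : P1) = if (h 1 0 : ℚ) * k + h 1 1 = 0 then (∞ : P1)
      else ((((h 0 0 : ℚ) * k + h 0 1) / ((h 1 0 : ℚ) * k + h 1 1) : ℚ) : P1) := by
  simp [fa, OnePoint.smul_some_eq_ite]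

lemma Tn_apply (n : ℤ) : (Tn n : Matrix (Fin 2) (Fin 2) ℤ) = !![1, n; 0, 1] := by
  simp [Tn, ModularGroup.coe_T_zpow]

lemma Tn_add (m n : ℤ) : Tn (m + n) = Tn m * Tn n := by simp only [Tn]; exact _root_.zpow_add _ _ _

lemma Tn_zero : Tn 0 = 1 := by simp [Tn]

lemma Tn_one : Tn 1 = ModularGroup.T := by simp [Tn]

lemma Tn_neg (n : ℤ) : Tn (-n) = (Tn n)⁻¹ := by simp [Tn]

lemma fa_Tn_infty (n : ℤ) : fa (Tn n) ∞ = ∞ := by
  simp [fa_infty, Tn_apply]

lemma fa_Tn_coe (n : ℤ) (k : ℚ) : fa (Tn n) (k : P1) = ((k + n : ℚ) : P1) := by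
  simp [fa_coe, Tn_apply]

lemma S_apply : ((ModularGroup.S : H2) : Matrix (Fin 2) (Fin 2) ℤ) = !![0, -1; 1, 0] := rfl

lemma fa_S_infty : fa ModularGroup.S ∞ = ((0 : ℚ) : P1) := by
  simp [fa_infty, S_apply]

lemma fa_S_zero : fa ModularGroup.S ((0 : ℚ) : P1) = ∞ := by
  simp [fa_coe, S_apply]

lemma fa_S_coe (k : ℚ) (hk : k ≠ 0) : fa ModularGroup.S (k : P1) = ((-1 / k : ℚ) : P1) := by
  simp [fa_coe, S_apply, hk]

/-- The action is transitive. -/
lemma exists_fa (r : P1) : ∃ h, fa h ∞ = r :=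
  OnePoint.exists_mem_SL2 ℤ r

/-- The stabiliser of `∞` consists of the elements `± T ^ n`. -/
lemma fa_stab {h : H2} (hh : fa h ∞ = ∞) :
    ∃ n : ℤ, h = Tn n ∨ h = -Tn n := by
  have h10 : h 1 0 = 0 := by
    by_contra hne
    rw [fa_infty, if_neg hne] at hh
    exact OnePoint.coe_ne_infty _ hh
  have hdet : h 0 0 * h 1 1 = 1 := by
    have := h.det_coe
    rw [Matrix.det_fin_two, h10, mul_zero, sub_zero] at this
    exact this
  rcases Int.eq_one_or_neg_one_of_mul_eq_one' hdet with ⟨h00, h11⟩ | ⟨h00, h11⟩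
  · refine ⟨h 0 1, Or.inl ?_⟩
    ext i j
    rw [Tn_apply]
    fin_cases i <;> fin_cases j <;> simp [h10, h00, h11]
  · refine ⟨-h 0 1, Or.inr ?_⟩
    ext i j
    rw [Matrix.SpecialLinearGroup.coe_neg, Matrix.neg_apply, Tn_apply]
    fin_cases i <;> fin_cases j <;> simp [h10, h00, h11]

/-- Adjacency in the Farey graph. -/
def FAdj (r s : P1) : Prop := ∃ h : H2, fa h ∞ = r ∧ fa h ((0 : ℚ) : P1) = s

lemma FAdj.symm {r s : P1} (h : FAdj r s) : FAdj s r := by
  obtain ⟨h, h1, h2⟩ := h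
  exact ⟨h * ModularGroup.S, by rw [fa_mul, fa_S_infty, h2], by rw [fa_mul, fa_S_zero, h1]⟩

lemma FAdj.smul {r s : P1} (g : H2) (h : FAdj r s) : FAdj (fa g r) (fa g s) := by
  obtain ⟨h, h1, h2⟩ := h
  exact ⟨g * h, by rw [fa_mul, h1], by rw [fa_mul, h2]⟩

lemma FAdj_infty (n : ℤ) : FAdj ∞ ((n : ℚ) : P1) :=
  ⟨Tn n, fa_Tn_infty n, by rw [fa_Tn_coe]; simp⟩

lemma FAdj_infty_iff {r : P1} : FAdj ∞ r ↔ ∃ n : ℤ, r = ((n : ℚ) : P1) := by
  constructor
  · rintro ⟨h, h1, h2⟩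
    obtain ⟨n, hn | hn⟩ := fa_stab h1
    · exact ⟨n, by rw [← h2, hn, fa_Tn_coe]; simp⟩
    · refine ⟨n, ?_⟩
      rw [← h2, hn, fa_coe]
      simp [Tn_apply]
  · rintro ⟨n, rfl⟩
    exact FAdj_infty n

lemma not_FAdj_self (r : P1) : ¬ FAdj r r := by
  rintro ⟨h, h1, h2⟩
  have h3 : fa h⁻¹ (fa h ∞) = fa h⁻¹ (fa h ((0 : ℚ) : P1)) := by rw [h1, h2]
  rw [← fa_mul, ← fa_mul, inv_mul_cancel, fa_one, fa_one] at h3
  exact OnePoint.infty_ne_coe _ h3

private lemma det_eq (h : H2) : h 0 0 * h 1 1 - h 0 1 * h 1 0 = 1 := by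
  have h1 := h.2
  rw [Matrix.det_fin_two] at h1
  exact h1

/-- The entries of a matrix realising an edge between two finite vertices. -/
private lemma FAdj_fin {r s : ℚ} (h : FAdj (r : P1) (s : P1)) :
    ∃ a b c d : ℤ, a * d - b * c = 1 ∧ c ≠ 0 ∧ d ≠ 0 ∧ r * c = a ∧ s * d = b := by
  obtain ⟨g, h1, h2⟩ := h
  rw [fa_infty] at h1
  rw [fa_coe] at h2
  refine ⟨g 0 0, g 0 1, g 1 0, g 1 1, det_eq g, ?_⟩
  by_cases hc : g 1 0 = 0
  · rw [if_pos hc] at h1
    exact absurd h1.symm (OnePoint.coe_ne_infty _)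
  rw [if_neg hc] at h1
  simp only [mul_zero, zero_add] at h2
  by_cases hd : (g 1 1 : ℚ) = 0
  · rw [if_pos hd] at h2
    exact absurd h2.symm (OnePoint.coe_ne_infty _)
  rw [if_neg hd] at h2
  have hc' : (g 1 0 : ℚ) ≠ 0 := by exact_mod_cast hc
  have hd' : g 1 1 ≠ 0 := by exact_mod_cast hd
  refine ⟨hc, hd', ?_, ?_⟩
  · have h3 := OnePoint.coe_injective h1
    rw [← h3]
    field_simp
  · have h3 := OnePoint.coe_injective h2
    rw [← h3]
    field_simp

/-- There is no integer strictly between two adjacent finite vertices. -/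
lemma FAdj_no_int {r s : ℚ} (h : FAdj (r : P1) (s : P1)) (n : ℤ) : ¬ (r < n ∧ (n : ℚ) < s) := by
  obtain ⟨a, b, c, d, hdet, hc, hd, hr, hs⟩ := FAdj_fin h
  rintro ⟨h1, h2⟩
  have key : ∀ c d a b : ℤ, a * d - b * c = 1 → 0 < c → r * c = a → s * d = b → d ≠ 0 → False := by
    intro c d a b hdet hc hr hs hd
    have hcq : (0 : ℚ) < c := by exact_mod_cast hc
    have e1 : (a : ℚ) < n * c := by
      rw [← hr]
      exact mul_lt_mul_of_pos_right h1 hcq
    have e1' : a + 1 ≤ n * c := by exact_mod_cast e1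
    rcases lt_or_gt_of_ne hd with hd0 | hd0
    · have hdq : (d : ℚ) < 0 := by exact_mod_cast hd0
      have e2 : (b : ℚ) < n * d := by
        rw [← hs]
        exact mul_lt_mul_of_neg_right h2 hdq
      have e2' : b + 1 ≤ n * d := by exact_mod_cast e2
      nlinarith
    · have hdq : (0 : ℚ) < d := by exact_mod_cast hd0
      have e2 : (n : ℚ) * d < b := by
        rw [← hs]
        exact mul_lt_mul_of_pos_right h2 hdq
      have e2' : n * d + 1 ≤ b := by exact_mod_cast e2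
      nlinarith
  rcases lt_or_gt_of_ne hc with hc0 | hc0
  · exact key (-c) (-d) (-a) (-b) (by linarith) (by linarith) (by push_cast; linarith)
      (by push_cast; linarith) (by simpa using hd)
  · exact key c d a b hdet hc0 hr hs hd

/-- A finite vertex adjacent to an integer. -/
lemma FAdj_int {r : ℚ} {n : ℤ} (h : FAdj ((n : ℚ) : P1) (r : P1)) :
    ∃ k : ℤ, k ≠ 0 ∧ r = n + 1 / k := by
  obtain ⟨a, b, c, d, hdet, hc, hd, hr, hs⟩ := FAdj_fin h
  have ha : a = n * c := by exact_mod_cast hr.symm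
  subst ha
  have h1 : c * (n * d - b) = 1 := by linarith
  have hcu : c = 1 ∨ c = -1 := Int.isUnit_iff.1 (IsUnit.of_mul_eq_one _ h1)
  refine ⟨-(c * d), by simp [hc, hd], ?_⟩
  have hdq : (d : ℚ) ≠ 0 := by exact_mod_cast hd
  have h2 : r = b / d := by
    rw [← hs]
    field_simp
  rw [h2]
  rcases hcu with rfl | rfl
  · have h3 : b = n * d - 1 := by linarith
    rw [h3]
    push_cast
    field_simp
    ring
  · have h3 : b = n * d + 1 := by linarith
    rw [h3]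
    push_cast
    field_simp

/-- Every non-integral vertex in `(0, 1)` has a smaller neighbour in `[0, 1)` with smaller
denominator. -/
lemma FAdj_parent {θ : ℚ} (h0 : 0 < θ) (h1 : θ < 1) :
    ∃ θ' : ℚ, 0 ≤ θ' ∧ θ' < θ ∧ θ'.den < θ.den ∧ FAdj (θ : P1) (θ' : P1) := by
  set p : ℤ := θ.num with hp
  obtain ⟨q, hq⟩ : ∃ q : ℤ, q = (θ.den : ℤ) := ⟨_, rfl⟩
  have hq0 : 0 < q := by rw [hq]; exact_mod_cast θ.den_pos
  have hqQ : (0 : ℚ) < q := by exact_mod_cast hq0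
  have hθ : θ = p / q := by
    rw [hp, hq]
    exact_mod_cast (Rat.num_div_den θ).symm
  have hp0 : 0 < p := Rat.num_pos.2 h0
  have hpq : p < q := by
    have h2 : (p : ℚ) < q := by
      rw [hθ, div_lt_one hqQ] at h1
      exact h1
    exact_mod_cast h2
  have hcop : IsCoprime p q := by
    rw [hp, hq]
    exact Int.isCoprime_iff_gcd_eq_one.2 θ.reduced
  obtain ⟨u, v, huv⟩ := hcop
  set q' := u % q with hq'
  set p' := -v - p * (u / q) with hp'
  have hdiv : u = q * (u / q) + q' := (Int.mul_ediv_add_emod u q).symm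
  have hrel : p * q' - p' * q = 1 := by
    rw [hp']
    have h3 : q' = u - q * (u / q) := by linarith
    rw [h3]
    linear_combination huv
  have hq'0 : 0 ≤ q' := Int.emod_nonneg _ hq0.ne'
  have hq'lt : q' < q := Int.emod_lt_of_pos _ hq0
  have hq'pos : 0 < q' := by
    rcases hq'0.eq_or_lt with h3 | h3
    · exfalso
      rw [← h3] at hrel
      have h4 : q * (-p') = 1 := by linarith
      have h5 : q = 1 ∨ q = -1 := Int.isUnit_iff.1 (IsUnit.of_mul_eq_one _ h4)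
      rcases h5 with h5 | h5 <;> omega
    · exact h3
  have hp'0 : 0 ≤ p' := by
    by_contra hcon
    push Not at hcon
    have h3 : p' * q ≤ -1 * q := mul_le_mul_of_nonneg_right (by omega) hq0.le
    have h4 : 1 ≤ p * q' := by
      have := mul_pos hp0 hq'pos
      omega
    linarith
  have hq'Q : (0 : ℚ) < q' := by exact_mod_cast hq'pos
  refine ⟨(p' : ℚ) / q', ?_, ?_, ?_, ?_⟩
  · have : (0 : ℚ) ≤ p' := by exact_mod_cast hp'0
    positivity
  · rw [hθ, div_lt_div_iff₀ hq'Q hqQ]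
    have h3 : p' * q < p * q' := by linarith
    exact_mod_cast h3
  · have h3 : (((p' : ℚ) / q').den : ℤ) ∣ q' := by
      rw [← Rat.divInt_eq_div]
      exact Rat.den_dvd p' q'
    have h4 : (((p' : ℚ) / q').den : ℤ) ≤ q' := Int.le_of_dvd hq'pos h3
    have h5 : (((p' : ℚ) / q').den : ℤ) < θ.den := lt_of_le_of_lt h4 (by rw [← hq]; exact hq'lt)
    exact_mod_cast h5
  · refine ⟨⟨!![p, p'; q, q'], ?_⟩, ?_, ?_⟩
    · rw [Matrix.det_fin_two_of]
      exact hrel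
    · rw [fa_infty]
      rw [hθ]
      simp [hq0.ne']
    · rw [fa_coe]
      simp [hq'pos.ne']

end Pool.Agent.Helper77.HB
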