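import Pool.Agent.Helper77.HB.Top

/-!
# The two models are not homeomorphic
-/

namespace Pool.Agent.Helper77.HB

open Matrix OnePoint

theorem Psi_false : @Psi MB (mbTop false) := by
  letI : TopologicalSpace MB := mbTop false
  refine ⟨.sig v0 (.mer enda ⟨0, by norm_num⟩), not_reg_sig false v0 _, fun O hO hz => ?_⟩
  obtain ⟨B, hB, hBO⟩ := (strict_isOpen_iff (Tr_isTrace false) O).1 hO _ hz
  obtain ⟨R, hR⟩ : ∃ R : ℕ, ∀ h : GA,
    InJ R (.mer enda ⟨0, by norm_num⟩) (kap false (pg (frame v0) h)) → h ∈ B := hB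
  obtain ⟨k, hk⟩ := Pj_a R
  have hPt : ∀ s, Pt false (iP (aP ^ k)) s = MB.sig v0 (Pj false (aP ^ k) s) := by
    intro s
    unfold Pt
    rw [iP_smul_v0, cp_iP_v0]
  have hPtO : ∀ s, Pt false (iP (aP ^ k)) s ∈ O := by
    intro s
    apply hBO
    rw [hPt]
    obtain ⟨R', hR'⟩ := hk s
    exact ⟨R', fun h hh => hR h (hR' _ hh)⟩
  refine ⟨DD false (iP (aP ^ k)), DD_open _ _, DD_nonempty _ _, ?_, ?_⟩
  · intro y hy hj
    obtain ⟨j', rfl⟩ := (joinedIn_iff false v0 _ y).1 hj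
    exact DD_disj false (iP (aP ^ k)) j' hy
  · intro y hy
    have h1 : ∃ s, y = Pt false (iP (aP ^ k)) s := by
      rcases DD_frontier false (iP (aP ^ k)) hy with h | h
      · exact ⟨true, h⟩
      · exact ⟨false, h⟩
    obtain ⟨s, rfl⟩ := h1
    refine ⟨hPtO s, (joinedIn_iff false v0 _ _).2 ⟨_, hPt s⟩⟩

theorem not_Psi_true : ¬ @Psi MB (mbTop true) := by
  letI : TopologicalSpace MB := mbTop true
  rintro ⟨z, hz, H⟩
  cases z with
  | inf ξ => exact hz (reg_inf true ξ)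
  | sig v j =>
    obtain ⟨B, hB, hfar⟩ := Pj_far j
    obtain ⟨D, hDo, ⟨q, hq⟩, hD1, hD2⟩ := H {q | Tr true q {h | kap true (pg (frame v) h) ∈ B}}
      (strict_isOpen_hat _) (by
        obtain ⟨R, hR⟩ := hB
        exact ⟨R, fun h hh => hR _ hh⟩)
    have hsig : ∀ j', MB.sig v j' ∉ D := fun j' h => hD1 _ h ((joinedIn_iff true v j _).2 ⟨j', rfl⟩)
    have hfv : frame v • v0 = v := frame_smul v
    obtain ⟨p, hp⟩ := DD_cover true (frame v) q (by
      intro j' h
      rw [hfv] at h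
      rw [h] at hq
      exact hsig j' hq)
    obtain ⟨g, hg⟩ : ∃ g, g = frame v * iP p := ⟨_, rfl⟩
    rw [← hg] at hp
    have hgv : g • v0 = v := by rw [hg, mul_smul, iP_smul_v0, hfv]
    have hfr : ∀ y, y ∈ closure D → y ∉ D → y ∈ frontier D := by
      intro y h1 h2
      rw [hDo.frontier_eq]
      exact ⟨h1, h2⟩
    have hsub : DD true g ⊆ D := by
      refine (DD_conn true g).subset_of_closure_inter_subset hDo ⟨q, hp, hq⟩ ?_
      rintro y ⟨hy1, hy2⟩
      by_contra hy3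
      obtain ⟨-, h4⟩ := hD2 y (hfr y hy1 hy3)
      obtain ⟨j', rfl⟩ := (joinedIn_iff true v j y).1 h4
      have h5 := DD_disj true g j'
      rw [hgv] at h5
      exact h5 hy2
    have hPt : ∀ s, TrJ (Pj true (cp g v0) s) B := by
      intro s
      have h1 : Pt true g s ∈ closure D := closure_mono hsub (DD_lim true g s)
      have h2 : Pt true g s = MB.sig v (Pj true (cp g v0) s) := by
        unfold Pt
        rw [hgv]
      rw [h2] at h1
      obtain ⟨h3, -⟩ := hD2 _ (hfr _ h1 (hsig _))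
      obtain ⟨R, hR⟩ : ∃ R : ℕ, ∀ h : GA, InJ R (Pj true (cp g v0) s)
        (kap true (pg (frame v) h)) → h ∈ {h | kap true (pg (frame v) h) ∈ B} := h3
      refine ⟨R, fun u hu => ?_⟩
      have h4 := hR (frame v * iP (kapInv true u)) (by rw [pg_iP, kap_kapInv]; exact hu)
      have h5 : kap true (pg (frame v) (frame v * iP (kapInv true u))) ∈ B := h4
      rw [pg_iP, kap_kapInv] at h5
      exact h5
    exact hfar (cp g v0) ⟨hPt true, hPt false⟩

theorem mb_not_homeo : IsEmpty (@Homeomorph MB MB (mbTop false) (mbTop true)) :=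
  ⟨fun e => not_Psi_true (@Psi_homeo MB MB (mbTop false) (mbTop true) e Psi_false)⟩

end Pool.Agent.Helper77.HB
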