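import Pool.Agent.Helper77.HB.Defs

/-!
# The four point inequality
-/

namespace Pool.Agent.Helper77.HB

variable {α : Type} {Γ : SimpleGraph α}

lemma gp_comm (o x y : α) : gp Γ o x y = gp Γ o y x := by
  unfold gp
  rw [Γ.dist_comm (u := x) (v := y)]
  ring

lemma tri_real (hc : Γ.Connected) (x y z : α) :
    (Γ.dist x z : ℝ) ≤ Γ.dist x y + Γ.dist y z := by
  exact_mod_cast hc.dist_triangle (u := x) (v := y) (w := z)

lemma gp_nonneg (hc : Γ.Connected) (o x y : α) : 0 ≤ gp Γ o x y := by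
  unfold gp
  have h1 := tri_real hc x o y
  rw [Γ.dist_comm (u := x) (v := o)] at h1
  linarith

lemma gp_le_left (hc : Γ.Connected) (o x y : α) : gp Γ o x y ≤ Γ.dist o x := by
  unfold gp
  have h1 := tri_real hc o x y
  linarith

lemma gp_base (hc : Γ.Connected) (o o' x y : α) : gp Γ o x y ≤ gp Γ o' x y + Γ.dist o o' := by
  unfold gp
  have h1 := tri_real hc o o' x
  have h2 := tri_real hc o o' y
  linarith

lemma walk_switch {A B : α → Prop} {a b : α} (w : Γ.Walk a b) (hA : A a) (hB : B b)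
    (h : ∀ v ∈ w.support, A v ∨ B v) :
    ∃ m ∈ w.support, A m ∧ (B m ∨ ∃ m', Γ.Adj m m' ∧ B m') := by
  induction w with
  | nil => exact ⟨_, by simp, hA, Or.inl hB⟩
  | @cons u v w hadj p ih =>
    by_cases hv : A v
    · obtain ⟨m, hm, h1, h2⟩ := ih hv hB (fun z hz => h z (by simp [hz]))
      exact ⟨m, by simp [hm], h1, h2⟩
    · have h3 : B v := (h v (by simp)).resolve_left hv
      exact ⟨u, by simp, hA, Or.inr ⟨v, hadj, h3⟩⟩

lemma geod_split (hc : Γ.Connected) {a b m : α} {w : Γ.Walk a b} (hw : IsGeod Γ w)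
    (hm : m ∈ w.support) : (Γ.dist a m : ℝ) + Γ.dist m b = Γ.dist a b := by
  classical
  have h1 : (w.takeUntil m hm).length + (w.dropUntil m hm).length = w.length := by
    rw [← SimpleGraph.Walk.length_append, SimpleGraph.Walk.take_spec]
  have h2 : Γ.dist a m ≤ (w.takeUntil m hm).length := SimpleGraph.dist_le _
  have h3 : Γ.dist m b ≤ (w.dropUntil m hm).length := SimpleGraph.dist_le _
  have h4 := hc.dist_triangle (u := a) (v := m) (w := b)
  unfold IsGeod at hw
  have h5 : Γ.dist a m + Γ.dist m b = Γ.dist a b := by omega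
  exact_mod_cast h5

/-- In a hyperbolic graph the Gromov product satisfies the ultrametric inequality up to a
constant. -/
theorem four_pt {δ : ℕ} (h : Hyp Γ δ) :
    ∃ C : ℝ, 0 ≤ C ∧ ∀ o x y z, min (gp Γ o x y) (gp Γ o y z) ≤ gp Γ o x z + C := by
  obtain ⟨hc, hs⟩ := h
  refine ⟨2 * δ + 1, by positivity, fun o x y z => ?_⟩
  have hgeo : ∀ a b : α, ∃ w : Γ.Walk a b, IsGeod Γ w := fun a b =>
    hc.exists_walk_length_eq_dist a b
  obtain ⟨p, hp⟩ := hgeo x z
  obtain ⟨q, hq⟩ := hgeo z y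
  obtain ⟨r, hr⟩ := hgeo x y
  obtain ⟨q', hq'⟩ := hgeo z o
  obtain ⟨r', hr'⟩ := hgeo x o
  obtain ⟨m, hm, ⟨s, hs1, hs2⟩, h2⟩ := walk_switch (A := fun v => ∃ w ∈ r.support, Γ.dist v w ≤ δ)
    (B := fun v => ∃ w ∈ q.support, Γ.dist v w ≤ δ) p
    ⟨x, by simp, by simp⟩ ⟨z, by simp, by simp⟩
    (fun v hv => (hs x z y p q r hp hq hr v hv).symm)
  obtain ⟨t, ht1, ht2⟩ : ∃ t ∈ q.support, (Γ.dist m t : ℝ) ≤ δ + 1 := by
    rcases h2 with ⟨t, ht1, ht2⟩ | ⟨m', hadj, t, ht1, ht2⟩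
    · exact ⟨t, ht1, by
        have : (Γ.dist m t : ℝ) ≤ δ := by exact_mod_cast ht2
        linarith⟩
    · refine ⟨t, ht1, ?_⟩
      have h3 := tri_real hc m m' t
      have h4 : Γ.dist m m' = 1 := SimpleGraph.dist_eq_one_iff_adj.2 hadj
      have h5 : (Γ.dist m' t : ℝ) ≤ δ := by exact_mod_cast ht2
      rw [h4] at h3
      push_cast at h3
      linarith
  have hs2' : (Γ.dist m s : ℝ) ≤ δ := by exact_mod_cast hs2
  have e1 := geod_split hc hp hm
  have e2 := geod_split hc hq ht1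
  have e3 := geod_split hc hr hs1
  have c1 : (Γ.dist z t : ℝ) = Γ.dist t z := by rw [Γ.dist_comm]
  have c2 : (Γ.dist t y : ℝ) = Γ.dist y t := by rw [Γ.dist_comm]
  have c3 : (Γ.dist z y : ℝ) = Γ.dist y z := by rw [Γ.dist_comm]
  have c4 : (Γ.dist s y : ℝ) = Γ.dist y s := by rw [Γ.dist_comm]
  have c5 : (Γ.dist m t : ℝ) = Γ.dist t m := by rw [Γ.dist_comm]
  have c6 : (Γ.dist m s : ℝ) = Γ.dist s m := by rw [Γ.dist_comm]
  have c7 : (Γ.dist x o : ℝ) = Γ.dist o x := by rw [Γ.dist_comm]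
  have c8 : (Γ.dist z o : ℝ) = Γ.dist o z := by rw [Γ.dist_comm]
  have c9 : (Γ.dist y o : ℝ) = Γ.dist o y := by rw [Γ.dist_comm]
  rcases hs x z o p q' r' hp hq' hr' m hm with ⟨u, hu1, hu2⟩ | ⟨u, hu1, hu2⟩
  · -- `u` on `[z, o]`
    have hu2' : (Γ.dist m u : ℝ) ≤ δ := by exact_mod_cast hu2
    have e4 := geod_split hc hq' hu1
    refine (min_le_left _ _).trans ?_
    unfold gp
    have t1 := tri_real hc x s m
    have t2 := tri_real hc m u z
    have t3 := tri_real hc y s o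
    have t4 := tri_real hc s m o
    have t5 := tri_real hc m u o
    have c10 : (Γ.dist u z : ℝ) = Γ.dist z u := by rw [Γ.dist_comm]
    linarith
  · -- `u` on `[x, o]`
    have hu2' : (Γ.dist m u : ℝ) ≤ δ := by exact_mod_cast hu2
    have e4 := geod_split hc hr' hu1
    refine (min_le_right _ _).trans ?_
    unfold gp
    have t1 := tri_real hc x u m
    have t2 := tri_real hc m t z
    have t3 := tri_real hc y t o
    have t4 := tri_real hc t m o
    have t5 := tri_real hc m u o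
    have c10 : (Γ.dist u m : ℝ) = Γ.dist m u := by rw [Γ.dist_comm]
    linarith

end Pool.Agent.Helper77.HB
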