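import Pool.Agent.Helper77.HB.GrGate1

/-!
# The Behrstock inequality for gates; the gate map is Lipschitz
-/

namespace Pool.Agent.Helper77.HB

open Matrix OnePoint

private lemma dist_gt_one' {y z : Wd} (hne : y ≠ z) (hna : ¬ Gr.Adj y z) : 1 < Gr.dist y z := by
  have h1 : 0 < Gr.dist y z := Gr_connected.pos_dist_of_ne hne
  have h2 : Gr.dist y z ≠ 1 := fun h => hna (SimpleGraph.dist_eq_one_iff_adj.1 h)
  omega

private lemma gt_adj_near' (g : GA) {y y' : Wd} (h : Gr.Adj y y') (hy' : y' ≠ g • v0)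
    (h1 : Gr.Adj (g • v0) y) (h2 : ¬ Gr.Adj (g • v0) y') :
    gt g y' = gt g y ∨ gt g y' = gt g y * cP⁻¹ := by
  have a1 : Gr.Adj (g⁻¹ • y) (g⁻¹ • y') := (Gr_adj_smul g⁻¹).2 h
  have a2 : g⁻¹ • y' ≠ v0 := by rwa [Ne, inv_smul_eq_iff]
  have a3 : Gr.Adj v0 (g⁻¹ • y) := by
    rw [← Gr_adj_smul g, smul_inv_smul]; exact h1
  have a4 : ¬ Gr.Adj v0 (g⁻¹ • y') := by
    rw [← Gr_adj_smul g, smul_inv_smul]; exact h2
  exact fl_adj_near a1 a2 a3 a4

private lemma gt_seg' (g : GA) {y z : Wd} (hz : 1 < Gr.dist (g • v0) z)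
    (h : Gr.dist y z + Gr.dist z (g • v0) = Gr.dist y (g • v0)) : gt g y = gt g z := by
  obtain ⟨w, hw⟩ := Gr_connected.exists_walk_length_eq_dist y z
  refine gt_walk g w (fun u hu => ?_)
  have h1 := dist_add_of_mem_geod Gr Gr_connected w hw hu
  have h2 := Gr_connected.dist_triangle (u := y) (v := u) (w := g • v0)
  rw [SimpleGraph.dist_comm (u := g • v0)] at hz ⊢
  omega

private lemma gt_seg1' (g : GA) {y z : Wd} (hz : Gr.Adj (g • v0) z)
    (h : Gr.dist y z + 1 = Gr.dist y (g • v0)) :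
    gt g y = gt g z ∨ gt g y = gt g z * cP⁻¹ := by
  obtain ⟨w, hw⟩ := Gr_connected.exists_walk_length_eq_dist z y
  cases w with
  | nil => exact Or.inl rfl
  | @cons _ u _ hu p =>
    rw [SimpleGraph.Walk.length_cons] at hw
    have h1 := SimpleGraph.dist_le p
    have h2 := Gr_connected.dist_triangle (u := y) (v := u) (w := g • v0)
    have h3 : Gr.dist z u = 1 := SimpleGraph.dist_eq_one_iff_adj.2 hu
    have h4 : Gr.dist (g • v0) z = 1 := SimpleGraph.dist_eq_one_iff_adj.2 hz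
    have h5 := Gr_connected.dist_triangle (u := g • v0) (v := z) (w := u)
    have c1 : Gr.dist y u = Gr.dist u y := SimpleGraph.dist_comm
    have c2 : Gr.dist y z = Gr.dist z y := SimpleGraph.dist_comm
    have c3 : Gr.dist u (g • v0) = Gr.dist (g • v0) u := SimpleGraph.dist_comm
    have h6 : 1 < Gr.dist (g • v0) u := by omega
    have h7 : gt g y = gt g u := gt_seg' g h6 (by omega)
    have h8 : u ≠ g • v0 := by
      rintro rfl
      simp at h6
    have h9 : ¬ Gr.Adj (g • v0) u := by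
      intro h10
      have := SimpleGraph.dist_eq_one_iff_adj.2 h10
      omega
    rw [h7]
    exact gt_adj_near' g hu h8 hz h9

private lemma cP_pm {p q r : P} (h1 : p = r ∨ p = r * cP⁻¹) (h2 : q = r ∨ q = r * cP⁻¹) :
    ∃ i : ℤ, |i| ≤ 1 ∧ p = q * cP ^ i := by
  rcases h1 with rfl | rfl <;> rcases h2 with rfl | rfl
  · exact ⟨0, by norm_num, by simp⟩
  · exact ⟨1, by norm_num, by simp⟩
  · exact ⟨-1, by norm_num, by simp⟩
  · exact ⟨0, by norm_num, by simp⟩

lemma behr_far (g g' : GA) (hne : g • v0 ≠ g' • v0) (hna : ¬ Gr.Adj (g • v0) (g' • v0)) {y : Wd}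
    (hy : y ≠ g • v0) (hy' : y ≠ g' • v0) :
    (∃ i : ℤ, |i| ≤ 1 ∧ gt g y = gt g (g' • v0) * cP ^ i) ∨ gt g' y = gt g' (g • v0) := by
  obtain ⟨w, hw⟩ := Gr_connected.exists_walk_length_eq_dist y (g • v0)
  by_cases hfar : ∀ z ∈ w.support, 1 < Gr.dist (g' • v0) z
  · exact Or.inr (gt_walk g' w hfar)
  left
  push Not at hfar
  obtain ⟨z, hz, hz1⟩ := hfar
  have h1 := dist_add_of_mem_geod Gr Gr_connected w hw hz
  have h2 : 1 < Gr.dist (g • v0) (g' • v0) := dist_gt_one' hne hna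
  have h3 := Gr_connected.dist_triangle (u := g • v0) (v := z) (w := g' • v0)
  have c1 : Gr.dist z (g' • v0) = Gr.dist (g' • v0) z := SimpleGraph.dist_comm
  have c2 : Gr.dist z (g • v0) = Gr.dist (g • v0) z := SimpleGraph.dist_comm
  have h4 : 1 ≤ Gr.dist (g • v0) z := by omega
  by_cases h5 : 1 < Gr.dist (g • v0) z
  · have h6 : gt g y = gt g z := gt_seg' g h5 h1
    have h7 : gt g z = gt g (g' • v0) := by
      by_cases h8 : z = g' • v0
      · rw [h8]
      · have h9 : Gr.Adj z (g' • v0) := by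
          have h10 : 0 < Gr.dist z (g' • v0) := Gr_connected.pos_dist_of_ne h8
          exact SimpleGraph.dist_eq_one_iff_adj.1 (by omega)
        exact gt_adj_far g h9 h5 h2
    exact ⟨0, by norm_num, by rw [h6, h7]; simp⟩
  · have h6 : Gr.dist (g • v0) z = 1 := by omega
    have h7 : Gr.Adj (g • v0) z := SimpleGraph.dist_eq_one_iff_adj.1 h6
    have h8 : z ≠ g' • v0 := by
      rintro rfl
      exact hna h7
    have h9 : Gr.Adj z (g' • v0) := by
      have h10 : 0 < Gr.dist z (g' • v0) := Gr_connected.pos_dist_of_ne h8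
      exact SimpleGraph.dist_eq_one_iff_adj.1 (by omega)
    have h10 := gt_adj_near' g h9 hne.symm h7 hna
    have h11 := gt_seg1' g h7 (y := y) (by omega)
    exact cP_pm h11 h10

/-- The exact form for two adjacent vertices `g v0`, `g x v0`. -/
lemma pg_x (g h : GA) (h0 : h • v0 ≠ g • v0) (h1 : pg g h ≠ 1) (h2 : pg g h ≠ cP⁻¹) :
    h • v0 ≠ (g * xG) • v0 ∧ ((∃ j : ℤ, 1 ≤ j ∧ pg g h = cP ^ j) → pg (g * xG) h = cP⁻¹) ∧
      ((¬ ∃ j : ℤ, 1 ≤ j ∧ pg g h = cP ^ j) → pg (g * xG) h = 1) := by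
  rw [pg_of_ne h0, gt] at h1 h2 ⊢
  have h3 : g⁻¹ • h • v0 ≠ v0 := by rwa [Ne, inv_smul_eq_iff]
  obtain ⟨a1, a2, a3⟩ := fl_x h3 h1 h2
  have h4 : xG • g⁻¹ • h • v0 = (g * xG)⁻¹ • h • v0 := by
    rw [_root_.mul_inv_rev, xG_inv, mul_smul]
  have h5 : h • v0 ≠ (g * xG) • v0 := by
    rw [h4, Ne, inv_smul_eq_iff] at a1
    exact a1
  refine ⟨h5, ?_, ?_⟩
  · intro hj
    rw [pg_of_ne h5, gt, ← h4]
    exact a2 hj
  · intro hj
    rw [pg_of_ne h5, gt, ← h4]
    exact a3 hj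

lemma pg_x_self (g h : GA) (h0 : h • v0 = g • v0) : pg (g * xG) h = 1 := by
  obtain ⟨p, rfl⟩ := exists_iP_of_eq h0.symm
  rw [pg, _root_.mul_inv_rev, xG_inv, mul_assoc, inv_mul_cancel_left, fg_mul_iP xG_v0_ne,
    fg_of_ne xG_v0_ne, xG_v0, fl_cons]

/-- The Behrstock inequality. -/
theorem pg_behr (g g' h : GA) (hne : g • v0 ≠ g' • v0) :
    (∃ i : ℤ, |i| ≤ 1 ∧ pg g h = gt g (g' • v0) * cP ^ i) ∨
      (∃ i : ℤ, |i| ≤ 1 ∧ pg g' h = gt g' (g • v0) * cP ^ i) := by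
  by_cases e1 : h • v0 = g • v0
  · right
    refine ⟨0, by norm_num, ?_⟩
    rw [pg_of_ne (by rw [e1]; exact hne), e1, zpow_zero, mul_one]
  by_cases e2 : h • v0 = g' • v0
  · left
    refine ⟨0, by norm_num, ?_⟩
    rw [pg_of_ne (by rw [e2]; exact hne.symm), e2, zpow_zero, mul_one]
  by_cases ha : Gr.Adj (g • v0) (g' • v0)
  · have h1 : Gr.Adj v0 (g⁻¹ • g' • v0) := by
      rw [← Gr_adj_smul g, smul_inv_smul]; exact ha
    obtain ⟨p, hp⟩ := adj_v0.1 h1
    have hgt : gt g (g' • v0) = p := by rw [gt, hp, fl_cons]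
    rw [← iP_xG_v0, inv_smul_eq_iff, ← mul_smul, ← mul_assoc] at hp
    obtain ⟨q, hq⟩ := exists_iP_of_eq hp.symm
    have h2 : pg g h = p * pg (g * iP p) h := by
      rw [pg_frame_mul, mul_inv_cancel_left]
    have h3 : h • v0 ≠ (g * iP p) • v0 := by rwa [mul_smul, iP_smul_v0]
    by_cases b1 : pg (g * iP p) h = 1
    · left
      refine ⟨0, by norm_num, ?_⟩
      rw [h2, b1, hgt, zpow_zero]
    by_cases b2 : pg (g * iP p) h = cP⁻¹
    · left
      refine ⟨-1, by norm_num, ?_⟩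
      rw [h2, b2, hgt, _root_.zpow_neg_one]
    right
    obtain ⟨-, a2, a3⟩ := pg_x (g * iP p) h h3 b1 b2
    have h4 : pg g' h = q⁻¹ * pg (g * iP p * xG) h := by rw [hq, pg_frame_mul]
    have h5 : gt g' (g • v0) = q⁻¹ := by
      rw [hq, gt_frame_mul]
      · have h6 : (g * iP p * xG)⁻¹ • g • v0 = xG • v0 := by
          rw [_root_.mul_inv_rev, _root_.mul_inv_rev, xG_inv, ← map_inv, mul_smul, mul_smul,
            inv_smul_smul, iP_smul_v0]
        rw [gt, h6, xG_v0, fl_cons, mul_one]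
      · rw [← hp]; exact hne
    by_cases hj : ∃ j : ℤ, 1 ≤ j ∧ pg (g * iP p) h = cP ^ j
    · refine ⟨-1, by norm_num, ?_⟩
      rw [h4, h5, a2 hj, _root_.zpow_neg_one]
    · refine ⟨0, by norm_num, ?_⟩
      rw [h4, h5, a3 hj, zpow_zero]
  · rcases behr_far g g' hne ha e1 e2 with h1 | h1
    · left
      rw [pg_of_ne e1]
      exact h1
    · right
      refine ⟨0, by norm_num, ?_⟩
      rw [pg_of_ne e2, h1, zpow_zero, mul_one]

private lemma fg_gen_P (h : GA) (p : P) : fg (h * iP p) = fg h ∨ fg (h * iP p) = fg h * p := by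
  by_cases hh : h • v0 = v0
  · right
    rw [stab_v0 hh, ← map_mul, fg_iP, fg_iP]
  · left
    exact fg_mul_iP hh p

/-- The gate map is Lipschitz. -/
theorem fg_gen (h s : GA) (hs : s ∈ genA) : fg (h * s) = fg h ∨
    ∃ q : P, (q = aP ∨ q = bP ∨ q = cP) ∧ (fg (h * s) = fg h * q ∨ fg (h * s) = fg h * q⁻¹) := by
  rcases hs with rfl | rfl | rfl | hs
  · rcases fg_gen_P h aP with h1 | h1
    · exact Or.inl h1
    · exact Or.inr ⟨aP, Or.inl rfl, Or.inl h1⟩
  · rcases fg_gen_P h bP with h1 | h1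
    · exact Or.inl h1
    · exact Or.inr ⟨bP, Or.inr (Or.inl rfl), Or.inl h1⟩
  · rcases fg_gen_P h cP with h1 | h1
    · exact Or.inl h1
    · exact Or.inr ⟨cP, Or.inr (Or.inr rfl), Or.inl h1⟩
  · rw [Set.mem_singleton_iff] at hs
    subst hs
    have key : ∀ r : P, fg (iP r * xG) = r := by
      intro r
      rw [fg_iP_mul, fg_of_ne xG_v0_ne, xG_v0, fl_cons, mul_one]
    by_cases h1 : h • v0 = v0
    · left
      rw [stab_v0 h1, key, fg_iP]
    by_cases h2 : (h * xG) • v0 = v0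
    · left
      have h3 := stab_v0 h2
      have h4 : h = iP (cp (h * xG) v0) * xG := by
        rw [← h3, mul_assoc, xG_mul_self, mul_one]
      have h5 : fg h = cp (h * xG) v0 := by
        conv_lhs => rw [h4]
        exact key _
      rw [h5]
      conv_lhs => rw [h3]
      rw [fg_iP]
    · rw [fg_of_ne h1, fg_of_ne h2]
      rcases fl_adj (Gr_adj.2 ⟨h, rfl, rfl⟩) h1 h2 with h3 | h3 | h3
      · exact Or.inl h3
      · exact Or.inr ⟨cP, Or.inr (Or.inr rfl), Or.inl h3⟩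
      · exact Or.inr ⟨cP, Or.inr (Or.inr rfl), Or.inr h3⟩

end Pool.Agent.Helper77.HB
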