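import Pool.Agent.Helper77.HB.NoZ2
import Pool.Agent.Helper77.HB.GrGate2
import Pool.Agent.Helper77.HB.FourPt

/-!
# `GA` is not hyperbolic
-/

namespace Pool.Agent.Helper77.HB

open Matrix OnePoint

private lemma nh_reach {G : Type} [Group G] {A : Set G} {g : G} (hg : g ∈ Subgroup.closure A) :
    ∀ x : G, (Cay G A).Reachable x (x * g) := by
  induction hg using Subgroup.closure_induction with
  | mem s hs =>
    intro x
    by_cases h : x = x * s
    · rw [← h]
    · exact SimpleGraph.Adj.reachable ⟨h, Or.inl ⟨s, hs, rfl⟩⟩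
  | one => intro x; rw [mul_one]
  | mul g h _ _ ihg ihh =>
    intro x
    rw [← mul_assoc]
    exact (ihg x).trans (ihh (x * g))
  | inv g _ ihg =>
    intro x
    have := ihg (x * g⁻¹)
    rw [inv_mul_cancel_right] at this
    exact this.symm

theorem Cay_connected {G : Type} [Group G] (A : Set G) (hA : Subgroup.closure A = ⊤) :
    (Cay G A).Connected := by
  have h : ∀ x y : G, (Cay G A).Reachable x y := by
    intro x y
    have := nh_reach (A := A) (g := x⁻¹ * y) (hA ▸ Subgroup.mem_top _) x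
    rwa [mul_inv_cancel_left] at this
  have : Nonempty G := ⟨1⟩
  exact ⟨h⟩

private lemma nh_adj {G : Type} [Group G] {A : Set G} (g : G) {h k : G}
    (hk : (Cay G A).Adj h k) : (Cay G A).Adj (g * h) (g * k) := by
  obtain ⟨hne, hs⟩ := hk
  refine ⟨fun h1 => hne (mul_left_cancel h1), ?_⟩
  rcases hs with ⟨s, hs, rfl⟩ | ⟨s, hs, rfl⟩
  · exact Or.inl ⟨s, hs, by rw [mul_assoc]⟩
  · exact Or.inr ⟨s, hs, by rw [mul_assoc]⟩

private def nhHom {G : Type} [Group G] (A : Set G) (g : G) : Cay G A →g Cay G A where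
  toFun h := g * h
  map_rel' := fun h => nh_adj g h

private lemma nh_dist_le {G : Type} [Group G] (A : Set G) (g h k : G)
    (hr : (Cay G A).Reachable h k) : (Cay G A).dist (g * h) (g * k) ≤ (Cay G A).dist h k := by
  obtain ⟨w, hw⟩ := hr.exists_walk_length_eq_dist
  rw [← hw]
  have h1 := SimpleGraph.dist_le (w.map (nhHom A g))
  rw [SimpleGraph.Walk.length_map] at h1
  exact h1

theorem Cay_dist_left {G : Type} [Group G] (A : Set G) (g h k : G) :
    (Cay G A).dist (g * h) (g * k) = (Cay G A).dist h k := by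
  by_cases hr : (Cay G A).Reachable h k
  · apply le_antisymm (nh_dist_le A g h k hr)
    have hr' : (Cay G A).Reachable (g * h) (g * k) := hr.map (nhHom A g)
    have h1 := nh_dist_le A g⁻¹ (g * h) (g * k) hr'
    rwa [inv_mul_cancel_left, inv_mul_cancel_left] at h1
  · have hr' : ¬ (Cay G A).Reachable (g * h) (g * k) := by
      intro h1
      have h2 : (Cay G A).Reachable (g⁻¹ * (g * h)) (g⁻¹ * (g * k)) := h1.map (nhHom A g⁻¹)
      rw [inv_mul_cancel_left, inv_mul_cancel_left] at h2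
      exact hr h2
    rw [SimpleGraph.dist_eq_zero_of_not_reachable hr,
      SimpleGraph.dist_eq_zero_of_not_reachable hr']

/-- the size of the exponents -/
private def nhSize (p : P) : ℤ := |ex p| + |Multiplicative.toAdd p.2|

private lemma ex_inv' (p : P) : ex p⁻¹ = - ex p := by
  have := ex_mul p⁻¹ p
  rw [inv_mul_cancel, ex_one] at this
  linarith

private lemma nhSize_mul (p q : P) : nhSize (p * q) ≤ nhSize p + nhSize q := by
  unfold nhSize
  rw [ex_mul, Prod.snd_mul, toAdd_mul]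
  have h1 := abs_add_le (ex p) (ex q)
  have h2 := abs_add_le (Multiplicative.toAdd p.2) (Multiplicative.toAdd q.2)
  linarith

private lemma nhSize_inv (p : P) : nhSize p⁻¹ = nhSize p := by
  unfold nhSize
  rw [ex_inv', Prod.snd_inv, toAdd_inv, abs_neg, abs_neg]

private lemma nhSize_one : nhSize 1 = 0 := by
  unfold nhSize
  rw [ex_one]
  simp

private lemma nhSize_gen {q : P} (hq : q = aP ∨ q = bP ∨ q = cP) : nhSize q ≤ 1 := by
  rcases hq with rfl | rfl | rfl
  · simp [nhSize, ex, aP, phi]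
  · simp [nhSize, ex, bP]
  · simp [nhSize, ex, cP, phi]

private lemma nh_bound (s : GA) : ∃ K : ℕ, ∀ h : GA, nhSize ((fg h)⁻¹ * fg (h * s)) ≤ K := by
  have hs : s ∈ Subgroup.closure genA := closure_genA ▸ Subgroup.mem_top s
  induction hs using Subgroup.closure_induction with
  | mem s hs =>
    refine ⟨1, fun h => ?_⟩
    rcases fg_gen h s hs with h1 | ⟨q, hq, h1 | h1⟩
    · rw [h1, inv_mul_cancel, nhSize_one]; norm_num
    · rw [h1, inv_mul_cancel_left]
      exact_mod_cast nhSize_gen hq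
    · rw [h1, inv_mul_cancel_left, nhSize_inv]
      exact_mod_cast nhSize_gen hq
  | one =>
    refine ⟨0, fun h => ?_⟩
    rw [mul_one, inv_mul_cancel, nhSize_one]
    norm_num
  | mul s t _ _ ihs iht =>
    obtain ⟨K1, h1⟩ := ihs
    obtain ⟨K2, h2⟩ := iht
    refine ⟨K1 + K2, fun h => ?_⟩
    have h3 : (fg h)⁻¹ * fg (h * (s * t)) =
        ((fg h)⁻¹ * fg (h * s)) * ((fg (h * s))⁻¹ * fg (h * s * t)) := by
      rw [← mul_assoc h s t]
      group
    rw [h3]
    have h4 := nhSize_mul ((fg h)⁻¹ * fg (h * s)) ((fg (h * s))⁻¹ * fg (h * s * t))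
    have h5 := h1 h
    have h6 := h2 (h * s)
    push_cast
    linarith
  | inv s _ ihs =>
    obtain ⟨K1, h1⟩ := ihs
    refine ⟨K1, fun h => ?_⟩
    have h2 := h1 (h * s⁻¹)
    rw [inv_mul_cancel_right] at h2
    have h3 : (fg h)⁻¹ * fg (h * s⁻¹) = ((fg (h * s⁻¹))⁻¹ * fg h)⁻¹ := by group
    rw [h3, nhSize_inv]
    exact h2

private lemma nh_bound_fin (A : Set GA) (hA : A.Finite) :
    ∃ K : ℕ, ∀ s ∈ A, ∀ h : GA, nhSize ((fg h)⁻¹ * fg (h * s)) ≤ K := by
  choose K hK using nh_bound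
  obtain ⟨B, hB⟩ := (hA.image K).bddAbove
  refine ⟨B, fun s hs h => (hK s h).trans ?_⟩
  exact_mod_cast hB ⟨s, hs, rfl⟩

/-- The subgroup `⟨b, c⟩` is undistorted. -/
theorem bc_undistorted (A : Set GA) (hA : A.Finite) (hg : Subgroup.closure A = ⊤) :
    ∃ K : ℕ, ∀ m n : ℤ, |m| + |n| ≤ K * (Cay GA A).dist 1 (bG ^ m * cG ^ n) := by
  obtain ⟨K, hK⟩ := nh_bound_fin A hA
  refine ⟨K, fun m n => ?_⟩
  have key : ∀ (x y : GA) (w : (Cay GA A).Walk x y),
      nhSize ((fg x)⁻¹ * fg y) ≤ K * (w.length : ℤ) := by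
    intro x y w
    induction w with
    | nil => rw [inv_mul_cancel, nhSize_one]; simp
    | @cons u v z hadj p ih =>
      rw [SimpleGraph.Walk.length_cons]
      have h1 : nhSize ((fg u)⁻¹ * fg v) ≤ K := by
        obtain ⟨-, ⟨s, hs, rfl⟩ | ⟨s, hs, rfl⟩⟩ := hadj
        · exact hK s hs u
        · have h2 := hK s hs v
          rw [← nhSize_inv, _root_.mul_inv_rev, inv_inv] at h2
          exact h2
      have h3 : (fg u)⁻¹ * fg z = ((fg u)⁻¹ * fg v) * ((fg v)⁻¹ * fg z) := by group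
      rw [h3]
      have h4 := nhSize_mul ((fg u)⁻¹ * fg v) ((fg v)⁻¹ * fg z)
      push_cast
      linarith
  obtain ⟨w, hw⟩ := (Cay_connected A hg).exists_walk_length_eq_dist 1 (bG ^ m * cG ^ n)
  have h1 := key _ _ w
  rw [hw] at h1
  have h2 : fg (1 : GA) = 1 := by
    have := fg_iP 1
    rwa [map_one] at this
  have h3 : bG ^ m * cG ^ n = iP (bP ^ m * cP ^ n) := by
    rw [bG, cG, map_mul, map_zpow, map_zpow]
  rw [h2, inv_one, one_mul] at h1
  have h4 : nhSize (fg (bG ^ m * cG ^ n)) = |n| + |m| := by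
    rw [h3, fg_iP]
    unfold nhSize
    have e1 : ex (bP ^ m * cP ^ n) = n := by
      rw [ex_mul, ex_zpow]
      simp [ex, bP]
    have e2 : Multiplicative.toAdd (bP ^ m * cP ^ n).2 = m := by
      simp [bP, cP]
    rw [e1, e2]
  rw [h4] at h1
  linarith

private noncomputable def nhE (p : ℤ × ℤ) : GA := bG ^ p.1 * cG ^ p.2

private lemma bc_comm : Commute bG cG := by
  have h : Commute bP cP := by
    unfold Commute SemiconjBy
    ext <;> simp [bP, cP]
  exact h.map iP

private lemma nhE_add (p q : ℤ × ℤ) : nhE (p + q) = nhE p * nhE q := by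
  have h : bG ^ q.1 * cG ^ p.2 = cG ^ p.2 * bG ^ q.1 := (bc_comm.zpow_zpow q.1 p.2).eq
  unfold nhE
  rw [Prod.fst_add, Prod.snd_add, _root_.zpow_add, _root_.zpow_add]
  calc bG ^ p.1 * bG ^ q.1 * (cG ^ p.2 * cG ^ q.2)
      = bG ^ p.1 * (bG ^ q.1 * cG ^ p.2) * cG ^ q.2 := by group
    _ = bG ^ p.1 * (cG ^ p.2 * bG ^ q.1) * cG ^ q.2 := by rw [h]
    _ = bG ^ p.1 * cG ^ p.2 * (bG ^ q.1 * cG ^ q.2) := by group

private lemma nhE_zero : nhE 0 = 1 := by
  unfold nhE
  simp

private lemma nhE_neg (p : ℤ × ℤ) : nhE (-p) = (nhE p)⁻¹ := by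
  rw [eq_inv_iff_mul_eq_one, ← nhE_add, neg_add_cancel, nhE_zero]

theorem GA_not_hyp : ¬ IsHypGroup GA := by
  rintro ⟨A, hA, hg, δ, hyp⟩
  obtain ⟨K, hK⟩ := bc_undistorted A hA hg
  obtain ⟨C, hC0, hC⟩ := four_pt hyp
  have hc : (Cay GA A).Connected := hyp.1
  obtain ⟨L, hL⟩ : ∃ L : ℤ × ℤ → ℕ, L = fun p => (Cay GA A).dist 1 (nhE p) := ⟨_, rfl⟩
  have hd : ∀ p q : ℤ × ℤ, (Cay GA A).dist (nhE p) (nhE (p + q)) = L q := by
    intro p q
    rw [hL, nhE_add]
    have := Cay_dist_left A (nhE p) 1 (nhE q)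
    rwa [mul_one] at this
  have hneg : ∀ p, L (-p) = L p := by
    intro p
    have h1 := hd p (-p)
    rw [add_neg_cancel, nhE_zero] at h1
    rw [← h1, hL, SimpleGraph.dist_comm]
  refine no_Z2 L ⌈2 * C⌉₊ K ?_ hneg ?_ ?_
  · intro p q
    have h1 := hc.dist_triangle (u := 1) (v := nhE p) (w := nhE (p + q))
    rw [hd p q] at h1
    have h2 : (Cay GA A).dist 1 (nhE p) = L p := by rw [hL]
    have h3 : (Cay GA A).dist 1 (nhE (p + q)) = L (p + q) := by rw [hL]
    rw [h2, h3] at h1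
    exact h1
  · intro p q
    have h1 := hC 1 (nhE p) (nhE (p + q)) (nhE q)
    have d1 : (Cay GA A).dist 1 (nhE p) = L p := by rw [hL]
    have d2 : (Cay GA A).dist 1 (nhE q) = L q := by rw [hL]
    have d3 : (Cay GA A).dist 1 (nhE (p + q)) = L (p + q) := by rw [hL]
    have d4 : (Cay GA A).dist (nhE p) (nhE (p + q)) = L q := hd p q
    have d5 : (Cay GA A).dist (nhE (p + q)) (nhE q) = L p := by
      rw [SimpleGraph.dist_comm, add_comm p q]
      exact hd q p
    have d6 : (Cay GA A).dist (nhE p) (nhE q) = L (p - q) := by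
      have h2 := hd p (q - p)
      rw [add_sub_cancel] at h2
      rw [h2, ← hneg (p - q), neg_sub]
    unfold gp at h1
    rw [d1, d2, d3, d4, d5, d6] at h1
    have h5 : 2 * C ≤ (⌈2 * C⌉₊ : ℝ) := Nat.le_ceil _
    have h6 : ((L (p + q) : ℝ)) + L (p - q) ≤ 2 * max (L p : ℝ) (L q) + ⌈2 * C⌉₊ := by
      rcases min_le_iff.1 h1 with h2 | h2
      · have h3 := le_max_right (L p : ℝ) (L q)
        have h4 := le_max_left (L p : ℝ) (L q)
        linarith
      · have h3 := le_max_right (L p : ℝ) (L q)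
        have h4 := le_max_left (L p : ℝ) (L q)
        linarith
    exact_mod_cast h6
  · intro p
    have h1 := hK p.1 p.2
    rw [hL]
    exact h1

end Pool.Agent.Helper77.HB
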