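import Pool.Agent.Helper77.HB.Lit5
import Pool.Agent.Helper77.HB.Final1
import Pool.Agent.Helper77.HB.NonHyp

/-!
# The main theorem
-/

namespace Pool.Agent.Helper77.HB

open Matrix OnePoint

theorem InNhd_isTrace (lam : Bool) : IsTrace (InNhd (H := (HH lam).toHHS) 1) := by
  have hT := Tr_isTrace lam
  have hs := (ofMB_bijective lam).surjective
  refine ⟨fun p => ?_, fun p B B' hBB h => ?_, fun p B B' h h' => ?_, fun p h => ?_⟩
  · obtain ⟨q, rfl⟩ := hs p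
    exact (ofMB_tr lam q _).2 (hT.univ q)
  · obtain ⟨q, rfl⟩ := hs p
    exact (ofMB_tr lam q _).2 (hT.mono q _ _ hBB ((ofMB_tr lam q _).1 h))
  · obtain ⟨q, rfl⟩ := hs p
    exact (ofMB_tr lam q _).2 (hT.inter q _ _ ((ofMB_tr lam q _).1 h) ((ofMB_tr lam q _).1 h'))
  · obtain ⟨q, rfl⟩ := hs p
    exact hT.ne q ((ofMB_tr lam q _).1 h)

theorem main : ∃ (G : Type) (_ : Group G) (A : Set G), A.Finite ∧ Subgroup.closure A = ⊤ ∧
    ¬ IsHypGroup G ∧ ∃ H₀ H₁ : HHG G A,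
      IsEmpty (@Homeomorph (BPt H₀.toHHS) (BPt H₁.toHHS) (dhsTop H₀.toHHS 1)
        (dhsTop H₁.toHHS 1)) ∧
      ∀ (τ₀ : TopologicalSpace (G ⊕ BPt H₀.toHHS)) (τ₁ : TopologicalSpace (G ⊕ BPt H₁.toHHS)),
        IsBord H₀.toHHS 1 τ₀ → IsBord H₁.toHHS 1 τ₁ →
          IsEmpty (@Homeomorph (BPt H₀.toHHS) (BPt H₁.toHHS)
            (TopologicalSpace.induced Sum.inr τ₀) (TopologicalSpace.induced Sum.inr τ₁)) := by
  refine ⟨GA, inferInstance, genA, genA_finite, closure_genA, GA_not_hyp, HH false, HH true,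
    ⟨fun e => ?_⟩, fun τ₀ τ₁ h0 h1 => ⟨fun e => ?_⟩⟩
  · obtain ⟨e0⟩ := dhs_homeo false
    obtain ⟨e1⟩ := dhs_homeo true
    exact mb_not_homeo.false
      (@Homeomorph.trans _ _ _ (_) (_) (_) (@Homeomorph.trans _ _ _ (_) (_) (_) e0 e)
        (@Homeomorph.symm _ _ (_) (_) e1))
  · rw [bord_top (HH false).toHHS 1 τ₀ h0 (InNhd_isTrace false),
      bord_top (HH true).toHHS 1 τ₁ h1 (InNhd_isTrace true)] at e
    obtain ⟨e0⟩ := strict_homeo_mb false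
    obtain ⟨e1⟩ := strict_homeo_mb true
    exact mb_not_homeo.false
      (@Homeomorph.trans _ _ _ (_) (_) (_) (@Homeomorph.trans _ _ _ (_) (_) (_) e0 e)
        (@Homeomorph.symm _ _ (_) (_) e1))

end Pool.Agent.Helper77.HB
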