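import Pool.Agent.Helper77.HB.Word

/-!
# The group `GA` (an amalgamated product of `F × ℤ` and `PSL(2, ℤ)`), frames and gates
-/

namespace Pool.Agent.Helper77.HB

open Matrix OnePoint

/-- The group generated by `P` and `SL(2, ℤ)` in the permutations of the words. -/
noncomputable def GG : Subgroup (Equiv.Perm Wd) := permP.range ⊔ permH.range

/-- The group, as a type. -/
abbrev GA : Type := ↥GG

/-- `P → GA` -/
noncomputable def iP : P →* GA :=
  permP.codRestrict GG (fun p => (le_sup_left : permP.range ≤ GG) ⟨p, rfl⟩)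

/-- `SL(2, ℤ) → GA` -/
noncomputable def iH : H2 →* GA :=
  permH.codRestrict GG (fun p => (le_sup_right : permH.range ≤ GG) ⟨p, rfl⟩)

noncomputable def aG : GA := iP aP
noncomputable def bG : GA := iP bP
noncomputable def cG : GA := iP cP
noncomputable def xG : GA := iH ModularGroup.S

lemma iP_smul (p : P) (y : Wd) : iP p • y = pw p y := rfl
lemma iH_smul (h : H2) (y : Wd) : iH h • y = hw h y := rfl

lemma GA_ext {g h : GA} (hh : ∀ y : Wd, g • y = h • y) : g = h :=
  Subtype.ext (Equiv.ext hh)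

lemma iH_Tn (n : ℤ) : iH (Tn n) = iP (cP ^ n) :=
  GA_ext fun y => by rw [iH_smul, iP_smul, hw_Tn]

lemma iH_neg (h : H2) : iH (-h) = iH h :=
  GA_ext fun y => by rw [iH_smul, iH_smul, hw_neg]

lemma cG_zpow (n : ℤ) : cG ^ n = iP (cP ^ n) := by rw [cG, map_zpow]

lemma xG_mul_self : xG * xG = 1 := by
  have : (ModularGroup.S * ModularGroup.S : H2) = -1 := by
    ext i j
    simp only [Matrix.SpecialLinearGroup.coe_neg, Matrix.SpecialLinearGroup.coe_mul, S_apply]
    fin_cases i <;> fin_cases j <;> simp [Matrix.mul_apply, Fin.sum_univ_two]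
  rw [xG, ← map_mul, this, iH_neg, map_one]

lemma xG_inv : xG⁻¹ = xG := inv_eq_of_mul_eq_one_left xG_mul_self

/-- `(S T) ^ 3 = -1` -/
lemma xG_cG_rel : xG * cG * xG = cG⁻¹ * xG * cG⁻¹ := by
  have h : (ModularGroup.S * Tn 1 * ModularGroup.S : H2) =
      Tn (-1) * ModularGroup.S * Tn (-1) := by
    ext i j
    simp only [Matrix.SpecialLinearGroup.coe_neg, Matrix.SpecialLinearGroup.coe_mul, Tn_apply,
      S_apply]
    fin_cases i <;> fin_cases j <;> simp [Matrix.mul_apply, Fin.sum_univ_two]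
  have := congrArg iH h
  rw [map_mul, map_mul, map_mul, map_mul, iH_Tn, iH_Tn] at this
  simpa [xG, cG] using this

/-! ## Frames -/

/-- The frame of a list of letters. -/
noncomputable def frL : List Lt → GA
  | [] => 1
  | (p, θ) :: t => iP p * iH (sec0 θ.1) * frL t

/-- The frame of a vertex: an element of the group which takes the base vertex to it. -/
noncomputable def frame (l : Wd) : GA := frL l.1

@[simp] lemma frame_v0 : frame v0 = 1 := rfl
lemma frame_cons (p θ t) : frame (cons p θ t) = iP p * iH (sec0 θ.1) * frame t.toWd := rfl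

lemma iPH_smul (p : P) (θ : Set.Ico (0 : ℚ) 1) (t : Tw) :
    (iP p * iH (sec0 θ.1)) • t.toWd = cons p θ t := by
  have h1 : t.toWd = jn (∞, t) := rfl
  rw [mul_smul, iH_smul, iP_smul, h1, hw_jn, ← sec_Ico, sec_spec, mc_sec, sh_zero, jn_coe,
    Int.floor_eq_zero_iff.2 θ.2, zpow_zero, pw_cons, mul_one]
  congr 1
  apply Subtype.ext
  exact Int.fract_eq_self.2 θ.2

lemma frame_smul (l : Wd) : frame l • v0 = l := by
  obtain ⟨l, hl⟩ := l
  induction l with
  | nil => exact one_smul _ _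
  | cons y t ih =>
    have h2 : ∀ z ∈ t, z.1 ∉ Cy := hl
    have h3 := ih (fun z hz => h2 z (List.mem_of_mem_tail hz))
    have h4 : frame ⟨y :: t, hl⟩ = iP y.1 * iH (sec0 y.2.1) * frame (Tw.toWd ⟨t, h2⟩) := rfl
    rw [h4, mul_smul]
    have h5 : frame (Tw.toWd ⟨t, h2⟩) • v0 = Tw.toWd ⟨t, h2⟩ := h3
    rw [h5]
    exact iPH_smul y.1 y.2 ⟨t, h2⟩

/-- The frame of a word given by its Farey coordinate. -/
lemma frame_jn (r : P1) (t : Tw) : frame (jn (r, t)) = iH (sec r) * frame t.toWd := by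
  induction r using OnePoint.rec with
  | infty => rw [jn_infty, sec_infty, map_one, one_mul]
  | coe r =>
    rw [jn_coe, frame_cons, sec_coe, map_mul, iH_Tn]
    rfl

lemma iP_frame (q : P) (l : Wd) : ∃ p, iP q * frame l = frame (iP q • l) * iP p := by
  rcases wd_cases l with rfl | ⟨p, θ, t, rfl⟩
  · refine ⟨q, ?_⟩
    rw [iP_smul, pw_v0, frame_v0, mul_one, one_mul]
  · refine ⟨1, ?_⟩
    rw [iP_smul, pw_cons, frame_cons, frame_cons, map_mul, map_one, mul_one, mul_assoc, mul_assoc,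
      mul_assoc]

lemma sh_frame (m : ℤ) (t : Tw) :
    ∃ p, iP (cP ^ m) * frame t.toWd = frame (sh m t).toWd * iP p := by
  rw [sh_toWd]
  exact iP_frame (cP ^ m) t.toWd

lemma iH_frame (h : H2) (l : Wd) : ∃ p, iH h * frame l = frame (iH h • l) * iP p := by
  rw [← jn_spl l]
  obtain ⟨r, t⟩ := spl l
  rw [iH_smul, hw_jn, frame_jn, frame_jn]
  have h1 : iH ((sec (fa h r))⁻¹ * h * sec r) = iP (cP ^ mc h r) := by
    obtain ⟨n, hn⟩ := fa_stab (mc_aux h r)
    have h2 : mc h r = n := by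
      unfold mc
      rcases hn with hn | hn <;> rw [hn]
      · exact tr_Tn n
      · exact tr_neg_Tn n
    rw [h2]
    rcases hn with hn | hn <;> rw [hn]
    · exact iH_Tn n
    · rw [iH_neg, iH_Tn]
  obtain ⟨p, hp⟩ := sh_frame (mc h r) t
  refine ⟨p, ?_⟩
  rw [mul_assoc (iH (sec (fa h r))), ← hp, ← h1, ← mul_assoc, ← mul_assoc, ← map_mul, ← map_mul]
  congr 2
  group

lemma exists_cocycle (g : GA) (l : Wd) : ∃ p, g * frame l = frame (g • l) * iP p := by
  obtain ⟨g, hg⟩ := g
  have hGG : GG = Subgroup.closure ((permP.range : Set (Equiv.Perm Wd)) ∪ permH.range) :=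
    Subgroup.sup_eq_closure _ _
  have key : ∀ g : Equiv.Perm Wd,
      g ∈ Subgroup.closure ((permP.range : Set (Equiv.Perm Wd)) ∪ permH.range) →
      ∀ hg : g ∈ GG, ∀ l, ∃ p,
      (⟨g, hg⟩ : GA) * frame l = frame ((⟨g, hg⟩ : GA) • l) * iP p := by
    intro g hg
    induction hg using Subgroup.closure_induction with
    | mem g h =>
      rcases h with ⟨p, rfl⟩ | ⟨p, rfl⟩
      · intro _ l; exact iP_frame p l
      · intro _ l; exact iH_frame p l
    | one => intro hg l; exact ⟨1, by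
        have : (⟨1, hg⟩ : GA) = 1 := rfl
        rw [this, one_mul, one_smul, map_one, mul_one]⟩
    | mul g h hg hh ihg ihh =>
      intro _ l
      rw [← hGG] at hg hh
      obtain ⟨p, hp⟩ := ihh hh l
      obtain ⟨q, hq⟩ := ihg hg ((⟨h, hh⟩ : GA) • l)
      refine ⟨q * p, ?_⟩
      have : (⟨g * h, mul_mem hg hh⟩ : GA) = ⟨g, hg⟩ * ⟨h, hh⟩ := rfl
      rw [this, mul_assoc, hp, ← mul_assoc, hq, map_mul, mul_smul, mul_assoc]
    | inv g hg ihg =>
      intro _ l
      rw [← hGG] at hg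
      obtain ⟨p, hp⟩ := ihg hg ((⟨g, hg⟩ : GA)⁻¹ • l)
      refine ⟨p⁻¹, ?_⟩
      have : (⟨g⁻¹, inv_mem hg⟩ : GA) = (⟨g, hg⟩ : GA)⁻¹ := rfl
      rw [this]
      rw [smul_inv_smul] at hp
      rw [map_inv, eq_mul_inv_iff_mul_eq, mul_assoc, ← hp, inv_mul_cancel_left]
  exact key g (hGG ▸ hg) hg l

/-- The cocycle: `g * frame l = frame (g • l) * iP (cp g l)`. -/
noncomputable def cp (g : GA) (l : Wd) : P := (exists_cocycle g l).choose

lemma cp_spec (g : GA) (l : Wd) : g * frame l = frame (g • l) * iP (cp g l) :=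
  (exists_cocycle g l).choose_spec

lemma iP_injective : Function.Injective iP := by
  intro p q h
  have := congrArg (fun g : GA => g • cons 1 zt tnil) h
  simp only [iP_smul, pw_cons, mul_one] at this
  exact (cons_inj.1 this).1

lemma cp_mul (g h : GA) (l : Wd) : cp (g * h) l = cp g (h • l) * cp h l := by
  apply iP_injective
  have h1 := cp_spec (g * h) l
  rw [mul_assoc, cp_spec h l, ← mul_assoc, cp_spec g, mul_smul, mul_assoc] at h1
  rw [map_mul]
  exact (mul_left_cancel h1).symm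

lemma cp_one (l : Wd) : cp 1 l = 1 := by
  have := cp_mul 1 1 l
  rw [one_smul, one_mul] at this
  exact (mul_eq_left.1 this.symm)

/-- Every element of the group is the frame of its vertex times an element of `P`. -/
lemma eq_frame_mul (g : GA) : g = frame (g • v0) * iP (cp g v0) := by
  have := cp_spec g v0
  rwa [frame_v0, mul_one] at this

lemma stab_v0 {g : GA} (hg : g • v0 = v0) : g = iP (cp g v0) := by
  have := eq_frame_mul g
  rwa [hg, frame_v0, one_mul] at this

lemma iP_smul_v0 (p : P) : iP p • v0 = v0 := rfl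

lemma cp_iP_v0 (p : P) : cp (iP p) v0 = p :=
  iP_injective (stab_v0 (iP_smul_v0 p)).symm

lemma cp_mul_iP (g : GA) (p : P) : cp (g * iP p) v0 = cp g v0 * p := by
  rw [cp_mul, iP_smul_v0, cp_iP_v0]

/-- Two elements with the same vertex. -/
lemma exists_iP_of_eq {g h : GA} (hh : g • v0 = h • v0) : ∃ p, h = g * iP p := by
  refine ⟨cp (g⁻¹ * h) v0, ?_⟩
  rw [← stab_v0 (by rw [mul_smul, ← hh, inv_smul_smul]), mul_inv_cancel_left]

lemma fl_iP_smul (p : P) {y : Wd} (hy : y ≠ v0) : fl (iP p • y) = p * fl y := by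
  rcases wd_cases y with rfl | ⟨q, θ, t, rfl⟩
  · exact absurd rfl hy
  · rfl

lemma iP_smul_ne (p : P) {y : Wd} : iP p • y = v0 ↔ y = v0 := by
  constructor
  · intro h
    have := congrArg (fun z => iP p⁻¹ • z) h
    simp only [← mul_smul, ← map_mul, inv_mul_cancel, map_one, one_smul, iP_smul_v0] at this
    exact this
  · rintro rfl; rfl

open Classical in
/-- The gate of an element of the group at the base vertex: the `P`-component of the projection
to the base coset. -/
noncomputable def fg (h : GA) : P := if h • v0 = v0 then cp h v0 else fl (h • v0)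

lemma fg_iP (p : P) : fg (iP p) = p := by rw [fg, if_pos (iP_smul_v0 p), cp_iP_v0]

lemma fg_of_ne {h : GA} (hh : h • v0 ≠ v0) : fg h = fl (h • v0) := by rw [fg, if_neg hh]

lemma fg_iP_mul (p : P) (h : GA) : fg (iP p * h) = p * fg h := by
  by_cases hh : h • v0 = v0
  · rw [stab_v0 hh, ← map_mul, fg_iP, fg_iP]
  · have h2 : (iP p * h) • v0 ≠ v0 := by rw [mul_smul, Ne, iP_smul_ne]; exact hh
    rw [fg_of_ne h2, fg_of_ne hh, mul_smul, fl_iP_smul p hh]

lemma fg_mul_iP {h : GA} (hh : h • v0 ≠ v0) (p : P) : fg (h * iP p) = fg h := by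
  have h2 : (h * iP p) • v0 ≠ v0 := by rwa [mul_smul, iP_smul_v0]
  rw [fg_of_ne h2, fg_of_ne hh, mul_smul, iP_smul_v0]

/-- The gate of `h` at (the vertex of) `g`, in the frame `g`. -/
noncomputable def pg (g h : GA) : P := fg (g⁻¹ * h)

/-- The gate of a vertex at (the vertex of) `g`, in the frame `g`. -/
noncomputable def gt (g : GA) (y : Wd) : P := fl (g⁻¹ • y)

lemma pg_of_ne {g h : GA} (hh : h • v0 ≠ g • v0) : pg g h = gt g (h • v0) := by
  rw [pg, fg_of_ne, mul_smul, gt]
  rw [mul_smul, Ne, inv_smul_eq_iff]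
  exact hh

lemma pg_iP (g : GA) (p : P) : pg g (g * iP p) = p := by
  rw [pg, inv_mul_cancel_left, fg_iP]

lemma pg_frame_mul (g h : GA) (p : P) : pg (g * iP p) h = p⁻¹ * pg g h := by
  rw [pg, pg, _root_.mul_inv_rev, ← map_inv, mul_assoc, fg_iP_mul]

lemma pg_mul_left (k g h : GA) : pg (k * g) (k * h) = pg g h := by
  rw [pg, pg, _root_.mul_inv_rev, mul_assoc, inv_mul_cancel_left]

lemma gt_mul_left (k g : GA) (y : Wd) : gt (k * g) (k • y) = gt g y := by
  rw [gt, gt, _root_.mul_inv_rev, mul_smul, inv_smul_smul]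

lemma gt_frame_mul (g : GA) (p : P) {y : Wd} (hy : y ≠ g • v0) :
    gt (g * iP p) y = p⁻¹ * gt g y := by
  rw [gt, gt, _root_.mul_inv_rev, ← map_inv, mul_smul, fl_iP_smul]
  rwa [Ne, inv_smul_eq_iff]

/-- The generating set. -/
noncomputable def genA : Set GA := {aG, bG, cG, xG}

lemma genA_finite : genA.Finite := by
  unfold genA
  exact Set.toFinite _

end Pool.Agent.Helper77.HB
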