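import Pool.Agent.Helper77.HB.Defs
import Pool.Agent.Helper77.HB.Group

/-!
# The three graphs: the coned-off graph `Gr`, the tree `TF`, the line `ZL`; coordinates on `P`
-/

namespace Pool.Agent.Helper77.HB

open Matrix OnePoint

lemma xG_v0 : xG • v0 = cons 1 zt tnil := by
  have h1 : v0 = jn (∞, tnil) := rfl
  rw [xG, iH_smul, h1, hw_jn, fa_S_infty, sh_tnil, jn_coe]
  simp [fr, zt]

lemma xG_v0_ne : xG • v0 ≠ v0 := by rw [xG_v0]; exact cons_ne _ _ _

/-- The coned-off graph: the `Γ`-orbit of the edge `v0 - x v0`. -/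
noncomputable def Gr : SimpleGraph Wd where
  Adj y y' := ∃ g : GA, y = g • v0 ∧ y' = (g * xG) • v0
  symm := ⟨by
    rintro y y' ⟨g, rfl, rfl⟩
    exact ⟨g * xG, rfl, by rw [mul_assoc, xG_mul_self, mul_one]⟩⟩
  loopless := ⟨by
    rintro y ⟨g, h1, h2⟩
    rw [h2, mul_smul] at h1
    exact xG_v0_ne (smul_left_cancel g h1)⟩

lemma Gr_adj {y y' : Wd} : Gr.Adj y y' ↔ ∃ g : GA, y = g • v0 ∧ y' = (g * xG) • v0 := Iff.rfl

/-- The Cayley tree of the free group `F`. -/
def TF : SimpleGraph F := Cay F (Set.range FreeGroup.of)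

/-- The line. -/
def ZL : SimpleGraph ℤ where
  Adj m n := m = n + 1 ∨ n = m + 1
  symm := ⟨fun _ _ h => h.symm⟩
  loopless := ⟨fun n h => by rcases h with h | h <;> omega⟩

/-- `1` for the second structure, `0` for the first one. -/
def lv (lam : Bool) : ℤ := if lam then 1 else 0

/-- The coordinates on `P = F × ℤ`: `(w, m) ↦ (w, m + λ · #c(w))`. -/
def kap (lam : Bool) (p : P) : F × ℤ := (p.1, Multiplicative.toAdd p.2 + lv lam * ex p)

lemma kap_mul (lam : Bool) (p q : P) :
    kap lam (p * q) = ((kap lam p).1 * (kap lam q).1, (kap lam p).2 + (kap lam q).2) := by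
  simp only [kap, ex_mul, Prod.fst_mul, Prod.snd_mul, toAdd_mul, Prod.mk.injEq, true_and]
  ring

lemma kap_one (lam : Bool) : kap lam 1 = (1, 0) := by
  simp [kap, ex_one]

lemma kap_cP_zpow (lam : Bool) (n : ℤ) :
    kap lam (cP ^ n) = (FreeGroup.of true ^ n, lv lam * n) := by
  rw [kap, ex_zpow]
  simp [cP]

/-- The inverse of `kap lam`. -/
def kapInv (lam : Bool) (u : F × ℤ) : P :=
  (u.1, Multiplicative.ofAdd (u.2 - lv lam * Multiplicative.toAdd (phi u.1)))

lemma kap_kapInv (lam : Bool) (u : F × ℤ) : kap lam (kapInv lam u) = u := by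
  simp only [kap, kapInv, ex, toAdd_ofAdd]
  ext
  · rfl
  · simp

lemma kapInv_kap (lam : Bool) (p : P) : kapInv lam (kap lam p) = p := by
  simp [kap, kapInv, ex]

/-- the sign -/
def sg (s : Bool) : ℤ := if s then 1 else -1

/-- The ends of the tree `TF`. -/
abbrev E := GBd TF

end Pool.Agent.Helper77.HB
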