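import Pool.Agent.Helper77.HB.Gr

/-!
# Combinatorics of the graph `Gr`, first part
-/

namespace Pool.Agent.Helper77.HB

open Matrix OnePoint

lemma iP_xG_v0 (p : P) : (iP p * xG) • v0 = cons p zt tnil := by
  rw [mul_smul, xG_v0, iP_smul, pw_cons, mul_one]

lemma adj_v0 {y : Wd} : Gr.Adj v0 y ↔ ∃ p, y = cons p zt tnil := by
  rw [Gr_adj]
  constructor
  · rintro ⟨g, h1, h2⟩
    refine ⟨cp g v0, ?_⟩
    rw [h2, stab_v0 h1.symm, iP_xG_v0, cp_iP_v0]
  · rintro ⟨p, rfl⟩
    exact ⟨iP p, (iP_smul_v0 p).symm, (iP_xG_v0 p).symm⟩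

lemma Gr_adj_smul_of {g : GA} {y y' : Wd} (h : Gr.Adj y y') : Gr.Adj (g • y) (g • y') := by
  obtain ⟨k, rfl, rfl⟩ := Gr_adj.1 h
  exact Gr_adj.2 ⟨g * k, (mul_smul _ _ _).symm, by rw [mul_assoc, mul_smul g]⟩

lemma Gr_adj_smul (g : GA) {y y' : Wd} : Gr.Adj (g • y) (g • y') ↔ Gr.Adj y y' := by
  constructor
  · intro h
    have h2 := Gr_adj_smul_of (g := g⁻¹) h
    rwa [inv_smul_smul, inv_smul_smul] at h2
  · exact Gr_adj_smul_of

/-- The action of an element of the group as an automorphism of the graph. -/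
noncomputable def grHom (g : GA) : Gr →g Gr where
  toFun y := g • y
  map_rel' := fun h => Gr_adj_smul_of h

lemma reach_smul (g : GA) {y y' : Wd} (h : Gr.Reachable y y') :
    Gr.Reachable (g • y) (g • y') :=
  h.map (grHom g)

lemma Gr_connected_aux {g : GA} (hg : g ∈ Subgroup.closure genA) : Gr.Reachable v0 (g • v0) := by
  induction hg using Subgroup.closure_induction with
  | mem g h =>
    have hP : ∀ p, Gr.Reachable v0 (iP p • v0) := fun p => by rw [iP_smul_v0]
    rcases h with rfl | rfl | rfl | h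
    · exact hP aP
    · exact hP bP
    · exact hP cP
    · rw [Set.mem_singleton_iff.1 h]
      exact SimpleGraph.Adj.reachable (Gr_adj.2 ⟨1, (one_smul _ _).symm, by rw [one_mul]⟩)
  | one => rw [one_smul]
  | mul g h hg hh ihg ihh =>
    rw [mul_smul]
    exact ihg.trans (reach_smul g ihh)
  | inv g hg ihg =>
    have := reach_smul g⁻¹ ihg
    rw [inv_smul_smul] at this
    exact this.symm

lemma dist_smul_le (g : GA) {y y' : Wd} (h : Gr.Reachable y y') :
    Gr.dist (g • y) (g • y') ≤ Gr.dist y y' := by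
  obtain ⟨w, hw⟩ := h.exists_walk_length_eq_dist
  rw [← hw]
  have := SimpleGraph.dist_le (w.map (grHom g))
  rwa [SimpleGraph.Walk.length_map] at this

lemma Gr_dist_smul (g : GA) (y y' : Wd) : Gr.dist (g • y) (g • y') = Gr.dist y y' := by
  by_cases h : Gr.Reachable y y'
  · refine le_antisymm (dist_smul_le g h) ?_
    have := dist_smul_le g⁻¹ (reach_smul g h)
    rwa [inv_smul_smul, inv_smul_smul] at this
  · rw [SimpleGraph.dist_eq_zero_of_not_reachable h, SimpleGraph.dist_eq_zero_of_not_reachable]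
    intro h2
    apply h
    have := reach_smul g⁻¹ h2
    rwa [inv_smul_smul, inv_smul_smul] at this

/-- The triangles. -/
lemma tri : Gr.Adj (xG • v0) ((cG * xG) • v0) := by
  rw [Gr_adj]
  refine ⟨xG * cG⁻¹, ?_, ?_⟩
  · have : cG⁻¹ • v0 = v0 := by
      rw [cG, ← map_inv, iP_smul_v0]
    rw [mul_smul, this]
  · have h1 : xG * cG⁻¹ * xG = cG * xG * cG := by
      have h2 : (xG * cG * xG)⁻¹ = (cG⁻¹ * xG * cG⁻¹)⁻¹ := by rw [xG_cG_rel]
      rw [_root_.mul_inv_rev, _root_.mul_inv_rev, _root_.mul_inv_rev, _root_.mul_inv_rev, xG_inv,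
        inv_inv, ← mul_assoc, ← mul_assoc] at h2
      exact h2
    have h3 : cG • v0 = v0 := by rw [cG, iP_smul_v0]
    rw [h1, mul_smul (cG * xG), h3]

lemma iP_mem_closure (p : P) : iP p ∈ Subgroup.closure genA := by
  have h1 : ∀ w : F, iP (w, 1) ∈ Subgroup.closure genA := by
    intro w
    have : w ∈ Subgroup.comap (iP.comp (MonoidHom.inl F (Multiplicative ℤ)))
        (Subgroup.closure genA) := by
      have h2 : Subgroup.closure (Set.range (FreeGroup.of : Bool → F)) ≤
          Subgroup.comap (iP.comp (MonoidHom.inl F (Multiplicative ℤ)))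
            (Subgroup.closure genA) := by
        rw [Subgroup.closure_le]
        rintro _ ⟨b, rfl⟩
        cases b
        · exact Subgroup.subset_closure (Or.inl rfl)
        · exact Subgroup.subset_closure (Or.inr (Or.inr (Or.inl rfl)))
      rw [FreeGroup.closure_range_of] at h2
      exact h2 (Subgroup.mem_top w)
    exact this
  have h2 : ∀ n : Multiplicative ℤ, iP (1, n) ∈ Subgroup.closure genA := by
    intro n
    have h3 : ((1, n) : P) = bP ^ (Multiplicative.toAdd n) := by
      ext
      · simp [bP]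
      · simp [bP, ← ofAdd_zsmul]
    rw [h3, map_zpow]
    exact Subgroup.zpow_mem (Subgroup.closure genA)
      (Subgroup.subset_closure (Or.inr (Or.inl rfl))) (Multiplicative.toAdd n)
  obtain ⟨w, n⟩ := p
  have h3 : ((w, n) : P) = (w, 1) * (1, n) := by simp
  rw [h3, map_mul]
  exact mul_mem (h1 w) (h2 n)

lemma iH_mem_closure (h : H2) : iH h ∈ Subgroup.closure genA := by
  have h2 : Subgroup.closure ({ModularGroup.S, ModularGroup.T} : Set H2) ≤
      Subgroup.comap iH (Subgroup.closure genA) := by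
    rw [Subgroup.closure_le]
    rintro x (rfl | rfl)
    · exact Subgroup.subset_closure (Or.inr (Or.inr (Or.inr rfl)))
    · change iH ModularGroup.T ∈ Subgroup.closure genA
      rw [← Tn_one, iH_Tn, zpow_one]
      exact iP_mem_closure cP
  rw [SpecialLinearGroup.SL2Z_generators] at h2
  exact h2 (Subgroup.mem_top h)

lemma frL_mem_closure (l : List Lt) : frL l ∈ Subgroup.closure genA := by
  induction l with
  | nil => exact one_mem _
  | cons y t ih =>
    obtain ⟨p, θ⟩ := y
    exact mul_mem (mul_mem (iP_mem_closure p) (iH_mem_closure _)) ih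

theorem closure_genA : Subgroup.closure genA = ⊤ := by
  rw [eq_top_iff]
  intro g _
  rw [eq_frame_mul g]
  exact mul_mem (frL_mem_closure _) (iP_mem_closure _)

theorem Gr_connected : Gr.Connected := by
  have h : ∀ y, Gr.Reachable v0 y := by
    intro y
    rw [← frame_smul y]
    exact Gr_connected_aux (closure_genA ▸ Subgroup.mem_top _)
  have : Nonempty Wd := ⟨v0⟩
  exact ⟨fun y y' => (h y).symm.trans (h y')⟩

instance : Countable F :=
  Function.Surjective.countable (f := FreeGroup.mk) (fun w => ⟨w.toWord, FreeGroup.mk_toWord⟩)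

instance : Countable Wd := by
  unfold Wd
  infer_instance

instance : Countable GA := by
  have : Function.Injective (fun g : GA => ((g • v0, cp g v0) : Wd × P)) := by
    intro g h hgh
    simp only [Prod.mk.injEq] at hgh
    rw [eq_frame_mul g, eq_frame_mul h, hgh.1, hgh.2]
  exact this.countable

end Pool.Agent.Helper77.HB
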