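import Pool.Agent.Helper77.HB.GrComb1

/-!
# Combinatorics of the graph `Gr`, second part: edges and gates
-/

namespace Pool.Agent.Helper77.HB

open Matrix OnePoint

/-- A word which is empty or whose first letter is not in `Cy`, moved by the first letter `(p, θ)`. -/
lemma fl_step (p : P) (θ : Set.Ico (0 : ℚ) 1) {z : Wd} (hz : z = v0 ∨ fl z ∉ Cy) :
    fl ((iP p * iH (sec0 θ.1)) • z) = p := by
  rcases wd_cases z with rfl | ⟨q, θ', s, rfl⟩
  · rw [← tnil_toWd, iPH_smul, fl_cons]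
  · have hq : q ∉ Cy := by
      rcases hz with h | h
      · exact absurd h (cons_ne _ _ _)
      · exact h
    rw [← ccons_toWd q hq, iPH_smul, fl_cons]

/-- The neighbours of a vertex `≠ v0`. -/
lemma adj_cons {p θ t} {y' : Wd} (h : Gr.Adj (cons p θ t) y') :
    y' = v0 ∨ fl y' = p ∨ (t = tnil ∧ ∃ r : ℚ, FAdj (θ.1 : P1) (r : P1) ∧
      y' = cons (p * cP ^ ⌊r⌋) (fr r) tnil) := by
  generalize hn : t.1.length = n
  induction n using Nat.strong_induction_on generalizing p θ t y' with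
  | _ n ih =>
    obtain ⟨z, rfl⟩ : ∃ z, y' = (iP p * iH (sec0 θ.1)) • z :=
      ⟨(iP p * iH (sec0 θ.1))⁻¹ • y', by rw [smul_inv_smul]⟩
    rw [← iPH_smul, Gr_adj_smul] at h
    rcases tw_cases t with rfl | ⟨q, hq, θ', s, rfl⟩
    · rw [tnil_toWd, adj_v0] at h
      obtain ⟨q, rfl⟩ := h
      by_cases hq : q ∈ Cy
      · have h1 : cons q zt tnil = jn (((ex q : ℚ) : P1), tnil) := by
          rw [← jn_spl (cons q zt tnil), spl_cons_mem hq]
          simp [zt]
        have h2 : (iP p * iH (sec0 θ.1)) • cons q zt tnil =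
            iP p • jn (fa (sec0 θ.1) ((ex q : ℚ) : P1), tnil) := by
          rw [mul_smul, iH_smul, h1, hw_jn, sh_tnil]
        have h3 : FAdj (θ.1 : P1) (fa (sec0 θ.1) ((ex q : ℚ) : P1)) := by
          have := (FAdj_infty (ex q)).smul (sec0 θ.1)
          rwa [sec0_spec] at this
        rw [h2]
        generalize fa (sec0 θ.1) ((ex q : ℚ) : P1) = r at h3
        induction r using OnePoint.rec with
        | infty => left; rw [jn_infty, tnil_toWd, iP_smul_v0]
        | coe r => right; right; exact ⟨rfl, r, h3, by rw [jn_coe, iP_smul, pw_cons]⟩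
      · right; left
        exact fl_step p θ (Or.inr (by rwa [fl_cons]))
    · rw [ccons_toWd] at h
      right; left
      refine fl_step p θ ?_
      have hlen : s.1.length < n := by
        rw [← hn]
        simp [ccons]
      rcases ih _ hlen h rfl with h1 | h1 | ⟨-, r, -, h1⟩
      · exact Or.inl h1
      · right; rw [h1]; exact hq
      · right; rw [h1, fl_cons, mul_zpow_mem_Cy]; exact hq

/-- The Farey coordinate of a word whose first letter is not in `Cy`. -/
lemma spl_fst_of_not_mem {z : Wd} (hz : z = v0 ∨ fl z ∉ Cy) : (spl z).1 = ∞ := by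
  rcases wd_cases z with rfl | ⟨q, θ', s, rfl⟩
  · rfl
  · have hq : q ∉ Cy := by
      rcases hz with h | h
      · exact absurd h (cons_ne _ _ _)
      · exact h
    rw [spl_cons_not_mem hq]

/-- Edges, as seen from the base Farey graph. -/
lemma adj_spl {y y' : Wd} (h : Gr.Adj y y') : (spl y).1 = (spl y').1 ∨
    ((spl y).2 = tnil ∧ (spl y').2 = tnil ∧ FAdj (spl y).1 (spl y').1) := by
  -- the case of the coordinate `∞`
  have key : ∀ (t : Tw) (z : Wd), Gr.Adj t.toWd z → ∞ = (spl z).1 ∨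
      (t = tnil ∧ (spl z).2 = tnil ∧ FAdj ∞ (spl z).1) := by
    intro t z h
    rcases tw_cases t with rfl | ⟨q, hq, θ', s, rfl⟩
    · rw [tnil_toWd, adj_v0] at h
      obtain ⟨q, rfl⟩ := h
      by_cases hq : q ∈ Cy
      · right
        rw [spl_cons_mem hq]
        refine ⟨rfl, rfl, ?_⟩
        have := FAdj_infty (ex q)
        simpa [zt] using this
      · left
        rw [spl_cons_not_mem hq]
    · left
      rw [ccons_toWd] at h
      refine (spl_fst_of_not_mem ?_).symm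
      rcases adj_cons h with h1 | h1 | ⟨-, r, -, h1⟩
      · exact Or.inl h1
      · right; rw [h1]; exact hq
      · right; rw [h1, fl_cons, mul_zpow_mem_Cy]; exact hq
  -- move the first coordinate to `∞`
  set g : H2 := (sec (spl y).1)⁻¹ with hg
  have hsp : ∀ z : Wd, spl (iH g • z) = (fa g (spl z).1, sh (mc g (spl z).1) (spl z).2) := by
    intro z
    rw [iH_smul, hw, spl_jn]
  have h1 : fa g (spl y).1 = ∞ := fa_inv_apply (sec_spec _)
  have h2 : iH g • y = (sh (mc g (spl y).1) (spl y).2).toWd := by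
    rw [← jn_spl (iH g • y), hsp, h1, jn_infty]
  have h3 : Gr.Adj (iH g • y) (iH g • y') := (Gr_adj_smul _).2 h
  rw [h2] at h3
  have hshn : ∀ (m : ℤ) (t : Tw), sh m t = tnil → t = tnil := by
    intro m t ht
    have := congrArg (sh (-m)) ht
    rwa [← sh_add, neg_add_cancel, sh_zero, sh_tnil] at this
  have hback : ∀ r : P1, fa g⁻¹ (fa g r) = r := fun r => by
    rw [← fa_mul, inv_mul_cancel, fa_one]
  rcases key _ _ h3 with h4 | ⟨h4, h5, h6⟩
  · left
    rw [hsp] at h4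
    have h5 : ∞ = fa g (spl y').1 := h4
    rw [← hback (spl y).1, ← hback (spl y').1, h1, ← h5]
  · right
    rw [hsp] at h5 h6
    refine ⟨hshn _ _ h4, hshn _ _ h5, ?_⟩
    have := h6.smul g⁻¹
    rwa [hback, ← h1, hback] at this

lemma FAdj_zero_cases {r : ℚ} (h : FAdj ((0 : ℚ) : P1) (r : P1)) :
    ⌊r⌋ = 0 ∨ (⌊r⌋ = 1 ∧ r = 1) ∨ ⌊r⌋ = -1 := by
  have h' : FAdj (((0 : ℤ) : ℚ) : P1) (r : P1) := by simpa using h
  obtain ⟨k, hk, rfl⟩ := FAdj_int h'
  have e0 : (((0 : ℤ) : ℚ) + 1 / (k : ℚ)) = 1 / (k : ℚ) := by push_cast; ring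
  rw [e0]
  rcases lt_trichotomy k 0 with h0 | h0 | h0
  · right; right
    rw [Int.floor_eq_iff]
    have hk1 : (k : ℚ) ≤ -1 := by exact_mod_cast (by omega : k ≤ -1)
    have hk2 : (k : ℚ) < 0 := by linarith
    constructor
    · push_cast
      rw [le_div_iff_of_neg hk2]; linarith
    · push_cast
      have : 1 / (k : ℚ) < 0 := one_div_neg.2 hk2
      linarith
  · exact absurd h0 hk
  · by_cases h1 : k = 1
    · right; left
      subst h1
      constructor
      · norm_num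
      · norm_num
    · left
      rw [Int.floor_eq_iff]
      have hk1 : (2 : ℚ) ≤ (k : ℚ) := by exact_mod_cast (by omega : 2 ≤ k)
      have hk2 : (0 : ℚ) < k := by linarith
      constructor
      · push_cast
        positivity
      · push_cast
        rw [div_lt_iff₀ hk2]; linarith

lemma FAdj_pos_cases {θ r : ℚ} (h0 : 0 < θ) (h1 : θ < 1) (h : FAdj (θ : P1) (r : P1)) :
    ⌊r⌋ = 0 ∨ (⌊r⌋ = 1 ∧ r = 1) := by
  have h2 := FAdj_no_int h.symm 0
  have h3 := FAdj_no_int h 1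
  push_cast at h2 h3
  have h4 : 0 ≤ r := by
    by_contra hc
    exact h2 ⟨not_le.1 hc, h0⟩
  have h5 : r ≤ 1 := by
    by_contra hc
    exact h3 ⟨h1, not_le.1 hc⟩
  rcases eq_or_lt_of_le h5 with h6 | h6
  · right
    refine ⟨?_, h6⟩
    rw [h6]; norm_num
  · left
    rw [Int.floor_eq_iff]
    constructor
    · exact_mod_cast h4
    · push_cast; linarith

lemma fr_eq_zt_of_floor {r : ℚ} (h : fr r = zt) : r = ⌊r⌋ := by
  have := congrArg Subtype.val h
  simp only [fr, zt] at this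
  have h2 := Int.floor_add_fract r
  rw [this, add_zero] at h2
  exact h2.symm

lemma fr_eq_zt_iff {r : ℚ} : fr r = zt ↔ r = ⌊r⌋ := by
  constructor
  · exact fr_eq_zt_of_floor
  · intro h
    apply Subtype.ext
    simp only [fr, zt]
    rw [Int.fract, ← h, sub_self]

/-- The gates of adjacent vertices. -/
lemma fl_adj {y y' : Wd} (h : Gr.Adj y y') (hy : y ≠ v0) (hy' : y' ≠ v0) :
    fl y' = fl y ∨ fl y' = fl y * cP ∨ fl y' = fl y * cP⁻¹ := by
  rcases wd_cases y with rfl | ⟨p, θ, t, rfl⟩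
  · exact absurd rfl hy
  rcases adj_cons h with h1 | h1 | ⟨ht, r, hr, rfl⟩
  · exact absurd h1 hy'
  · left; exact h1
  · simp only [fl_cons]
    have key : ⌊r⌋ = 0 ∨ ⌊r⌋ = 1 ∨ ⌊r⌋ = -1 := by
      rcases eq_or_lt_of_le θ.2.1 with h0 | h0
      · rw [← h0] at hr
        rcases FAdj_zero_cases hr with h | h | h
        · exact Or.inl h
        · exact Or.inr (Or.inl h.1)
        · exact Or.inr (Or.inr h)
      · rcases FAdj_pos_cases h0 θ.2.2 hr with h | h
        · exact Or.inl h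
        · exact Or.inr (Or.inl h.1)
    rcases key with h | h | h
    · left; rw [h]; simp
    · right; left; rw [h]; simp
    · right; right; rw [h]; simp

lemma fl_adj_far {y y' : Wd} (h : Gr.Adj y y') (hy : y ≠ v0) (hy' : y' ≠ v0)
    (h1 : ¬ Gr.Adj v0 y) (h2 : ¬ Gr.Adj v0 y') : fl y' = fl y := by
  rcases wd_cases y with rfl | ⟨p, θ, t, rfl⟩
  · exact absurd rfl hy
  rcases adj_cons h with h3 | h3 | ⟨ht, r, hr, rfl⟩
  · exact absurd h3 hy'
  · exact h3
  · simp only [fl_cons]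
    subst ht
    rw [adj_v0] at h1 h2
    have hθ : 0 < θ.1 := by
      rcases eq_or_lt_of_le θ.2.1 with h0 | h0
      · exact absurd ⟨p, by
          rw [cons_inj]
          exact ⟨rfl, Subtype.ext h0.symm, rfl⟩⟩ h1
      · exact h0
    rcases FAdj_pos_cases hθ θ.2.2 hr with h | ⟨h, h'⟩
    · rw [h]; simp
    · exact absurd ⟨p * cP ^ ⌊r⌋, by
        rw [cons_inj]
        refine ⟨rfl, ?_, rfl⟩
        rw [fr_eq_zt_iff, h, h']; norm_num⟩ h2

lemma fl_adj_near {y y' : Wd} (h : Gr.Adj y y') (hy' : y' ≠ v0)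
    (h1 : Gr.Adj v0 y) (h2 : ¬ Gr.Adj v0 y') : fl y' = fl y ∨ fl y' = fl y * cP⁻¹ := by
  rw [adj_v0] at h1 h2
  obtain ⟨p, rfl⟩ := h1
  rcases adj_cons h with h3 | h3 | ⟨ht, r, hr, rfl⟩
  · exact absurd h3 hy'
  · left; exact h3
  · simp only [fl_cons]
    rcases FAdj_zero_cases hr with h | ⟨h, h'⟩ | h
    · left; rw [h]; simp
    · exact absurd ⟨p * cP ^ ⌊r⌋, by
        rw [cons_inj]
        refine ⟨rfl, ?_, rfl⟩
        rw [fr_eq_zt_iff, h, h']; norm_num⟩ h2
    · right; rw [h]; simp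

/-- Two adjacent neighbours of `v0`. -/
lemma fl_adj_adj {y y' : Wd} (h : Gr.Adj y y')
    (h1 : Gr.Adj v0 y) (h2 : Gr.Adj v0 y') : fl y' = fl y * cP ∨ fl y' = fl y * cP⁻¹ := by
  rw [adj_v0] at h1 h2
  obtain ⟨p, rfl⟩ := h1
  obtain ⟨p', rfl⟩ := h2
  rcases adj_cons h with h3 | h3 | ⟨ht, r, hr, h4⟩
  · exact absurd h3 (cons_ne _ _ _)
  · simp only [fl_cons] at h3
    subst h3
    exact absurd rfl h.ne
  · simp only [fl_cons]
    rw [cons_inj] at h4
    obtain ⟨h5, h6, -⟩ := h4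
    have h7 := fr_eq_zt_of_floor h6.symm
    rcases FAdj_zero_cases hr with h | ⟨h, h'⟩ | h
    · exfalso
      rw [h] at h7
      rw [h7] at hr
      exact not_FAdj_self _ (by simpa [zt] using hr)
    · left; rw [h5, h]; simp
    · right; rw [h5, h]; simp

/-- Two different neighbours of `v0` have different gates. -/
lemma fl_inj {y y' : Wd} (h1 : Gr.Adj v0 y) (h2 : Gr.Adj v0 y') (h : fl y = fl y') : y = y' := by
  rw [adj_v0] at h1 h2
  obtain ⟨p, rfl⟩ := h1
  obtain ⟨p', rfl⟩ := h2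
  simp only [fl_cons] at h
  rw [h]

/-- The gate at `x v0` in terms of the gate at `v0`. -/
lemma fl_x {y : Wd} (hy : y ≠ v0) (h1 : fl y ≠ 1) (h2 : fl y ≠ cP⁻¹) :
    xG • y ≠ v0 ∧ ((∃ j : ℤ, 1 ≤ j ∧ fl y = cP ^ j) → fl (xG • y) = cP⁻¹) ∧
      ((¬ ∃ j : ℤ, 1 ≤ j ∧ fl y = cP ^ j) → fl (xG • y) = 1) := by
  rcases wd_cases y with rfl | ⟨p, θ, t, rfl⟩
  · exact absurd rfl hy
  simp only [fl_cons] at h1 h2 ⊢
  by_cases hp : p ∈ Cy
  · have hp' := mem_Cy.1 hp
    obtain ⟨j, hj⟩ : ∃ j, j = ex p := ⟨_, rfl⟩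
    rw [← hj] at hp'
    have hj0 : j ≠ 0 := by
      rintro rfl
      exact h1 (by rw [hp', zpow_zero])
    have hj1 : j ≠ -1 := by
      rintro rfl
      exact h2 (by rw [hp', _root_.zpow_neg_one])
    have hpos : ∀ i : ℤ, p = cP ^ i → i = j := by
      intro i hi
      have := ex_zpow i
      rw [← hi] at this
      rw [hj, this]
    obtain ⟨r, hr⟩ : ∃ r : ℚ, r = (j : ℚ) + θ.1 := ⟨_, rfl⟩
    have hr0 : r ≠ 0 := by
      rw [hr]
      intro h0
      have a1 := θ.2.1
      have a2 := θ.2.2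
      rcases lt_or_gt_of_ne hj0 with h3 | h3
      · have : (j : ℚ) ≤ -2 := by exact_mod_cast (by omega : j ≤ -2)
        linarith
      · have : (1 : ℚ) ≤ j := by exact_mod_cast (by omega : 1 ≤ j)
        linarith
    have e1 : xG • cons p θ t = cons (cP ^ ⌊(-1 / r : ℚ)⌋) (fr (-1 / r))
        (sh (mc ModularGroup.S (r : P1)) t) := by
      rw [xG, iH_smul, hw, spl_cons_mem hp, ← hj, ← hr, fa_S_coe r hr0, jn_coe]
    refine ⟨?_, ?_, ?_⟩
    · rw [e1]; exact cons_ne _ _ _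
    · rintro ⟨i, hi, hpi⟩
      have hij := hpos i hpi
      subst hij
      rw [e1, fl_cons]
      have : ⌊(-1 / r : ℚ)⌋ = -1 := by
        rw [Int.floor_eq_iff]
        have hi' : (1 : ℚ) ≤ i := by exact_mod_cast hi
        have a1 := θ.2.1
        have hr1 : 1 ≤ r := by rw [hr]; linarith
        have hr2 : 0 < r := by linarith
        constructor
        · push_cast
          rw [le_div_iff₀ hr2]; linarith
        · push_cast
          have : -1 / r < 0 := div_neg_of_neg_of_pos (by norm_num) hr2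
          linarith
      rw [this, _root_.zpow_neg_one]
    · intro hn
      have hneg : j ≤ -2 := by
        by_contra hc
        exact hn ⟨j, by omega, hp'⟩
      rw [e1, fl_cons]
      have : ⌊(-1 / r : ℚ)⌋ = 0 := by
        rw [Int.floor_eq_iff]
        have hi' : (j : ℚ) ≤ -2 := by exact_mod_cast hneg
        have a1 := θ.2.2
        have hr1 : r < -1 := by rw [hr]; linarith
        have hr2 : r < 0 := by linarith
        constructor
        · push_cast
          exact (div_pos_of_neg_of_neg (by norm_num) hr2).le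
        · push_cast
          rw [div_lt_iff_of_neg hr2]; linarith
      rw [this, zpow_zero]
  · have e1 : xG • cons p θ t = cons 1 zt (sh (mc ModularGroup.S ∞) (ccons p hp θ t)) := by
      rw [xG, iH_smul, hw, spl_cons_not_mem hp, fa_S_infty, jn_coe]
      rw [cons_inj]
      refine ⟨by simp, ?_, rfl⟩
      rw [fr_eq_zt_iff]; norm_num
    refine ⟨?_, ?_, ?_⟩
    · rw [e1]; exact cons_ne _ _ _
    · rintro ⟨i, hi, hpi⟩
      exact absurd (hpi ▸ zpow_mem_Cy i) hp
    · intro _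
      rw [e1, fl_cons]

/-! The open half space `Pos0`: the vertices whose Farey coordinate is a positive rational. -/

def Pos0 : Set Wd := {y | ∃ r : ℚ, 0 < r ∧ (spl y).1 = (r : P1)}

/-- the half space of the frame `g` -/
def Pos (g : GA) : Set Wd := {y | g⁻¹ • y ∈ Pos0}

lemma pos_spl_iH (h : H2) (y : Wd) : (spl (iH h • y)).1 = fa h (spl y).1 := by
  rw [iH_smul, hw, spl_jn]

lemma pos_spl_cG (y : Wd) : (spl (cG • y)).1 = fa (Tn 1) (spl y).1 := by
  have h : cG = iH (Tn 1) := by rw [iH_Tn, zpow_one]; rfl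
  rw [h, pos_spl_iH]

lemma pos_spl_xG (y : Wd) : (spl (xG • y)).1 = fa ModularGroup.S (spl y).1 := pos_spl_iH _ _

lemma pos_cG_smul {y : Wd} (hy : y ∈ Pos0) : cG • y ∈ Pos0 := by
  obtain ⟨r, hr, h⟩ := hy
  refine ⟨r + 1, by linarith, ?_⟩
  rw [pos_spl_cG, h, fa_Tn_coe]
  simp

lemma Pos_c (g : GA) : Pos (g * cG) ⊆ Pos g := by
  intro y hy
  have h1 : (g * cG)⁻¹ • y ∈ Pos0 := hy
  have h2 := pos_cG_smul h1
  rw [← mul_smul, _root_.mul_inv_rev, mul_inv_cancel_left] at h2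
  exact h2

lemma Pos_d (g : GA) : Pos (g * (cG * xG * cG)) ⊆ Pos g := by
  intro y hy
  have h1 : (g * (cG * xG * cG))⁻¹ • y ∈ Pos0 := hy
  have h2 : ∀ z ∈ Pos0, (cG * xG * cG) • z ∈ Pos0 := by
    intro z hz
    obtain ⟨r, hr, h⟩ := hz
    have hr1 : (r + 1 : ℚ) ≠ 0 := by positivity
    refine ⟨-1 / (r + 1) + 1, ?_, ?_⟩
    · have : -1 / (r + 1) + 1 = r / (r + 1) := by field_simp; ring
      rw [this]
      positivity
    · rw [mul_smul, mul_smul, pos_spl_cG, pos_spl_xG, pos_spl_cG, h, fa_Tn_coe]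
      have h3 : ((r + ((1 : ℤ) : ℚ) : ℚ) : P1) = ((r + 1 : ℚ) : P1) := by simp
      rw [h3, fa_S_coe _ hr1, fa_Tn_coe]
      simp
  have h3 := h2 _ h1
  rw [← mul_smul, _root_.mul_inv_rev, mul_inv_cancel_left] at h3
  exact h3

lemma Pos_x (g : GA) : Disjoint (Pos g) (Pos (g * xG)) := by
  rw [Set.disjoint_left]
  intro y hy hy'
  obtain ⟨r, hr, h⟩ : g⁻¹ • y ∈ Pos0 := hy
  obtain ⟨s, hs, h'⟩ : (g * xG)⁻¹ • y ∈ Pos0 := hy'
  rw [_root_.mul_inv_rev, xG_inv, mul_smul, pos_spl_xG, h, fa_S_coe _ hr.ne',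
    OnePoint.coe_eq_coe] at h'
  have h1 : -1 / r < 0 := by
    rw [neg_div]
    have : 0 < 1 / r := by positivity
    linarith
  linarith

/-- the third vertex of the triangle belongs to the half space -/
lemma third_mem_Pos (g : GA) : (g * cG * xG) • v0 ∈ Pos g := by
  change g⁻¹ • (g * cG * xG) • v0 ∈ Pos0
  rw [← mul_smul, mul_assoc, inv_mul_cancel_left, mul_smul]
  refine ⟨1, one_pos, ?_⟩
  rw [pos_spl_cG, pos_spl_xG, spl_v0, fa_S_infty, fa_Tn_coe]
  simp

/-- the vertices of the frames `g`, `g x`, `g c`, `g c x`, `g d`, `g d x` -/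
lemma d_smul (g : GA) : (g * (cG * xG * cG)) • v0 = (g * cG * xG) • v0 := by
  have h : cG • v0 = v0 := iP_smul_v0 cP
  rw [← mul_assoc, ← mul_assoc, mul_smul (g * cG * xG), h]

lemma dx_smul (g : GA) : (g * (cG * xG * cG) * xG) • v0 = (g * xG) • v0 := by
  have h : cG⁻¹ • v0 = v0 := by
    rw [inv_smul_eq_iff]
    exact (iP_smul_v0 cP).symm
  have h1 : g * (cG * xG * cG) * xG = g * xG * cG⁻¹ := by
    have h2 : cG * xG * cG * xG = xG * cG⁻¹ := by
      rw [mul_assoc, mul_assoc, ← mul_assoc xG cG xG, xG_cG_rel, mul_assoc, mul_inv_cancel_left]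
    rw [mul_assoc g, h2, mul_assoc]
  rw [h1, mul_smul (g * xG), h]

lemma pos_jn_zero : jn (((0 : ℚ) : P1), tnil) = xG • v0 := by
  have h1 : v0 = jn (∞, tnil) := rfl
  rw [xG, iH_smul, h1, hw_jn, fa_S_infty, sh_tnil]

/-- An edge from the half space to its complement ends in `g v0` or `g x v0`. -/
lemma Pos_exit {g : GA} {y y' : Wd} (h : Gr.Adj y y') (hy : y ∈ Pos g) (hy' : y' ∉ Pos g) :
    y' = g • v0 ∨ y' = (g * xG) • v0 := by
  obtain ⟨r, hr, hr'⟩ : g⁻¹ • y ∈ Pos0 := hy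
  have h0 : ¬ g⁻¹ • y' ∈ Pos0 := hy'
  have h1 : Gr.Adj (g⁻¹ • y) (g⁻¹ • y') := (Gr_adj_smul g⁻¹).2 h
  rcases adj_spl h1 with h2 | ⟨-, h2, h3⟩
  · exact absurd ⟨r, hr, by rw [← h2, hr']⟩ h0
  · have h4 : g⁻¹ • y' = jn ((spl (g⁻¹ • y')).1, tnil) := by
      conv_lhs => rw [← jn_spl (g⁻¹ • y')]
      rw [← h2]
    rw [hr'] at h3
    generalize hs : (spl (g⁻¹ • y')).1 = s at h3 h4
    induction s using OnePoint.rec with
    | infty =>
      left
      rw [jn_infty, tnil_toWd, inv_smul_eq_iff] at h4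
      exact h4
    | coe s =>
      have h5 : ¬ 0 < s := fun h6 => h0 ⟨s, h6, hs⟩
      have h6 := FAdj_no_int h3.symm 0
      have h7 : s = 0 := by
        by_contra h8
        exact h6 ⟨by
          push_cast
          exact lt_of_le_of_ne (not_lt.1 h5) h8, by simpa using hr⟩
      subst h7
      right
      rw [pos_jn_zero, inv_smul_eq_iff] at h4
      rw [h4, mul_smul]

end Pool.Agent.Helper77.HB
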