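import Pool.Agent.Helper77.HB.GrComb2
import Pool.Agent.Helper77.HB.Bottle

/-!
# Gates in `Gr`, geodesics, hyperbolicity
-/

namespace Pool.Agent.Helper77.HB

open Matrix OnePoint

/-- Distances in the frame `g`. -/
lemma dist_frame (g : GA) (y : Wd) : Gr.dist v0 (g⁻¹ • y) = Gr.dist (g • v0) y := by
  have := Gr_dist_smul g v0 (g⁻¹ • y)
  rw [smul_inv_smul] at this
  exact this.symm

lemma ne_v0_of_dist {y : Wd} (h : 0 < Gr.dist v0 y) : y ≠ v0 := by
  rintro rfl
  simp at h

lemma not_adj_of_dist {y : Wd} (h : 1 < Gr.dist v0 y) : ¬ Gr.Adj v0 y := by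
  intro h1
  rw [SimpleGraph.dist_eq_one_iff_adj.2 h1] at h
  exact absurd h (lt_irrefl _)

/-- Gates at `g v0` do not change along edges at distance at least two from `g v0`. -/
lemma gt_adj_far (g : GA) {y y' : Wd} (h : Gr.Adj y y') (h1 : 1 < Gr.dist (g • v0) y)
    (h2 : 1 < Gr.dist (g • v0) y') : gt g y = gt g y' := by
  rw [← dist_frame] at h1 h2
  exact (fl_adj_far ((Gr_adj_smul g⁻¹).2 h) (ne_v0_of_dist (by omega)) (ne_v0_of_dist (by omega))
    (not_adj_of_dist h1) (not_adj_of_dist h2)).symm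

lemma gt_walk (g : GA) {y y' : Wd} (w : Gr.Walk y y')
    (h : ∀ z ∈ w.support, 1 < Gr.dist (g • v0) z) : gt g y = gt g y' :=
  gate_walk Gr 1 (fun _ y => gt g y) (g • v0) (fun _ _ h h1 h2 => gt_adj_far g h h1 h2) w h

/-- A walk between two vertices with different gates at `g v0` meets the ball of radius one. -/
lemma gt_meet (g : GA) {y y' : Wd} (w : Gr.Walk y y') (h : gt g y ≠ gt g y') :
    ∃ z ∈ w.support, Gr.dist (g • v0) z ≤ 1 := by
  by_contra hcon
  push Not at hcon
  exact h (gt_walk g w hcon)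

lemma gt_one (y : Wd) : gt 1 y = fl y := by
  rw [gt, inv_one, one_smul]

/-- the gate of a vertex in terms of the last vertex before `v0` on a geodesic -/
lemma fl_last {y n : Wd} (hn : Gr.Adj v0 n) (h : Gr.dist n y + 1 = Gr.dist v0 y) :
    fl y = fl n ∨ fl y = fl n * cP⁻¹ := by
  obtain ⟨w, hw⟩ := (Gr_connected n y).exists_walk_length_eq_dist
  cases w with
  | nil => left; rfl
  | @cons _ n' _ hadj p =>
    rw [SimpleGraph.Walk.length_cons] at hw
    have hp : ∀ z ∈ p.support, 1 < Gr.dist v0 z := by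
      intro z hz
      have h1 : Gr.dist z y ≤ p.length := by
        classical
        have h3 := congrArg SimpleGraph.Walk.length (p.take_spec hz)
        rw [SimpleGraph.Walk.length_append] at h3
        have h4 := SimpleGraph.dist_le (p.dropUntil z hz)
        omega
      have h2 := Gr_connected.dist_triangle (u := v0) (v := z) (w := y)
      omega
    have hn' : 1 < Gr.dist v0 n' := hp n' (by simp)
    have h1 := fl_adj_near hadj (ne_v0_of_dist (by omega)) hn (not_adj_of_dist hn')
    have h2 : gt 1 n' = gt 1 y := gt_walk 1 p (by simpa using hp)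
    rw [gt_one, gt_one] at h2
    rw [← h2]
    exact h1

lemma tri_iP (p : P) : Gr.Adj (cons p zt tnil) (cons (p * cP) zt tnil) := by
  have h := (Gr_adj_smul (iP p)).2 tri
  have h1 : iP p • xG • v0 = cons p zt tnil := by rw [← mul_smul, iP_xG_v0]
  have h2 : iP p • (cG * xG) • v0 = cons (p * cP) zt tnil := by
    rw [← mul_smul, ← mul_assoc, cG, ← map_mul, iP_xG_v0]
  rwa [h1, h2] at h

/-- a neighbour of `v0` on a geodesic from `v0` -/
lemma exists_first {y : Wd} (hy : y ≠ v0) :
    ∃ n, Gr.Adj v0 n ∧ Gr.dist n y + 1 = Gr.dist v0 y := by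
  obtain ⟨w, hw⟩ := (Gr_connected v0 y).exists_walk_length_eq_dist
  cases w with
  | nil => exact absurd rfl hy
  | @cons _ n' _ hadj p =>
    rw [SimpleGraph.Walk.length_cons] at hw
    refine ⟨n', hadj, ?_⟩
    have h1 := SimpleGraph.dist_le p
    have h2 := Gr_connected.dist_triangle (u := v0) (v := n') (w := y)
    rw [SimpleGraph.dist_eq_one_iff_adj.2 hadj] at h2
    omega

lemma fl_geod {y y' : Wd} (hy : y ≠ v0) (hy' : y' ≠ v0)
    (h : Gr.dist y v0 + Gr.dist v0 y' = Gr.dist y y') : fl y ≠ fl y' := by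
  intro hfl
  obtain ⟨n, hn, dn⟩ := exists_first hy
  obtain ⟨m, hm, dm⟩ := exists_first hy'
  have e1 := fl_last hn dn
  have e2 := fl_last hm dm
  have key : Gr.dist n m ≤ 1 := by
    obtain ⟨p, rfl⟩ := adj_v0.1 hn
    obtain ⟨q, rfl⟩ := adj_v0.1 hm
    simp only [fl_cons] at e1 e2
    have hd1 : ∀ r : P, Gr.dist (cons r zt tnil) (cons (r * cP) zt tnil) ≤ 1 := fun r =>
      (SimpleGraph.dist_eq_one_iff_adj.2 (tri_iP r)).le
    have hcase : q = p ∨ q = p * cP ∨ p = q * cP := by
      rcases e1 with e1 | e1 <;> rcases e2 with e2 | e2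
      · left; rw [← e2, ← e1, hfl]
      · right; left
        have : p = q * cP⁻¹ := by rw [← e1, hfl, e2]
        rw [this]; simp
      · right; right
        have : q = p * cP⁻¹ := by rw [← e1, hfl, e2]
        rw [this]; simp
      · left
        have : p * cP⁻¹ = q * cP⁻¹ := by rw [← e1, hfl, e2]
        exact (mul_right_cancel this).symm
    rcases hcase with h1 | h1 | h1
    · rw [h1]; simp
    · rw [h1]; exact hd1 p
    · rw [h1, SimpleGraph.dist_comm]; exact hd1 q
  have t1 := Gr_connected.dist_triangle (u := y) (v := n) (w := y')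
  have t2 := Gr_connected.dist_triangle (u := n) (v := m) (w := y')
  rw [SimpleGraph.dist_comm (u := y) (v := n)] at t1
  rw [SimpleGraph.dist_comm (u := y) (v := v0)] at h
  omega

/-- The ends of a geodesic through `g v0` have different gates at `g v0`. -/
lemma gt_geod (g : GA) {y y' : Wd} (hy : y ≠ g • v0) (hy' : y' ≠ g • v0)
    (h : Gr.dist y (g • v0) + Gr.dist (g • v0) y' = Gr.dist y y') : gt g y ≠ gt g y' := by
  refine fl_geod ?_ ?_ ?_
  · rwa [Ne, inv_smul_eq_iff]
  · rwa [Ne, inv_smul_eq_iff]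
  · rw [SimpleGraph.dist_comm (v := v0), dist_frame, dist_frame, Gr_dist_smul,
      SimpleGraph.dist_comm (v := y)]
    exact h

theorem Gr_hyp : Hyp Gr 1 := by
  refine hyp_of_gates Gr 1 Gr_connected (fun z y => gt (frame z) y) ?_ ?_
  · intro z y y' h h1 h2
    refine gt_adj_far (frame z) h ?_ ?_
    · rwa [frame_smul]
    · rwa [frame_smul]
  · intro z y y' h1 h2 h3
    refine gt_geod (frame z) ?_ ?_ ?_
    · rw [frame_smul]; exact h1.symm
    · rw [frame_smul]; exact h2.symm
    · rwa [frame_smul]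

lemma dist_getVert_le {a b : Wd} (w : Gr.Walk a b) (i k : ℕ) (h : i + k ≤ w.length) :
    Gr.dist (w.getVert i) (w.getVert (i + k)) ≤ k := by
  induction k with
  | zero => simp
  | succ k ih =>
    have h1 := ih (by omega)
    have h2 := w.adj_getVert_succ (i := i + k) (by omega)
    have h3 := Gr_connected.dist_triangle (u := w.getVert i) (v := w.getVert (i + k))
      (w := w.getVert (i + k + 1))
    rw [SimpleGraph.dist_eq_one_iff_adj.2 h2] at h3
    rw [← add_assoc]
    omega

lemma dist_getVert_ge {a b : Wd} (w : Gr.Walk a b) (hw : IsGeod Gr w) (i k : ℕ)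
    (h : i + k ≤ w.length) : k ≤ Gr.dist (w.getVert i) (w.getVert (i + k)) := by
  have h1 := dist_getVert_le w 0 i (by omega)
  have h2 := dist_getVert_le w (i + k) (w.length - (i + k)) (by omega)
  rw [show i + k + (w.length - (i + k)) = w.length by omega, w.getVert_length] at h2
  rw [w.getVert_zero, zero_add] at h1
  have h3 := Gr_connected.dist_triangle (u := a) (v := w.getVert i) (w := b)
  have h4 := Gr_connected.dist_triangle (u := w.getVert i) (v := w.getVert (i + k)) (w := b)
  unfold IsGeod at hw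
  omega

lemma fl_avoid {y y' : Wd} (w : Gr.Walk y y') (hw : IsGeod Gr w)
    (hz : v0 ∉ w.support) : ∃ i : ℤ, |i| ≤ 4 ∧ fl y' = fl y * cP ^ i := by
  classical
  have hne : ∀ i, w.getVert i ≠ v0 := fun i h => hz (h ▸ w.getVert_mem_support i)
  -- the position of the first neighbour of `v0`
  obtain ⟨i₀, hi₀⟩ : ∃ i₀ : ℕ, ∀ i, i ≤ w.length → Gr.Adj v0 (w.getVert i) →
      i₀ ≤ i ∧ i ≤ i₀ + 2 := by
    by_cases hS : ∃ i, i ≤ w.length ∧ Gr.Adj v0 (w.getVert i)
    · refine ⟨Nat.find hS, fun i hi hadj => ⟨Nat.find_min' hS ⟨hi, hadj⟩, ?_⟩⟩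
      obtain ⟨h1, h2⟩ := Nat.find_spec hS
      have h3 : Nat.find hS ≤ i := Nat.find_min' hS ⟨hi, hadj⟩
      have h4 := dist_getVert_ge w hw (Nat.find hS) (i - Nat.find hS) (by omega)
      rw [show Nat.find hS + (i - Nat.find hS) = i by omega] at h4
      have h5 := Gr_connected.dist_triangle (u := w.getVert (Nat.find hS)) (v := v0)
        (w := w.getVert i)
      rw [SimpleGraph.dist_eq_one_iff_adj.2 hadj,
        SimpleGraph.dist_eq_one_iff_adj.2 h2.symm] at h5
      omega
    · exact ⟨0, fun i hi hadj => absurd ⟨i, hi, hadj⟩ hS⟩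
  -- the increments
  have hstep : ∀ i, ∃ e : ℤ, i < w.length →
      (fl (w.getVert (i + 1)) = fl (w.getVert i) * cP ^ e ∧
        |e| ≤ if i + 1 ∈ Finset.Icc i₀ (i₀ + 3) then 1 else 0) := by
    intro i
    by_cases hi : i < w.length
    · have hadj := w.adj_getVert_succ hi
      by_cases hmem : i + 1 ∈ Finset.Icc i₀ (i₀ + 3)
      · rw [if_pos hmem]
        rcases fl_adj hadj (hne i) (hne (i + 1)) with h | h | h
        · exact ⟨0, fun _ => ⟨by rw [h, zpow_zero, mul_one], by simp⟩⟩
        · exact ⟨1, fun _ => ⟨by rw [h, zpow_one], by simp⟩⟩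
        · exact ⟨-1, fun _ => ⟨by rw [h, _root_.zpow_neg_one], by simp⟩⟩
      · rw [if_neg hmem]
        rw [Finset.mem_Icc] at hmem
        refine ⟨0, fun _ => ⟨?_, by simp⟩⟩
        rw [zpow_zero, mul_one]
        refine fl_adj_far hadj (hne i) (hne (i + 1)) ?_ ?_
        · intro h
          have := hi₀ i hi.le h
          omega
        · intro h
          have := hi₀ (i + 1) hi h
          omega
    · exact ⟨0, fun h => absurd h hi⟩
  choose e he using hstep
  have hsum : ∀ k, k ≤ w.length →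
      fl (w.getVert k) = fl y * cP ^ (∑ i ∈ Finset.range k, e i) := by
    intro k
    induction k with
    | zero => intro _; simp
    | succ k ih =>
      intro hk
      rw [(he k (by omega)).1, ih (by omega), Finset.sum_range_succ, _root_.zpow_add, mul_assoc]
  refine ⟨∑ i ∈ Finset.range w.length, e i, ?_, ?_⟩
  · have h1 : |∑ i ∈ Finset.range w.length, e i| ≤ ∑ i ∈ Finset.range w.length,
        (if i + 1 ∈ Finset.Icc i₀ (i₀ + 3) then (1 : ℤ) else 0) :=
      (Finset.abs_sum_le_sum_abs _ _).trans (Finset.sum_le_sum fun i hi =>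
        (he i (Finset.mem_range.1 hi)).2)
    refine h1.trans ?_
    rw [← Finset.sum_filter, Finset.sum_const, nsmul_eq_mul, mul_one]
    have h2 : ((Finset.range w.length).filter
        (fun i => i + 1 ∈ Finset.Icc i₀ (i₀ + 3))).card ≤ (Finset.Icc i₀ (i₀ + 3)).card :=
      Finset.card_le_card_of_injOn (fun i => i + 1)
        (fun i hi => (Finset.mem_filter.1 hi).2) (fun a _ b _ h => by
          have : a + 1 = b + 1 := h
          omega)
    rw [Nat.card_Icc] at h2
    have h3 : i₀ + 3 + 1 - i₀ = 4 := by omega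
    rw [h3] at h2
    exact_mod_cast h2
  · have := hsum w.length le_rfl
    rwa [w.getVert_length] at this

/-- The gate at `g v0` changes by at most `c ^ (± 4)` along a geodesic not containing `g v0`. -/
lemma gt_avoid (g : GA) {y y' : Wd} (w : Gr.Walk y y') (hw : IsGeod Gr w)
    (hz : g • v0 ∉ w.support) : ∃ i : ℤ, |i| ≤ 4 ∧ gt g y' = gt g y * cP ^ i := by
  have h1 : IsGeod Gr (w.map (grHom g⁻¹)) := by
    have : Gr.dist (g⁻¹ • y) (g⁻¹ • y') = Gr.dist y y' := Gr_dist_smul _ _ _
    unfold IsGeod at hw ⊢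
    rw [SimpleGraph.Walk.length_map, hw]
    exact this.symm
  have h2 : v0 ∉ (w.map (grHom g⁻¹)).support := by
    rw [SimpleGraph.Walk.support_map, List.mem_map]
    rintro ⟨z, hz1, hz2⟩
    have hz3 : g⁻¹ • z = v0 := hz2
    rw [inv_smul_eq_iff] at hz3
    exact hz (hz3 ▸ hz1)
  exact fl_avoid (w.map (grHom g⁻¹)) h1 h2

end Pool.Agent.Helper77.HB
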