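import Pool.Agent.Helper77.HB.GrGate2
import Pool.Agent.Helper77.HB.GH

/-!
# Gates of the points at infinity of `Gr`
-/

namespace Pool.Agent.Helper77.HB

open Matrix OnePoint

/-- A vertex of a geodesic walk. -/
lemma geod_mem {y y' u : Wd} (w : Gr.Walk y y') (hw : w.length = Gr.dist y y')
    (hu : u ∈ w.support) : Gr.dist y u + Gr.dist u y' = Gr.dist y y' := by
  classical
  have h1 := SimpleGraph.dist_le (w.takeUntil u hu)
  have h2 := SimpleGraph.dist_le (w.dropUntil u hu)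
  have h3 : (w.takeUntil u hu).length + (w.dropUntil u hu).length = w.length := by
    rw [← SimpleGraph.Walk.length_append, SimpleGraph.Walk.take_spec]
  have h4 := Gr_connected.dist_triangle (u := y) (v := u) (w := y')
  omega

/-- A geodesic between two vertices with large Gromov product avoids the ball of radius one
around `z`. -/
lemma gate_eq_of_gp (g : GA) {y y' : Wd} (h : (Gr.dist v0 (g • v0) : ℝ) + 1 < gp Gr v0 y y') :
    gt g y = gt g y' := by
  obtain ⟨w, hw⟩ := (Gr_connected y y').exists_walk_length_eq_dist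
  refine gt_walk g w (fun u hu => ?_)
  by_contra hcon
  have h1 := geod_mem w hw hu
  have h2 := Gr_connected.dist_triangle (u := v0) (v := u) (w := y)
  have h3 := Gr_connected.dist_triangle (u := v0) (v := u) (w := y')
  have h4 := Gr_connected.dist_triangle (u := v0) (v := g • v0) (w := u)
  have h5 : Gr.dist y u = Gr.dist u y := SimpleGraph.dist_comm
  have h6 : Gr.dist v0 y + Gr.dist v0 y' ≤ 2 * (Gr.dist v0 (g • v0) + 1) + Gr.dist y y' := by
    omega
  have h7 : (Gr.dist v0 y : ℝ) + Gr.dist v0 y' ≤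
      2 * (Gr.dist v0 (g • v0) + 1) + Gr.dist y y' := by exact_mod_cast h6
  unfold gp at h
  linarith

/-- If the gates at `g v0` are different, a geodesic passes near `g v0`. -/
lemma dist_of_gate_ne (g : GA) {y y' : Wd} (h : gt g y ≠ gt g y') :
    Gr.dist y (g • v0) + Gr.dist (g • v0) y' ≤ Gr.dist y y' + 2 := by
  obtain ⟨w, hw⟩ := (Gr_connected y y').exists_walk_length_eq_dist
  obtain ⟨u, hu, hd⟩ := gt_meet g w h
  have h1 := geod_mem w hw hu
  have h2 := Gr_connected.dist_triangle (u := y) (v := u) (w := g • v0)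
  have h3 := Gr_connected.dist_triangle (u := g • v0) (v := u) (w := y')
  have h5 : Gr.dist (g • v0) u = Gr.dist u (g • v0) := SimpleGraph.dist_comm
  omega

lemma gp_self_v0 (y : Wd) : gp Gr v0 y y = Gr.dist v0 y := by
  unfold gp
  rw [SimpleGraph.dist_self]
  push_cast
  ring

/-- The gate at `g v0` is constant near a point at infinity. -/
theorem inf_gate (g : GA) (ξ : GBd Gr) :
    ∃ (p : P) (R : ℕ), ∀ y ∈ near (Γ := Gr) v0 R ξ, y ≠ g • v0 ∧ gt g y = p := by
  obtain ⟨C, hC0, hC⟩ := gp_of_near Gr_hyp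
  obtain ⟨R, hR⟩ := exists_nat_ge (((Gr.dist v0 (g • v0) : ℝ) + 2) + C)
  obtain ⟨y0, hy0⟩ := gbd_nonempty ξ
  obtain ⟨N, hN⟩ := near_seq hy0 v0 (R : ℝ)
  refine ⟨gt g (y0 N), R, fun y hy => ⟨?_, ?_⟩⟩
  · rintro rfl
    have h1 := near_dist Gr_connected hy
    linarith
  · have h1 := hC v0 ((Gr.dist v0 (g • v0) : ℝ) + 2) ξ (y0 N)
      (near_mono hR ξ (hN N le_rfl)) y (near_mono hR ξ hy)
    exact gate_eq_of_gp g (by linarith)

/-- The half spaces `{y | gt g y = 1}` form a neighbourhood basis of a point at infinity. -/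
theorem inf_phi (ξ : GBd Gr) (R : ℕ) : ∃ g : GA,
    (∃ R' : ℕ, ∀ y ∈ near (Γ := Gr) v0 R' ξ, y ≠ g • v0 ∧ gt g y = 1) ∧
      ∀ y, y ≠ g • v0 → gt g y = 1 → y ∈ near (Γ := Gr) v0 R ξ := by
  obtain ⟨ys, hys⟩ := gbd_nonempty ξ
  obtain ⟨N, hN⟩ := toInf_of_mem hys v0 ((R + 4 : ℕ) : ℝ)
  -- the vertex `z`
  have hdN : R + 4 ≤ Gr.dist v0 (ys N) := by
    have h1 := hN N le_rfl N le_rfl
    rw [gp_self_v0] at h1
    exact_mod_cast h1
  obtain ⟨w, hw⟩ := (Gr_connected v0 (ys N)).exists_walk_length_eq_dist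
  obtain ⟨z, hz1⟩ : ∃ z, Gr.dist v0 z = R + 2 ∧
      Gr.dist z (ys N) + (R + 2) = Gr.dist v0 (ys N) := by
    refine ⟨w.getVert (R + 2), ?_⟩
    have h1 := SimpleGraph.dist_le (w.take (R + 2))
    have h2 := SimpleGraph.dist_le (w.drop (R + 2))
    rw [SimpleGraph.Walk.take_length] at h1
    rw [SimpleGraph.Walk.drop_length] at h2
    have h3 := Gr_connected.dist_triangle (u := v0) (v := w.getVert (R + 2)) (w := ys N)
    omega
  have hzv : v0 ≠ z := by
    rintro h
    rw [← h, SimpleGraph.dist_self] at hz1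
    omega
  have hzN : ys N ≠ z := by
    rintro h
    rw [← h] at hz1
    omega
  have hfr : frame z • v0 = z := frame_smul z
  -- the gates of the sequence at `z`
  have hgate : ∀ n ≥ N, gt (frame z) (ys n) = gt (frame z) (ys N) := by
    intro n hn
    refine gate_eq_of_gp _ ?_
    rw [hfr, hz1.1]
    have h1 := hN n hn N le_rfl
    push_cast at h1 ⊢
    linarith
  have hgate0 : gt (frame z) v0 ≠ gt (frame z) (ys N) := by
    refine gt_geod (frame z) (by rw [hfr]; exact hzv) (by rw [hfr]; exact hzN) ?_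
    rw [hfr]
    omega
  set p : P := gt (frame z) (ys N) with hp
  have hg : (frame z * iP p) • v0 = z := by rw [mul_smul, iP_smul_v0, hfr]
  refine ⟨frame z * iP p, ?_, ?_⟩
  · obtain ⟨p', R', hR'⟩ := inf_gate (frame z) ξ
    rw [hfr] at hR'
    obtain ⟨N', hN'⟩ := near_seq hys v0 (R' : ℝ)
    have hpp : p' = p := by
      have h1 := (hR' _ (hN' (max N N') (le_max_right _ _))).2
      rw [← h1]
      exact hgate _ (le_max_left _ _)
    refine ⟨R', fun y hy => ?_⟩
    obtain ⟨h1, h2⟩ := hR' y hy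
    rw [hg]
    refine ⟨h1, ?_⟩
    rw [gt_frame_mul _ _ (by rw [hfr]; exact h1), h2, hpp, inv_mul_cancel]
  · intro y hy h1
    rw [hg] at hy
    rw [gt_frame_mul _ _ (by rw [hfr]; exact hy), inv_mul_eq_one] at h1
    refine ⟨ys, hys, N, fun n hn => ?_⟩
    have h2 := dist_of_gate_ne (frame z) (y := v0) (y' := y) (by rw [← h1]; exact hgate0)
    have h3 := dist_of_gate_ne (frame z) (y := v0) (y' := ys n)
      (by rw [hgate n hn]; exact hgate0)
    rw [hfr, hz1.1] at h2 h3
    have h4 := Gr_connected.dist_triangle (u := y) (v := z) (w := ys n)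
    have h5 : Gr.dist y z = Gr.dist z y := SimpleGraph.dist_comm
    have h6 : 2 * R + Gr.dist y (ys n) ≤ Gr.dist v0 y + Gr.dist v0 (ys n) := by omega
    have h7 : 2 * (R : ℝ) + Gr.dist y (ys n) ≤ Gr.dist v0 y + Gr.dist v0 (ys n) := by
      exact_mod_cast h6
    unfold gp
    linarith

/-- What is behind a vertex near `ξ` is near `ξ`. -/
theorem near_behind (ξ : GBd Gr) (R : ℕ) : ∃ R' : ℕ, R ≤ R' ∧ ∀ g : GA,
    g • v0 ∈ near (Γ := Gr) v0 R' ξ → ∀ y, gt g y ≠ gt g v0 → y ∈ near (Γ := Gr) v0 R ξ := by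
  obtain ⟨C, hC0, hC⟩ := near_trans Gr_hyp
  obtain ⟨R', hR'⟩ := exists_nat_ge ((R : ℝ) + C + 1)
  refine ⟨R', ?_, ?_⟩
  · have h1 : (R : ℝ) ≤ R' := by linarith
    exact_mod_cast h1
  · intro g hg y hy
    have h1 := near_dist Gr_connected hg
    have h2 := dist_of_gate_ne g (y := v0) (y' := y) (fun h => hy h.symm)
    refine hC v0 R ξ (g • v0) (near_mono (by linarith) ξ hg) y ?_
    have h3 : (Gr.dist v0 (g • v0) : ℝ) + Gr.dist (g • v0) y ≤ Gr.dist v0 y + 2 := by
      exact_mod_cast h2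
    have h5 : Gr.dist y (g • v0) = Gr.dist (g • v0) y := SimpleGraph.dist_comm
    unfold gp
    rw [h5]
    linarith

end Pool.Agent.Helper77.HB
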