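import Pool.Agent.Helper77.HB.HHS
import Pool.Agent.Helper77.HB.Tree
import Pool.Agent.Helper77.HB.GrGate2

/-!
# The projections are Lipschitz; consistency
-/

namespace Pool.Agent.Helper77.HB

open Matrix OnePoint

private lemma hhsb_adj {x s : GA} (hs : s ∈ genA) : (Cay GA genA).Reachable x (x * s) := by
  by_cases h : x = x * s
  · rw [← h]
  · exact SimpleGraph.Adj.reachable ⟨h, Or.inl ⟨s, hs, rfl⟩⟩

private lemma hhsb_reach {g : GA} (hg : g ∈ Subgroup.closure genA) :
    ∀ x : GA, (Cay GA genA).Reachable x (x * g) := by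
  induction hg using Subgroup.closure_induction with
  | mem s hs => exact fun x => hhsb_adj hs
  | one => intro x; rw [mul_one]
  | mul g h _ _ ihg ihh =>
    intro x
    rw [← mul_assoc]
    exact (ihg x).trans (ihh (x * g))
  | inv g _ ihg =>
    intro x
    have := ihg (x * g⁻¹)
    rw [inv_mul_cancel_right] at this
    exact this.symm

private lemma hhsb_conn (x y : GA) : (Cay GA genA).Reachable x y := by
  have := hhsb_reach (g := x⁻¹ * y) (closure_genA ▸ Subgroup.mem_top _) x
  rwa [mul_inv_cancel_left] at this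

/-- A map which is 1-Lipschitz on generators is 1-Lipschitz. -/
private lemma hhsb_lip {α : Type} (Γ : SimpleGraph α) (hΓ : Γ.Connected) (f : GA → α)
    (hf : ∀ h, ∀ s ∈ genA, Γ.dist (f h) (f (h * s)) ≤ 1) (x y : GA) :
    Γ.dist (f x) (f y) ≤ (Cay GA genA).dist x y := by
  obtain ⟨w, hw⟩ := (hhsb_conn x y).exists_walk_length_eq_dist
  rw [← hw]
  clear hw
  induction w with
  | nil => simp
  | @cons u v z hadj p ih =>
    rw [SimpleGraph.Walk.length_cons]
    have h1 : Γ.dist (f u) (f v) ≤ 1 := by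
      obtain ⟨-, ⟨s, hs, rfl⟩ | ⟨s, hs, rfl⟩⟩ := hadj
      · exact hf u s hs
      · rw [SimpleGraph.dist_comm]
        exact hf v s hs
    have h2 := hΓ.dist_triangle (u := f u) (v := f v) (w := f z)
    omega

private lemma hhsb_TF_mul (u q : F) : TF.dist u (u * q) = q.norm := by
  rw [TF_dist, inv_mul_cancel_left]

private lemma hhsb_fst (lam : Bool) (p q : P) :
    (kap lam (p * q)).1 = (kap lam p).1 * (kap lam q).1 := by rw [kap_mul]

private lemma hhsb_snd (lam : Bool) (p q : P) :
    (kap lam (p * q)).2 = (kap lam p).2 + (kap lam q).2 := by rw [kap_mul]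

private lemma hhsb_inv (lam : Bool) (q : P) :
    (kap lam q⁻¹).1 = (kap lam q).1⁻¹ ∧ (kap lam q⁻¹).2 = -(kap lam q).2 := by
  have h := kap_mul lam q q⁻¹
  rw [mul_inv_cancel, kap_one, Prod.mk.injEq] at h
  exact ⟨(inv_eq_of_mul_eq_one_right h.1.symm).symm, by omega⟩

private lemma hhsb_gen (lam : Bool) {q : P} (hq : q = aP ∨ q = bP ∨ q = cP) :
    (kap lam q).1.norm ≤ 1 ∧ ((kap lam q).2).natAbs ≤ 1 := by
  have hlv : lv lam = 0 ∨ lv lam = 1 := by
    cases lam <;> simp [lv]
  rcases hq with rfl | rfl | rfl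
  · constructor
    · simp [kap, aP]
    · have h : ex aP = 0 := by simp [ex, aP, phi]
      have h2 : (kap lam aP).2 = 0 := by
        show Multiplicative.toAdd aP.2 + lv lam * ex aP = 0
        rw [h, mul_zero, add_zero]
        rfl
      rw [h2]
      simp
  · constructor
    · simp [kap, bP]
    · have : ex bP = 0 := by simp [ex, bP, phi]
      rcases hlv with h | h <;> simp [kap, h, this] <;> simp [bP]
  · constructor
    · simp [kap, cP]
    · rcases hlv with h | h <;> simp [kap, h, ex_cP] <;> simp [cP]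

private lemma hhsb_step (lam : Bool) (p : P) {p' : P} (h : p' = p ∨
    ∃ q : P, (q = aP ∨ q = bP ∨ q = cP) ∧ (p' = p * q ∨ p' = p * q⁻¹)) :
    TF.dist (kap lam p).1 (kap lam p').1 ≤ 1 ∧ ZL.dist (kap lam p).2 (kap lam p').2 ≤ 1 := by
  rcases h with rfl | ⟨q, hq, rfl | rfl⟩
  · simp
  · obtain ⟨h1, h2⟩ := hhsb_gen lam hq
    rw [hhsb_fst, hhsb_TF_mul, hhsb_snd, ZL_dist]
    exact ⟨h1, by omega⟩
  · obtain ⟨h1, h2⟩ := hhsb_gen lam hq
    rw [hhsb_fst, hhsb_TF_mul, hhsb_snd, ZL_dist, (hhsb_inv lam q).1, (hhsb_inv lam q).2,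
      FreeGroup.norm_inv_eq]
    exact ⟨h1, by omega⟩

theorem ax_pr_lip (lam : Bool) (D : Dm) (x y : GA) : ∀ a ∈ Dpr lam D x, ∀ b ∈ Dpr lam D y,
    (DΓ D).dist a b ≤ 1 * (Cay GA genA).dist x y + 1 := by
  have key : ∀ v h, ∀ s ∈ genA, pg (frame v) (h * s) = pg (frame v) h ∨
      ∃ q : P, (q = aP ∨ q = bP ∨ q = cP) ∧
        (pg (frame v) (h * s) = pg (frame v) h * q ∨ pg (frame v) (h * s) = pg (frame v) h * q⁻¹) := by
    intro v h s hs
    have := fg_gen ((frame v)⁻¹ * h) s hs
    rw [mul_assoc] at this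
    exact this
  cases D with
  | top =>
    intro a ha b hb
    have ha' : a = x • v0 := ha
    have hb' : b = y • v0 := hb
    subst ha' hb'
    have h1 := hhsb_lip Gr Gr_connected (fun h => h • v0) (fun h s hs => ?_) x y
    · rw [one_mul]
      exact h1.trans (Nat.le_succ _)
    · have hP : ∀ p, Gr.dist (h • v0) ((h * iP p) • v0) ≤ 1 := fun p => by
        rw [mul_smul, iP_smul_v0, SimpleGraph.dist_self]
        exact Nat.zero_le _
      rcases hs with rfl | rfl | rfl | hs
      · exact hP aP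
      · exact hP bP
      · exact hP cP
      · rw [Set.mem_singleton_iff.1 hs]
        exact (SimpleGraph.dist_eq_one_iff_adj.2 (Gr_adj.2 ⟨h, rfl, rfl⟩)).le
  | V v =>
    intro a ha b hb
    have ha' : a = (kap lam (pg (frame v) x)).1 := ha
    have hb' : b = (kap lam (pg (frame v) y)).1 := hb
    subst ha' hb'
    have h1 := hhsb_lip TF TF_connected (fun h => (kap lam (pg (frame v) h)).1)
      (fun h s hs => (hhsb_step lam _ (key v h s hs)).1) x y
    rw [one_mul]
    exact h1.trans (Nat.le_succ _)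
  | U v =>
    intro a ha b hb
    have ha' : a = (kap lam (pg (frame v) x)).2 := ha
    have hb' : b = (kap lam (pg (frame v) y)).2 := hb
    subst ha' hb'
    have h1 := hhsb_lip ZL ZL_connected (fun h => (kap lam (pg (frame v) h)).2)
      (fun h s hs => (hhsb_step lam _ (key v h s hs)).2) x y
    rw [one_mul]
    exact h1.trans (Nat.le_succ _)

private lemma hhsb_cpow (lam : Bool) (p : P) {i : ℤ} (hi : |i| ≤ 1) :
    TF.dist (kap lam (p * cP ^ i)).1 (kap lam p).1 ≤ 1 ∧
      ZL.dist (kap lam (p * cP ^ i)).2 (kap lam p).2 ≤ 1 := by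
  have hlv : lv lam = 0 ∨ lv lam = 1 := by
    cases lam <;> simp [lv]
  have hi' : i = 0 ∨ i = 1 ∨ i = -1 := by
    rw [abs_le] at hi
    omega
  rw [hhsb_fst, hhsb_snd, SimpleGraph.dist_comm, hhsb_TF_mul, ZL_dist, kap_cP_zpow]
  constructor
  · rcases hi' with rfl | rfl | rfl
    · simp
    · simp
    · simp
  · rcases hi' with rfl | rfl | rfl <;> rcases hlv with h | h <;> simp [h]

theorem ax_cons_trans (lam : Bool) (V W : Dm) (h1 : ¬ Dnest V W) (h2 : ¬ Dnest W V)
    (h3 : ¬ Dorth V W) (x : GA) :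
    Near (DΓ W) (Dpr lam W x) (Drho lam V W) 1 ∨ Near (DΓ V) (Dpr lam V x) (Drho lam W V) 1 := by
  have key : ∀ v w : Wd, v ≠ w →
      (∃ i : ℤ, |i| ≤ 1 ∧ pg (frame w) x = gt (frame w) v * cP ^ i) ∨
      (∃ i : ℤ, |i| ≤ 1 ∧ pg (frame v) x = gt (frame v) w * cP ^ i) := by
    intro v w hvw
    have := pg_behr (frame w) (frame v) x (by rw [frame_smul, frame_smul]; exact hvw.symm)
    rwa [frame_smul, frame_smul] at this
  cases V with
  | top => exact absurd (Or.inl rfl) h2
  | V v =>
    cases W with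
    | top => exact absurd (Or.inl rfl) h1
    | V w =>
      have hvw : v ≠ w := by rintro rfl; exact h1 (Or.inr rfl)
      rcases key v w hvw with ⟨i, hi, hp⟩ | ⟨i, hi, hp⟩
      · left
        exact ⟨_, rfl, _, rfl, by rw [hp]; exact (hhsb_cpow lam _ hi).1⟩
      · right
        exact ⟨_, rfl, _, rfl, by rw [hp]; exact (hhsb_cpow lam _ hi).1⟩
    | U w =>
      have hvw : v ≠ w := h3
      rcases key v w hvw with ⟨i, hi, hp⟩ | ⟨i, hi, hp⟩
      · left
        exact ⟨_, rfl, _, rfl, by rw [hp]; exact (hhsb_cpow lam _ hi).2⟩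
      · right
        exact ⟨_, rfl, _, rfl, by rw [hp]; exact (hhsb_cpow lam _ hi).1⟩
  | U v =>
    cases W with
    | top => exact absurd (Or.inl rfl) h1
    | V w =>
      have hvw : v ≠ w := h3
      rcases key v w hvw with ⟨i, hi, hp⟩ | ⟨i, hi, hp⟩
      · left
        exact ⟨_, rfl, _, rfl, by rw [hp]; exact (hhsb_cpow lam _ hi).1⟩
      · right
        exact ⟨_, rfl, _, rfl, by rw [hp]; exact (hhsb_cpow lam _ hi).2⟩
    | U w =>
      have hvw : v ≠ w := by rintro rfl; exact h1 (Or.inr rfl)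
      rcases key v w hvw with ⟨i, hi, hp⟩ | ⟨i, hi, hp⟩
      · left
        exact ⟨_, rfl, _, rfl, by rw [hp]; exact (hhsb_cpow lam _ hi).2⟩
      · right
        exact ⟨_, rfl, _, rfl, by rw [hp]; exact (hhsb_cpow lam _ hi).2⟩

theorem ax_cons_nest (lam : Bool) (V W : Dm) (h1 : Dnest V W) (h2 : V ≠ W) (x : GA) :
    Near (DΓ W) (Dpr lam W x) (Drho lam V W) 1 ∨
      DiamLe (DΓ V) (Dpr lam V x ∪ ⋃ a ∈ Dpr lam W x, Ddown lam W V a) 1 := by
  obtain rfl : W = Dm.top := h1.resolve_right h2
  have hpg : ∀ v : Wd, x • v0 ≠ v → pg (frame v) x = gt (frame v) (x • v0) := by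
    intro v hv
    exact pg_of_ne (by rwa [frame_smul])
  cases V with
  | top => exact absurd rfl h2
  | V v =>
    by_cases hv : x • v0 = v
    · left
      refine ⟨x • v0, rfl, v, rfl, ?_⟩
      have : (DΓ Dm.top).dist (x • v0) v = 0 := by rw [hv]; exact SimpleGraph.dist_self
      rw [this]
      exact Nat.zero_le _
    · right
      have key : ∀ c ∈ (Dpr lam (.V v) x ∪ ⋃ a ∈ Dpr lam .top x, Ddown lam .top (.V v) a),
          c = (kap lam (gt (frame v) (x • v0))).1 := by
        intro c hc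
        rcases hc with hc | hc
        · have : c = (kap lam (pg (frame v) x)).1 := hc
          rw [this, hpg v hv]
        · obtain ⟨a, ha, hc⟩ := Set.mem_iUnion₂.1 hc
          have ha' : a = x • v0 := ha
          subst ha'
          simp only [Ddown, if_neg hv] at hc
          exact hc
      intro c hc d hd
      rw [key c hc, key d hd, SimpleGraph.dist_self]
      exact Nat.zero_le _
  | U v =>
    by_cases hv : x • v0 = v
    · left
      refine ⟨x • v0, rfl, v, rfl, ?_⟩
      have : (DΓ Dm.top).dist (x • v0) v = 0 := by rw [hv]; exact SimpleGraph.dist_self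
      rw [this]
      exact Nat.zero_le _
    · right
      have key : ∀ c ∈ (Dpr lam (.U v) x ∪ ⋃ a ∈ Dpr lam .top x, Ddown lam .top (.U v) a),
          c = (kap lam (gt (frame v) (x • v0))).2 := by
        intro c hc
        rcases hc with hc | hc
        · have : c = (kap lam (pg (frame v) x)).2 := hc
          rw [this, hpg v hv]
        · obtain ⟨a, ha, hc⟩ := Set.mem_iUnion₂.1 hc
          have ha' : a = x • v0 := ha
          subst ha'
          simp only [Ddown, if_neg hv] at hc
          exact hc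
      intro c hc d hd
      rw [key c hc, key d hd, SimpleGraph.dist_self]
      exact Nat.zero_le _

end Pool.Agent.Helper77.HB
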