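import Pool.Agent.Helper77.HB.HHS
import Pool.Agent.Helper77.HB.Tree
import Pool.Agent.Helper77.HB.GrGate2

/-!
# Large links and bounded geodesic image
-/

namespace Pool.Agent.Helper77.HB

open Matrix OnePoint

private lemma sdist_single {α : Type} (Γ : SimpleGraph α) (a b : α) :
    sdist Γ {a} {b} = Γ.dist a b := by
  unfold sdist
  have : {n | ∃ a' ∈ ({a} : Set α), ∃ b' ∈ ({b} : Set α), Γ.dist a' b' = n} = {Γ.dist a b} := by
    ext n
    simp only [Set.mem_singleton_iff, exists_eq_left, Set.mem_ofPred_eq]
    exact eq_comm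
  rw [this, csInf_singleton]

private lemma norm_zpow_of_le (b : Bool) (i : ℤ) :
    FreeGroup.norm ((FreeGroup.of b : F) ^ i) ≤ i.natAbs := by
  have h1 : ∀ n : ℕ, FreeGroup.norm ((FreeGroup.of b : F) ^ n) ≤ n := by
    intro n
    induction n with
    | zero => simp
    | succ n ih =>
      rw [pow_succ]
      refine (FreeGroup.norm_mul_le _ _).trans ?_
      rw [FreeGroup.norm_of]
      omega
  rcases Int.natAbs_eq i with h | h
  · rw [h, zpow_natCast, Int.natAbs_natCast]
    exact h1 _
  · rw [h, _root_.zpow_neg, zpow_natCast, FreeGroup.norm_inv_eq, Int.natAbs_neg, Int.natAbs_natCast]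
    exact h1 _

private lemma TF_dist_zpow (w : F) (i : ℤ) (hi : |i| ≤ 4) :
    TF.dist w (w * FreeGroup.of true ^ i) < 5 := by
  rw [TF_dist, inv_mul_cancel_left]
  have h1 := norm_zpow_of_le true i
  have h2 : i.natAbs ≤ 4 := by
    rw [Int.abs_eq_natAbs] at hi
    omega
  omega

private lemma ZL_dist_add (lam : Bool) (m i : ℤ) (hi : |i| ≤ 4) :
    ZL.dist m (m + lv lam * i) < 5 := by
  rw [ZL_dist]
  have h2 : i.natAbs ≤ 4 := by
    rw [Int.abs_eq_natAbs] at hi
    omega
  cases lam
  · simp [lv]
  · simp only [lv, if_true]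
    omega

theorem ax_large_links (lam : Bool) (W : Dm) (x x' : GA) : ∃ T : List Dm,
    T.length ≤ 2 * sdist (DΓ W) (Dpr lam W x) (Dpr lam W x') + 2 ∧
    (∀ V ∈ T, Dnest V W ∧ V ≠ W ∧
      Near (DΓ W) (Dpr lam W x) (Drho lam V W)
        (2 * sdist (DΓ W) (Dpr lam W x) (Dpr lam W x') + 2)) ∧
    ∀ V, Dnest V W → V ≠ W → (∃ V' ∈ T, Dnest V V') ∨
      sdist (DΓ V) (Dpr lam V x) (Dpr lam V x') < 5 := by
  classical
  by_cases hW : W = .top
  · subst hW
    obtain ⟨w, hw⟩ := Gr_connected.exists_walk_length_eq_dist (x • v0) (x' • v0)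
    have hs : sdist (DΓ .top) (Dpr lam .top x) (Dpr lam .top x') =
        Gr.dist (x • v0) (x' • v0) := sdist_single Gr (x • v0) (x' • v0)
    rw [hs]
    refine ⟨w.support.flatMap (fun v => [Dm.V v, Dm.U v]), ?_, ?_, ?_⟩
    · rw [List.length_flatMap]
      have : (w.support.map (fun v => [Dm.V v, Dm.U v].length)) =
          List.replicate w.support.length 2 := by
        simp
      rw [this, List.sum_replicate, SimpleGraph.Walk.length_support, hw]
      simp only [smul_eq_mul]
      omega
    · intro V hV
      rw [List.mem_flatMap] at hV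
      obtain ⟨v, hv, hV⟩ := hV
      have hd : Gr.dist (x • v0) v ≤ 2 * Gr.dist (x • v0) (x' • v0) + 2 := by
        have h1 : Gr.dist (x • v0) v ≤ (w.takeUntil v hv).length := SimpleGraph.dist_le _
        have h2 := w.length_takeUntil_le_length hv
        omega
      simp only [List.mem_cons, List.not_mem_nil, or_false] at hV
      rcases hV with rfl | rfl
      · exact ⟨Or.inl rfl, by simp, x • v0, rfl, v, rfl, hd⟩
      · exact ⟨Or.inl rfl, by simp, x • v0, rfl, v, rfl, hd⟩
    · intro V _ hV
      match V, hV with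
      | .top, hV => exact absurd rfl hV
      | .V v, _ =>
        by_cases hv : v ∈ w.support
        · exact Or.inl ⟨.V v, List.mem_flatMap.2 ⟨v, hv, by simp⟩, Or.inr rfl⟩
        · right
          obtain ⟨i, hi, h⟩ := gt_avoid (frame v) w hw (by rwa [frame_smul])
          have h1 : x • v0 ≠ frame v • v0 := by
            rw [frame_smul]; rintro rfl; exact hv w.start_mem_support
          have h2 : x' • v0 ≠ frame v • v0 := by
            rw [frame_smul]; rintro rfl; exact hv w.end_mem_support
          have h3 : sdist (DΓ (.V v)) (Dpr lam (.V v) x) (Dpr lam (.V v) x') =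
              TF.dist (kap lam (pg (frame v) x)).1 (kap lam (pg (frame v) x')).1 :=
            sdist_single TF _ _
          rw [h3, pg_of_ne h1, pg_of_ne h2, h, kap_mul, kap_cP_zpow]
          exact TF_dist_zpow _ i hi
      | .U v, _ =>
        by_cases hv : v ∈ w.support
        · exact Or.inl ⟨.U v, List.mem_flatMap.2 ⟨v, hv, by simp⟩, Or.inr rfl⟩
        · right
          obtain ⟨i, hi, h⟩ := gt_avoid (frame v) w hw (by rwa [frame_smul])
          have h1 : x • v0 ≠ frame v • v0 := by
            rw [frame_smul]; rintro rfl; exact hv w.start_mem_support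
          have h2 : x' • v0 ≠ frame v • v0 := by
            rw [frame_smul]; rintro rfl; exact hv w.end_mem_support
          have h3 : sdist (DΓ (.U v)) (Dpr lam (.U v) x) (Dpr lam (.U v) x') =
              ZL.dist (kap lam (pg (frame v) x)).2 (kap lam (pg (frame v) x')).2 :=
            sdist_single ZL _ _
          rw [h3, pg_of_ne h1, pg_of_ne h2, h, kap_mul, kap_cP_zpow]
          exact ZL_dist_add lam _ i hi
  · refine ⟨[], Nat.zero_le _, by simp, fun V h1 h2 => ?_⟩
    rcases h1 with h1 | h1
    · exact absurd h1 hW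
    · exact absurd h1 h2

private lemma gt_const (g : GA) {a b : Wd} (w : Gr.Walk a b)
    (h : ∀ z ∈ w.support, 1 < Gr.dist (g • v0) z) {z : Wd} (hz : z ∈ w.support) :
    gt g z = gt g a := by
  classical
  refine (gt_walk g (w.takeUntil z hz) (fun z' hz' => h z' ?_)).symm
  exact w.support_takeUntil_subset_support hz hz'

theorem ax_bgi (lam : Bool) (V W : Dm) (h1 : Dnest V W) (h2 : V ≠ W) (a b : DC W)
    (w : (DΓ W).Walk a b) (hw : IsGeod (DΓ W) w) :
    DiamLe (DΓ V) (⋃ z ∈ w.support, Ddown lam W V z) 5 ∨
      ∃ z ∈ w.support, ∃ r ∈ Drho lam V W, (DΓ W).dist z r ≤ 5 := by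
  have hW : W = .top := by
    rcases h1 with h1 | h1
    · exact h1
    · exact absurd h1 h2
  subst hW
  match V, h2 with
  | .top, h2 => exact absurd rfl h2
  | .V v, _ =>
    by_cases hfar : ∃ z ∈ w.support, Gr.dist z v ≤ 5
    · obtain ⟨z, hz, hd⟩ := hfar
      exact Or.inr ⟨z, hz, v, rfl, hd⟩
    · left
      push Not at hfar
      have hf : ∀ z ∈ w.support, 1 < Gr.dist (frame v • v0) z := by
        intro z hz
        have := hfar z hz
        rw [frame_smul, Gr.dist_comm]
        omega
      have key : ∀ z ∈ w.support, Ddown lam .top (.V v) z = {(kap lam (gt (frame v) a)).1} := by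
        intro z hz
        have hne : z ≠ v := by
          rintro rfl
          have := hfar z hz
          rw [SimpleGraph.dist_self] at this
          omega
        have h3 : Ddown lam .top (.V v) z = Dgate lam z (.V v) := if_neg hne
        rw [h3]
        show {(kap lam (gt (frame v) z)).1} = _
        rw [gt_const (frame v) w hf hz]
      intro p hp q hq
      simp only [Set.mem_iUnion] at hp hq
      obtain ⟨z, hz, hp⟩ := hp
      obtain ⟨z', hz', hq⟩ := hq
      rw [key z hz] at hp
      rw [key z' hz'] at hq
      rw [Set.mem_singleton_iff.1 hp, Set.mem_singleton_iff.1 hq, SimpleGraph.dist_self]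
      omega
  | .U v, _ =>
    by_cases hfar : ∃ z ∈ w.support, Gr.dist z v ≤ 5
    · obtain ⟨z, hz, hd⟩ := hfar
      exact Or.inr ⟨z, hz, v, rfl, hd⟩
    · left
      push Not at hfar
      have hf : ∀ z ∈ w.support, 1 < Gr.dist (frame v • v0) z := by
        intro z hz
        have := hfar z hz
        rw [frame_smul, Gr.dist_comm]
        omega
      have key : ∀ z ∈ w.support, Ddown lam .top (.U v) z = {(kap lam (gt (frame v) a)).2} := by
        intro z hz
        have hne : z ≠ v := by
          rintro rfl
          have := hfar z hz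
          rw [SimpleGraph.dist_self] at this
          omega
        have h3 : Ddown lam .top (.U v) z = Dgate lam z (.U v) := if_neg hne
        rw [h3]
        show {(kap lam (gt (frame v) z)).2} = _
        rw [gt_const (frame v) w hf hz]
      intro p hp q hq
      simp only [Set.mem_iUnion] at hp hq
      obtain ⟨z, hz, hp⟩ := hp
      obtain ⟨z', hz', hq⟩ := hq
      rw [key z hz] at hp
      rw [key z' hz'] at hq
      rw [Set.mem_singleton_iff.1 hp, Set.mem_singleton_iff.1 hq, SimpleGraph.dist_self]
      omega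

end Pool.Agent.Helper77.HB
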