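import Pool.Agent.Helper77.HB.HHS
import Pool.Agent.Helper77.HB.Tree
import Pool.Agent.Helper77.HB.GrGate2

/-!
# Uniqueness
-/

namespace Pool.Agent.Helper77.HB

open Matrix OnePoint

/-- There is a walk of length at most `n` from `g` to `h` in the Cayley graph. -/
private def Rb (n : ℕ) (g h : GA) : Prop := ∃ w : (Cay GA genA).Walk g h, w.length ≤ n

private lemma Rb_refl (n : ℕ) (g : GA) : Rb n g g := ⟨SimpleGraph.Walk.nil, by simp⟩

private lemma Rb_trans {n m : ℕ} {g h k : GA} (h1 : Rb n g h) (h2 : Rb m h k) :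
    Rb (n + m) g k := by
  obtain ⟨w, hw⟩ := h1
  obtain ⟨w', hw'⟩ := h2
  exact ⟨w.append w', by rw [SimpleGraph.Walk.length_append]; omega⟩

private lemma Rb_mono {n m : ℕ} {g h : GA} (h1 : Rb n g h) (hnm : n ≤ m) : Rb m g h := by
  obtain ⟨w, hw⟩ := h1
  exact ⟨w, hw.trans hnm⟩

private lemma Rb_symm {n : ℕ} {g h : GA} (h1 : Rb n g h) : Rb n h g := by
  obtain ⟨w, hw⟩ := h1
  exact ⟨w.reverse, by rwa [SimpleGraph.Walk.length_reverse]⟩

private lemma Rb_gen (g : GA) {s : GA} (hs : s ∈ genA) : Rb 1 g (g * s) := by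
  by_cases h : g = g * s
  · rw [← h]; exact Rb_refl _ _
  · have h1 : (Cay GA genA).Adj g (g * s) := ⟨h, Or.inl ⟨s, hs, rfl⟩⟩
    exact ⟨h1.toWalk, by simp⟩

private lemma Rb_gen_inv (g : GA) {s : GA} (hs : s ∈ genA) : Rb 1 g (g * s⁻¹) := by
  have := Rb_symm (Rb_gen (g * s⁻¹) hs)
  rwa [inv_mul_cancel_right] at this

private lemma Rb_pow {s : GA} (hs : s ∈ genA) (n : ℕ) : ∀ g, Rb n g (g * s ^ n) := by
  induction n with
  | zero => intro g; rw [pow_zero, mul_one]; exact Rb_refl _ _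
  | succ n ih =>
    intro g
    rw [pow_succ, ← mul_assoc]
    exact Rb_trans (ih g) (Rb_gen _ hs)

private lemma Rb_zpow {s : GA} (hs : s ∈ genA) (n : ℤ) (g : GA) :
    Rb n.natAbs g (g * s ^ n) := by
  obtain ⟨m, rfl | rfl⟩ := Int.eq_nat_or_neg n
  · rw [zpow_natCast, Int.natAbs_natCast]
    exact Rb_pow hs m g
  · rw [_root_.zpow_neg, zpow_natCast, Int.natAbs_neg, Int.natAbs_natCast]
    have := Rb_symm (Rb_pow hs m (g * (s ^ m)⁻¹))
    rwa [inv_mul_cancel_right] at this

private lemma mk_single (s : Bool × Bool) :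
    FreeGroup.mk [s] = FreeGroup.of s.1 ∨ FreeGroup.mk [s] = (FreeGroup.of s.1)⁻¹ := by
  obtain ⟨b, e⟩ := s
  cases e
  · right
    rw [FreeGroup.of, FreeGroup.inv_mk]
    rfl
  · left; rfl

private lemma iP_of (b : Bool) : iP (FreeGroup.of b, 1) ∈ genA := by
  cases b
  · left; rfl
  · right; right; left; rfl

private lemma Rb_word (L : List (Bool × Bool)) :
    ∀ g, Rb L.length g (g * iP (FreeGroup.mk L, 1)) := by
  induction L with
  | nil =>
    intro g
    have h : ((FreeGroup.mk [], 1) : P) = 1 := rfl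
    rw [h, map_one, mul_one]
    exact Rb_refl _ _
  | cons s L ih =>
    intro g
    have h : ((FreeGroup.mk (s :: L), 1) : P) = (FreeGroup.mk [s], 1) * (FreeGroup.mk L, 1) := by
      rw [Prod.mk_mul_mk, FreeGroup.mul_mk, mul_one]; rfl
    rw [h, map_mul, ← mul_assoc, List.length_cons, add_comm]
    refine Rb_trans ?_ (ih _)
    rcases mk_single s with h1 | h1
    · rw [h1]
      exact Rb_gen g (iP_of s.1)
    · have h2 : (((FreeGroup.of s.1)⁻¹, 1) : P) = (FreeGroup.of s.1, 1)⁻¹ := by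
        rw [Prod.inv_mk, inv_one]
      rw [h1, h2, map_inv]
      exact Rb_gen_inv g (iP_of s.1)

private lemma Rb_P (g : GA) (p : P) :
    Rb (p.1.norm + (Multiplicative.toAdd p.2).natAbs) g (g * iP p) := by
  have h : p = (FreeGroup.mk p.1.toWord, 1) * bP ^ (Multiplicative.toAdd p.2) := by
    rw [FreeGroup.mk_toWord]
    obtain ⟨w, m⟩ := p
    ext
    · simp [bP]
    · simp [bP]
  have h2 : iP p = iP (FreeGroup.mk p.1.toWord, 1) * bG ^ (Multiplicative.toAdd p.2) := by
    rw [bG, ← map_zpow, ← map_mul, ← h]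
  rw [h2, ← mul_assoc]
  refine Rb_trans (Rb_word _ _) (Rb_zpow ?_ _ _)
  right; left; rfl

private lemma phi_le (L : List (Bool × Bool)) :
    |Multiplicative.toAdd (phi (FreeGroup.mk L))| ≤ L.length := by
  induction L with
  | nil =>
    have h : (FreeGroup.mk [] : F) = 1 := rfl
    rw [h, map_one]; simp
  | cons s L ih =>
    have h : (FreeGroup.mk (s :: L) : F) = FreeGroup.mk [s] * FreeGroup.mk L := by
      rw [FreeGroup.mul_mk]; rfl
    have h1 : |Multiplicative.toAdd (phi (FreeGroup.mk [s]))| ≤ 1 := by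
      have h3 : |Multiplicative.toAdd (phi (FreeGroup.of s.1))| ≤ 1 := by
        cases h4 : s.1 <;> simp [phi]
      rcases mk_single s with h2 | h2
      · rw [h2]; exact h3
      · rw [h2, map_inv, toAdd_inv, abs_neg]; exact h3
    rw [h, map_mul, toAdd_mul, List.length_cons]
    refine (abs_add_le _ _).trans ?_
    push_cast
    linarith

private lemma ex_le (p : P) : |ex p| ≤ p.1.norm := by
  have := phi_le p.1.toWord
  rwa [FreeGroup.mk_toWord] at this

private lemma P_bound (lam : Bool) (g : GA) (p : P) (N : ℕ) (h1 : p.1.norm ≤ N)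
    (h2 : |(kap lam p).2| ≤ N) : Rb (3 * N) g (g * iP p) := by
  refine Rb_mono (Rb_P g p) ?_
  have h3 := ex_le p
  have h4 : (kap lam p).2 = Multiplicative.toAdd p.2 + lv lam * ex p := rfl
  have h5 : |lv lam * ex p| ≤ N := by
    rw [abs_mul]
    have h6 : |lv lam| ≤ 1 := by cases lam <;> simp [lv]
    have h7 : |lv lam| * |ex p| ≤ 1 * |ex p| := mul_le_mul_of_nonneg_right h6 (abs_nonneg _)
    have h8 : (p.1.norm : ℤ) ≤ N := by exact_mod_cast h1
    linarith
  rw [h4] at h2
  have h6 := abs_le.1 h2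
  have h7 := abs_le.1 h5
  omega

private lemma norm_zpow_le (n : ℤ) : ((cP ^ n : P)).1.norm ≤ n.natAbs := by
  have h : (cP ^ n : P).1 = FreeGroup.of true ^ n := by simp [cP]
  rw [h]
  obtain ⟨m, rfl | rfl⟩ := Int.eq_nat_or_neg n
  · rw [zpow_natCast, FreeGroup.norm_of_pow]; simp
  · rw [_root_.zpow_neg, zpow_natCast, FreeGroup.norm_inv_eq, FreeGroup.norm_of_pow]; simp

private lemma lv_mul_le (lam : Bool) {i : ℤ} (h : |i| ≤ 4) : |lv lam * i| ≤ 4 := by
  rw [abs_mul]
  have h6 : |lv lam| ≤ 1 := by cases lam <;> simp [lv]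
  have h7 : |lv lam| * |i| ≤ 1 * |i| := mul_le_mul_of_nonneg_right h6 (abs_nonneg _)
  linarith

private lemma sandwich (lam : Bool) (X Y : P) (N : ℕ) (h1 : (X⁻¹ * Y).1.norm ≤ N)
    (h2 : |(kap lam (X⁻¹ * Y)).2| ≤ N) {s t : ℤ} (hs : |s| ≤ 4) (ht : |t| ≤ 4) :
    ((X * cP ^ s)⁻¹ * (Y * cP ^ t)).1.norm ≤ N + 8 ∧
      |(kap lam ((X * cP ^ s)⁻¹ * (Y * cP ^ t))).2| ≤ ((N + 8 : ℕ) : ℤ) := by
  have h : (X * cP ^ s)⁻¹ * (Y * cP ^ t) = cP ^ (-s) * (X⁻¹ * Y) * cP ^ t := by
    rw [_root_.mul_inv_rev, _root_.zpow_neg]; group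
  rw [h]
  constructor
  · have h3 : (cP ^ (-s) * (X⁻¹ * Y) * cP ^ t : P).1 =
        (cP ^ (-s) : P).1 * (X⁻¹ * Y).1 * (cP ^ t : P).1 := rfl
    rw [h3]
    refine (FreeGroup.norm_mul_le _ _).trans ?_
    have h4 := FreeGroup.norm_mul_le (cP ^ (-s) : P).1 (X⁻¹ * Y).1
    have h5 := norm_zpow_le (-s)
    have h6 := norm_zpow_le t
    have h7 := abs_le.1 hs
    have h8 := abs_le.1 ht
    omega
  · rw [kap_mul, kap_mul, kap_cP_zpow, kap_cP_zpow]
    have h3 := lv_mul_le lam (i := -s) (by rwa [abs_neg])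
    have h4 := lv_mul_le lam ht
    dsimp only
    have h5 := abs_le.1 h3
    have h6 := abs_le.1 h4
    have h7 := abs_le.1 h2
    rw [abs_le]
    push_cast
    constructor <;> linarith

private lemma eq_mul_pg {g h : GA} (hh : h • v0 = g • v0) : h = g * iP (pg g h) := by
  obtain ⟨p, rfl⟩ := exists_iP_of_eq hh.symm
  rw [pg_iP]

private lemma fl_xG0 : fl (xG • v0) = 1 := by
  rw [xG_v0]; rfl

private lemma gt_mul_x (g : GA) (p : P) : gt g ((g * iP p * xG) • v0) = p := by
  rw [gt, mul_assoc, mul_smul, inv_smul_smul, mul_smul, fl_iP_smul p xG_v0_ne, fl_xG0, mul_one]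

private lemma geod_append {a b c : Wd} (p : Gr.Walk a b) (q : Gr.Walk b c)
    (h : IsGeod Gr (p.append q)) : IsGeod Gr p ∧ IsGeod Gr q := by
  unfold IsGeod at h ⊢
  rw [SimpleGraph.Walk.length_append] at h
  have h1 := SimpleGraph.dist_le p
  have h2 := SimpleGraph.dist_le q
  have h3 := Gr_hyp.1.dist_triangle (u := a) (v := b) (w := c)
  omega

private lemma main_step (lam : Bool) (κ : ℕ) (x y : GA)
    (hk : ∀ v, ((pg (frame v) x)⁻¹ * pg (frame v) y).1.norm ≤ κ ∧
      |(kap lam ((pg (frame v) x)⁻¹ * pg (frame v) y)).2| ≤ κ) :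
    ∀ {u z : Wd} (w : Gr.Walk u z), z = y • v0 → ∀ (p : Gr.Walk (x • v0) u),
      IsGeod Gr (p.append w) → ∀ h : GA, h • v0 = u →
      (∃ s : ℤ, |s| ≤ 4 ∧ pg (frame u) h = pg (frame u) x * cP ^ s) →
      Rb (w.length * (3 * (κ + 8) + 1) + 3 * (κ + 8)) h y := by
  intro u z w
  induction w with
  | @nil u =>
    intro hz p _ h hh hs
    obtain ⟨s, hs, hs2⟩ := hs
    have h1 : h = frame u * iP (pg (frame u) h) := eq_mul_pg (by rw [frame_smul, hh])
    have h2 : y = frame u * iP (pg (frame u) y) := eq_mul_pg (by rw [frame_smul, hz])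
    have h3 : y = h * iP ((pg (frame u) h)⁻¹ * pg (frame u) y) := by
      conv_lhs => rw [h2]
      conv_rhs => rw [h1]
      rw [map_mul, map_inv, pg_iP]
      group
    have h4 := sandwich lam _ _ κ (hk u).1 (hk u).2 hs (t := 0) (by simp)
    rw [zpow_zero, mul_one, ← hs2] at h4
    have h5 := P_bound lam h _ _ h4.1 h4.2
    rw [← h3] at h5
    refine Rb_mono h5 (by simp)
  | @cons u u' z hadj w ih =>
    intro hz p hp h hh hs
    obtain ⟨s, hs, hs2⟩ := hs
    obtain ⟨e, he1, he2⟩ := Gr_adj.1 hadj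
    have hpath : (p.append (SimpleGraph.Walk.cons hadj w)).IsPath :=
      SimpleGraph.Walk.isPath_of_length_eq_dist _ hp
    have hnd := hpath.support_nodup
    rw [SimpleGraph.Walk.support_append, SimpleGraph.Walk.support_cons, List.tail_cons,
      List.nodup_append'] at hnd
    have hdis := hnd.2.2
    have hu : u ∉ w.support := fun hc => hdis p.end_mem_support hc
    have hu' : u' ∉ p.support := fun hc => hdis hc w.start_mem_support
    have hgeo := geod_append p _ hp
    have hpc : (p.concat hadj).append w = p.append (SimpleGraph.Walk.cons hadj w) :=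
      SimpleGraph.Walk.concat_append _ _ _
    have hgw : IsGeod Gr w := by
      rw [← hpc] at hp
      exact (geod_append _ _ hp).2
    -- the gate of `y` at `u`
    have hyu : y • v0 ≠ u := by
      rintro hc
      apply hu
      rw [← hc, ← hz]
      exact w.end_mem_support
    have hb : e = frame u * iP (pg (frame u) e) := eq_mul_pg (by rw [frame_smul, ← he1])
    have hbg : gt (frame u) u' = pg (frame u) e := by
      rw [he2]
      conv_lhs => rw [hb]
      exact gt_mul_x _ _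
    obtain ⟨i, hi, hi2⟩ := gt_avoid (frame u) w hgw (by rwa [frame_smul])
    have hY : pg (frame u) y = pg (frame u) e * cP ^ i := by
      rw [pg_of_ne (by rwa [frame_smul]), ← hz, hi2, hbg]
    have hY2 : pg (frame u) e = pg (frame u) y * cP ^ (-i) := by
      rw [hY, _root_.zpow_neg, mul_inv_cancel_right]
    have h1 : h = frame u * iP (pg (frame u) h) := eq_mul_pg (by rw [frame_smul, hh])
    have h3 : e = h * iP ((pg (frame u) h)⁻¹ * pg (frame u) e) := by
      conv_lhs => rw [hb]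
      conv_rhs => rw [h1]
      rw [map_mul, map_inv, pg_iP]
      group
    have h4 := sandwich lam _ _ κ (hk u).1 (hk u).2 hs (t := -i) (by rwa [abs_neg])
    rw [← hs2, ← hY2] at h4
    have h5 := P_bound lam h _ _ h4.1 h4.2
    rw [← h3] at h5
    have h6 : Rb 1 e (e * xG) := Rb_gen e (by right; right; right; rfl)
    -- the gate of `x` at `u'`
    have hxu : x • v0 ≠ u' := by
      rintro hc
      apply hu'
      rw [← hc]
      exact p.start_mem_support
    have ha : e * xG = frame u' * iP (pg (frame u') (e * xG)) :=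
      eq_mul_pg (by rw [frame_smul, ← he2])
    have hag : gt (frame u') u = pg (frame u') (e * xG) := by
      have h7 : u = (frame u' * iP (pg (frame u') (e * xG)) * xG) • v0 := by
        rw [← ha, mul_assoc, xG_mul_self, mul_one, ← he1]
      conv_lhs => rw [h7]
      exact gt_mul_x _ _
    obtain ⟨j, hj, hj2⟩ := gt_avoid (frame u') p hgeo.1 (by rwa [frame_smul])
    have h8 := ih hz (p.concat hadj) (by rw [hpc]; exact hp) (e * xG) he2.symm
      ⟨j, hj, by rw [← hag, hj2, pg_of_ne (by rwa [frame_smul])]⟩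
    refine Rb_mono (Rb_trans h5 (Rb_trans h6 h8)) ?_
    rw [SimpleGraph.Walk.length_cons]
    apply le_of_eq
    ring

private lemma sdist_single {α : Type} (Γ : SimpleGraph α) (a b : α) :
    sdist Γ {a} {b} = Γ.dist a b := by
  have h : {n | ∃ a' ∈ ({a} : Set α), ∃ b' ∈ ({b} : Set α), Γ.dist a' b' = n} =
      {Γ.dist a b} := by
    ext n
    simp [eq_comm]
  rw [sdist, h, csInf_singleton]

theorem ax_uniqueness (lam : Bool) : ∃ θ : ℕ → ℕ, ∀ κ x y, θ κ ≤ (Cay GA genA).dist x y →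
    ∃ V, κ ≤ sdist (DΓ V) (Dpr lam V x) (Dpr lam V y) := by
  refine ⟨fun κ => κ * (3 * (κ + 8) + 1) + 3 * (κ + 8) + 1, fun κ x y hxy => ?_⟩
  by_contra hcon
  push Not at hcon
  have htop := hcon .top
  have h1 : Gr.dist (x • v0) (y • v0) < κ := by
    have : sdist (DΓ .top) (Dpr lam .top x) (Dpr lam .top y) = Gr.dist (x • v0) (y • v0) :=
      sdist_single _ _ _
    rwa [this] at htop
  have hk : ∀ v, ((pg (frame v) x)⁻¹ * pg (frame v) y).1.norm ≤ κ ∧
      |(kap lam ((pg (frame v) x)⁻¹ * pg (frame v) y)).2| ≤ κ := by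
    intro v
    constructor
    · have h2 := hcon (.V v)
      have h3 : sdist (DΓ (.V v)) (Dpr lam (.V v) x) (Dpr lam (.V v) y) =
          TF.dist (kap lam (pg (frame v) x)).1 (kap lam (pg (frame v) y)).1 :=
        sdist_single _ _ _
      rw [h3, TF_dist] at h2
      exact h2.le
    · have h2 := hcon (.U v)
      have h3 : sdist (DΓ (.U v)) (Dpr lam (.U v) x) (Dpr lam (.U v) y) =
          ZL.dist (kap lam (pg (frame v) x)).2 (kap lam (pg (frame v) y)).2 :=
        sdist_single _ _ _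
      rw [h3, ZL_dist] at h2
      have h4 : (kap lam ((pg (frame v) x)⁻¹ * pg (frame v) y)).2 =
          (kap lam (pg (frame v) y)).2 - (kap lam (pg (frame v) x)).2 := by
        have h5 := kap_mul lam (pg (frame v) x) ((pg (frame v) x)⁻¹ * pg (frame v) y)
        rw [mul_inv_cancel_left] at h5
        rw [h5]
        ring
      rw [h4, abs_le]
      omega
  obtain ⟨w, hw⟩ := Gr_hyp.1.exists_walk_length_eq_dist (x • v0) (y • v0)
  have h2 := main_step lam κ x y hk w rfl SimpleGraph.Walk.nil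
    (by rw [SimpleGraph.Walk.nil_append]; exact hw) x rfl ⟨0, by simp, by simp⟩
  obtain ⟨p, hp⟩ := h2
  have h3 := SimpleGraph.dist_le p
  have h4 : w.length * (3 * (κ + 8) + 1) ≤ κ * (3 * (κ + 8) + 1) := by
    apply Nat.mul_le_mul_right
    rw [hw]
    exact h1.le
  simp only at hxy
  omega

end Pool.Agent.Helper77.HB
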