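import Pool.Agent.Helper77.HB.HHS
import Pool.Agent.Helper77.HB.Tree
import Pool.Agent.Helper77.HB.GrGate2

/-!
# The group action
-/

namespace Pool.Agent.Helper77.HB

open Matrix OnePoint

theorem gr_act_one (U : Dm) : Dact 1 U = U := by
  cases U with
  | top => rfl
  | V v => exact congrArg Dm.V (one_smul _ v)
  | U v => exact congrArg Dm.U (one_smul _ v)

theorem gr_act_mul (g h : GA) (U : Dm) : Dact (g * h) U = Dact g (Dact h U) := by
  cases U with
  | top => rfl
  | V v => exact congrArg Dm.V (mul_smul g h v)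
  | U v => exact congrArg Dm.U (mul_smul g h v)

theorem gr_act_inj (g : GA) {U V : Dm} (h : Dact g U = Dact g V) : U = V := by
  have h1 := congrArg (Dact g⁻¹) h
  rwa [← gr_act_mul, ← gr_act_mul, inv_mul_cancel, gr_act_one, gr_act_one] at h1

theorem gr_act_nest (g : GA) (U V : Dm) : Dnest (Dact g U) (Dact g V) ↔ Dnest U V := by
  have h1 : Dact g V = .top ↔ V = .top := by
    constructor
    · intro h
      exact gr_act_inj g h
    · rintro rfl
      rfl
  have h2 : Dact g U = Dact g V ↔ U = V := ⟨gr_act_inj g, fun h => by rw [h]⟩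
  unfold Dnest
  rw [h1, h2]

theorem gr_act_orth (g : GA) (U V : Dm) : Dorth (Dact g U) (Dact g V) ↔ Dorth U V := by
  cases U <;> cases V <;> simp [Dorth, Dact]

theorem gr_cofinite : ∃ s : Finset Dm, ∀ U, ∃ V ∈ s, ∃ g, Dact g V = U := by
  classical
  refine ⟨{.top, .V v0, .U v0}, ?_⟩
  intro U
  cases U with
  | top => exact ⟨.top, by simp, 1, rfl⟩
  | V v => exact ⟨.V v0, by simp, frame v, congrArg Dm.V (frame_smul v)⟩
  | U v => exact ⟨.U v0, by simp, frame v, congrArg Dm.U (frame_smul v)⟩

theorem gr_mv_one (lam : Bool) (U : Dm) (a : DC U) :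
    (⟨Dact 1 U, Dmv lam 1 U a⟩ : Sigma DC) = ⟨U, a⟩ := by
  cases U with
  | top =>
    refine Sigma.ext rfl (heq_of_eq ?_)
    exact one_smul GA (a : Wd)
  | V v =>
    refine Sigma.ext (congrArg Dm.V (one_smul _ v)) (heq_of_eq ?_)
    show (kap lam (cp 1 v)).1 * a = a
    rw [cp_one, kap_one, one_mul]
  | U v =>
    refine Sigma.ext (congrArg Dm.U (one_smul _ v)) (heq_of_eq ?_)
    show (kap lam (cp 1 v)).2 + a = a
    rw [cp_one, kap_one, zero_add]

theorem gr_mv_mul (lam : Bool) (g h : GA) (U : Dm) (a : DC U) :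
    (⟨Dact g (Dact h U), Dmv lam g (Dact h U) (Dmv lam h U a)⟩ : Sigma DC) =
      ⟨Dact (g * h) U, Dmv lam (g * h) U a⟩ := by
  cases U with
  | top =>
    refine Sigma.ext rfl (heq_of_eq ?_)
    exact (mul_smul g h (a : Wd)).symm
  | V v =>
    refine Sigma.ext (congrArg Dm.V (mul_smul g h v).symm) (heq_of_eq ?_)
    show (kap lam (cp g (h • v))).1 * ((kap lam (cp h v)).1 * a) = (kap lam (cp (g * h) v)).1 * a
    rw [cp_mul, kap_mul, mul_assoc]
  | U v =>
    refine Sigma.ext (congrArg Dm.U (mul_smul g h v).symm) (heq_of_eq ?_)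
    show (kap lam (cp g (h • v))).2 + ((kap lam (cp h v)).2 + a) = (kap lam (cp (g * h) v)).2 + a
    rw [cp_mul, kap_mul, add_assoc]

theorem gr_mv_surj (lam : Bool) (g : GA) (U : Dm) : Function.Surjective (Dmv lam g U) := by
  cases U with
  | top =>
    have h : Function.Surjective (fun y : Wd => g • y) :=
      fun y => ⟨g⁻¹ • y, smul_inv_smul g y⟩
    exact h
  | V v =>
    have h : Function.Surjective (fun w : F => (kap lam (cp g v)).1 * w) :=
      fun w => ⟨(kap lam (cp g v)).1⁻¹ * w, mul_inv_cancel_left _ _⟩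
    exact h
  | U v =>
    have h : Function.Surjective (fun k : ℤ => (kap lam (cp g v)).2 + k) :=
      fun k => ⟨-(kap lam (cp g v)).2 + k, add_neg_cancel_left _ _⟩
    exact h

theorem gr_mv_dist (lam : Bool) (g : GA) (U : Dm) (a b : DC U) :
    (DΓ (Dact g U)).dist (Dmv lam g U a) (Dmv lam g U b) = (DΓ U).dist a b := by
  cases U with
  | top => exact Gr_dist_smul g a b
  | V v =>
    show TF.dist ((kap lam (cp g v)).1 * a) ((kap lam (cp g v)).1 * b) = TF.dist a b
    rw [TF_dist, TF_dist]
    congr 1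
    group
  | U v =>
    show ZL.dist ((kap lam (cp g v)).2 + a) ((kap lam (cp g v)).2 + b) = ZL.dist a b
    rw [ZL_dist, ZL_dist]
    congr 1
    ring

lemma frame_inv_mul (g : GA) (v : Wd) :
    (frame (g • v))⁻¹ * g = iP (cp g v) * (frame v)⁻¹ := by
  rw [inv_mul_eq_iff_eq_mul, ← mul_assoc, ← cp_spec, mul_inv_cancel_right]

lemma pg_equiv (g : GA) (v : Wd) (x : GA) :
    pg (frame (g • v)) (g * x) = cp g v * pg (frame v) x := by
  rw [pg, pg, ← mul_assoc, frame_inv_mul, mul_assoc, fg_iP_mul]

lemma gt_equiv (g : GA) (v : Wd) {y : Wd} (hy : y ≠ v) :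
    gt (frame (g • v)) (g • y) = cp g v * gt (frame v) y := by
  rw [gt, gt, ← mul_smul, frame_inv_mul, mul_smul, fl_iP_smul]
  rw [Ne, inv_smul_eq_iff, frame_smul]
  exact hy

theorem gr_pr_equiv (lam : Bool) (g : GA) (U : Dm) (x : GA) :
    Dpr lam (Dact g U) (g * x) = Dmv lam g U '' Dpr lam U x := by
  cases U with
  | top =>
    show ({(g * x) • v0} : Set Wd) = (fun y : Wd => g • y) '' {x • v0}
    rw [Set.image_singleton, mul_smul]
  | V v =>
    show ({(kap lam (pg (frame (g • v)) (g * x))).1} : Set F) =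
      (fun w : F => (kap lam (cp g v)).1 * w) '' {(kap lam (pg (frame v) x)).1}
    rw [Set.image_singleton, pg_equiv, kap_mul]
  | U v =>
    show ({(kap lam (pg (frame (g • v)) (g * x))).2} : Set ℤ) =
      (fun w : ℤ => (kap lam (cp g v)).2 + w) '' {(kap lam (pg (frame v) x)).2}
    rw [Set.image_singleton, pg_equiv, kap_mul]

lemma dgate_V (lam : Bool) (g : GA) {v y : Wd} (hy : y ≠ v) :
    Dgate lam (g • y) (.V (g • v)) = Dmv lam g (.V v) '' Dgate lam y (.V v) := by
  show ({(kap lam (gt (frame (g • v)) (g • y))).1} : Set F) =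
    (fun w : F => (kap lam (cp g v)).1 * w) '' {(kap lam (gt (frame v) y)).1}
  rw [Set.image_singleton, gt_equiv g v hy, kap_mul]

lemma dgate_U (lam : Bool) (g : GA) {v y : Wd} (hy : y ≠ v) :
    Dgate lam (g • y) (.U (g • v)) = Dmv lam g (.U v) '' Dgate lam y (.U v) := by
  show ({(kap lam (gt (frame (g • v)) (g • y))).2} : Set ℤ) =
    (fun w : ℤ => (kap lam (cp g v)).2 + w) '' {(kap lam (gt (frame v) y)).2}
  rw [Set.image_singleton, gt_equiv g v hy, kap_mul]

lemma dgate_top (lam : Bool) (g : GA) (y : Wd) :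
    Dgate lam (g • y) .top = Dmv lam g .top '' Dgate lam y .top := by
  show ({g • y} : Set Wd) = (fun y : Wd => g • y) '' {y}
  rw [Set.image_singleton]

theorem gr_rho_equiv (lam : Bool) (g : GA) (V W : Dm) (h1 : V ≠ W) (h2 : ¬ Dorth V W)
    (h3 : ¬ Dnest W V) : Drho lam (Dact g V) (Dact g W) = Dmv lam g W '' Drho lam V W := by
  cases V with
  | top => exact absurd (Or.inl rfl) h3
  | V v =>
    cases W with
    | top => exact dgate_top lam g v
    | V w => exact dgate_V lam g (fun h => h1 (by rw [h]))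
    | U w => exact dgate_U lam g (fun h => h2 h)
  | U v =>
    cases W with
    | top => exact dgate_top lam g v
    | V w => exact dgate_V lam g (fun h => h2 h)
    | U w => exact dgate_U lam g (fun h => h1 (by rw [h]))

theorem gr_down_equiv (lam : Bool) (g : GA) (V W : Dm) (h1 : Dnest V W) (h2 : V ≠ W)
    (a : DC W) :
    Ddown lam (Dact g W) (Dact g V) (Dmv lam g W a) = Dmv lam g V '' Ddown lam W V a := by
  classical
  rcases h1 with rfl | h
  · cases V with
    | top => exact absurd rfl h2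
    | V v =>
      show (if g • (a : Wd) = g • v then Set.univ else Dgate lam (g • (a : Wd)) (.V (g • v))) =
        Dmv lam g (.V v) '' (if (a : Wd) = v then Set.univ else Dgate lam a (.V v))
      by_cases h : (a : Wd) = v
      · rw [if_pos h, if_pos (by rw [h]), Set.image_univ, (gr_mv_surj lam g (.V v)).range_eq]
        rfl
      · rw [if_neg h, if_neg (fun h' => h (smul_left_cancel g h'))]
        exact dgate_V lam g h
    | U v =>
      show (if g • (a : Wd) = g • v then Set.univ else Dgate lam (g • (a : Wd)) (.U (g • v))) =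
        Dmv lam g (.U v) '' (if (a : Wd) = v then Set.univ else Dgate lam a (.U v))
      by_cases h : (a : Wd) = v
      · rw [if_pos h, if_pos (by rw [h]), Set.image_univ, (gr_mv_surj lam g (.U v)).range_eq]
        rfl
      · rw [if_neg h, if_neg (fun h' => h (smul_left_cancel g h'))]
        exact dgate_U lam g h
  · exact absurd h h2

end Pool.Agent.Helper77.HB
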