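import Pool.Agent.Helper77.HB.HHSa
import Pool.Agent.Helper77.HB.HHSb
import Pool.Agent.Helper77.HB.HHSc
import Pool.Agent.Helper77.HB.HHSd
import Pool.Agent.Helper77.HB.HHSe

/-!
# The two hierarchically hyperbolic group structures on `GA`
-/

namespace Pool.Agent.Helper77.HB

open Matrix OnePoint

/-- The hierarchically hyperbolic group structure `𝔖_λ` on `GA`, `λ = 0, 1`. -/
noncomputable def HH (lam : Bool) : HHG GA genA where
  Dom := Dm
  C := DC
  Γ := DΓ
  nest := Dnest
  orth := Dorth
  pr := Dpr lam
  rho := Drho lam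
  down := Ddown lam
  δ := 1
  ξ := 0
  K := 1
  κ₀ := 1
  comp := 2
  lam := 2
  E := 5
  α := 0
  θ := (ax_uniqueness lam).choose
  lam_pos := by norm_num
  E_ge := by norm_num
  hyp := ax_hyp
  pr_ne := ax_pr_ne lam
  pr_diam := ax_pr_diam lam
  pr_lip := ax_pr_lip lam
  pr_onto := ax_pr_onto lam
  nest_refl := ax_nest_refl
  nest_trans := ax_nest_trans
  nest_antisymm := ax_nest_antisymm
  exists_top := ax_exists_top
  rho_ne := ax_rho_ne lam
  rho_diam := ax_rho_diam lam
  orth_symm := ax_orth_symm
  orth_nest := ax_orth_nest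
  orth_not_nest := ax_orth_not_nest
  container := ax_container
  cons_trans := ax_cons_trans lam
  cons_nest := ax_cons_nest lam
  cons_rho := ax_cons_rho lam
  complexity := ax_complexity
  large_links := ax_large_links lam
  bgi := ax_bgi lam
  realisation := ax_realisation lam
  uniqueness := (ax_uniqueness lam).choose_spec
  act := Dact
  act_one := gr_act_one
  act_mul := gr_act_mul
  act_nest := gr_act_nest
  act_orth := gr_act_orth
  cofinite := gr_cofinite
  mv := Dmv lam
  mv_one := gr_mv_one lam
  mv_mul := gr_mv_mul lam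
  mv_surj := gr_mv_surj lam
  mv_dist := gr_mv_dist lam
  pr_equiv := gr_pr_equiv lam
  rho_equiv := gr_rho_equiv lam
  down_equiv := gr_down_equiv lam

end Pool.Agent.Helper77.HB
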