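import Pool.Agent.Helper77.HB.Gr

/-!
# The data of the two hierarchically hyperbolic group structures on `GA`
-/

namespace Pool.Agent.Helper77.HB

open Matrix OnePoint

/-- The domains: the root and, for each vertex `v` of `Gr`, two domains `V v` and `U v`. -/
inductive Dm where
  | top
  | V (v : Wd)
  | U (v : Wd)

/-- The hyperbolic spaces. -/
abbrev DC : Dm → Type
  | .top => Wd
  | .V _ => F
  | .U _ => ℤ

noncomputable def DΓ : (D : Dm) → SimpleGraph (DC D)
  | .top => Gr
  | .V _ => TF
  | .U _ => ZL

/-- nesting: all the domains are nested in the root -/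
def Dnest (D D' : Dm) : Prop := D' = .top ∨ D = D'

/-- orthogonality: `V v ⊥ U v` -/
def Dorth : Dm → Dm → Prop
  | .V v, .U w => v = w
  | .U v, .V w => v = w
  | _, _ => False

/-- The projections. -/
noncomputable def Dpr (lam : Bool) : (D : Dm) → GA → Set (DC D)
  | .top, h => {h • v0}
  | .V v, h => {(kap lam (pg (frame v) h)).1}
  | .U v, h => {(kap lam (pg (frame v) h)).2}

/-- The coordinate of the gate of the vertex `y` in the domain `D` at the vertex `v`. -/
noncomputable def Dgate (lam : Bool) (y : Wd) : (D : Dm) → Set (DC D)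
  | .top => {y}
  | .V v => {(kap lam (gt (frame v) y)).1}
  | .U v => {(kap lam (gt (frame v) y)).2}

/-- The relative projections `ρ^D_{D'}`. -/
noncomputable def Drho (lam : Bool) : (D D' : Dm) → Set (DC D')
  | .top, _ => ∅
  | .V v, D' => Dgate lam v D'
  | .U v, D' => Dgate lam v D'

open Classical in
/-- The relative projections `ρ^{top}_D`. -/
noncomputable def Ddown (lam : Bool) : (D D' : Dm) → DC D → Set (DC D')
  | .top, .V v => fun y => if y = v then Set.univ else Dgate lam y (.V v)
  | .top, .U v => fun y => if y = v then Set.univ else Dgate lam y (.U v)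
  | _, _ => fun _ => ∅

/-- The action on the domains. -/
noncomputable def Dact (g : GA) : Dm → Dm
  | .top => .top
  | .V v => .V (g • v)
  | .U v => .U (g • v)

/-- The isometries. -/
noncomputable def Dmv (lam : Bool) (g : GA) : (D : Dm) → DC D → DC (Dact g D)
  | .top => fun y => g • y
  | .V v => fun w => (kap lam (cp g v)).1 * w
  | .U v => fun k => (kap lam (cp g v)).2 + k

end Pool.Agent.Helper77.HB
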