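import Pool.Agent.Helper77.HB.HHS
import Pool.Agent.Helper77.HB.Tree
import Pool.Agent.Helper77.HB.GrGate1

/-!
# The simple axioms
-/

namespace Pool.Agent.Helper77.HB

open Matrix OnePoint

private lemma Hyp_mono {α : Type} {Γ : SimpleGraph α} {δ δ' : ℕ} (h : Hyp Γ δ) (hd : δ ≤ δ') :
    Hyp Γ δ' := by
  refine ⟨h.1, fun a b c p q r hp hq hr z hz => ?_⟩
  rcases h.2 a b c p q r hp hq hr z hz with ⟨w, hw, h1⟩ | ⟨w, hw, h1⟩
  · exact Or.inl ⟨w, hw, h1.trans hd⟩
  · exact Or.inr ⟨w, hw, h1.trans hd⟩

private lemma DiamLe_singleton {α : Type} (Γ : SimpleGraph α) (a : α) (k : ℕ) :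
    DiamLe Γ {a} k := by
  intro x hx y hy
  rw [Set.mem_singleton_iff] at hx hy
  subst hx; subst hy
  simp

theorem ax_hyp (D : Dm) : Hyp (DΓ D) 1 := by
  cases D with
  | top => exact Gr_hyp
  | V v => exact Hyp_mono TF_hyp (by norm_num)
  | U v => exact Hyp_mono ZL_hyp (by norm_num)

theorem ax_pr_ne (lam : Bool) (D : Dm) (x : GA) : (Dpr lam D x).Nonempty := by
  cases D <;> exact Set.singleton_nonempty _

theorem ax_pr_diam (lam : Bool) (D : Dm) (x : GA) : DiamLe (DΓ D) (Dpr lam D x) 0 := by
  cases D <;> exact DiamLe_singleton _ _ _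

theorem ax_pr_onto (lam : Bool) (D : Dm) (z : DC D) :
    ∃ x, ∃ a ∈ Dpr lam D x, (DΓ D).dist z a ≤ 1 := by
  cases D with
  | top =>
    refine ⟨frame z, frame z • v0, rfl, ?_⟩
    rw [frame_smul]
    simp
  | V v =>
    refine ⟨frame v * iP (kapInv lam (z, 0)), _, rfl, ?_⟩
    rw [pg_iP, kap_kapInv]
    simp
  | U v =>
    refine ⟨frame v * iP (kapInv lam (1, z)), _, rfl, ?_⟩
    rw [pg_iP, kap_kapInv]
    simp

theorem ax_nest_refl (D : Dm) : Dnest D D := Or.inr rfl

theorem ax_nest_trans (U V W : Dm) (h : Dnest U V) (h' : Dnest V W) : Dnest U W := by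
  rcases h' with h' | h'
  · exact Or.inl h'
  · rw [← h']; exact h

theorem ax_nest_antisymm (U V : Dm) (h : Dnest U V) (h' : Dnest V U) : U = V := by
  rcases h with h | h
  · rcases h' with h' | h'
    · rw [h, h']
    · exact h'.symm
  · exact h

theorem ax_exists_top : ∃ S, ∀ U, Dnest U S := ⟨Dm.top, fun _ => Or.inl rfl⟩

private lemma Dgate_ne (lam : Bool) (y : Wd) (D : Dm) : (Dgate lam y D).Nonempty := by
  cases D <;> exact Set.singleton_nonempty _

private lemma Drho_ne (lam : Bool) {D : Dm} (h : D ≠ .top) (D' : Dm) :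
    (Drho lam D D').Nonempty := by
  cases D with
  | top => exact absurd rfl h
  | V v => exact Dgate_ne lam v D'
  | U v => exact Dgate_ne lam v D'

theorem ax_rho_ne (lam : Bool) (V W : Dm) (h1 : V ≠ W) (h2 : ¬ Dorth V W) (h3 : ¬ Dnest W V) :
    (Drho lam V W).Nonempty :=
  Drho_ne lam (fun h => h3 (Or.inl h)) W

theorem ax_rho_diam (lam : Bool) (V W : Dm) (h1 : V ≠ W) (h2 : ¬ Dorth V W)
    (h3 : ¬ Dnest W V) : DiamLe (DΓ W) (Drho lam V W) 0 := by
  cases V with
  | top => exact absurd (Or.inl rfl) h3
  | V v => cases W <;> exact DiamLe_singleton _ _ _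
  | U v => cases W <;> exact DiamLe_singleton _ _ _

theorem ax_orth_symm (V W : Dm) (h : Dorth V W) : Dorth W V := by
  cases V <;> cases W <;> simp only [Dorth] at h ⊢ <;> exact h.symm

private lemma Dorth_top_left (D : Dm) : ¬ Dorth .top D := by
  cases D <;> exact id

private lemma Dorth_top_right (D : Dm) : ¬ Dorth D .top := by
  cases D <;> exact id

private lemma Dorth_irrefl (D : Dm) : ¬ Dorth D D := by
  cases D <;> exact id

theorem ax_orth_nest (U V W : Dm) (h : Dnest V W) (h' : Dorth W U) : Dorth V U := by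
  rcases h with h | h
  · subst h
    exact absurd h' (Dorth_top_left U)
  · rw [h]; exact h'

theorem ax_orth_not_nest (V W : Dm) (h : Dorth V W) : ¬ Dnest V W := by
  rintro (h' | h')
  · subst h'
    exact Dorth_top_right V h
  · subst h'
    exact Dorth_irrefl V h

theorem ax_container (T U : Dm) (h : Dnest U T) (h' : ∃ V, Dnest V T ∧ Dorth V U) :
    ∃ W, Dnest W T ∧ W ≠ T ∧ ∀ V, Dnest V T → Dorth V U → Dnest V W := by
  obtain ⟨V, hV, hVU⟩ := h'
  have hT : T = .top := by
    rcases h with h | h
    · exact h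
    · rcases hV with hV | hV
      · exact hV
      · exfalso
        rw [hV, h] at hVU
        exact Dorth_irrefl T hVU
  subst hT
  cases U with
  | top => exact absurd hVU (Dorth_top_right V)
  | V v =>
    refine ⟨.U v, Or.inl rfl, by simp, fun V' _ hV' => Or.inr ?_⟩
    cases V' with
    | top => exact hV'.elim
    | V w => exact hV'.elim
    | U w => simp only [Dorth] at hV'; rw [hV']
  | U v =>
    refine ⟨.V v, Or.inl rfl, by simp, fun V' _ hV' => Or.inr ?_⟩
    cases V' with
    | top => exact hV'.elim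
    | V w => simp only [Dorth] at hV'; rw [hV']
    | U w => exact hV'.elim

theorem ax_cons_rho (lam : Bool) (U V W : Dm) (h : Dnest U V)
    (h' : (Dnest V W ∧ V ≠ W) ∨ (¬ Dnest V W ∧ ¬ Dnest W V ∧ ¬ Dorth V W ∧ ¬ Dorth W U)) :
    Near (DΓ W) (Drho lam U W) (Drho lam V W) 1 := by
  have hV : V ≠ .top := by
    rintro rfl
    rcases h' with h' | h'
    · rcases h'.1 with h1 | h1
      · exact h'.2 h1.symm
      · exact h'.2 h1
    · exact h'.2.1 (Or.inl rfl)
  rcases h with h | h
  · exact absurd h hV
  · subst h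
    obtain ⟨a, ha⟩ := Drho_ne lam hV W
    exact ⟨a, ha, a, ha, by simp⟩

theorem ax_complexity (s : Finset Dm) (h : ∀ U ∈ s, ∀ V ∈ s, Dnest U V ∨ Dnest V U) :
    s.card ≤ 2 := by
  classical
  by_cases hex : ∃ D ∈ s, D ≠ .top
  · obtain ⟨D, hD, hDt⟩ := hex
    have hsub : s ⊆ {Dm.top, D} := by
      intro D' hD'
      by_cases h1 : D' = .top
      · simp [h1]
      · have : D' = D := by
          rcases h D' hD' D hD with (h2 | h2) | (h2 | h2)
          · exact absurd h2 hDt
          · exact h2
          · exact absurd h2 h1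
          · exact h2.symm
        simp [this]
    exact (Finset.card_le_card hsub).trans Finset.card_le_two
  · push Not at hex
    have hsub : s ⊆ {Dm.top} := by
      intro D' hD'
      simp [hex D' hD']
    exact (Finset.card_le_card hsub).trans (by simp)

private lemma Dpr_far (lam : Bool) {x : GA} {v : Wd} (hx : x • v0 = v) (W : Dm)
    (h : W ≠ .V v) (h' : W ≠ .U v) : Dpr lam W x = Dgate lam v W := by
  cases W with
  | top => simp only [Dpr, Dgate, hx]
  | V w =>
    have hw : w ≠ v := fun e => h (by rw [e])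
    simp only [Dpr, Dgate]
    rw [pg_of_ne, hx]
    rw [hx, frame_smul]
    exact hw.symm
  | U w =>
    have hw : w ≠ v := fun e => h' (by rw [e])
    simp only [Dpr, Dgate]
    rw [pg_of_ne, hx]
    rw [hx, frame_smul]
    exact hw.symm

private lemma near_self {α : Type} {Γ : SimpleGraph α} {A B : Set α} (h : A = B)
    (hA : A.Nonempty) (k : ℕ) : Near Γ A B k := by
  subst h
  obtain ⟨a, ha⟩ := hA
  exact ⟨a, ha, a, ha, by simp⟩

theorem ax_realisation (lam : Bool) (s : Set Dm) (h : ∀ U ∈ s, ∀ V ∈ s, U ≠ V → Dorth U V)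
    (p : (V : Dm) → DC V) (hp : ∀ V ∈ s, ∃ x, p V ∈ Dpr lam V x) :
    ∃ x, ∀ V ∈ s, (∃ a ∈ Dpr lam V x, (DΓ V).dist a (p V) ≤ 0) ∧
      (∀ W, Dnest V W → V ≠ W → Near (DΓ W) (Dpr lam W x) (Drho lam V W) 0) ∧
      (∀ W, ¬ Dnest V W → ¬ Dnest W V → ¬ Dorth V W →
        Near (DΓ W) (Dpr lam W x) (Drho lam V W) 0) := by
  by_cases hex : ∃ v, Dm.V v ∈ s ∨ Dm.U v ∈ s
  · obtain ⟨v, hv⟩ := hex
    have hs : ∀ D ∈ s, D = .V v ∨ D = .U v := by
      intro D hD
      by_cases h1 : D = .V v
      · exact Or.inl h1
      · by_cases h2 : D = .U v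
        · exact Or.inr h2
        · exfalso
          rcases hv with hv | hv
          · have := h D hD _ hv h1
            cases D with
            | top => exact this
            | V w => exact this
            | U w => simp only [Dorth] at this; exact h2 (by rw [this])
          · have := h D hD _ hv h2
            cases D with
            | top => exact this
            | V w => simp only [Dorth] at this; exact h1 (by rw [this])
            | U w => exact this
    let x : GA := frame v * iP (kapInv lam (p (.V v), p (.U v)))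
    have hx : x • v0 = v := by
      simp only [x]
      rw [mul_smul, iP_smul_v0, frame_smul]
    have hk : kap lam (pg (frame v) x) = (p (.V v), p (.U v)) := by
      simp only [x]
      rw [pg_iP, kap_kapInv]
    refine ⟨x, fun D hD => ?_⟩
    rcases hs D hD with rfl | rfl
    · refine ⟨⟨_, rfl, ?_⟩, ?_, ?_⟩
      · rw [hk]; simp
      · intro W hW hne
        have hWt : W = .top := by
          rcases hW with h1 | h1
          · exact h1
          · exact absurd h1 hne
        subst hWt
        exact near_self (by rw [Dpr_far lam hx _ (by simp) (by simp)]; rfl)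
          (ax_pr_ne lam _ _) 0
      · intro W h1 h2 h3
        refine near_self ?_ (ax_pr_ne lam _ _) 0
        rw [Dpr_far lam hx _ (fun e => h1 (Or.inr e.symm)) ?_]
        · rfl
        · rintro rfl
          exact h3 rfl
    · refine ⟨⟨_, rfl, ?_⟩, ?_, ?_⟩
      · rw [hk]; simp
      · intro W hW hne
        have hWt : W = .top := by
          rcases hW with h1 | h1
          · exact h1
          · exact absurd h1 hne
        subst hWt
        exact near_self (by rw [Dpr_far lam hx _ (by simp) (by simp)]; rfl)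
          (ax_pr_ne lam _ _) 0
      · intro W h1 h2 h3
        refine near_self ?_ (ax_pr_ne lam _ _) 0
        rw [Dpr_far lam hx _ ?_ (fun e => h1 (Or.inr e.symm))]
        · rfl
        · rintro rfl
          exact h3 rfl
  · push Not at hex
    refine ⟨frame (p .top), fun D hD => ?_⟩
    cases D with
    | top =>
      refine ⟨⟨_, rfl, ?_⟩, ?_, ?_⟩
      · rw [frame_smul]; simp
      · intro W hW hne
        rcases hW with h1 | h1
        · exact absurd h1.symm hne
        · exact absurd h1 hne
      · intro W _ h2 _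
        exact absurd (Or.inl rfl) h2
    | V v => exact absurd hD (hex v).1
    | U v => exact absurd hD (hex v).2

end Pool.Agent.Helper77.HB
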