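import Pool.Agent.Helper77.HB.Defs

/-!
# The topological invariant
-/

namespace Pool.Agent.Helper77.HB

/-- `x` has arbitrarily small open neighbourhoods with finite frontier. -/
def RegPt {X : Type} [TopologicalSpace X] (x : X) : Prop :=
  ∀ O : Set X, IsOpen O → x ∈ O → ∃ U, IsOpen U ∧ x ∈ U ∧ U ⊆ O ∧ (frontier U).Finite

/-- The invariant. -/
def Psi (X : Type) [TopologicalSpace X] : Prop :=
  ∃ z : X, ¬ RegPt z ∧ ∀ O, IsOpen O → z ∈ O → ∃ D : Set X, IsOpen D ∧ D.Nonempty ∧
    (∀ y ∈ D, ¬ JoinedIn {x | ¬ RegPt x} z y) ∧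
    ∀ y ∈ frontier D, y ∈ O ∧ JoinedIn {x | ¬ RegPt x} z y

private theorem regPt_homeo_aux {X Y : Type} [TopologicalSpace X] [TopologicalSpace Y]
    (e : X ≃ₜ Y) (x : X) (h : RegPt x) : RegPt (e x) := by
  intro O hO hx
  obtain ⟨U, hU, hxU, hUO, hf⟩ := h (e ⁻¹' O) (hO.preimage e.continuous) hx
  refine ⟨e '' U, e.isOpenMap U hU, ⟨x, hxU, rfl⟩, ?_, ?_⟩
  · rintro _ ⟨u, hu, rfl⟩
    exact hUO hu
  · rw [← e.image_frontier]
    exact hf.image e

theorem RegPt_homeo {X Y : Type} [TopologicalSpace X] [TopologicalSpace Y] (e : X ≃ₜ Y) (x : X) :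
    RegPt (e x) ↔ RegPt x := by
  refine ⟨fun h => ?_, regPt_homeo_aux e x⟩
  have h1 := regPt_homeo_aux e.symm (e x) h
  rwa [e.symm_apply_apply] at h1

private theorem joinedIn_homeo_aux {X Y : Type} [TopologicalSpace X] [TopologicalSpace Y]
    (e : X ≃ₜ Y) {x y : X} (h : JoinedIn {x | ¬ RegPt x} x y) :
    JoinedIn {y | ¬ RegPt y} (e x) (e y) := by
  obtain ⟨γ, hγ⟩ := h
  refine ⟨γ.map e.continuous, fun t => ?_⟩
  have h1 : ¬ RegPt (γ t) := hγ t
  have h2 : ¬ RegPt (e (γ t)) := fun h3 => h1 ((RegPt_homeo e _).1 h3)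
  exact h2

private theorem joinedIn_homeo {X Y : Type} [TopologicalSpace X] [TopologicalSpace Y]
    (e : X ≃ₜ Y) {x y : X} :
    JoinedIn {y | ¬ RegPt y} (e x) (e y) ↔ JoinedIn {x | ¬ RegPt x} x y := by
  refine ⟨fun h => ?_, joinedIn_homeo_aux e⟩
  have h1 := joinedIn_homeo_aux e.symm h
  rwa [e.symm_apply_apply, e.symm_apply_apply] at h1

theorem Psi_homeo {X Y : Type} [TopologicalSpace X] [TopologicalSpace Y] (e : X ≃ₜ Y)
    (h : Psi X) : Psi Y := by
  obtain ⟨z, hz, H⟩ := h
  refine ⟨e z, fun h1 => hz ((RegPt_homeo e z).1 h1), fun O hO hzO => ?_⟩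
  obtain ⟨D, hD, hne, h1, h2⟩ := H (e ⁻¹' O) (hO.preimage e.continuous) hzO
  refine ⟨e '' D, e.isOpenMap D hD, hne.image e, ?_, ?_⟩
  · rintro _ ⟨d, hd, rfl⟩ hj
    exact h1 d hd ((joinedIn_homeo e).1 hj)
  · intro y hy
    rw [← e.image_frontier] at hy
    obtain ⟨d, hd, rfl⟩ := hy
    obtain ⟨h3, h4⟩ := h2 d hd
    exact ⟨h3, (joinedIn_homeo e).2 h4⟩

private theorem sierp {ι : Type} [Countable ι] (A : ι → Set ℝ) (hA : ∀ i, IsClosed (A i))
    (hd : Pairwise (fun i j => Disjoint (A i) (A j))) (hU : ∀ t, ∃ i, t ∈ A i) {i : ι} {x : ℝ}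
    (hx : x ∈ A i) : A i = Set.univ := by
  have huniq : ∀ {i j : ι} {t : ℝ}, t ∈ A i → t ∈ A j → i = j := by
    intro i j t hi hj
    by_contra hne
    exact Set.disjoint_left.1 (hd hne) hi hj
  by_cases hK : ∀ t, ∃ i, t ∈ interior (A i)
  · have hop : IsOpen (A i) := by
      rw [← subset_interior_iff_isOpen]
      intro y hy
      obtain ⟨j, hj⟩ := hK y
      rwa [huniq hy (interior_subset hj)]
    exact IsClopen.eq_univ ⟨hA i, hop⟩ ⟨x, hx⟩
  · exfalso
    push Not at hK
    obtain ⟨k0, hk0⟩ := hK
    let K : Set ℝ := (⋃ i, interior (A i))ᶜ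
    have hKc : IsClosed K := (isOpen_iUnion fun i => isOpen_interior).isClosed_compl
    have hKmem : ∀ t, t ∈ K ↔ ∀ i, t ∉ interior (A i) := by
      intro t
      simp only [K, Set.mem_compl_iff, Set.mem_iUnion, not_exists]
    haveI : CompleteSpace K := hKc.completeSpace_coe
    haveI : Nonempty K := ⟨⟨k0, (hKmem k0).2 hk0⟩⟩
    obtain ⟨j, z, hz⟩ := nonempty_interior_of_iUnion_of_closed
      (f := fun i => ((↑) : K → ℝ) ⁻¹' A i) (fun i => (hA i).preimage continuous_subtype_val)
      (by
        rw [Set.eq_univ_iff_forall]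
        intro t
        obtain ⟨i, hi⟩ := hU t
        exact Set.mem_iUnion.2 ⟨i, hi⟩)
    obtain ⟨t, hts, hto, hzt⟩ := mem_interior.1 hz
    obtain ⟨O, hO, rfl⟩ := isOpen_induced_iff.1 hto
    have hVo : IsOpen (connectedComponentIn O (z : ℝ)) := hO.connectedComponentIn
    have hzV : (z : ℝ) ∈ connectedComponentIn O (z : ℝ) := mem_connectedComponentIn hzt
    have hVO : connectedComponentIn O (z : ℝ) ⊆ O := connectedComponentIn_subset _ _
    have hKO : ∀ t ∈ K, t ∈ O → t ∈ A j := fun t htK htO => hts (a := ⟨t, htK⟩) htO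
    have hVA : connectedComponentIn O (z : ℝ) ⊆ A j := by
      intro y hy
      by_contra hyj
      have hyK : y ∉ K := fun h => hyj (hKO y h (hVO hy))
      rw [hKmem] at hyK
      push Not at hyK
      obtain ⟨l, hl⟩ := hyK
      have hlj : l ≠ j := by
        rintro rfl
        exact hyj (interior_subset hl)
      -- a point of the frontier of `interior (A l)`
      have hfr : (connectedComponentIn O (z : ℝ) ∩ frontier (interior (A l))).Nonempty := by
        by_contra hcon
        rw [Set.not_nonempty_iff_eq_empty] at hcon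
        have hpre : IsPreconnected (connectedComponentIn O (z : ℝ)) :=
          isPreconnected_connectedComponentIn
        have h1 := isPreconnected_iff_subset_of_disjoint.1 hpre (interior (A l))
          (closure (interior (A l)))ᶜ isOpen_interior isClosed_closure.isOpen_compl
          (by
            intro t ht
            by_cases h2 : t ∈ closure (interior (A l))
            · left
              by_contra h3
              have h4 : t ∈ connectedComponentIn O (z : ℝ) ∩ frontier (interior (A l)) := by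
                rw [isOpen_interior.frontier_eq]
                exact ⟨ht, h2, h3⟩
              rw [hcon] at h4
              exact h4
            · exact Or.inr h2)
          (by
            rw [Set.eq_empty_iff_forall_notMem]
            rintro t ⟨-, h2, h3⟩
            exact h3 (subset_closure h2))
        rcases h1 with h1 | h1
        · have h2 := interior_subset (h1 hzV)
          have hzj : (z : ℝ) ∈ A j := hKO z z.2 hzt
          exact hlj (huniq h2 hzj)
        · exact h1 hy (subset_closure hl)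
      obtain ⟨t, htV, htf⟩ := hfr
      rw [isOpen_interior.frontier_eq] at htf
      have htl : t ∈ A l := closure_minimal interior_subset (hA l) htf.1
      by_cases htK : t ∈ K
      · exact hlj (huniq htl (hKO t htK (hVO htV)))
      · rw [hKmem] at htK
        push Not at htK
        obtain ⟨m, hm⟩ := htK
        have hml := huniq (interior_subset hm) htl
        subst hml
        exact htf.2 hm
    have hzi : (z : ℝ) ∈ interior (A j) := mem_interior.2 ⟨_, hVA, hVo, hzV⟩
    exact (hKmem z).1 z.2 j hzi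

/-- Sierpinski's theorem for an interval: a path in a countable disjoint union of closed sets
stays in one of them. -/
theorem path_countable {X ι : Type} [TopologicalSpace X] [Countable ι] (S : ι → Set X)
    (hS : ∀ i, IsClosed (S i)) (hd : Pairwise (fun i j => Disjoint (S i) (S j)))
    {x y : X} (h : JoinedIn (⋃ i, S i) x y) {i : ι} (hx : x ∈ S i) : y ∈ S i := by
  have hc : Continuous h.somePath.extend := h.somePath.continuous_extend
  have hmem : ∀ t, ∃ i, h.somePath.extend t ∈ S i := by
    intro t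
    have h1 : h.somePath.extend t ∈ Set.range h.somePath.extend := ⟨t, rfl⟩
    rw [Path.extend_range] at h1
    obtain ⟨s, hs⟩ := h1
    have h2 := h.somePath_mem s
    rw [hs] at h2
    exact Set.mem_iUnion.1 h2
  have h0 : h.somePath.extend 0 ∈ S i := by rwa [Path.extend_zero]
  have h1 := sierp (fun i => h.somePath.extend ⁻¹' S i) (fun i => (hS i).preimage hc)
    (fun i j hij => (hd hij).preimage _) hmem h0
  have h2 : (1 : ℝ) ∈ h.somePath.extend ⁻¹' S i := by
    rw [h1]; trivial
  have h3 : h.somePath.extend 1 ∈ S i := h2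
  rwa [Path.extend_one] at h3

end Pool.Agent.Helper77.HB
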