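import Pool.Agent.Helper77.HB.Ends
import Pool.Agent.Helper77.HB.Strict

/-!
# The space `J` and its neighbourhoods
-/

namespace Pool.Agent.Helper77.HB

open Matrix OnePoint

/-- The point of height `t` on the meridian through `ξ`. -/
noncomputable def merR (ξ : E) (t : ℝ) : J :=
  if h : t ∈ Set.Ioo (-1 : ℝ) 1 then J.mer ξ ⟨t, h⟩ else J.pole (decide (0 < t))

/-- The height of the end `s` of a coset of `⟨c⟩`. -/
noncomputable def hP (lam s : Bool) : Set.Ioo (-1 : ℝ) 1 :=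
  ⟨if lam then (sg s : ℝ) / 2 else 0, by
    cases lam <;> cases s <;> simp [sg] <;> norm_num⟩

/-- The end `s` of the coset `p ⟨c⟩` in `J`. -/
noncomputable def Pj (lam : Bool) (p : P) (s : Bool) : J := J.mer (endc p.1 s) (hP lam s)

theorem InJ_mono {R R' : ℕ} (h : R ≤ R') {j : J} {u : F × ℤ} (hu : InJ R' j u) : InJ R j u := by
  obtain ⟨h1, h2, h3⟩ := hu
  have hR : (R : ℝ) ≤ R' := by exact_mod_cast h
  refine ⟨hR.trans h1, ?_, fun ξ t ht => near_mono hR ξ (h3 ξ t ht)⟩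
  exact (mul_le_mul_of_nonneg_right hR (abs_nonneg _)).trans h2

/-- The distance to the neutral element in the tree. -/
private lemma TF_dist_one (w : F) : TF.dist 1 w = w.norm := by
  rw [TF_dist, inv_one, one_mul]

private lemma sz_nonneg' (u : F × ℤ) : 0 ≤ sz u := by
  unfold sz
  positivity

private lemma abs_ht_le (j : J) : |j.ht| ≤ 1 := by
  cases j with
  | pole s => cases s <;> simp [J.ht, sg]
  | mer ξ t =>
    have h := t.2
    exact abs_le.2 ⟨h.1.le, h.2.le⟩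

theorem InJ_ne (R : ℕ) (j : J) : ∃ u, InJ R j u := by
  cases j with
  | pole s =>
    refine ⟨(1, sg s * R), ?_, ?_, ?_⟩
    · cases s <;> simp [sz, sg]
    · cases s <;> simp [sz, sg, J.ht]
    · intro ξ t h
      exact absurd h (by simp)
  | mer ξ t =>
    obtain ⟨y, hy⟩ := gbd_nonempty ξ
    obtain ⟨N, hN⟩ := near_seq hy (1 : F) (R : ℝ)
    obtain ⟨w, hw⟩ : ∃ w : F, w ∈ near (Γ := TF) 1 (R : ℝ) ξ := ⟨y N, hN N le_rfl⟩
    have hRw : (R : ℝ) ≤ (w.norm : ℝ) := by
      have := near_dist TF_connected hw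
      rwa [TF_dist_one] at this
    have ht : 0 < 1 - |(t : ℝ)| := by
      have h := t.2
      have := abs_lt.2 ⟨h.1, h.2⟩
      linarith
    obtain ⟨x, hx⟩ : ∃ x : ℝ, x = t.1 * w.norm / (1 - |(t : ℝ)|) := ⟨_, rfl⟩
    have hxabs : |x| = |(t : ℝ)| * w.norm / (1 - |(t : ℝ)|) := by
      rw [hx, abs_div, abs_mul, abs_of_pos ht, Nat.abs_cast]
    have hx0 : x = t.1 * ((w.norm : ℝ) + |x|) := by
      rw [hxabs, hx]
      field_simp
      ring
    have hr : |x - (round x : ℝ)| ≤ 1 / 2 := abs_sub_round x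
    refine ⟨(w, round x), ?_, ?_, ?_⟩
    · unfold sz
      have : (0 : ℝ) ≤ |((round x : ℤ) : ℝ)| := abs_nonneg _
      simp only
      linarith
    · have h1 : |((round x : ℤ) : ℝ) - t.1 * sz (w, round x)| ≤ 1 := by
        have e : ((round x : ℤ) : ℝ) - t.1 * sz (w, round x) =
            (((round x : ℤ) : ℝ) - x) + t.1 * (|x| - |((round x : ℤ) : ℝ)|) := by
          unfold sz
          simp only
          linear_combination hx0
        rw [e]
        have h2 : |((round x : ℤ) : ℝ) - x| ≤ 1 / 2 := by rw [abs_sub_comm]; exact hr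
        have h3 : |(|x| - |((round x : ℤ) : ℝ)|)| ≤ 1 / 2 := (abs_abs_sub_abs_le _ _).trans hr
        have h4 : |(t : ℝ)| ≤ 1 := by linarith
        have h5 : |t.1 * (|x| - |((round x : ℤ) : ℝ)|)| ≤ 1 / 2 := by
          rw [abs_mul]
          calc |(t : ℝ)| * |(|x| - |((round x : ℤ) : ℝ)|)| ≤ 1 * (1 / 2) :=
                mul_le_mul h4 h3 (abs_nonneg _) zero_le_one
            _ = 1 / 2 := one_mul _
        calc _ ≤ |((round x : ℤ) : ℝ) - x| + |t.1 * (|x| - |((round x : ℤ) : ℝ)|)| :=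
              abs_add_le _ _
          _ ≤ 1 := by linarith
      have h2 : (R : ℝ) ≤ sz (w, round x) := by
        unfold sz
        have : (0 : ℝ) ≤ |((round x : ℤ) : ℝ)| := abs_nonneg _
        simp only
        linarith
      have h3 : (R : ℝ) * |((round x : ℤ) : ℝ) - t.1 * sz (w, round x)| ≤ R * 1 :=
        mul_le_mul_of_nonneg_left h1 (Nat.cast_nonneg _)
      have h4 : (R : ℝ) * |((round x : ℤ) : ℝ) - t.1 * sz (w, round x)| ≤ sz (w, round x) := by
        linarith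
      exact h4
    · intro ξ' t' h
      rw [J.mer.injEq] at h
      rw [← h.1]
      exact hw

theorem InJ_fin (j : J) (S : Set (F × ℤ)) (hS : S.Finite) : ∃ R, ∀ u ∈ S, ¬ InJ R j u := by
  obtain ⟨B, hB⟩ := (hS.image sz).bddAbove
  obtain ⟨R, hR⟩ := exists_nat_gt B
  refine ⟨R, fun u hu h => ?_⟩
  have h1 := hB ⟨u, hu, rfl⟩
  have h2 := h.1
  linarith

theorem TrJ_isTrace : IsTrace TrJ where
  univ q := ⟨0, fun u _ => Set.mem_univ u⟩
  mono q B B' hB h := by
    obtain ⟨R, hR⟩ := h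
    exact ⟨R, fun u hu => hB (hR u hu)⟩
  inter q B B' h h' := by
    obtain ⟨R, hR⟩ := h
    obtain ⟨R', hR'⟩ := h'
    exact ⟨max R R', fun u hu => ⟨hR u (InJ_mono (le_max_left _ _) hu),
      hR' u (InJ_mono (le_max_right _ _) hu)⟩⟩
  ne q h := by
    obtain ⟨R, hR⟩ := h
    obtain ⟨u, hu⟩ := InJ_ne R q
    exact hR u hu

/-- Coarse invariance. -/
theorem InJ_coarse (j : J) (R M : ℕ) : ∃ R' : ℕ, ∀ u u' : F × ℤ, InJ R' j u →
    TF.dist u.1 u'.1 ≤ M → |u.2 - u'.2| ≤ M → InJ R j u' := by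
  refine ⟨2 * R + 6 * M * R + 4 * M, ?_⟩
  rintro u u' ⟨h1, h2, h3⟩ hd1 hd2
  push_cast at h1 h2
  have hM : (0 : ℝ) ≤ M := Nat.cast_nonneg _
  have hR : (0 : ℝ) ≤ R := Nat.cast_nonneg _
  have hMR : (0 : ℝ) ≤ (M : ℝ) * R := mul_nonneg hM hR
  have hd1' : (TF.dist u.1 u'.1 : ℝ) ≤ M := by exact_mod_cast hd1
  have hd2' : |(u.2 : ℝ) - u'.2| ≤ M := by exact_mod_cast hd2
  have hn1 : (u.1.norm : ℝ) ≤ u'.1.norm + M := by
    have := tri_real TF_connected 1 u'.1 u.1
    rw [TF_dist_one, TF_dist_one, SimpleGraph.dist_comm (u := u'.1)] at this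
    linarith
  have hn2 : (u'.1.norm : ℝ) ≤ u.1.norm + M := by
    have := tri_real TF_connected 1 u.1 u'.1
    rw [TF_dist_one, TF_dist_one] at this
    linarith
  have ha : |(|(u.2 : ℝ)| - |(u'.2 : ℝ)|)| ≤ M := (abs_abs_sub_abs_le _ _).trans hd2'
  have ha' := abs_le.1 ha
  have hs : |sz u - sz u'| ≤ 2 * M := by
    unfold sz
    rw [abs_le]
    constructor <;> linarith [ha'.1, ha'.2]
  have hs' := abs_le.1 hs
  have hszu : (2 * R + 6 * M * R + 4 * M : ℝ) ≤ sz u := h1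
  refine ⟨by nlinarith [hs'.1, hs'.2], ?_, ?_⟩
  · -- the height
    have h4 : |(u'.2 : ℝ) - j.ht * sz u'| ≤ |(u.2 : ℝ) - j.ht * sz u| + 3 * M := by
      have e : (u'.2 : ℝ) - j.ht * sz u' = ((u.2 : ℝ) - j.ht * sz u) + (-((u.2 : ℝ) - u'.2)) +
          j.ht * (sz u - sz u') := by ring
      rw [e]
      have h5 : |j.ht * (sz u - sz u')| ≤ 2 * M := by
        rw [abs_mul]
        calc |j.ht| * |sz u - sz u'| ≤ 1 * (2 * M) :=
              mul_le_mul (abs_ht_le j) hs (abs_nonneg _) zero_le_one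
          _ = 2 * M := one_mul _
      have h6 : |(-((u.2 : ℝ) - u'.2))| ≤ M := by rw [abs_neg]; exact hd2'
      calc _ ≤ |((u.2 : ℝ) - j.ht * sz u) + (-((u.2 : ℝ) - u'.2))| + |j.ht * (sz u - sz u')| :=
            abs_add_le _ _
        _ ≤ |(u.2 : ℝ) - j.ht * sz u| + |(-((u.2 : ℝ) - u'.2))| + |j.ht * (sz u - sz u')| := by
            gcongr
            exact abs_add_le _ _
        _ ≤ _ := by linarith
    have hA : 0 ≤ |(u.2 : ℝ) - j.ht * sz u| := abs_nonneg _
    have h7 : 2 * (R : ℝ) * |(u.2 : ℝ) - j.ht * sz u| ≤ sz u := by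
      refine le_trans (mul_le_mul_of_nonneg_right ?_ hA) h2
      nlinarith
    have h8 : (R : ℝ) * |(u'.2 : ℝ) - j.ht * sz u'| ≤
        R * (|(u.2 : ℝ) - j.ht * sz u| + 3 * M) := mul_le_mul_of_nonneg_left h4 hR
    nlinarith [hs'.1, hs'.2]
  · intro ξ t ht
    obtain ⟨y, hy, N, hN⟩ := h3 ξ t ht
    refine ⟨y, hy, N, fun n hn => ?_⟩
    have h4 := hN n hn
    push_cast at h4
    unfold gp at h4 ⊢
    have t1 := tri_real TF_connected 1 u'.1 u.1
    have t2 := tri_real TF_connected u'.1 u.1 (y n)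
    rw [SimpleGraph.dist_comm (u := u'.1) (v := u.1)] at t1 t2
    nlinarith

private lemma jc_norm_zpow (n : ℤ) :
    FreeGroup.norm ((FreeGroup.of true : F) ^ n) = n.natAbs := by
  rcases Int.natAbs_eq n with h | h
  · rw [h, zpow_natCast, Int.natAbs_natCast, FreeGroup.norm_of_pow]
  · rw [h, _root_.zpow_neg, zpow_natCast, FreeGroup.norm_inv_eq, Int.natAbs_neg,
      Int.natAbs_natCast, FreeGroup.norm_of_pow]

private lemma jc_bounds (w : F) (n : ℤ) :
    (FreeGroup.norm (w * FreeGroup.of true ^ n) : ℝ) ≤ (w.norm : ℝ) + |(n : ℝ)| ∧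
    |(n : ℝ)| ≤ (w.norm : ℝ) + (FreeGroup.norm (w * FreeGroup.of true ^ n) : ℝ) := by
  have h0 : |(n : ℝ)| = (n.natAbs : ℝ) := by rw [← Int.cast_abs, Int.abs_eq_natAbs]; simp
  have h1 := FreeGroup.norm_mul_le w (FreeGroup.of true ^ n)
  have h2 := FreeGroup.norm_mul_le w⁻¹ (w * FreeGroup.of true ^ n)
  rw [inv_mul_cancel_left, FreeGroup.norm_inv_eq, jc_norm_zpow] at h2
  rw [jc_norm_zpow] at h1
  rw [h0]
  constructor
  · exact_mod_cast h1
  · exact_mod_cast h2

private lemma jc_kap (lam : Bool) (p : P) (n : ℤ) : kap lam (p * cP ^ n) =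
    (p.1 * FreeGroup.of true ^ n, (kap lam p).2 + lv lam * n) := by
  rw [kap_mul, kap_cP_zpow]
  rfl

private lemma jc_est (lam s : Bool) (w : F) (k0 n : ℤ) (hn : 0 ≤ sg s * n) :
    |((k0 + lv lam * n : ℤ) : ℝ) - (hP lam s : ℝ) *
      sz (w * FreeGroup.of true ^ n, k0 + lv lam * n)| ≤ 2 * |(k0 : ℝ)| + (w.norm : ℝ) := by
  obtain ⟨h1, h2⟩ := jc_bounds w n
  have hw : (0 : ℝ) ≤ (w.norm : ℝ) := Nat.cast_nonneg _
  unfold sz hP
  generalize hA : (FreeGroup.norm (w * FreeGroup.of true ^ n) : ℝ) = a at h1 h2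
  cases lam
  · simp only [lv, Bool.false_eq_true, if_false, zero_mul, add_zero, sub_zero]
    have := abs_nonneg (k0 : ℝ)
    linarith
  · simp only [lv, if_true, one_mul]
    push_cast
    have e1 := le_abs_self (k0 : ℝ)
    have e2 := neg_abs_le (k0 : ℝ)
    have e3 := le_abs_self ((k0 : ℝ) + n)
    have e4 := neg_abs_le ((k0 : ℝ) + n)
    have e5 := abs_add_le (k0 : ℝ) (n : ℝ)
    cases s
    · have hn' : (n : ℝ) ≤ 0 := by
        simp only [sg, Bool.false_eq_true, if_false] at hn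
        exact_mod_cast (by omega : n ≤ 0)
      rw [abs_of_nonpos hn'] at h1 h2 e5
      simp only [sg, Bool.false_eq_true, if_false]
      rw [abs_le]
      push_cast
      constructor <;> linarith
    · have hn' : (0 : ℝ) ≤ n := by
        simp only [sg, if_true, one_mul] at hn
        exact_mod_cast hn
      rw [abs_of_nonneg hn'] at h1 h2 e5
      simp only [sg, if_true]
      rw [abs_le]
      push_cast
      constructor <;> linarith

/-- A coset of `⟨c⟩` accumulates only at its two ends. -/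
theorem InJ_coset (lam : Bool) (p : P) (s : Bool) (j : J) (hj : j ≠ Pj lam p s) :
    ∃ R : ℕ, ∀ n : ℤ, 1 ≤ sg s * n → ¬ InJ R j (kap lam (p * cP ^ n)) := by
  obtain ⟨k0, hk0⟩ : ∃ k0, k0 = (kap lam p).2 := ⟨_, rfl⟩
  cases j with
  | pole b =>
    refine ⟨3 * (k0.natAbs + p.1.norm) + 3, fun n _ hI => ?_⟩
    rw [jc_kap, ← hk0] at hI
    obtain ⟨h1, h2, -⟩ := hI
    obtain ⟨h3, h4⟩ := jc_bounds p.1 n
    have hk : |(k0 : ℝ)| = (k0.natAbs : ℝ) := by rw [← Int.cast_abs, Int.abs_eq_natAbs]; simp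
    have ha0 : (0 : ℝ) ≤ (FreeGroup.norm (p.1 * FreeGroup.of true ^ n) : ℝ) := Nat.cast_nonneg _
    have hw0 : (0 : ℝ) ≤ (p.1.norm : ℝ) := Nat.cast_nonneg _
    have hK0 : (0 : ℝ) ≤ (k0.natAbs : ℝ) := Nat.cast_nonneg _
    have hx : |((k0 + lv lam * n : ℤ) : ℝ)| ≤ (k0.natAbs : ℝ) + |(n : ℝ)| := by
      rw [← hk]
      cases lam
      · simp only [lv, Bool.false_eq_true, if_false, zero_mul, add_zero]
        have := abs_nonneg (n : ℝ)
        linarith
      · simp only [lv, if_true, one_mul]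
        push_cast
        exact abs_add_le _ _
    unfold sz J.ht at h2
    unfold sz at h1
    simp only at h1 h2
    generalize (FreeGroup.norm (p.1 * FreeGroup.of true ^ n) : ℝ) = a at h1 h2 h3 h4 ha0
    generalize ((k0 + lv lam * n : ℤ) : ℝ) = x at h1 h2 hx
    have h5 : a ≤ |x - (sg b : ℝ) * (a + |x|)| := by
      have e1 := le_abs_self x
      have e2 := neg_abs_le x
      cases b
      · simp only [sg, Bool.false_eq_true, if_false]
        push_cast
        refine le_trans ?_ (le_abs_self _)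
        linarith
      · simp only [sg, if_true]
        push_cast
        refine le_trans ?_ (neg_le_abs _)
        linarith
    push_cast at h1 h2
    have h6 : (3 * ((k0.natAbs : ℝ) + (p.1.norm : ℝ)) + 3) * a ≤ a + |x| := by
      refine le_trans (mul_le_mul_of_nonneg_left h5 (by positivity)) ?_
      exact h2
    have h7 : |x| ≤ (k0.natAbs : ℝ) + (p.1.norm : ℝ) + a := by linarith
    nlinarith [mul_nonneg (add_nonneg hK0 hw0) ha0]
  | mer ξ t =>
    by_cases hξ : ξ = endc p.1 s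
    · subst hξ
      have htne : (hP lam s : ℝ) - (t : ℝ) ≠ 0 := by
        intro h
        apply hj
        unfold Pj
        rw [show t = hP lam s from Subtype.ext (by linarith)]
      have hε : 0 < |(hP lam s : ℝ) - (t : ℝ)| := abs_pos.2 htne
      generalize hτ : (hP lam s : ℝ) = τ at hε
      obtain ⟨R, hR⟩ := exists_nat_ge ((2 + 2 * (2 * |(k0 : ℝ)| + (p.1.norm : ℝ))) / |τ - (t : ℝ)|)
      refine ⟨R, fun n hn hI => ?_⟩
      rw [jc_kap, ← hk0] at hI
      obtain ⟨h1, h2, -⟩ := hI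
      have h3 := jc_est lam s p.1 k0 n (by omega)
      rw [hτ] at h3
      have h4 : (J.mer (endc p.1 s) t).ht = (t : ℝ) := rfl
      rw [h4] at h2
      simp only at h2 h3
      have hD : 0 ≤ 2 * |(k0 : ℝ)| + (p.1.norm : ℝ) := by positivity
      generalize 2 * |(k0 : ℝ)| + (p.1.norm : ℝ) = D at hR h3 hD
      generalize sz (p.1 * FreeGroup.of true ^ n, k0 + lv lam * n) = z at h1 h2 h3
      generalize ((k0 + lv lam * n : ℤ) : ℝ) = x at h2 h3
      rw [div_le_iff₀ hε] at hR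
      have hR0 : (0 : ℝ) < R := by
        by_contra hcon
        have : (R : ℝ) = 0 := le_antisymm (not_lt.1 hcon) (Nat.cast_nonneg _)
        rw [this, zero_mul] at hR
        linarith
      have hz : 0 < z := lt_of_lt_of_le hR0 h1
      have h5 : |τ - (t : ℝ)| * z ≤ |x - (t : ℝ) * z| + |x - τ * z| := by
        have h6 : (τ - (t : ℝ)) * z = (x - (t : ℝ) * z) - (x - τ * z) := by ring
        rw [← abs_of_pos hz, ← abs_mul, h6, abs_of_pos hz]
        exact abs_sub _ _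
      have h6 : |τ - (t : ℝ)| * z - D ≤ |x - (t : ℝ) * z| := by linarith
      have h7 := mul_le_mul_of_nonneg_left h6 hR0.le
      have h8 := mul_le_mul_of_nonneg_right hR hz.le
      have h9 : (R : ℝ) * D ≤ z * D := mul_le_mul_of_nonneg_right h1 hD
      nlinarith [mul_nonneg hD hz.le]
    · obtain ⟨R, hR⟩ := ends_coset ξ p.1 1
      refine ⟨R, fun n hn hI => ?_⟩
      rw [jc_kap, ← hk0] at hI
      have h1 := hI.2.2 ξ t rfl
      rcases hR n h1 with ⟨h2, h3⟩ | ⟨h2, h3⟩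
      · cases s
        · simp only [sg, Bool.false_eq_true, if_false] at hn
          omega
        · exact hξ h2
      · cases s
        · exact hξ h2
        · simp only [sg, if_true] at hn
          omega

theorem InJ_coset_lim (lam : Bool) (p : P) (s : Bool) (R : ℕ) :
    ∃ M : ℤ, ∀ n : ℤ, M ≤ sg s * n → InJ R (Pj lam p s) (kap lam (p * cP ^ n)) := by
  obtain ⟨k0, hk0⟩ : ∃ k0, k0 = (kap lam p).2 := ⟨_, rfl⟩
  obtain ⟨M1, hM1⟩ := ends_lim p.1 s R
  refine ⟨max M1 ((R * (2 * k0.natAbs + p.1.norm + 1) + p.1.norm : ℕ) : ℤ), fun n hn => ?_⟩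
  have hn1 : M1 ≤ sg s * n := (le_max_left _ _).trans hn
  have hn2 : ((R * (2 * k0.natAbs + p.1.norm + 1) + p.1.norm : ℕ) : ℤ) ≤ sg s * n :=
    (le_max_right _ _).trans hn
  have hn0 : 0 ≤ sg s * n := le_trans (Int.natCast_nonneg _) hn2
  have hk : |(k0 : ℝ)| = (k0.natAbs : ℝ) := by rw [← Int.cast_abs, Int.abs_eq_natAbs]; simp
  have hn3 : (R : ℝ) * (2 * (k0.natAbs : ℝ) + p.1.norm + 1) + p.1.norm ≤ |(n : ℝ)| := by
    have h1 : ((sg s * n : ℤ) : ℝ) ≤ |(n : ℝ)| := by
      cases s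
      · simp only [sg, Bool.false_eq_true, if_false]
        push_cast
        have := neg_abs_le (n : ℝ)
        linarith
      · simp only [sg, if_true, one_mul]
        exact le_abs_self _
    have h2 : (((R * (2 * k0.natAbs + p.1.norm + 1) + p.1.norm : ℕ) : ℤ) : ℝ) ≤
        ((sg s * n : ℤ) : ℝ) := by exact_mod_cast hn2
    push_cast at h2
    push_cast at h1
    rw [hk] at h2
    linarith
  obtain ⟨h3, h4⟩ := jc_bounds p.1 n
  have hest := jc_est lam s p.1 k0 n hn0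
  have hsz : (R : ℝ) * (2 * (k0.natAbs : ℝ) + p.1.norm + 1) ≤
      sz (p.1 * FreeGroup.of true ^ n, k0 + lv lam * n) := by
    unfold sz
    simp only
    have := abs_nonneg (((k0 + lv lam * n : ℤ)) : ℝ)
    linarith
  have hR : (0 : ℝ) ≤ R := Nat.cast_nonneg _
  have hp : (0 : ℝ) ≤ p.1.norm := Nat.cast_nonneg _
  have hk' : (0 : ℝ) ≤ (k0.natAbs : ℝ) := Nat.cast_nonneg _
  rw [jc_kap, ← hk0]
  refine ⟨?_, ?_, ?_⟩
  · refine le_trans ?_ hsz
    nlinarith
  · refine le_trans ?_ hsz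
    have h5 : (Pj lam p s).ht = (hP lam s : ℝ) := rfl
    rw [h5]
    refine mul_le_mul_of_nonneg_left ?_ hR
    rw [hk] at hest
    refine hest.trans ?_
    linarith
  · intro ξ t hj
    have h6 : endc p.1 s = ξ := by
      unfold Pj at hj
      injection hj
    rw [← h6]
    exact hM1 n hn1

theorem jl3_ht (ξ : E) (t : ℝ) : (merR ξ t).ht = max (-1) (min 1 t) := by
  unfold merR
  by_cases h : t ∈ Set.Ioo (-1 : ℝ) 1
  · rw [dif_pos h]
    change t = _
    rw [min_eq_right h.2.le, max_eq_right h.1.le]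
  · rw [dif_neg h]
    by_cases h0 : 0 < t
    · have h1 : (1 : ℝ) ≤ t := by
        by_contra hcon
        exact h ⟨by linarith, not_le.1 hcon⟩
      have h2 : decide (0 < t) = true := decide_eq_true h0
      rw [h2, min_eq_left h1]
      simp [J.ht, sg]
    · have h1 : t ≤ -1 := by
        by_contra hcon
        exact h ⟨not_le.1 hcon, by linarith⟩
      have h2 : decide (0 < t) = false := decide_eq_false h0
      rw [h2, min_eq_right (by linarith), max_eq_left h1]
      simp [J.ht, sg]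

theorem jl3_clamp (a b : ℝ) : |max (-1) (min 1 a) - max (-1) (min 1 b)| ≤ |a - b| := by
  rcases le_total a b with h | h
  · have h1 : max (-1) (min 1 a) ≤ max (-1) (min 1 b) := max_le_max le_rfl (min_le_min le_rfl h)
    rw [abs_of_nonpos (by linarith), abs_of_nonpos (by linarith)]
    rcases le_total 1 a with ha | ha <;> rcases le_total 1 b with hb | hb <;>
      rcases le_total (-1) a with ha' | ha' <;> rcases le_total (-1) b with hb' | hb' <;>
      simp only [min_eq_left ha, min_eq_right ha, min_eq_left hb, min_eq_right hb,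
        max_eq_left ha', max_eq_right ha', max_eq_left hb', max_eq_right hb',
        max_eq_right (show (-1 : ℝ) ≤ 1 by norm_num)] <;> linarith
  · have h1 : max (-1) (min 1 b) ≤ max (-1) (min 1 a) := max_le_max le_rfl (min_le_min le_rfl h)
    rw [abs_of_nonneg (by linarith), abs_of_nonneg (by linarith)]
    rcases le_total 1 a with ha | ha <;> rcases le_total 1 b with hb | hb <;>
      rcases le_total (-1) a with ha' | ha' <;> rcases le_total (-1) b with hb' | hb' <;>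
      simp only [min_eq_left ha, min_eq_right ha, min_eq_left hb, min_eq_right hb,
        max_eq_left ha', max_eq_right ha', max_eq_left hb', max_eq_right hb',
        max_eq_right (show (-1 : ℝ) ≤ 1 by norm_num)] <;> linarith

theorem jl3_sz_nonneg (u : F × ℤ) : 0 ≤ sz u := by unfold sz; positivity

theorem jl3_mer {ξ : E} {t : ℝ} (h : t ∈ Set.Ioo (-1 : ℝ) 1) : merR ξ t = J.mer ξ ⟨t, h⟩ := by
  rw [merR, dif_pos h]

theorem jl3_pole (ξ : E) (s : Bool) : merR ξ (sg s : ℝ) = J.pole s := by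
  unfold merR
  cases s with
  | true =>
    have h : ¬ ((sg true : ℤ) : ℝ) ∈ Set.Ioo (-1 : ℝ) 1 := by simp [sg]
    rw [dif_neg h]
    simp [sg]
  | false =>
    have h : ¬ ((sg false : ℤ) : ℝ) ∈ Set.Ioo (-1 : ℝ) 1 := by simp [sg]
    rw [dif_neg h]
    have h2 : ¬ ((0 : ℝ) < ((sg false : ℤ) : ℝ)) := by simp [sg]
    rw [decide_eq_false h2]

theorem merR_continuous (ξ : E) : Continuous (merR ξ) := by
  refine continuous_generateFrom_iff.2 ?_
  rintro _ ⟨B, rfl⟩
  rw [Metric.isOpen_iff]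
  rintro t0 ⟨R0, hR0⟩
  -- enlarge `R`
  set R : ℕ := R0 + 1 with hRdef
  have hRpos : (0 : ℝ) < R := by rw [hRdef]; positivity
  have hR : ∀ u, InJ R (merR ξ t0) u → u ∈ B := fun u hu => hR0 u (InJ_mono (by omega) hu)
  -- the heights
  have key : ∀ t, |t - t0| ≤ 1 / (2 * R) → ∀ u, InJ (2 * R) (merR ξ t) u →
      (∀ η s, merR ξ t0 = J.mer η s → u.1 ∈ near (Γ := TF) 1 R η) → InJ R (merR ξ t0) u := by
    intro t ht u hu hnear
    obtain ⟨h1, h2, -⟩ := hu
    have hsz := jl3_sz_nonneg u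
    refine ⟨?_, ?_, hnear⟩
    · push_cast at h1
      linarith
    · have h3 : |(merR ξ t).ht - (merR ξ t0).ht| ≤ 1 / (2 * R) := by
        rw [jl3_ht, jl3_ht]
        exact (jl3_clamp _ _).trans ht
      have h4 : |(u.2 : ℝ) - (merR ξ t0).ht * sz u| ≤
          |(u.2 : ℝ) - (merR ξ t).ht * sz u| + |(merR ξ t).ht - (merR ξ t0).ht| * sz u := by
        have h5 : (u.2 : ℝ) - (merR ξ t0).ht * sz u =
            ((u.2 : ℝ) - (merR ξ t).ht * sz u) + ((merR ξ t).ht - (merR ξ t0).ht) * sz u := by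
          ring
        rw [h5]
        refine (abs_add_le _ _).trans (le_of_eq ?_)
        rw [abs_mul, abs_of_nonneg hsz]
      have h6 : |(merR ξ t).ht - (merR ξ t0).ht| * sz u ≤ 1 / (2 * R) * sz u :=
        mul_le_mul_of_nonneg_right h3 hsz
      push_cast at h2
      have h7 : (R : ℝ) * |(u.2 : ℝ) - (merR ξ t0).ht * sz u| ≤
          R * |(u.2 : ℝ) - (merR ξ t).ht * sz u| + R * (1 / (2 * R) * sz u) := by
        rw [← mul_add]
        exact mul_le_mul_of_nonneg_left (h4.trans (add_le_add le_rfl h6)) hRpos.le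
      have h8 : (R : ℝ) * (1 / (2 * R) * sz u) = sz u / 2 := by field_simp
      linarith
  by_cases hI : t0 ∈ Set.Ioo (-1 : ℝ) 1
  · refine ⟨min (1 / (2 * R)) (min (t0 + 1) (1 - t0)), ?_, fun t ht => ?_⟩
    · have h1 : 0 < t0 + 1 := by linarith [hI.1]
      have h2 : 0 < 1 - t0 := by linarith [hI.2]
      have h3 : (0 : ℝ) < 1 / (2 * R) := by positivity
      exact lt_min h3 (lt_min h1 h2)
    · rw [Metric.mem_ball, Real.dist_eq] at ht
      have h1 : |t - t0| ≤ 1 / (2 * R) := (ht.le.trans (min_le_left _ _))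
      have h2 : |t - t0| < t0 + 1 := ht.trans_le ((min_le_right _ _).trans (min_le_left _ _))
      have h3 : |t - t0| < 1 - t0 := ht.trans_le ((min_le_right _ _).trans (min_le_right _ _))
      have hIt : t ∈ Set.Ioo (-1 : ℝ) 1 := by
        constructor
        · linarith [(abs_lt.1 h2).1]
        · linarith [(abs_lt.1 h3).2]
      refine ⟨2 * R, fun u hu => hR u (key t h1 u hu ?_)⟩
      intro η s hη
      rw [jl3_mer hI] at hη
      obtain ⟨rfl, -⟩ := J.mer.inj hη
      exact near_mono (by push_cast; linarith) _ (hu.2.2 ξ _ (jl3_mer hIt))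
  · refine ⟨1 / (2 * R), by positivity, fun t ht => ?_⟩
    rw [Metric.mem_ball, Real.dist_eq] at ht
    refine ⟨2 * R, fun u hu => hR u (key t ht.le u hu ?_)⟩
    intro η s hη
    rw [merR, dif_neg hI] at hη
    cases hη

theorem jl3_joined_pole (j : J) : Joined j (J.pole true) := by
  have key : ∀ (ξ : E) (t : ℝ), Joined (merR ξ t) (J.pole true) := by
    intro ξ t
    have h1 : Joined t (1 : ℝ) := PathConnectedSpace.joined t 1
    obtain ⟨γ⟩ := h1
    have h2 : Joined (merR ξ t) (merR ξ 1) := ⟨γ.map (merR_continuous ξ)⟩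
    have h3 : merR ξ 1 = J.pole true := by
      have := jl3_pole ξ true
      simpa [sg] using this
    rwa [h3] at h2
  cases j with
  | pole s =>
    have h := key enda (sg s : ℝ)
    rwa [jl3_pole] at h
  | mer ξ t =>
    have h := key ξ t.1
    rwa [jl3_mer t.2] at h

theorem J_joined (j j' : J) : Joined j j' :=
  (jl3_joined_pole j).trans (jl3_joined_pole j').symm

theorem jl3_test {j : J} {B : Set (F × ℤ)} (h : TrJ j B) (R0 : ℕ) :
    ∃ u ∈ B, InJ R0 j u := by
  obtain ⟨R, hR⟩ := h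
  obtain ⟨u, hu⟩ := InJ_ne (max R R0) j
  exact ⟨u, hR u (InJ_mono (le_max_left _ _) hu), InJ_mono (le_max_right _ _) hu⟩

/-- Small neighbourhoods of `j` are crossed by infinitely many meridians. -/
theorem J_cross (j : J) : ∃ B : Set (F × ℤ), TrJ j B ∧ ∀ U : Set J, IsOpen U → j ∈ U →
    U ⊆ {q | TrJ q B} → {ξ : E | ∃ t₀ ∈ Set.Ioo (-1 : ℝ) 1, ∃ t₁ ∈ Set.Ioo (-1 : ℝ) 1,
      merR ξ t₀ ∈ U ∧ merR ξ t₁ ∉ U}.Infinite := by
  cases j with
  | pole s =>
    have hs : (sg s : ℝ) = 1 ∨ (sg s : ℝ) = -1 := by cases s <;> simp [sg]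
    have hss : (sg s : ℝ) * (sg s : ℝ) = 1 := by rcases hs with h | h <;> rw [h] <;> norm_num
    refine ⟨{u | 0 < (sg s : ℝ) * (u.2 : ℝ)}, ⟨2, ?_⟩, ?_⟩
    · rintro u ⟨h1, h2, -⟩
      change 0 < (sg s : ℝ) * (u.2 : ℝ)
      have h3 : (J.pole s).ht = (sg s : ℝ) := rfl
      rw [h3] at h2
      push_cast at h1 h2
      have h4 := abs_le.1 (show |(u.2 : ℝ) - (sg s : ℝ) * sz u| ≤ sz u / 2 by linarith)
      rcases hs with h | h <;> rw [h] at h4 ⊢ <;> linarith [h4.1, h4.2]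
    · intro U hU hj hsub
      have hall : ∀ ξ : E, ∃ t₀ ∈ Set.Ioo (-1 : ℝ) 1, ∃ t₁ ∈ Set.Ioo (-1 : ℝ) 1,
          merR ξ t₀ ∈ U ∧ merR ξ t₁ ∉ U := by
        intro ξ
        have hV : IsOpen ((merR ξ) ⁻¹' U) := hU.preimage (merR_continuous ξ)
        have hm : (sg s : ℝ) ∈ (merR ξ) ⁻¹' U := by
          change merR ξ (sg s : ℝ) ∈ U
          rw [jl3_pole]
          exact hj
        obtain ⟨ε, hε, hball⟩ := Metric.isOpen_iff.1 hV _ hm
        set e : ℝ := min (ε / 2) (1 / 2) with he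
        have he0 : 0 < e := lt_min (by linarith) (by norm_num)
        have he1 : e ≤ ε / 2 := min_le_left _ _
        have he2 : e ≤ 1 / 2 := min_le_right _ _
        refine ⟨(sg s : ℝ) * (1 - e), ?_, -(sg s : ℝ) / 2, ?_, ?_, ?_⟩
        · rcases hs with h | h <;> rw [h] <;> constructor <;> linarith
        · rcases hs with h | h <;> rw [h] <;> constructor <;> norm_num
        · apply hball
          rw [Metric.mem_ball, Real.dist_eq]
          have h5 : (sg s : ℝ) * (1 - e) - (sg s : ℝ) = -(sg s : ℝ) * e := by ring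
          rw [h5, abs_mul, abs_of_pos he0]
          have h6 : |-(sg s : ℝ)| = 1 := by rcases hs with h | h <;> rw [h] <;> simp
          rw [h6]
          linarith
        · intro hcon
          obtain ⟨u, hu1, hu2⟩ := jl3_test (hsub hcon) 4
          have hu1' : 0 < (sg s : ℝ) * (u.2 : ℝ) := hu1
          obtain ⟨h1, h2, -⟩ := hu2
          have hI : -(sg s : ℝ) / 2 ∈ Set.Ioo (-1 : ℝ) 1 := by
            rcases hs with h | h <;> rw [h] <;> constructor <;> norm_num
          have h3 : (merR ξ (-(sg s : ℝ) / 2)).ht = -(sg s : ℝ) / 2 := by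
            rw [jl3_mer hI]; rfl
          rw [h3] at h2
          push_cast at h1 h2
          have h4 := abs_le.1 (show |(u.2 : ℝ) - -(sg s : ℝ) / 2 * sz u| ≤ sz u / 4 by linarith)
          rcases hs with h | h <;> rw [h] at h4 hu1' <;> linarith [h4.1, h4.2]
      have hset : {ξ : E | ∃ t₀ ∈ Set.Ioo (-1 : ℝ) 1, ∃ t₁ ∈ Set.Ioo (-1 : ℝ) 1,
          merR ξ t₀ ∈ U ∧ merR ξ t₁ ∉ U} = Set.univ := Set.eq_univ_of_forall hall
      rw [hset]
      exact (ends_perfect enda 0).mono (Set.subset_univ _)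
  | mer ξ t =>
    have hI := t.2
    have habs : |(t.1 : ℝ)| < 1 := abs_lt.2 hI
    set δ : ℝ := (1 - |(t.1 : ℝ)|) / 4 with hδ
    have hδ0 : 0 < δ := by rw [hδ]; linarith
    obtain ⟨Rδ, hRδ⟩ := exists_nat_ge (2 / δ)
    have hRδ0 : (0 : ℝ) < Rδ := lt_of_lt_of_le (by positivity) hRδ
    have hRδ1 : 2 ≤ (Rδ : ℝ) * δ := by
      rw [div_le_iff₀ hδ0] at hRδ
      exact hRδ
    have hbd : ∀ (u : F × ℤ) (h : ℝ), (Rδ : ℝ) * |(u.2 : ℝ) - h * sz u| ≤ sz u →
        |(u.2 : ℝ) - h * sz u| ≤ δ / 2 * sz u := by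
      intro u h hu
      have h1 := jl3_sz_nonneg u
      have h2 : (Rδ : ℝ) * |(u.2 : ℝ) - h * sz u| ≤ Rδ * (δ / 2 * sz u) := by
        refine hu.trans ?_
        nlinarith
      exact le_of_mul_le_mul_left h2 hRδ0
    refine ⟨{u | |(u.2 : ℝ) - t.1 * sz u| ≤ δ * sz u}, ⟨Rδ, ?_⟩, ?_⟩
    · rintro u ⟨h1, h2, -⟩
      have h3 := hbd u t.1 h2
      have h4 := jl3_sz_nonneg u
      change |(u.2 : ℝ) - t.1 * sz u| ≤ δ * sz u
      nlinarith
    · intro U hU hj hsub
      have hIt1 : (t.1 : ℝ) + 2 * δ ∈ Set.Ioo (-1 : ℝ) 1 := by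
        have h5 := le_abs_self (t.1 : ℝ)
        have h6 := neg_abs_le (t.1 : ℝ)
        constructor
        · linarith [hI.1]
        · rw [hδ]; linarith
      have hnot : ∀ η : E, merR η ((t.1 : ℝ) + 2 * δ) ∉ U := by
        intro η hcon
        obtain ⟨u, hu1, hu2⟩ := jl3_test (hsub hcon) (max Rδ 1)
        have hu1' : |(u.2 : ℝ) - t.1 * sz u| ≤ δ * sz u := hu1
        obtain ⟨-, h2, -⟩ := InJ_mono (le_max_left _ _) hu2
        obtain ⟨h1, -, -⟩ := InJ_mono (le_max_right _ _) hu2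
        push_cast at h1
        have h3 : (merR η ((t.1 : ℝ) + 2 * δ)).ht = (t.1 : ℝ) + 2 * δ := by
          rw [jl3_mer hIt1]; rfl
        rw [h3] at h2
        have h4 := abs_le.1 (hbd u _ h2)
        have h5 := abs_le.1 hu1'
        have h6 : 0 < δ * sz u := mul_pos hδ0 (by linarith)
        nlinarith [h4.1, h4.2, h5.1, h5.2]
      obtain ⟨B', hB', hB'U⟩ := (strict_isOpen_iff TrJ_isTrace U).1 hU _ hj
      obtain ⟨R, hR⟩ := hB'
      refine (ends_perfect ξ R).mono ?_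
      rintro η ⟨R', hR'⟩
      refine ⟨t.1, hI, (t.1 : ℝ) + 2 * δ, hIt1, ?_, hnot η⟩
      apply hB'U
      refine ⟨max R R', fun u hu => hR u ?_⟩
      rw [jl3_mer hI] at hu
      obtain ⟨h1, h2, -⟩ := InJ_mono (le_max_left _ _) hu
      refine ⟨h1, h2, ?_⟩
      intro ξ' t' hξ'
      obtain ⟨rfl, -⟩ := J.mer.inj hξ'
      apply hR'
      exact (InJ_mono (le_max_right _ _) hu).2.2 η _ rfl

/-- For the first structure the ends of the cosets `a ^ k ⟨c⟩` converge to `a ^ ∞`. -/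
theorem Pj_a (R : ℕ) : ∃ k : ℕ, ∀ s, ∃ R' : ℕ, ∀ u : F × ℤ,
    InJ R' (Pj false (aP ^ k) s) u → InJ R (J.mer enda ⟨0, by norm_num⟩) u := by
  obtain ⟨k, hk⟩ := ends_a R
  refine ⟨k, fun s => ?_⟩
  obtain ⟨R', hR'⟩ := hk s
  refine ⟨max R R', fun u hu => ?_⟩
  have h0 : (Pj false (aP ^ k) s).ht = 0 := by
    simp [Pj, J.ht, hP]
  obtain ⟨h1, h2, -⟩ := InJ_mono (le_max_left _ _) hu
  refine ⟨h1, ?_, ?_⟩
  · rw [h0] at h2
    exact h2
  · intro ξ' t' hξ'
    obtain ⟨rfl, -⟩ := J.mer.inj hξ'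
    apply hR'
    have h3 : (aP ^ k).1 = FreeGroup.of false ^ k := rfl
    have h4 := (InJ_mono (le_max_right _ _) hu).2.2 (endc (aP ^ k).1 s) (hP false s) rfl
    rw [h3] at h4
    exact h4

/-- For the second structure the two ends of a coset of `⟨c⟩` are never close to each other. -/
theorem Pj_far (j : J) : ∃ B : Set (F × ℤ), TrJ j B ∧ ∀ p : P,
    ¬ (TrJ (Pj true p true) B ∧ TrJ (Pj true p false) B) := by
  refine ⟨{u | |(u.2 : ℝ) - j.ht * sz u| ≤ sz u / 4}, ⟨4, ?_⟩, ?_⟩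
  · rintro u ⟨-, h2, -⟩
    push_cast at h2
    change |(u.2 : ℝ) - j.ht * sz u| ≤ sz u / 4
    linarith
  · rintro p ⟨ht, hf⟩
    obtain ⟨u, hu1, hu2, hu3, -⟩ := jl3_test ht 16
    obtain ⟨v, hv1, hv2, hv3, -⟩ := jl3_test hf 16
    have hu1' : |(u.2 : ℝ) - j.ht * sz u| ≤ sz u / 4 := hu1
    have hv1' : |(v.2 : ℝ) - j.ht * sz v| ≤ sz v / 4 := hv1
    have h1 : (Pj true p true).ht = 1 / 2 := by simp [Pj, J.ht, hP, sg]
    have h2 : (Pj true p false).ht = -1 / 2 := by simp [Pj, J.ht, hP, sg]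
    rw [h1] at hu3
    rw [h2] at hv3
    push_cast at hu2 hu3 hv2 hv3
    have a1 := abs_le.1 hu1'
    have a2 := abs_le.1 (show |(u.2 : ℝ) - 1 / 2 * sz u| ≤ sz u / 16 by linarith)
    have b1 := abs_le.1 hv1'
    have b2 := abs_le.1 (show |(v.2 : ℝ) - -1 / 2 * sz v| ≤ sz v / 16 by linarith)
    have hsu : 0 < sz u := by linarith
    have hsv : 0 < sz v := by linarith
    have c1 : (1 / 2 - j.ht) * sz u ≤ 5 / 16 * sz u := by nlinarith [a1.1, a1.2, a2.1, a2.2]
    have c2 : (j.ht + 1 / 2) * sz v ≤ 5 / 16 * sz v := by nlinarith [b1.1, b1.2, b2.1, b2.2]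
    have d1 := le_of_mul_le_mul_right c1 hsu
    have d2 := le_of_mul_le_mul_right c2 hsv
    linarith

end Pool.Agent.Helper77.HB
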