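import Pool.Agent.Helper77.HB.LitDef

/-!
# Comparison of the literal conditions with the basic neighbourhoods `InJ`
-/

namespace Pool.Agent.Helper77.HB

open Matrix OnePoint

private lemma lt1_dist_one (w : F) : (TF.dist 1 w : ℝ) = w.norm := by
  rw [TF_dist, inv_one, one_mul]

private lemma lt1_dV (u₀ u : F × ℤ) : |dV u₀ u - (u.1.norm : ℝ)| ≤ (u₀.1.norm : ℝ) := by
  have h1 := tri_real TF_connected 1 u₀.1 u.1
  have h2 := tri_real TF_connected u₀.1 1 u.1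
  rw [SimpleGraph.dist_comm (u := u₀.1) (v := 1)] at h2
  rw [lt1_dist_one, lt1_dist_one] at h1 h2
  unfold dV
  rw [abs_le]
  constructor <;> linarith

private lemma lt1_dU (u₀ u : F × ℤ) : |dU u₀ u - (|(u.2 : ℝ)|)| ≤ |(u₀.2 : ℝ)| := by
  unfold dU
  rw [ZL_dist]
  have h1 : ((u₀.2 - u.2).natAbs : ℝ) = |(u₀.2 : ℝ) - u.2| := by
    rw [Nat.cast_natAbs]
    push_cast
    rfl
  rw [h1]
  have h2 := abs_abs_sub_abs_le ((u₀.2 : ℝ) - u.2) (-(u.2 : ℝ))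
  rw [abs_neg, sub_neg_eq_add, sub_add_cancel] at h2
  exact h2

private lemma lt1_ratio (α β ε : ℝ) (hα : 0 ≤ α) (hβ : 0 < β) (hε : 0 < ε) :
    ∃ η > 0, ∀ S x y : ℝ, 0 < S → |x - α * S| ≤ η * S → |y - β * S| ≤ η * S →
      0 < y ∧ |x / y - α / β| < ε := by
  refine ⟨min (β / 2) (ε * β ^ 2 / (4 * (α + β))), by positivity, ?_⟩
  intro S x y hS hx hy
  set η := min (β / 2) (ε * β ^ 2 / (4 * (α + β))) with hη
  have h1 : η ≤ β / 2 := min_le_left _ _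
  have h2 : η ≤ ε * β ^ 2 / (4 * (α + β)) := min_le_right _ _
  have hy' := abs_le.1 hy
  have hyS : β / 2 * S ≤ y := by
    have : η * S ≤ β / 2 * S := mul_le_mul_of_nonneg_right h1 hS.le
    linarith [hy'.1]
  have hy0 : 0 < y := lt_of_lt_of_le (by positivity) hyS
  refine ⟨hy0, ?_⟩
  have h3 : x / y - α / β = ((x - α * S) * β - α * (y - β * S)) / (y * β) := by
    field_simp
    ring
  rw [h3, abs_div, abs_of_pos (by positivity : 0 < y * β), div_lt_iff₀ (by positivity)]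
  have h4 : |(x - α * S) * β - α * (y - β * S)| ≤ η * S * (α + β) := by
    calc |(x - α * S) * β - α * (y - β * S)|
        ≤ |(x - α * S) * β| + |α * (y - β * S)| := abs_sub _ _
      _ = |x - α * S| * β + α * |y - β * S| := by
          rw [abs_mul, abs_mul, abs_of_pos hβ, abs_of_nonneg hα]
      _ ≤ η * S * β + α * (η * S) := by gcongr
      _ = _ := by ring
  have h5 : η * (α + β) ≤ ε * β ^ 2 / 4 := by
    have h6 : ε * β ^ 2 / (4 * (α + β)) * (α + β) = ε * β ^ 2 / 4 := by field_simp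
    rw [← h6]
    gcongr
  have h7 : η * S * (α + β) ≤ ε * β ^ 2 / 4 * S := by
    have := mul_le_mul_of_nonneg_right h5 hS.le
    linarith
  have h8 : ε * β * (β / 2 * S) ≤ ε * β * y := mul_le_mul_of_nonneg_left hyS (by positivity)
  have h9 : 0 < ε * β ^ 2 * S := by positivity
  nlinarith

private lemma lt1_approx (η c α : ℝ) (hη : 0 < η) (hc : 0 ≤ c) (R' S x N : ℝ)
    (h1 : 2 * (1 + c) / η ≤ R') (h2 : R' ≤ S) (h3 : |x - N| ≤ c) (h4 : R' * |N - α * S| ≤ S) :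
    |x - α * S| ≤ η * S := by
  rw [div_le_iff₀ hη] at h1
  have h5 : |x - α * S| ≤ |x - N| + |N - α * S| := abs_sub_le _ _ _
  have h6 : 0 ≤ |N - α * S| := abs_nonneg _
  have h7 : 2 * (1 + c) * |N - α * S| ≤ η * S := by
    calc 2 * (1 + c) * |N - α * S| ≤ R' * η * |N - α * S| := mul_le_mul_of_nonneg_right h1 h6
      _ = η * (R' * |N - α * S|) := by ring
      _ ≤ η * S := mul_le_mul_of_nonneg_left h4 hη.le
  have h8 : R' * η ≤ η * S := by
    rw [mul_comm]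
    exact mul_le_mul_of_nonneg_left h2 hη.le
  have h9 : 0 ≤ c * |N - α * S| := mul_nonneg hc h6
  nlinarith

private lemma lt1_est (u₀ : F × ℤ) (j : J) (η : ℝ)
    (hη : 0 < η) : ∃ R₀ : ℕ, ∀ R' : ℕ, R₀ ≤ R' → ∀ u, InJ R' j u → 0 < sz u ∧
      |dV u₀ u - (1 - |j.ht|) * sz u| ≤ η * sz u ∧ |dU u₀ u - |j.ht| * sz u| ≤ η * sz u := by
  obtain ⟨R₁, hR₁⟩ := exists_nat_ge (2 * (1 + (u₀.1.norm : ℝ)) / η)
  obtain ⟨R₂, hR₂⟩ := exists_nat_ge (2 * (1 + |(u₀.2 : ℝ)|) / η)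
  refine ⟨max 1 (max R₁ R₂), fun R' hR' u hu => ?_⟩
  have e1 : 1 ≤ R' := (le_max_left _ _).trans hR'
  have e2 : R₁ ≤ R' := (le_max_left _ _).trans ((le_max_right _ _).trans hR')
  have e3 : R₂ ≤ R' := (le_max_right _ _).trans ((le_max_right _ _).trans hR')
  have e1' : (1 : ℝ) ≤ R' := by exact_mod_cast e1
  have e2' : (R₁ : ℝ) ≤ R' := by exact_mod_cast e2
  have e3' : (R₂ : ℝ) ≤ R' := by exact_mod_cast e3
  obtain ⟨h1, h2, -⟩ := hu
  have hS : 0 < sz u := by linarith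
  have hk : |(|(u.2 : ℝ)| - |j.ht| * sz u)| ≤ |(u.2 : ℝ) - j.ht * sz u| := by
    have := abs_abs_sub_abs_le (u.2 : ℝ) (j.ht * sz u)
    rwa [abs_mul, abs_of_pos hS] at this
  have hN : |(u.1.norm : ℝ) - (1 - |j.ht|) * sz u| ≤ |(u.2 : ℝ) - j.ht * sz u| := by
    have : (u.1.norm : ℝ) - (1 - |j.ht|) * sz u = -(|(u.2 : ℝ)| - |j.ht| * sz u) := by
      have h5 : sz u = (u.1.norm : ℝ) + |(u.2 : ℝ)| := rfl
      linear_combination (-1 : ℝ) * h5
    rw [this, abs_neg]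
    exact hk
  have hR0 : (0 : ℝ) ≤ R' := by linarith
  refine ⟨hS, ?_, ?_⟩
  · exact lt1_approx η _ _ hη (by positivity) R' (sz u) _ (u.1.norm : ℝ) (hR₁.trans e2') h1
      (lt1_dV u₀ u) ((mul_le_mul_of_nonneg_left hN hR0).trans h2)
  · exact lt1_approx η _ _ hη (abs_nonneg _) R' (sz u) _ |(u.2 : ℝ)| (hR₂.trans e3') h1
      (lt1_dU u₀ u) ((mul_le_mul_of_nonneg_left hk hR0).trans h2)

private lemma lt1_nearZ (s : Bool) (o₂ : ℤ) (R : ℝ) (k : ℤ)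
    (h : max 1 (R + ZL.dist 0 o₂) ≤ ((sg s * k : ℤ) : ℝ)) :
    k ∈ near (Γ := ZL) o₂ R (zinf s) := by
  apply near_base ZL_connected 0 o₂ R
  apply near_mono (le_max_right 1 _)
  exact (zinf_near s _ (by positivity) k).2 h

private lemma lt1_sg (s : Bool) : (sg s : ℝ) = 1 ∨ (sg s : ℝ) = -1 := by
  cases s <;> simp [sg]

private lemma lt1_sign (j : J) (s : Bool) (hs : (sg s : ℝ) * j.ht = |j.ht|) (hτ : 0 < |j.ht|)
    (M : ℝ) (hM : 0 ≤ M) : ∃ R₀ : ℕ, ∀ R' : ℕ, R₀ ≤ R' → ∀ u, InJ R' j u →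
      M ≤ ((sg s * u.2 : ℤ) : ℝ) := by
  obtain ⟨R₁, hR₁⟩ := exists_nat_ge (2 * (1 + M) / |j.ht|)
  refine ⟨R₁, fun R' hR' u hu => ?_⟩
  have e1 : (R₁ : ℝ) ≤ R' := by exact_mod_cast hR'
  obtain ⟨h1, h2, -⟩ := hu
  have h3 : 2 * (1 + M) ≤ R' * |j.ht| := by
    rw [← div_le_iff₀ hτ]
    exact hR₁.trans e1
  have h4 : |(u.2 : ℝ) - j.ht * sz u| * 2 ≤ |j.ht| * sz u := by
    have h5 : 0 ≤ |(u.2 : ℝ) - j.ht * sz u| := abs_nonneg _
    have h6 : 2 * (1 + M) * |(u.2 : ℝ) - j.ht * sz u| ≤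
        R' * |j.ht| * |(u.2 : ℝ) - j.ht * sz u| := mul_le_mul_of_nonneg_right h3 h5
    have h7 : |j.ht| * (R' * |(u.2 : ℝ) - j.ht * sz u|) ≤ |j.ht| * sz u :=
      mul_le_mul_of_nonneg_left h2 hτ.le
    have h8 : 0 ≤ M * |(u.2 : ℝ) - j.ht * sz u| := mul_nonneg hM h5
    nlinarith
  have h9 : |j.ht| * sz u - |(u.2 : ℝ) - j.ht * sz u| ≤ ((sg s * u.2 : ℤ) : ℝ) := by
    have h10 : ((sg s * u.2 : ℤ) : ℝ) = (sg s : ℝ) * ((u.2 : ℝ) - j.ht * sz u) + |j.ht| * sz u := by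
      push_cast
      rw [← hs]
      ring
    have h11 : |(sg s : ℝ) * ((u.2 : ℝ) - j.ht * sz u)| = |(u.2 : ℝ) - j.ht * sz u| := by
      rw [abs_mul]
      rcases lt1_sg s with h | h <;> rw [h] <;> simp
    have h12 := neg_abs_le ((sg s : ℝ) * ((u.2 : ℝ) - j.ht * sz u))
    rw [h11] at h12
    linarith
  have h13 : |j.ht| * R' ≤ |j.ht| * sz u := mul_le_mul_of_nonneg_left h1 hτ.le
  linarith

private lemma lt1_decide (t : ℝ) (ht : t ≠ 0) : (sg (decide (0 < t)) : ℝ) * t = |t| := by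
  rcases lt_or_gt_of_ne ht with h | h
  · have h1 : ¬ 0 < t := not_lt.2 h.le
    rw [abs_of_neg h]
    simp [h1, sg]
  · rw [abs_of_pos h]
    simp [h, sg]

theorem lit_of_InJ (u₀ : F × ℤ) (o₁ : F) (o₂ : ℤ) (R ε : ℝ) (hε : 0 < ε) (j : J) :
    ∃ R' : ℕ, ∀ u, InJ R' j u → LitJ u₀ o₁ o₂ R ε j u := by
  cases j with
  | pole s =>
    have hht : (J.pole s).ht = (sg s : ℝ) := rfl
    have habs : |(J.pole s).ht| = 1 := by
      rw [hht]
      rcases lt1_sg s with h | h <;> rw [h] <;> simp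
    obtain ⟨η, hη, hr⟩ := lt1_ratio 0 1 ε le_rfl one_pos hε
    obtain ⟨R₁, h1⟩ := lt1_est u₀ (J.pole s) η hη
    obtain ⟨R₂, h2⟩ := lt1_sign (J.pole s) s (by
      rw [habs, hht]
      rcases lt1_sg s with h | h <;> rw [h] <;> norm_num) (by rw [habs]; exact one_pos)
      (max 1 (R + ZL.dist 0 o₂)) (by positivity)
    refine ⟨max R₁ R₂, fun u hu => ?_⟩
    obtain ⟨a1, a2, a3⟩ := h1 _ (le_max_left _ _) u hu
    have b1 := h2 _ (le_max_right _ _) u hu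
    rw [habs] at a2 a3
    obtain ⟨c1, c2⟩ := hr (sz u) (dV u₀ u) (dU u₀ u) a1 (by simpa using a2) a3
    refine ⟨lt1_nearZ s o₂ R u.2 b1, ?_, ?_⟩
    · rw [div_self c1.ne', sub_self, abs_zero]
      exact hε
    · rw [zero_div, sub_zero] at c2
      exact (le_abs_self _).trans_lt c2
  | mer ξ t =>
    have hht : (J.mer ξ t).ht = t.1 := rfl
    have ht1 : |t.1| < 1 := abs_lt.2 ⟨t.2.1, t.2.2⟩
    obtain ⟨R₀, hR₀⟩ := exists_nat_ge (R + TF.dist 1 o₁)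
    have hnear : ∀ R' : ℕ, R₀ ≤ R' → ∀ u, InJ R' (J.mer ξ t) u →
        u.1 ∈ near (Γ := TF) o₁ R ξ := by
      intro R' hR' u hu
      apply near_base TF_connected 1 o₁ R
      refine near_mono ?_ ξ (hu.2.2 ξ t rfl)
      exact hR₀.trans (by exact_mod_cast hR')
    by_cases ht : t.1 = 0
    · obtain ⟨η, hη, hr⟩ := lt1_ratio 0 1 ε le_rfl one_pos hε
      obtain ⟨R₁, h1⟩ := lt1_est u₀ (J.mer ξ t) η hη
      refine ⟨max R₀ R₁, fun u hu => ?_⟩
      obtain ⟨a1, a2, a3⟩ := h1 _ (le_max_right _ _) u hu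
      rw [hht, ht, abs_zero] at a2 a3
      obtain ⟨c1, c2⟩ := hr (sz u) (dU u₀ u) (dV u₀ u) a1 a3 (by simpa using a2)
      simp only [LitJ, if_pos ht]
      refine ⟨hnear _ (le_max_left _ _) u hu, ?_, ?_⟩
      · rw [div_self c1.ne', sub_self, abs_zero]
        exact hε
      · rw [zero_div, sub_zero] at c2
        exact (le_abs_self _).trans_lt c2
    · have hτ : 0 < |t.1| := abs_pos.2 ht
      obtain ⟨η, hη, hr⟩ := lt1_ratio (1 - |t.1|) |t.1| ε (by linarith) hτ hε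
      obtain ⟨η', hη', hr'⟩ := lt1_ratio |t.1| (1 - |t.1|) ε (by positivity) (by linarith) hε
      obtain ⟨R₁, h1⟩ := lt1_est u₀ (J.mer ξ t) η hη
      obtain ⟨R₂, h2⟩ := lt1_est u₀ (J.mer ξ t) η' hη'
      obtain ⟨R₃, h3⟩ := lt1_sign (J.mer ξ t) (decide (0 < t.1)) (lt1_decide t.1 ht) hτ
        (max 1 (R + ZL.dist 0 o₂)) (by positivity)
      refine ⟨max (max R₀ R₁) (max R₂ R₃), fun u hu => ?_⟩
      obtain ⟨a1, a2, a3⟩ := h1 _ ((le_max_right _ _).trans (le_max_left _ _)) u hu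
      obtain ⟨b1, b2, b3⟩ := h2 _ ((le_max_left _ _).trans (le_max_right _ _)) u hu
      have d1 := h3 _ ((le_max_right _ _).trans (le_max_right _ _)) u hu
      rw [hht] at a2 a3 b2 b3
      obtain ⟨c1, c2⟩ := hr (sz u) (dV u₀ u) (dU u₀ u) a1 a2 a3
      obtain ⟨e1, e2⟩ := hr' (sz u) (dU u₀ u) (dV u₀ u) a1 b3 b2
      simp only [LitJ, if_neg ht]
      refine ⟨hnear _ ((le_max_left _ _).trans (le_max_left _ _)) u hu,
        lt1_nearZ _ o₂ R u.2 d1, ?_, ?_, c2, e2⟩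
      · rw [div_self e1.ne', sub_self, abs_zero]
        exact hε
      · rw [div_self c1.ne', sub_self, abs_zero]
        exact hε

private lemma lt1_conv (N K x y a b α β ε R' : ℝ) (hx : |x - N| ≤ a) (hy : |y - K| ≤ b)
    (hα : 0 ≤ α) (hβ : 0 ≤ β) (hαβ : α + β = 1) (h : |β * x - α * y| ≤ ε * y) (hε0 : 0 ≤ ε)
    (hε1 : ε ≤ 1) (hR : 0 ≤ R') (hRε : R' * ε ≤ 1 / 2) (hK0 : 0 ≤ K)
    (hK : R' * (a + 2 * b) ≤ K / 2) : R' * |β * N - α * K| ≤ K := by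
  have hb : 0 ≤ b := (abs_nonneg _).trans hy
  have ha : 0 ≤ a := (abs_nonneg _).trans hx
  have h1 : |β * N - α * K| ≤ |β * x - α * y| + β * a + α * b := by
    have e : β * N - α * K = (β * x - α * y) + (-(β * (x - N))) + α * (y - K) := by ring
    rw [e]
    have h2 := abs_add_three (β * x - α * y) (-(β * (x - N))) (α * (y - K))
    rw [abs_neg, abs_mul, abs_mul, abs_of_nonneg hα, abs_of_nonneg hβ] at h2
    have h3 : β * |x - N| ≤ β * a := mul_le_mul_of_nonneg_left hx hβ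
    have h4 : α * |y - K| ≤ α * b := mul_le_mul_of_nonneg_left hy hα
    linarith
  have h5 : y ≤ K + b := by linarith [(abs_le.1 hy).2]
  have h6 : ε * y ≤ ε * K + b := by
    have := mul_le_mul_of_nonneg_left h5 hε0
    nlinarith
  have h7 : β * a ≤ a := by nlinarith
  have h8 : α * b ≤ b := by nlinarith
  have h9 : |β * N - α * K| ≤ ε * K + (a + 2 * b) := by linarith
  have h10 := mul_le_mul_of_nonneg_left h9 hR
  have h11 : R' * (ε * K) ≤ K / 2 := by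
    have := mul_le_mul_of_nonneg_right hRε hK0
    linarith
  linarith

theorem InJ_of_lit (u₀ : F × ℤ) (j : J) (R' : ℕ) : ∃ R₀ ε₀ : ℝ, 0 < ε₀ ∧ ∀ R ≥ R₀, ∀ ε ≤ ε₀,
    ∀ u, LitJ u₀ 1 0 R ε j u → InJ R' j u := by
  obtain ⟨a, ha⟩ : ∃ a : ℝ, a = (u₀.1.norm : ℝ) := ⟨_, rfl⟩
  obtain ⟨b, hb⟩ : ∃ b : ℝ, b = |(u₀.2 : ℝ)| := ⟨_, rfl⟩
  have ha0 : 0 ≤ a := by rw [ha]; positivity
  have hb0 : 0 ≤ b := by rw [hb]; positivity
  have hR'0 : (0 : ℝ) ≤ R' := Nat.cast_nonneg _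
  refine ⟨R' + 1 + a + b + 2 * R' * (2 * a + 2 * b), 1 / (2 * (R' + 1)), by positivity, ?_⟩
  intro R hR ε hε u hu
  have hprod : 0 ≤ (R' : ℝ) * (2 * a + 2 * b) := by positivity
  have hRa : (R' : ℝ) ≤ R := by linarith
  have hR0 : 0 < R := by linarith
  have hε1 : ε ≤ 1 := by
    refine hε.trans ?_
    rw [div_le_iff₀ (by positivity)]
    linarith
  have hRε : R' * ε ≤ 1 / 2 := by
    have h1 : (R' : ℝ) * ε ≤ R' * (1 / (2 * (R' + 1))) := mul_le_mul_of_nonneg_left hε hR'0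
    have h2 : (R' : ℝ) * (1 / (2 * (R' + 1))) ≤ 1 / 2 := by
      rw [mul_one_div, div_le_iff₀ (by positivity)]
      linarith
    linarith
  have hV := lt1_dV u₀ u
  have hU := lt1_dU u₀ u
  rw [← ha] at hV
  rw [← hb] at hU
  have hsz : sz u = (u.1.norm : ℝ) + |(u.2 : ℝ)| := rfl
  have hN0 : (0 : ℝ) ≤ (u.1.norm : ℝ) := Nat.cast_nonneg _
  have hk0 : 0 ≤ |(u.2 : ℝ)| := abs_nonneg _
  have hdU0 : 0 ≤ dU u₀ u := Nat.cast_nonneg _
  have hdV0 : 0 ≤ dV u₀ u := Nat.cast_nonneg _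
  -- the sign
  have hsgn : ∀ s : Bool, u.2 ∈ near (Γ := ZL) 0 R (zinf s) →
      (sg s : ℝ) * (u.2 : ℝ) = |(u.2 : ℝ)| ∧ R ≤ |(u.2 : ℝ)| := by
    intro s hs
    have h1 := (zinf_near s R hR0 u.2).1 hs
    push_cast at h1
    have h2 : |(u.2 : ℝ)| = (sg s : ℝ) * (u.2 : ℝ) := by
      have h3 : |(sg s : ℝ) * (u.2 : ℝ)| = |(u.2 : ℝ)| := by
        rw [abs_mul]
        rcases lt1_sg s with h | h <;> rw [h] <;> simp
      rw [← h3, abs_of_pos (by linarith)]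
    exact ⟨h2.symm, by rw [h2]; exact h1⟩
  have hht : ∀ (s : Bool) (τ ht : ℝ), (sg s : ℝ) * (u.2 : ℝ) = |(u.2 : ℝ)| →
      (sg s : ℝ) * ht = τ → |(u.2 : ℝ) - ht * sz u| = |τ * (u.1.norm : ℝ) -
        (1 - τ) * (|(u.2 : ℝ)|)| := by
    intro s τ ht h1 h2
    have h3 : |(u.2 : ℝ) - ht * sz u| = |(sg s : ℝ) * ((u.2 : ℝ) - ht * sz u)| := by
      rw [abs_mul]
      rcases lt1_sg s with h | h <;> rw [h] <;> simp
    rw [h3, mul_sub, h1, ← mul_assoc, h2, abs_sub_comm]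
    congr 1
    rw [hsz]
    ring
  cases j with
  | pole s =>
    obtain ⟨l1, l2, l3⟩ := hu
    obtain ⟨s1, s2⟩ := hsgn s l1
    have hε0 : 0 < ε := (abs_nonneg _).trans_lt l2
    have hdU : 0 < dU u₀ u := by linarith [(abs_le.1 hU).1]
    have h1 : dV u₀ u < ε * dU u₀ u := by rwa [div_lt_iff₀ hdU] at l3
    have h2 := lt1_conv (u.1.norm : ℝ) |(u.2 : ℝ)| (dV u₀ u) (dU u₀ u) a b 0 1 ε R' hV hU le_rfl
      zero_le_one (by ring) (by
        rw [one_mul, zero_mul, sub_zero, abs_of_nonneg hdV0]; exact h1.le) hε0.le hε1 hR'0 hRε hk0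
      (by nlinarith)
    refine ⟨by linarith, ?_, ?_⟩
    · rw [hht s 1 _ s1 (by
        show (sg s : ℝ) * (sg s : ℝ) = 1
        rcases lt1_sg s with h | h <;> rw [h] <;> norm_num)]
      rw [sub_self]
      exact h2.trans (by linarith)
    · intro ξ t h
      exact absurd h (by simp)
  | mer ξ t =>
    have ht1 : |t.1| < 1 := abs_lt.2 ⟨t.2.1, t.2.2⟩
    by_cases ht : t.1 = 0
    · simp only [LitJ, if_pos ht] at hu
      obtain ⟨l1, l2, l3⟩ := hu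
      have hε0 : 0 < ε := (abs_nonneg _).trans_lt l2
      have hN : R ≤ (u.1.norm : ℝ) := by
        have := near_dist TF_connected l1
        rwa [lt1_dist_one] at this
      have hdV : 0 < dV u₀ u := by linarith [(abs_le.1 hV).1]
      have h1 : dU u₀ u < ε * dV u₀ u := by rwa [div_lt_iff₀ hdV] at l3
      have h2 := lt1_conv |(u.2 : ℝ)| (u.1.norm : ℝ) (dU u₀ u) (dV u₀ u) b a 0 1 ε R' hU hV le_rfl
        zero_le_one (by ring) (by
          rw [one_mul, zero_mul, sub_zero, abs_of_nonneg hdU0]; exact h1.le) hε0.le hε1 hR'0 hRε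
        hN0 (by nlinarith)
      rw [one_mul, zero_mul, sub_zero, abs_abs] at h2
      refine ⟨by linarith, ?_, ?_⟩
      · show (R' : ℝ) * |(u.2 : ℝ) - t.1 * sz u| ≤ sz u
        rw [ht, zero_mul, sub_zero]
        linarith
      · intro ξ' t' h
        obtain ⟨rfl, rfl⟩ := J.mer.inj h
        exact near_mono hRa ξ l1
    · simp only [LitJ, if_neg ht] at hu
      obtain ⟨l1, l2, l3, l4, l5, l6⟩ := hu
      have hτ : 0 < |t.1| := abs_pos.2 ht
      obtain ⟨s1, s2⟩ := hsgn _ l2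
      have hε0 : 0 < ε := (abs_nonneg _).trans_lt l3
      have hdU : 0 < dU u₀ u := by linarith [(abs_le.1 hU).1]
      have h1 : |(|t.1| * dV u₀ u - (1 - |t.1|) * dU u₀ u)| ≤ ε * dU u₀ u := by
        have e : |t.1| * dV u₀ u - (1 - |t.1|) * dU u₀ u =
            |t.1| * dU u₀ u * (dV u₀ u / dU u₀ u - (1 - |t.1|) / |t.1|) := by
          field_simp
        rw [e, abs_mul, abs_of_pos (by positivity : 0 < |t.1| * dU u₀ u)]
        calc |t.1| * dU u₀ u * |dV u₀ u / dU u₀ u - (1 - |t.1|) / (|t.1|)|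
            ≤ |t.1| * dU u₀ u * ε := mul_le_mul_of_nonneg_left l5.le (by positivity)
          _ ≤ 1 * dU u₀ u * ε := by gcongr
          _ = ε * dU u₀ u := by ring
      have h2 := lt1_conv (u.1.norm : ℝ) |(u.2 : ℝ)| (dV u₀ u) (dU u₀ u) a b (1 - |t.1|) |t.1| ε R'
        hV hU (by linarith) hτ.le (by ring) h1 hε0.le hε1 hR'0 hRε hk0 (by nlinarith)
      refine ⟨by linarith, ?_, ?_⟩
      · rw [hht _ |t.1| (J.mer ξ t).ht s1 (lt1_decide t.1 ht)]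
        exact h2.trans (by linarith)
      · intro ξ' t' h
        obtain ⟨rfl, rfl⟩ := J.mer.inj h
        exact near_mono hRa ξ l1

end Pool.Agent.Helper77.HB
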