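import Pool.Agent.Helper77.HB.LitDef

/-!
# The non-remote part, for points over the same vertex
-/

namespace Pool.Agent.Helper77.HB

open Matrix OnePoint

/-- `j` is not a pole. -/
private def IsMer (j : J) : Prop := ∃ ξ t, j = J.mer ξ t

private lemma lt2_mer (ξ : E) (t : Set.Ioo (-1 : ℝ) 1) : IsMer (J.mer ξ t) := ⟨ξ, t, rfl⟩

private lemma lt2_pole (s : Bool) : ¬ IsMer (J.pole s) := by
  rintro ⟨ξ, t, h⟩
  exact absurd h (by simp)

private lemma lt2_sg (s : Bool) : (sg s : ℝ) = 1 ∨ (sg s : ℝ) = -1 := by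
  cases s <;> simp [sg]

private lemma lt2_pole_ht (s : Bool) : (J.pole s).ht ≠ 0 := by
  show (sg s : ℝ) ≠ 0
  rcases lt2_sg s with h | h <;> rw [h] <;> norm_num

private lemma lt2_pole_abs (s : Bool) : |(J.pole s).ht| = 1 := by
  show |(sg s : ℝ)| = 1
  rcases lt2_sg s with h | h <;> rw [h] <;> simp

private lemma lt2_mer_ht (ξ : E) (t : Set.Ioo (-1 : ℝ) 1) : (J.mer ξ t).ht = t.1 := rfl

private lemma lt2_mer_lt (ξ : E) (t : Set.Ioo (-1 : ℝ) 1) : |(J.mer ξ t).ht| < 1 :=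
  abs_lt.2 ⟨t.2.1, t.2.2⟩

private lemma lt2_top (v : Wd) (j : J) : Dm.top ∉ suppMB (.sig v j) := by
  cases j with
  | pole s => simp [suppMB]
  | mer ξ t => by_cases ht : t.1 = 0 <;> simp [suppMB, ht]

private lemma lt2_V (v v' : Wd) (j : J) : Dm.V v' ∈ suppMB (.sig v j) ↔ v' = v ∧ IsMer j := by
  cases j with
  | pole s => simp [suppMB, lt2_pole]
  | mer ξ t => by_cases ht : t.1 = 0 <;> simp [suppMB, ht, lt2_mer]

private lemma lt2_U (v v' : Wd) (j : J) : Dm.U v' ∈ suppMB (.sig v j) ↔ v' = v ∧ j.ht ≠ 0 := by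
  cases j with
  | pole s => simp [suppMB, lt2_pole_ht]
  | mer ξ t => by_cases ht : t.1 = 0 <;> simp [suppMB, ht, lt2_mer_ht]

private lemma lt2_ptU (v v' : Wd) (j : J) (h : Dm.U v' ∈ suppMB (.sig v j)) :
    ptMB (.sig v j) (.U v') h = zinf (decide (0 < j.ht)) := by
  cases j with
  | pole s =>
    show zinf s = zinf (decide (0 < (sg s : ℝ)))
    congr 1
    cases s
    · have h1 : ¬ (0 : ℝ) < (sg false : ℝ) := by norm_num [sg]
      rw [decide_eq_false h1]
    · have h1 : (0 : ℝ) < (sg true : ℝ) := by norm_num [sg]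
      rw [decide_eq_true h1]
  | mer ξ t => rfl

open Classical in
private lemma lt2_sum (v : Wd) (j j' : J) :
    (∑ T ∈ (suppMB (.sig v j')).filter (fun T => T ∉ suppMB (.sig v j)), wtMB (.sig v j') T) =
      (if ¬ IsMer j ∧ IsMer j' then 1 - |j'.ht| else 0) +
        (if j.ht = 0 ∧ j'.ht ≠ 0 then |j'.ht| else 0) := by
  rw [Finset.sum_filter]
  cases j' with
  | pole s =>
    have h1 : suppMB (.sig v (.pole s)) = {Dm.U v} := rfl
    rw [h1, Finset.sum_singleton]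
    by_cases h0 : j.ht = 0 <;> simp [h0, lt2_U, lt2_pole, lt2_pole_ht, wtMB]
  | mer ξ t =>
    by_cases ht : t.1 = 0
    · have h1 : suppMB (.sig v (.mer ξ t)) = {Dm.V v} := by simp [suppMB, ht]
      rw [h1, Finset.sum_singleton]
      by_cases h0 : IsMer j <;> simp [h0, lt2_V, lt2_mer, wtMB, lt2_mer_ht, ht]
    · have h1 : suppMB (.sig v (.mer ξ t)) = {Dm.V v, Dm.U v} := by simp [suppMB, ht]
      rw [h1, Finset.sum_insert (by simp), Finset.sum_singleton]
      by_cases h0 : IsMer j <;> by_cases h2 : j.ht = 0 <;>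
        simp [h0, h2, lt2_V, lt2_U, lt2_mer, wtMB, lt2_mer_ht, ht]

theorem not_remote_sig (lam : Bool) (v : Wd) (j j' : J) :
    ¬ Remote (ofMB lam (.sig v j)) (ofMB lam (.sig v j')) := by
  rintro ⟨h1, h2⟩
  have h1' : ∀ T ∈ suppMB (.sig v j'), T ∉ suppMB (.sig v j) := h1
  have h2' : ∀ S ∈ suppMB (.sig v j), ∃ T ∈ suppMB (.sig v j'), ¬ Dorth S T := h2
  obtain ⟨T, hT⟩ := suppMB_nonempty (.sig v j')
  obtain ⟨S, hS⟩ := suppMB_nonempty (.sig v j)
  obtain ⟨T, hT, hST⟩ := h2' S hS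
  have h3 := h1' T hT
  cases S with
  | top => exact lt2_top _ _ hS
  | V v' =>
    obtain ⟨rfl, hm⟩ := (lt2_V _ _ _).1 hS
    cases T with
    | top => exact lt2_top _ _ hT
    | V v'' =>
      obtain ⟨rfl, hm'⟩ := (lt2_V _ _ _).1 hT
      exact h3 hS
    | U v'' =>
      obtain ⟨rfl, hm'⟩ := (lt2_U _ _ _).1 hT
      exact hST rfl
  | U v' =>
    obtain ⟨rfl, hm⟩ := (lt2_U _ _ _).1 hS
    cases T with
    | top => exact lt2_top _ _ hT
    | V v'' =>
      obtain ⟨rfl, hm'⟩ := (lt2_V _ _ _).1 hT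
      exact hST rfl
    | U v'' =>
      obtain ⟨rfl, hm'⟩ := (lt2_U _ _ _).1 hT
      exact h3 hS

open Classical in
/-- The non-remote part of a basic neighbourhood, for points over the same vertex. -/
theorem non_iff (lam : Bool) (v : Wd) (j j' : J) (o : (D : Dm) → DC D) (R ε : ℝ) :
    ofMB lam (.sig v j') ∈ nonNhd (ofMB lam (.sig v j)) o R ε ↔
      (∀ ξ t ξ' t', j = J.mer ξ t → j' = J.mer ξ' t' → ξ' ∈ nearBd (Γ := TF) (o (.V v)) R ξ) ∧
      (j.ht ≠ 0 → j'.ht ≠ 0 → zinf (decide (0 < j'.ht)) ∈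
        nearBd (Γ := ZL) (o (.U v)) R (zinf (decide (0 < j.ht)))) ∧
      ((∃ ξ t, j = J.mer ξ t) → (∃ ξ t, j' = J.mer ξ t) → |(|j'.ht| - |j.ht|)| < ε) ∧
      (j.ht ≠ 0 → j'.ht ≠ 0 → |(|j'.ht| - |j.ht|)| < ε) ∧
      (if ¬ (∃ ξ t, j = J.mer ξ t) ∧ (∃ ξ t, j' = J.mer ξ t) then 1 - |j'.ht| else 0) +
        (if j.ht = 0 ∧ j'.ht ≠ 0 then |j'.ht| else 0) < ε := by
  have hsum := lt2_sum v j j'
  unfold IsMer at hsum
  rw [← hsum]
  constructor
  · rintro ⟨-, h1, h2, h3⟩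
    have h1' : ∀ T (hT : T ∈ suppMB (.sig v j)) (hT' : T ∈ suppMB (.sig v j')),
        ptMB (.sig v j') T hT' ∈ nearBd (Γ := DΓ T) (o T) R (ptMB (.sig v j) T hT) := h1
    have h2' : ∀ T ∈ suppMB (.sig v j), T ∈ suppMB (.sig v j') →
        |wtMB (.sig v j') T - wtMB (.sig v j) T| < ε := h2
    refine ⟨?_, ?_, ?_, ?_, ?_⟩
    · rintro ξ t ξ' t' rfl rfl
      exact h1' (.V v) ((lt2_V _ _ _).2 ⟨rfl, lt2_mer _ _⟩) ((lt2_V _ _ _).2 ⟨rfl, lt2_mer _ _⟩)
    · intro h4 h5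
      have h6 := h1' (.U v) ((lt2_U _ _ _).2 ⟨rfl, h4⟩) ((lt2_U _ _ _).2 ⟨rfl, h5⟩)
      rw [lt2_ptU, lt2_ptU] at h6
      exact h6
    · intro h4 h5
      have h6 := h2' (.V v) ((lt2_V _ _ _).2 ⟨rfl, h4⟩) ((lt2_V _ _ _).2 ⟨rfl, h5⟩)
      have e : wtMB (.sig v j') (.V v) - wtMB (.sig v j) (.V v) = -(|j'.ht| - |j.ht|) := by
        simp only [wtMB, if_true]
        ring
      rw [e, abs_neg] at h6
      exact h6
    · intro h4 h5
      have h6 := h2' (.U v) ((lt2_U _ _ _).2 ⟨rfl, h4⟩) ((lt2_U _ _ _).2 ⟨rfl, h5⟩)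
      simpa only [wtMB, if_true] using h6
    · exact h3
  · rintro ⟨h1, h2, h3, h4, h5⟩
    refine ⟨not_remote_sig lam v j j', ?_, ?_, ?_⟩
    · show ∀ T (hT : T ∈ suppMB (.sig v j)) (hT' : T ∈ suppMB (.sig v j')),
        ptMB (.sig v j') T hT' ∈ nearBd (Γ := DΓ T) (o T) R (ptMB (.sig v j) T hT)
      intro T hT hT'
      cases T with
      | top => exact absurd hT (lt2_top _ _)
      | V v' =>
        obtain ⟨rfl, ξ, t, rfl⟩ := (lt2_V _ _ _).1 hT
        obtain ⟨-, ξ', t', rfl⟩ := (lt2_V _ _ _).1 hT'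
        exact h1 ξ t ξ' t' rfl rfl
      | U v' =>
        obtain ⟨rfl, h6⟩ := (lt2_U _ _ _).1 hT
        obtain ⟨-, h7⟩ := (lt2_U _ _ _).1 hT'
        rw [lt2_ptU, lt2_ptU]
        exact h2 h6 h7
    · show ∀ T ∈ suppMB (.sig v j), T ∈ suppMB (.sig v j') →
        |wtMB (.sig v j') T - wtMB (.sig v j) T| < ε
      intro T hT hT'
      cases T with
      | top => exact absurd hT (lt2_top _ _)
      | V v' =>
        obtain ⟨rfl, h6⟩ := (lt2_V _ _ _).1 hT
        obtain ⟨-, h7⟩ := (lt2_V _ _ _).1 hT'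
        have e : wtMB (.sig v' j') (.V v') - wtMB (.sig v' j) (.V v') = -(|j'.ht| - |j.ht|) := by
          simp only [wtMB, if_true]
          ring
        rw [e, abs_neg]
        exact h3 h6 h7
      | U v' =>
        obtain ⟨rfl, h6⟩ := (lt2_U _ _ _).1 hT
        obtain ⟨-, h7⟩ := (lt2_U _ _ _).1 hT'
        simpa only [wtMB, if_true] using h4 h6 h7
    · exact h5

private lemma lt2_bd_self {α : Type} {Γ : SimpleGraph α} (o : α) (R : ℝ) (ξ : GBd Γ) :
    ξ ∈ nearBd o R ξ := by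
  obtain ⟨y, hy⟩ := gbd_nonempty ξ
  obtain ⟨N, hN⟩ := toInf_of_mem hy o R
  exact ⟨y, hy, y, hy, N, hN⟩

private lemma lt2_bd_mono {α : Type} {Γ : SimpleGraph α} {o : α} {R R' : ℝ} (h : R ≤ R')
    (ξ : GBd Γ) : nearBd o R' ξ ⊆ nearBd o R ξ := by
  rintro η ⟨y, hy, z, hz, N, hN⟩
  exact ⟨y, hy, z, hz, N, fun m hm n hn => h.trans (hN m hm n hn)⟩

/-- The sign of two close numbers. -/
private lemma lt2_decide {x y : ℝ} (h : |x - y| < |x|) : decide (0 < y) = decide (0 < x) := by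
  rcases lt_trichotomy x 0 with hx | hx | hx
  · rw [abs_of_neg hx] at h
    have h1 := (abs_lt.1 h).1
    have h2 : ¬ 0 < y := by linarith
    have h3 : ¬ 0 < x := by linarith
    simp [h2, h3]
  · subst hx
    rw [abs_zero] at h
    exact absurd h (not_lt.2 (abs_nonneg _))
  · rw [abs_of_pos hx] at h
    have h1 := (abs_lt.1 h).2
    have h2 : 0 < y := by linarith
    simp [h2, hx]

/-- Two points of `J` whose neighbourhoods meet have nearby heights. -/
private lemma lt2_close {j j' : J} {R' : ℕ} (hR : 0 < R') (h : TrJ j' {u | InJ R' j u}) :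
    |j.ht - j'.ht| ≤ 2 / R' := by
  obtain ⟨R₂, hR₂⟩ := h
  obtain ⟨u, hu⟩ := InJ_ne (max R₂ R') j'
  have h1 : InJ R' j u := hR₂ u (InJ_mono (le_max_left _ _) hu)
  have h2 : InJ R' j' u := InJ_mono (le_max_right _ _) hu
  have hR0 : (0 : ℝ) < R' := by exact_mod_cast hR
  have hS : 0 < sz u := lt_of_lt_of_le hR0 h1.1
  have h3 := h1.2.1
  have h4 := h2.2.1
  rw [le_div_iff₀ hR0]
  have h5 : |j.ht - j'.ht| * sz u ≤ |(u.2 : ℝ) - j.ht * sz u| + |(u.2 : ℝ) - j'.ht * sz u| := by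
    have e : |j.ht - j'.ht| * sz u = |(-((u.2 : ℝ) - j.ht * sz u)) + ((u.2 : ℝ) - j'.ht * sz u)| := by
      have e1 : (-((u.2 : ℝ) - j.ht * sz u)) + ((u.2 : ℝ) - j'.ht * sz u) =
        (j.ht - j'.ht) * sz u := by ring
      rw [e1, abs_mul, abs_of_pos hS]
    rw [e]
    refine (abs_add_le _ _).trans ?_
    rw [abs_neg]
  have h6 : |j.ht - j'.ht| * R' * sz u ≤ 2 * sz u := by
    have := mul_le_mul_of_nonneg_left h5 hR0.le
    nlinarith
  exact le_of_mul_le_mul_right h6 hS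

theorem non_of_Tr (lam : Bool) (v : Wd) (j : J) (o : (D : Dm) → DC D) (R ε : ℝ) (hε : 0 < ε) :
    ∃ R' : ℕ, ∀ j', TrJ j' {u | InJ R' j u} →
      ofMB lam (.sig v j') ∈ nonNhd (ofMB lam (.sig v j)) o R ε := by
  classical
  obtain ⟨C, hC0, hC⟩ := nearBd_of_near TF_hyp
  -- the tolerance for the heights
  obtain ⟨δ, hδ, hδε, hδ1, hδ2, hδ3⟩ : ∃ δ : ℝ, 0 < δ ∧ δ < ε ∧ δ < 1 ∧
      (j.ht ≠ 0 → δ < |j.ht|) ∧ (|j.ht| < 1 → δ < 1 - |j.ht|) := by
    have h1 : 0 < (if j.ht = 0 then (1 : ℝ) else |j.ht|) := by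
      split_ifs with h
      · exact one_pos
      · exact abs_pos.2 h
    have h2 : 0 < (if |j.ht| < 1 then 1 - |j.ht| else (1 : ℝ)) := by
      split_ifs with h
      · linarith
      · exact one_pos
    obtain ⟨δ, hδ, hδ'⟩ := exists_between (lt_min (lt_min hε one_pos) (lt_min h1 h2))
    refine ⟨δ, hδ, hδ'.trans_le ((min_le_left _ _).trans (min_le_left _ _)),
      hδ'.trans_le ((min_le_left _ _).trans (min_le_right _ _)), ?_, ?_⟩
    · intro h
      have := hδ'.trans_le ((min_le_right _ _).trans (min_le_left _ _))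
      rwa [if_neg h] at this
    · intro h
      have := hδ'.trans_le ((min_le_right _ _).trans (min_le_right _ _))
      rwa [if_pos h] at this
  obtain ⟨R₁, hR₁⟩ := exists_nat_ge (2 / δ)
  obtain ⟨R₂, hR₂⟩ := exists_nat_ge (R + C + TF.dist 1 (o (.V v)))
  refine ⟨max 1 (max R₁ R₂), fun j' hj' => ?_⟩
  set R' := max 1 (max R₁ R₂) with hR'
  have e0 : 0 < R' := lt_of_lt_of_le Nat.one_pos (le_max_left _ _)
  have e0' : (0 : ℝ) < R' := by exact_mod_cast e0
  have e1 : (R₁ : ℝ) ≤ R' := by exact_mod_cast (le_max_left _ _).trans (le_max_right _ _)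
  have e2 : (R₂ : ℝ) ≤ R' := by exact_mod_cast (le_max_right _ _).trans (le_max_right _ _)
  have hcl : |j.ht - j'.ht| ≤ δ := by
    refine (lt2_close e0 hj').trans ?_
    rw [div_le_iff₀ e0']
    have := (div_le_iff₀ hδ).1 (hR₁.trans e1)
    linarith
  have hcl' : |(|j'.ht| - |j.ht|)| ≤ δ := by
    refine (abs_abs_sub_abs_le _ _).trans ?_
    rw [abs_sub_comm]
    exact hcl
  rw [non_iff]
  refine ⟨?_, ?_, fun _ _ => hcl'.trans_lt hδε, fun _ _ => hcl'.trans_lt hδε, ?_⟩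
  · rintro ξ t ξ' t' rfl rfl
    obtain ⟨R₃, hR₃⟩ := hj'
    obtain ⟨u, hu⟩ := InJ_ne (max R₃ R') (J.mer ξ' t')
    have h1 : InJ R' (J.mer ξ t) u := hR₃ u (InJ_mono (le_max_left _ _) hu)
    have h2 : InJ R' (J.mer ξ' t') u := InJ_mono (le_max_right _ _) hu
    have h3 := h1.2.2 ξ t rfl
    have h4 := h2.2.2 ξ' t' rfl
    refine hC (o (.V v)) R ξ ξ' u.1 ?_ ?_
    · exact near_base TF_connected 1 (o (.V v)) (R + C) ξ (near_mono (hR₂.trans e2) ξ h3)
    · exact near_base TF_connected 1 (o (.V v)) (R + C) ξ' (near_mono (hR₂.trans e2) ξ' h4)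
  · intro h1 h2
    rw [lt2_decide (x := j.ht) (y := j'.ht) (hcl.trans_lt (hδ2 h1))]
    exact lt2_bd_self _ _ _
  · by_cases hm : IsMer j
    · have h1 : ¬ (¬ (∃ ξ t, j = J.mer ξ t) ∧ (∃ ξ t, j' = J.mer ξ t)) := fun h => h.1 hm
      rw [if_neg h1, zero_add]
      split_ifs with h2
      · rw [h2.1, abs_zero, sub_zero, abs_abs] at hcl'
        exact hcl'.trans_lt hδε
      · exact hε
    · have h0 : j.ht ≠ 0 ∧ |j.ht| = 1 := by
        cases j with
        | pole s => exact ⟨lt2_pole_ht s, lt2_pole_abs s⟩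
        | mer ξ t => exact absurd (lt2_mer ξ t) hm
      have h1 : ¬ (j.ht = 0 ∧ j'.ht ≠ 0) := fun h => h0.1 h.1
      rw [if_neg h1, add_zero]
      split_ifs with h2
      · rw [h0.2] at hcl'
        have := (abs_le.1 hcl').1
        linarith
      · exact hε

theorem Tr_of_non (lam : Bool) (v : Wd) (j : J) (R' : ℕ) : ∃ R₀ ε₀ : ℝ, 0 < ε₀ ∧ ∀ R ≥ R₀,
    ∀ ε ≤ ε₀, ∀ j', ofMB lam (.sig v j') ∈ nonNhd (ofMB lam (.sig v j)) oStd R ε →
      TrJ j' {u | InJ R' j u} := by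
  classical
  obtain ⟨C, hC0, hC⟩ := near_of_nearBd TF_hyp
  obtain ⟨C', hC'0, hC'⟩ := near_of_nearBd ZL_hyp
  -- the tolerance for the heights
  obtain ⟨δ, hδ, hδR, hδ1, hδ2, hδ3⟩ : ∃ δ : ℝ, 0 < δ ∧ R' * δ ≤ 1 / 2 ∧ δ < 1 ∧
      (j.ht ≠ 0 → δ < |j.ht|) ∧ (|j.ht| < 1 → δ < 1 - |j.ht|) := by
    have h1 : 0 < (if j.ht = 0 then (1 : ℝ) else |j.ht|) := by
      split_ifs with h
      · exact one_pos
      · exact abs_pos.2 h
    have h2 : 0 < (if |j.ht| < 1 then 1 - |j.ht| else (1 : ℝ)) := by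
      split_ifs with h
      · linarith
      · exact one_pos
    have h0 : (0 : ℝ) < 1 / (2 * (R' + 1)) := by positivity
    obtain ⟨δ, hδ, hδ'⟩ := exists_between (lt_min (lt_min h0 one_pos) (lt_min h1 h2))
    have h3 : δ < 1 / (2 * (R' + 1)) := hδ'.trans_le ((min_le_left _ _).trans (min_le_left _ _))
    refine ⟨δ, hδ, ?_, hδ'.trans_le ((min_le_left _ _).trans (min_le_right _ _)), ?_, ?_⟩
    · rw [lt_div_iff₀ (by positivity)] at h3
      nlinarith
    · intro h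
      have := hδ'.trans_le ((min_le_right _ _).trans (min_le_left _ _))
      rwa [if_neg h] at this
    · intro h
      have := hδ'.trans_le ((min_le_right _ _).trans (min_le_right _ _))
      rwa [if_pos h] at this
  refine ⟨max (R' + C) (1 + C'), δ, hδ, fun R hR ε hε j' hj' => ?_⟩
  have hR1 : (R' : ℝ) + C ≤ R := (le_max_left _ _).trans hR
  have hR2 : 1 + C' ≤ R := (le_max_right _ _).trans hR
  rw [non_iff] at hj'
  obtain ⟨h1, h2, h3, h4, h5⟩ := hj'
  have habs1 : |j'.ht| ≤ 1 := by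
    cases j' with
    | pole s => exact (lt2_pole_abs s).le
    | mer ξ t => exact (lt2_mer_lt ξ t).le
  -- the signs agree
  have hsign : j.ht ≠ 0 → j'.ht ≠ 0 → decide (0 < j'.ht) = decide (0 < j.ht) := by
    intro h6 h7
    have h8 := hC' (0 : ℤ) 1 _ _ (lt2_bd_mono hR2 _ (h2 h6 h7))
    obtain ⟨K, hK⟩ := exists_nat_ge (1 + C')
    have h9 : (sg (decide (0 < j'.ht)) * (K : ℤ)) ∈
        near (Γ := ZL) 0 (1 + C') (zinf (decide (0 < j'.ht))) := by
      rw [zinf_near _ _ (by linarith)]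
      cases decide (0 < j'.ht) <;> simpa [sg] using hK
    have h10 := (zinf_near _ _ one_pos _).1 (h8 h9)
    by_contra hne
    have hK0 : (0 : ℝ) ≤ K := Nat.cast_nonneg _
    cases h11 : decide (0 < j'.ht) <;> cases h12 : decide (0 < j.ht) <;>
      rw [h11, h12] at h10 hne <;> simp [sg] at h10 hne <;> linarith
  -- the heights are close
  have hclose : |j.ht - j'.ht| ≤ δ ∧ (IsMer j → IsMer j') := by
    have hpos1 : 0 ≤ (if ¬ (∃ ξ t, j = J.mer ξ t) ∧ (∃ ξ t, j' = J.mer ξ t) then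
        1 - |j'.ht| else 0) := by
      split_ifs
      · linarith
      · exact le_rfl
    have hpos2 : 0 ≤ (if j.ht = 0 ∧ j'.ht ≠ 0 then |j'.ht| else 0) := by
      split_ifs
      · exact abs_nonneg _
      · exact le_rfl
    have h5a : (if ¬ (∃ ξ t, j = J.mer ξ t) ∧ (∃ ξ t, j' = J.mer ξ t) then
        1 - |j'.ht| else 0) < ε := by linarith
    have h5b : (if j.ht = 0 ∧ j'.ht ≠ 0 then |j'.ht| else 0) < ε := by linarith
    by_cases h6 : j.ht = 0
    · have hm : IsMer j := by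
        cases j with
        | pole s => exact absurd h6 (lt2_pole_ht s)
        | mer ξ t => exact lt2_mer ξ t
      have h7 : |j'.ht| ≤ δ := by
        by_cases h8 : j'.ht = 0
        · rw [h8, abs_zero]; exact hδ.le
        · rw [if_pos ⟨h6, h8⟩] at h5b
          exact h5b.le.trans hε
      refine ⟨by rw [h6, zero_sub, abs_neg]; exact h7, fun _ => ?_⟩
      cases j' with
      | pole s => rw [lt2_pole_abs] at h7; linarith
      | mer ξ t => exact lt2_mer ξ t
    · by_cases h7 : j'.ht = 0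
      · exfalso
        have hm' : IsMer j' := by
          cases j' with
          | pole s => exact absurd h7 (lt2_pole_ht s)
          | mer ξ t => exact lt2_mer ξ t
        by_cases hm : IsMer j
        · have h8 := h3 hm hm'
          rw [h7, abs_zero, zero_sub, abs_neg, abs_abs] at h8
          have := hδ2 h6
          linarith
        · rw [if_pos ⟨hm, hm'⟩, h7, abs_zero, sub_zero] at h5a
          linarith
      · have h8 := h4 h6 h7
        have h9 : |j.ht - j'.ht| = |(|j'.ht| - |j.ht|)| := by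
          have h10 := hsign h6 h7
          rcases lt_or_gt_of_ne h6 with ha | ha
          · have hb : ¬ 0 < j'.ht := by
              intro hb
              have h11 : ¬ 0 < j.ht := not_lt.2 ha.le
              simp [hb, h11] at h10
            rw [abs_of_neg ha, abs_of_nonpos (not_lt.1 hb)]
            congr 1
            ring
          · have hb : 0 < j'.ht := by
              by_contra hb
              simp [hb, ha] at h10
            rw [abs_of_pos ha, abs_of_pos hb, abs_sub_comm]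
        refine ⟨by rw [h9]; exact h8.le.trans hε, fun hm => ?_⟩
        cases j' with
        | pole s =>
          obtain ⟨ξ, t, rfl⟩ := hm
          rw [lt2_pole_abs] at h8
          have h10 := hδ3 (lt2_mer_lt ξ t)
          have := (abs_lt.1 h8).2
          linarith
        | mer ξ t => exact lt2_mer ξ t
  obtain ⟨hc1, hc2⟩ := hclose
  obtain ⟨K, hK⟩ := exists_nat_ge ((R' : ℝ) + C)
  refine ⟨max K (2 * R'), fun u hu => ?_⟩
  have e1 : (K : ℝ) ≤ (max K (2 * R') : ℕ) := by exact_mod_cast le_max_left _ _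
  have e2 : (2 * R' : ℝ) ≤ (max K (2 * R') : ℕ) := by exact_mod_cast le_max_right _ _
  obtain ⟨u1, u2, u3⟩ := hu
  have hR0 : (0 : ℝ) ≤ R' := Nat.cast_nonneg _
  have hS : 0 ≤ sz u := by unfold sz; positivity
  refine ⟨by linarith, ?_, ?_⟩
  · have h6 : |(u.2 : ℝ) - j.ht * sz u| ≤ |(u.2 : ℝ) - j'.ht * sz u| + δ * sz u := by
      have e : (u.2 : ℝ) - j.ht * sz u = ((u.2 : ℝ) - j'.ht * sz u) +
        (-((j.ht - j'.ht) * sz u)) := by ring
      rw [e]
      refine (abs_add_le _ _).trans ?_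
      rw [abs_neg, abs_mul, abs_of_nonneg hS]
      have := mul_le_mul_of_nonneg_right hc1 hS
      linarith
    have h7 : 0 ≤ |(u.2 : ℝ) - j'.ht * sz u| := abs_nonneg _
    have h8 : 2 * R' * |(u.2 : ℝ) - j'.ht * sz u| ≤ sz u :=
      (mul_le_mul_of_nonneg_right e2 h7).trans u2
    have h9 := mul_le_mul_of_nonneg_left h6 hR0
    have h10 := mul_le_mul_of_nonneg_right hδR hS
    linarith
  · rintro ξ t rfl
    obtain ⟨ξ', t', rfl⟩ := hc2 (lt2_mer ξ t)
    have h6 := lt2_bd_mono hR1 ξ (h1 ξ t ξ' t' rfl rfl)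
    have h7 := u3 ξ' t' rfl
    exact hC (1 : F) R' ξ ξ' h6 (near_mono (hK.trans e1) ξ' h7)

end Pool.Agent.Helper77.HB
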