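import Pool.Agent.Helper77.HB.JLem
import Pool.Agent.Helper77.HB.GrInf
import Pool.Agent.Helper77.HB.Model

/-!
# The traces of the neighbourhoods of the points of the model
-/

namespace Pool.Agent.Helper77.HB

open Matrix OnePoint

/-- The end `s` of the coset `g ⟨c⟩`, in the boundary. -/
noncomputable def Pt (lam : Bool) (g : GA) (s : Bool) : MB :=
  MB.sig (g • v0) (Pj lam (cp g v0) s)

theorem Tr_isTrace (lam : Bool) : IsTrace (Tr lam) where
  univ q := by
    cases q with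
    | inf ξ => exact ⟨0, fun h _ => Set.mem_univ h⟩
    | sig v j => exact ⟨0, fun h _ => Set.mem_univ h⟩
  mono q B B' hB h := by
    cases q with
    | inf ξ =>
      obtain ⟨R, hR⟩ := h
      exact ⟨R, fun k hk => hB (hR k hk)⟩
    | sig v j =>
      obtain ⟨R, hR⟩ := h
      exact ⟨R, fun k hk => hB (hR k hk)⟩
  inter q B B' h h' := by
    cases q with
    | inf ξ =>
      obtain ⟨R, hR⟩ := h
      obtain ⟨R', hR'⟩ := h'
      refine ⟨max R R', fun k hk => ⟨hR k ?_, hR' k ?_⟩⟩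
      · exact near_mono (by exact_mod_cast le_max_left R R') ξ hk
      · exact near_mono (by exact_mod_cast le_max_right R R') ξ hk
    | sig v j =>
      obtain ⟨R, hR⟩ := h
      obtain ⟨R', hR'⟩ := h'
      exact ⟨max R R', fun k hk => ⟨hR k (InJ_mono (le_max_left _ _) hk),
        hR' k (InJ_mono (le_max_right _ _) hk)⟩⟩
  ne q h := by
    cases q with
    | inf ξ =>
      obtain ⟨R, hR⟩ := h
      obtain ⟨y, hy⟩ := gbd_nonempty ξ
      obtain ⟨N, hN⟩ := near_seq hy v0 (R : ℝ)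
      exact hR (frame (y N)) (by rw [frame_smul]; exact hN N le_rfl)
    | sig v j =>
      obtain ⟨R, hR⟩ := h
      obtain ⟨u, hu⟩ := InJ_ne R j
      exact hR (frame v * iP (kapInv lam u)) (by rw [pg_iP, kap_kapInv]; exact hu)

/-- The gate in the frame of the vertex, in terms of the gate in another frame. -/
lemma Trace_pg_frame (g h : GA) : pg (frame (g • v0)) h = cp g v0 * pg g h := by
  conv_rhs => rw [eq_frame_mul g]
  rw [pg_frame_mul]
  have h1 : cp (frame (g • v0) * iP (cp g v0)) v0 = cp g v0 := by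
    rw [← eq_frame_mul g]
  rw [h1, mul_inv_cancel_left]

theorem Tr_sig_fin (lam : Bool) (g : GA) (j : J) (S : Set P) (hS : S.Finite) :
    Tr lam (.sig (g • v0) j) {h | pg g h ∉ S} := by
  obtain ⟨R, hR⟩ := InJ_fin j ((fun q => kap lam (cp g v0 * q)) '' S) (hS.image _)
  refine ⟨R, fun h hh hS' => ?_⟩
  rw [Trace_pg_frame] at hh
  exact hR _ ⟨pg g h, hS', rfl⟩ hh

/-- The three elements `p c ^ i`, `|i| ≤ 1`. -/
private lemma three_finite (p : P) : {q : P | ∃ i : ℤ, |i| ≤ 1 ∧ q = p * cP ^ i}.Finite := by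
  refine ((Set.finite_Icc (-1 : ℤ) 1).image (fun i => p * cP ^ i)).subset ?_
  rintro q ⟨i, hi, rfl⟩
  rw [abs_le] at hi
  exact ⟨i, ⟨hi.1, hi.2⟩, rfl⟩

/-- The gate at `g v0` is nearly constant near the points over another vertex. -/
theorem Tr_sig_ne (lam : Bool) (v : Wd) (j : J) (g : GA) (hv : v ≠ g • v0) :
    Tr lam (.sig v j) {h | ∃ i : ℤ, |i| ≤ 1 ∧ pg g h = gt g v * cP ^ i} := by
  have h1 := Tr_sig_fin lam (frame v) j _ (three_finite (gt (frame v) (g • v0)))
  rw [frame_smul] at h1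
  refine (Tr_isTrace lam).mono _ _ _ ?_ h1
  intro h hh
  have h2 := pg_behr g (frame v) h (by rw [frame_smul]; exact hv.symm)
  rw [frame_smul] at h2
  exact h2.resolve_right hh

theorem Tr_inf_gate (lam : Bool) (ξ : GBd Gr) (g : GA) :
    ∃ p : P, Tr lam (.inf ξ) {h | h • v0 ≠ g • v0 ∧ pg g h = p} := by
  obtain ⟨p, R, hR⟩ := inf_gate g ξ
  refine ⟨p, R, fun h hh => ?_⟩
  obtain ⟨h1, h2⟩ := hR _ hh
  exact ⟨h1, by rw [pg_of_ne h1, h2]⟩

theorem Tr_sig_coset (lam : Bool) (g : GA) (j : J) (s : Bool)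
    (hj : MB.sig (g • v0) j ≠ Pt lam g s) :
    Tr lam (.sig (g • v0) j) {h | ∀ n : ℤ, 1 ≤ sg s * n → pg g h ≠ cP ^ n} := by
  obtain ⟨R, hR⟩ := InJ_coset lam (cp g v0) s j (fun h => hj (by rw [Pt, h]))
  refine ⟨R, fun h hh n hn hc => ?_⟩
  rw [Trace_pg_frame, hc] at hh
  exact hR n hn hh

theorem trl_xv0 (g : GA) (n : ℤ) : (g * cG ^ n * xG) • v0 = g • cons (cP ^ n) zt tnil := by
  rw [mul_smul, mul_smul, xG_v0, cG_zpow, iP_smul, pw_cons, mul_one]

theorem trl_gt (g : GA) (n : ℤ) : gt g ((g * cG ^ n * xG) • v0) = cP ^ n := by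
  rw [trl_xv0, gt, inv_smul_smul, fl_cons]

theorem trl_ne (g : GA) (n : ℤ) : (g * cG ^ n * xG) • v0 ≠ g • v0 := by
  rw [trl_xv0]
  intro h
  exact cons_ne _ _ _ (smul_left_cancel g h)

theorem trl_pg (g h : GA) : pg (frame (g • v0)) h = cp g v0 * pg g h := by
  have h1 : pg g h = (cp g v0)⁻¹ * pg (frame (g • v0)) h := by
    conv_lhs => rw [eq_frame_mul g]
    rw [pg_frame_mul]
  rw [h1, mul_inv_cancel_left]

/-- The points over `g c ^ n x v0` converge to the end of the coset `g ⟨c⟩`. -/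
theorem Tr_lim (lam : Bool) (g : GA) (s : Bool) (B : Set GA) (hB : Tr lam (Pt lam g s) B) :
    ∃ M : ℤ, ∀ n : ℤ, M ≤ sg s * n → ∀ j, Tr lam (.sig ((g * cG ^ n * xG) • v0) j) B := by
  obtain ⟨R, hR⟩ := hB
  obtain ⟨M, hM⟩ := InJ_coset_lim lam (cp g v0) s R
  refine ⟨M + 1, fun n hn j => ?_⟩
  refine (Tr_isTrace lam).mono _ _ _ ?_ (Tr_sig_ne lam ((g * cG ^ n * xG) • v0) j g (trl_ne g n))
  rintro h ⟨i, hi, hh⟩
  apply hR
  rw [trl_pg, hh, trl_gt, ← _root_.zpow_add]
  apply hM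
  have h1 := abs_le.1 hi
  cases s with
  | true =>
    simp only [sg, if_true, one_mul] at hn ⊢
    omega
  | false =>
    simp only [sg, Bool.false_eq_true, if_false] at hn ⊢
    omega

/-- The points over the vertices near `ξ` are near `ξ`. -/
theorem Tr_inf_sig (lam : Bool) (ξ : GBd Gr) (B : Set GA) (hB : Tr lam (.inf ξ) B) :
    ∃ R : ℕ, ∀ v ∈ near (Γ := Gr) v0 R ξ, ∀ j, Tr lam (.sig v j) B := by
  obtain ⟨R, hR⟩ := hB
  obtain ⟨R', hRR', hR'⟩ := near_behind ξ R
  refine ⟨R', fun v hv j => ?_⟩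
  have hfr : frame v • v0 = v := frame_smul v
  have h1 := Tr_sig_fin lam (frame v) j {gt (frame v) v0} (Set.finite_singleton _)
  rw [hfr] at h1
  refine (Tr_isTrace lam).mono _ _ _ ?_ h1
  intro h hh
  have hh' : pg (frame v) h ≠ gt (frame v) v0 := hh
  apply hR
  by_cases h2 : h • v0 = frame v • v0
  · rw [h2, hfr]
    exact near_mono (by exact_mod_cast hRR') ξ hv
  · rw [pg_of_ne h2] at hh'
    exact hR' (frame v) (by rw [hfr]; exact hv) (h • v0) hh'

theorem sig_continuous (lam : Bool) (v : Wd) :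
    @Continuous J MB jTop (mbTop lam) (MB.sig v) := by
  refine continuous_generateFrom_iff.2 ?_
  rintro _ ⟨B, rfl⟩
  have h1 : (MB.sig v) ⁻¹' {q | Tr lam q B} =
      {j | TrJ j {u | ∀ h : GA, kap lam (pg (frame v) h) = u → h ∈ B}} := by
    ext j
    constructor
    · rintro ⟨R, hR⟩
      refine ⟨R, fun u hu h hh => ?_⟩
      apply hR
      rw [hh]
      exact hu
    · rintro ⟨R, hR⟩
      exact ⟨R, fun h hh => hR _ hh h rfl⟩
  rw [h1]
  exact strict_isOpen_hat _

/-- The half space of the frame `g`. -/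
def Phi (g : GA) : Set GA := {h | h • v0 ≠ g • v0 ∧ gt g (h • v0) = 1}

private lemma Phi_of {g h : GA} (hne : h • v0 ≠ g • v0) (hp : pg g h = 1) : h ∈ Phi g :=
  ⟨hne, by rw [← pg_of_ne hne]; exact hp⟩

private lemma not_Phi_of {g h : GA} (hp : pg g h ≠ 1) : h ∈ (Phi g)ᶜ :=
  fun hh => hp (by rw [pg_of_ne hh.1]; exact hh.2)

/-- `Tr_Phi` for the vertices adjacent to `g v0`. -/
private lemma Tr_Phi_adj (lam : Bool) (g : GA) (p : P) (j : J)
    (h1 : ¬ Tr lam (.sig ((g * iP p * xG) • v0) j) (Phi g))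
    (h2 : ¬ Tr lam (.sig ((g * iP p * xG) • v0) j) (Phi g)ᶜ) :
    MB.sig ((g * iP p * xG) • v0) j = Pt lam (g * iP p * xG) true ∧ (p = 1 ∨ p = cP) := by
  have hx : g * iP p * xG * xG = g * iP p := by rw [mul_assoc _ xG xG, xG_mul_self, mul_one]
  have hgv : (g * iP p) • v0 = g • v0 := by rw [mul_smul, iP_smul_v0]
  have hpg : ∀ h, pg g h = p * pg (g * iP p) h := by
    intro h
    rw [pg_frame_mul, mul_inv_cancel_left]
  have hne : (g * iP p * xG) • v0 ≠ g • v0 := by
    intro h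
    have h3 := hgv
    rw [← h, mul_smul _ xG] at h3
    exact xG_v0_ne (smul_left_cancel _ h3).symm
  have hfin := Tr_sig_fin lam (g * iP p * xG) j {1, cP⁻¹} (Set.toFinite _)
  -- the rule
  have rule : ∀ h : GA, pg (g * iP p * xG) h ∉ ({1, cP⁻¹} : Set P) → h • v0 ≠ g • v0 ∧
      ((∃ n : ℤ, 1 ≤ n ∧ pg (g * iP p * xG) h = cP ^ n ∧ pg (g * iP p) h = cP⁻¹) ∨
        pg (g * iP p) h = 1) := by
    intro h hh
    by_cases e : h • v0 = (g * iP p * xG) • v0
    · refine ⟨by rw [e]; exact hne, Or.inr ?_⟩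
      have := pg_x_self (g * iP p * xG) h e
      rwa [hx] at this
    · obtain ⟨a1, a2, a3⟩ := pg_x (g * iP p * xG) h e (fun h3 => hh (Or.inl h3))
        (fun h3 => hh (Or.inr h3))
      rw [hx] at a1 a2 a3
      refine ⟨by rw [← hgv]; exact a1, ?_⟩
      by_cases hj : ∃ n : ℤ, 1 ≤ n ∧ pg (g * iP p * xG) h = cP ^ n
      · obtain ⟨n, hn, hn2⟩ := hj
        exact Or.inl ⟨n, hn, hn2, a2 ⟨n, hn, hn2⟩⟩
      · exact Or.inr (a3 hj)
  by_cases hq : MB.sig ((g * iP p * xG) • v0) j = Pt lam (g * iP p * xG) true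
  · refine ⟨hq, ?_⟩
    by_contra hcon
    push Not at hcon
    refine h2 ((Tr_isTrace lam).mono _ _ _ ?_ hfin)
    intro h hh
    refine not_Phi_of ?_
    rw [hpg]
    rcases (rule h hh).2 with ⟨n, -, -, h3⟩ | h3
    · rw [h3]
      exact fun h4 => hcon.2 (mul_inv_eq_one.1 h4)
    · rw [h3, mul_one]
      exact hcon.1
  · exfalso
    have h3 := (Tr_isTrace lam).inter _ _ _ hfin (Tr_sig_coset lam _ j true hq)
    have key : ∀ h : GA, h ∈ {h | pg (g * iP p * xG) h ∉ ({1, cP⁻¹} : Set P)} ∩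
        {h | ∀ n : ℤ, 1 ≤ sg true * n → pg (g * iP p * xG) h ≠ cP ^ n} →
        h • v0 ≠ g • v0 ∧ pg g h = p := by
      rintro h ⟨hh, hh'⟩
      obtain ⟨b1, b2⟩ := rule h hh
      refine ⟨b1, ?_⟩
      rcases b2 with ⟨n, hn, h4, -⟩ | h4
      · exact absurd h4 (hh' n (by simpa [sg] using hn))
      · rw [hpg, h4, mul_one]
    by_cases hp : p = 1
    · refine h1 ((Tr_isTrace lam).mono _ _ _ ?_ h3)
      intro h hh
      obtain ⟨b1, b2⟩ := key h hh
      exact Phi_of b1 (b2.trans hp)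
    · refine h2 ((Tr_isTrace lam).mono _ _ _ ?_ h3)
      intro h hh
      obtain ⟨-, b2⟩ := key h hh
      exact not_Phi_of (by rw [b2]; exact hp)

theorem Tr_Phi (lam : Bool) (g : GA) (q : MB) (h1 : ¬ Tr lam q (Phi g))
    (h2 : ¬ Tr lam q (Phi g)ᶜ) :
    q = Pt lam (g * xG) true ∨ q = Pt lam (g * cG * xG) true := by
  cases q with
  | inf ξ =>
    exfalso
    obtain ⟨p, hp⟩ := Tr_inf_gate lam ξ g
    by_cases e : p = 1
    · exact h1 ((Tr_isTrace lam).mono _ _ _ (fun h hh => Phi_of hh.1 (hh.2.trans e)) hp)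
    · exact h2 ((Tr_isTrace lam).mono _ _ _
        (fun h hh => not_Phi_of (by rw [hh.2]; exact e)) hp)
  | sig v j =>
    by_cases hv : v = g • v0
    · exfalso
      subst hv
      refine h2 ((Tr_isTrace lam).mono _ _ _ ?_ (Tr_sig_fin lam g j {1} (Set.toFinite _)))
      intro h hh
      exact not_Phi_of hh
    by_cases ha : Gr.Adj (g • v0) v
    · have h3 : Gr.Adj v0 (g⁻¹ • v) := by
        rw [← Gr_adj_smul g, smul_inv_smul]; exact ha
      obtain ⟨p, hp⟩ := adj_v0.1 h3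
      rw [← iP_xG_v0, inv_smul_eq_iff, ← mul_smul, ← mul_assoc] at hp
      subst hp
      obtain ⟨h4, h5 | h5⟩ := Tr_Phi_adj lam g p j h1 h2
      · left
        rw [h4, h5, map_one, mul_one]
      · right
        rw [h4, h5]
        rfl
    · exfalso
      have hfv := frame_smul v
      have hfin := Tr_sig_fin lam (frame v) j _ (three_finite (gt (frame v) (g • v0)))
      rw [hfv] at hfin
      have key : ∀ h : GA, pg (frame v) h ∉
          {q : P | ∃ i : ℤ, |i| ≤ 1 ∧ q = gt (frame v) (g • v0) * cP ^ i} →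
          h • v0 ≠ g • v0 ∧ pg g h = gt g v := by
        intro h hh
        have h3 : h • v0 ≠ g • v0 := by
          intro h4
          refine hh ⟨0, by norm_num, ?_⟩
          rw [pg_of_ne (by rw [hfv, h4]; exact fun h5 => hv h5.symm), h4, zpow_zero, mul_one]
        refine ⟨h3, ?_⟩
        rw [pg_of_ne h3]
        by_cases h5 : h • v0 = v
        · rw [h5]
        · have h6 := behr_far (frame v) g (by rw [hfv]; exact hv)
            (by rw [hfv]; exact fun h7 => ha h7.symm) (y := h • v0) (by rw [hfv]; exact h5) h3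
          rw [hfv] at h6
          refine h6.resolve_left (fun h7 => hh ?_)
          obtain ⟨i, hi, h8⟩ := h7
          exact ⟨i, hi, by rw [pg_of_ne (by rw [hfv]; exact h5), h8]⟩
      by_cases e : gt g v = 1
      · exact h1 ((Tr_isTrace lam).mono _ _ _
          (fun h hh => Phi_of (key h hh).1 ((key h hh).2.trans e)) hfin)
      · exact h2 ((Tr_isTrace lam).mono _ _ _
          (fun h hh => not_Phi_of (by rw [(key h hh).2]; exact e)) hfin)

end Pool.Agent.Helper77.HB
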