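import Pool.Agent.Helper77.HB.LitDef
import Pool.Agent.Helper77.HB.Trace

/-!
# Boundary projections and the remote part
-/

namespace Pool.Agent.Helper77.HB

open Matrix OnePoint

/-- The domains at the vertex `v`. -/
def l3At (v : Wd) (D : Dm) : Prop := D = .V v ∨ D = .U v

lemma l3_supp_sig {v : Wd} {j : J} {D : Dm} (h : D ∈ suppMB (.sig v j)) : l3At v D := by
  unfold l3At
  cases j with
  | pole s => simp only [suppMB, Finset.mem_singleton] at h; exact Or.inr h
  | mer ξ t =>
    by_cases ht : t.1 = 0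
    · simp only [suppMB, ht, if_true, Finset.mem_singleton] at h; exact Or.inl h
    · simp only [suppMB, ht, if_false, Finset.mem_insert, Finset.mem_singleton] at h; exact h

lemma l3_supp_inf {ξ : GBd Gr} {D : Dm} (h : D ∈ suppMB (.inf ξ)) : D = .top := by
  simpa only [suppMB, Finset.mem_singleton] using h

/-- The support of a point which is not over `v`. -/
lemma l3_supp_ne {v : Wd} {q : MB} (hq : ∀ j', q ≠ .sig v j') {W : Dm} (hW : W ∈ suppMB q)
    {D : Dm} (hD : l3At v D) : ¬ Dorth D W ∧ ¬ Dorth W D ∧ D ≠ W ∧ (¬ W = .top → ¬ Dnest D W) := by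
  cases q with
  | inf ξ =>
    simp only [suppMB, Finset.mem_singleton] at hW
    subst hW
    rcases hD with rfl | rfl <;> simp [Dorth]
  | sig v' j' =>
    have hv : v' ≠ v := by
      rintro rfl
      exact hq j' rfl
    rcases l3_supp_sig hW with rfl | rfl <;> rcases hD with rfl | rfl <;>
      simp [Dorth, Dnest, hv, hv.symm]

theorem remote_sig (lam : Bool) (v : Wd) (j : J) (q : MB) (hq : ∀ j', q ≠ .sig v j') :
    Remote (ofMB lam (.sig v j)) (ofMB lam q) := by
  constructor
  · intro T hT hT'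
    exact (l3_supp_ne hq hT (l3_supp_sig hT')).2.2.1 rfl
  · intro S hS
    obtain ⟨T, hT⟩ := suppMB_nonempty q
    exact ⟨T, hT, (l3_supp_ne hq hT (l3_supp_sig hS)).1⟩

/-- The values of the downward projections along a sequence. -/
lemma l3_down (v : Wd) (ξ : GBd Gr) {y : ℕ → Wd} (hy : y ∈ ξ.1) :
    ∃ N, ∀ n ≥ N, y n ≠ v ∧ gt (frame v) (y n) = gq v (.inf ξ) := by
  obtain ⟨R, hR⟩ := (inf_gate (frame v) ξ).choose_spec
  obtain ⟨N, hN⟩ := near_seq hy v0 (R : ℝ)
  refine ⟨N, fun n hn => ?_⟩
  have h := hR _ (hN n hn)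
  exact ⟨fun h1 => h.1 (h1.trans (frame_smul v).symm), h.2⟩

theorem bproj_V (lam : Bool) (v : Wd) (q : MB) (hq : ∀ j', q ≠ .sig v j') :
    bproj (ofMB lam q) (Dm.V v) = {(kap lam (gq v q)).1} := by
  ext z
  change _ ↔ (z : F) = (kap lam (gq v q)).1
  cases q with
  | inf ξ =>
    constructor
    · rintro ⟨T, hT, -, -, hz⟩
      obtain rfl : T = Dm.top := l3_supp_inf (ξ := ξ) hT
      rcases hz with ⟨h1, -⟩ | ⟨-, y, hy, hz⟩
      · exact absurd (Or.inl rfl) h1
      · have hy' : y ∈ ξ.1 := hy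
        obtain ⟨N, hN⟩ := l3_down v ξ hy'
        obtain ⟨n, hn, hzn⟩ := hz N
        have h2 : z ∈ Ddown lam .top (.V v) (y n) := hzn
        simp only [Ddown, if_neg (hN n hn).1, Dgate, (hN n hn).2] at h2
        exact h2
    · intro hz
      refine ⟨Dm.top, Finset.mem_singleton_self _, fun h => h, fun h => Dm.noConfusion h, Or.inr ⟨Or.inl rfl, ?_⟩⟩
      obtain ⟨y, hy⟩ := gbd_nonempty ξ
      refine ⟨y, hy, fun N => ?_⟩
      obtain ⟨N', hN'⟩ := l3_down v ξ hy
      refine ⟨max N N', le_max_left _ _, ?_⟩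
      obtain ⟨h1, h2⟩ := hN' (max N N') (le_max_right _ _)
      show z ∈ Ddown lam .top (.V v) (y (max N N'))
      simp only [Ddown, if_neg h1, Dgate, h2]
      exact hz
  | sig v' j' =>
    constructor
    · rintro ⟨T, hT, -, -, hz⟩
      have h1 := l3_supp_ne hq hT (Or.inl rfl)
      rcases hz with ⟨-, hz⟩ | ⟨hn, -⟩
      · have hz' : z ∈ Drho lam T (.V v) := hz
        rcases l3_supp_sig hT with rfl | rfl
        · exact hz'
        · exact hz'
      · rcases l3_supp_sig hT with rfl | rfl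
        · exact absurd hn (h1.2.2.2 (fun h => Dm.noConfusion h))
        · exact absurd hn (h1.2.2.2 (fun h => Dm.noConfusion h))
    · intro hz
      obtain ⟨T, hT⟩ := suppMB_nonempty (.sig v' j')
      obtain ⟨h1, h2, h3, h4⟩ := l3_supp_ne hq hT (Or.inl rfl)
      refine ⟨T, hT, h1, h3, Or.inl ⟨?_, ?_⟩⟩
      · rcases l3_supp_sig hT with rfl | rfl
        · exact h4 (fun h => Dm.noConfusion h)
        · exact h4 (fun h => Dm.noConfusion h)
      · show z ∈ Drho lam T (.V v)
        rcases l3_supp_sig hT with rfl | rfl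
        · exact hz
        · exact hz

theorem bproj_U (lam : Bool) (v : Wd) (q : MB) (hq : ∀ j', q ≠ .sig v j') :
    bproj (ofMB lam q) (Dm.U v) = {(kap lam (gq v q)).2} := by
  ext z
  change _ ↔ (z : ℤ) = (kap lam (gq v q)).2
  cases q with
  | inf ξ =>
    constructor
    · rintro ⟨T, hT, -, -, hz⟩
      obtain rfl : T = Dm.top := l3_supp_inf (ξ := ξ) hT
      rcases hz with ⟨h1, -⟩ | ⟨-, y, hy, hz⟩
      · exact absurd (Or.inl rfl) h1
      · have hy' : y ∈ ξ.1 := hy
        obtain ⟨N, hN⟩ := l3_down v ξ hy'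
        obtain ⟨n, hn, hzn⟩ := hz N
        have h2 : z ∈ Ddown lam .top (.U v) (y n) := hzn
        simp only [Ddown, if_neg (hN n hn).1, Dgate, (hN n hn).2] at h2
        exact h2
    · intro hz
      refine ⟨Dm.top, Finset.mem_singleton_self _, fun h => h, fun h => Dm.noConfusion h, Or.inr ⟨Or.inl rfl, ?_⟩⟩
      obtain ⟨y, hy⟩ := gbd_nonempty ξ
      refine ⟨y, hy, fun N => ?_⟩
      obtain ⟨N', hN'⟩ := l3_down v ξ hy
      refine ⟨max N N', le_max_left _ _, ?_⟩
      obtain ⟨h1, h2⟩ := hN' (max N N') (le_max_right _ _)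
      show z ∈ Ddown lam .top (.U v) (y (max N N'))
      simp only [Ddown, if_neg h1, Dgate, h2]
      exact hz
  | sig v' j' =>
    constructor
    · rintro ⟨T, hT, -, -, hz⟩
      have h1 := l3_supp_ne hq hT (Or.inr rfl)
      rcases hz with ⟨-, hz⟩ | ⟨hn, -⟩
      · have hz' : z ∈ Drho lam T (.U v) := hz
        rcases l3_supp_sig hT with rfl | rfl
        · exact hz'
        · exact hz'
      · rcases l3_supp_sig hT with rfl | rfl
        · exact absurd hn (h1.2.2.2 (fun h => Dm.noConfusion h))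
        · exact absurd hn (h1.2.2.2 (fun h => Dm.noConfusion h))
    · intro hz
      obtain ⟨T, hT⟩ := suppMB_nonempty (.sig v' j')
      obtain ⟨h1, h2, h3, h4⟩ := l3_supp_ne hq hT (Or.inr rfl)
      refine ⟨T, hT, h1, h3, Or.inl ⟨?_, ?_⟩⟩
      · rcases l3_supp_sig hT with rfl | rfl
        · exact h4 (fun h => Dm.noConfusion h)
        · exact h4 (fun h => Dm.noConfusion h)
      · show z ∈ Drho lam T (.U v)
        rcases l3_supp_sig hT with rfl | rfl
        · exact hz
        · exact hz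

theorem bproj_top (lam : Bool) (v : Wd) (j : J) :
    bproj (ofMB lam (.sig v j)) Dm.top = {v} := by
  ext z
  change _ ↔ (z : Wd) = v
  constructor
  · rintro ⟨T, hT, -, -, hz⟩
    rcases hz with ⟨-, hz⟩ | ⟨hn, -⟩
    · have hz' : z ∈ Drho lam T .top := hz
      rcases l3_supp_sig hT with rfl | rfl
      · exact hz'
      · exact hz'
    · have hn' : Dnest .top T := hn
      rcases l3_supp_sig hT with rfl | rfl
      · rcases hn' with h | h <;> exact Dm.noConfusion h
      · rcases hn' with h | h <;> exact Dm.noConfusion h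
  · intro hz
    obtain ⟨T, hT⟩ := suppMB_nonempty (.sig v j)
    refine ⟨T, hT, fun h => h, ?_, Or.inl ⟨?_, ?_⟩⟩
    · rcases l3_supp_sig hT with rfl | rfl <;> exact fun h => Dm.noConfusion h
    · intro hn
      have hn' : Dnest .top T := hn
      rcases l3_supp_sig hT with rfl | rfl <;> rcases hn' with h | h <;> exact Dm.noConfusion h
    · show z ∈ Drho lam T .top
      rcases l3_supp_sig hT with rfl | rfl
      · exact hz
      · exact hz

/-- The distance of the base point to a set, in a domain. -/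
noncomputable def l3_bd (lam : Bool) (S : Dm) (B : Set (DC S)) : ℝ :=
  sdist (DΓ S) (Dpr lam S 1) B

lemma l3_sdist {α : Type} (Γ : SimpleGraph α) (x y : α) :
    sdist Γ {x} {y} = Γ.dist x y := by
  unfold sdist
  have h : {n | ∃ a ∈ ({x} : Set α), ∃ b ∈ ({y} : Set α), Γ.dist a b = n} = {Γ.dist x y} := by
    ext n
    simp [eq_comm]
  rw [h, csInf_singleton]

lemma l3_bd_V (lam : Bool) (v : Wd) (u : F × ℤ) :
    l3_bd lam (.V v) {u.1} = dV (ub lam v) u := by
  unfold l3_bd dV
  exact congrArg Nat.cast (l3_sdist TF _ _)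

lemma l3_bd_U (lam : Bool) (v : Wd) (u : F × ℤ) :
    l3_bd lam (.U v) {u.2} = dU (ub lam v) u := by
  unfold l3_bd dU
  exact congrArg Nat.cast (l3_sdist ZL _ _)

lemma l3_core (lam : Bool) (v : Wd) (j : J) (o : (D : Dm) → DC D) (R ε : ℝ) (u : F × ℤ)
    (A : (D : Dm) → Set (DC D)) (hV : A (.V v) = {u.1}) (hU : A (.U v) = {u.2}) :
    ((∀ S (hS : S ∈ suppMB (.sig v j)), ∀ z ∈ A S, z ∈ near (o S) R (ptMB (.sig v j) S hS)) ∧
      (∀ S ∈ suppMB (.sig v j), ∀ S' ∈ suppMB (.sig v j),
        |l3_bd lam S (A S) / l3_bd lam S' (A S') - wtMB (.sig v j) S / wtMB (.sig v j) S'| < ε) ∧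
      (∀ S ∈ suppMB (.sig v j), ∀ T : Dm, (∀ S' ∈ suppMB (.sig v j), Dorth T S') →
        l3_bd lam T (A T) / l3_bd lam S (A S) < ε)) ↔
    LitJ (ub lam v) (o (.V v)) (o (.U v)) R ε j u := by
  have eV : l3_bd lam (.V v) (A (.V v)) = dV (ub lam v) u := by rw [hV, l3_bd_V]
  have eU : l3_bd lam (.U v) (A (.U v)) = dU (ub lam v) u := by rw [hU, l3_bd_U]
  have memV : u.1 ∈ A (.V v) := by rw [hV]; exact rfl
  have memU : u.2 ∈ A (.U v) := by rw [hU]; exact rfl
  have memV' : ∀ z ∈ A (.V v), z = u.1 := by intro z hz; rw [hV] at hz; exact hz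
  have memU' : ∀ z ∈ A (.U v), z = u.2 := by intro z hz; rw [hU] at hz; exact hz
  cases j with
  | pole s =>
    have hs : Dm.U v ∈ suppMB (.sig v (.pole s)) := by simp [suppMB]
    have hs' : ∀ D ∈ suppMB (.sig v (.pole s)), D = Dm.U v := by
      intro D hD; simpa [suppMB] using hD
    have hw : wtMB (.sig v (.pole s)) (.U v) = 1 := by
      simp only [wtMB, if_true, J.ht]
      cases s <;> simp [sg]
    constructor
    · rintro ⟨h1, h2, h3⟩
      have h2' := h2 _ hs _ hs
      rw [eU, hw, div_one] at h2'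
      have h3' := h3 _ hs (.V v) (by
        intro S' hS'
        rw [hs' S' hS']
        exact rfl)
      rw [eV, eU] at h3'
      exact ⟨h1 _ hs _ memU, h2', h3'⟩
    · rintro ⟨h1, h2, h3⟩
      refine ⟨?_, ?_, ?_⟩
      · intro S hS z hz
        obtain rfl := hs' S hS
        rw [memU' z hz]
        exact h1
      · intro S hS S' hS'
        obtain rfl := hs' S hS
        obtain rfl := hs' S' hS'
        rw [eU, hw, div_one]
        exact h2
      · intro S hS T hT
        obtain rfl := hs' S hS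
        have hT' : Dorth T (.U v) := hT _ hs
        cases T with
        | top => exact hT'.elim
        | V v' =>
          have e : v' = v := hT'
          subst e
          rw [eV, eU]
          exact h3
        | U v' => exact hT'.elim
  | mer ξ t =>
    by_cases ht : t.1 = 0
    · have hs : Dm.V v ∈ suppMB (.sig v (.mer ξ t)) := by simp [suppMB, ht]
      have hs' : ∀ D ∈ suppMB (.sig v (.mer ξ t)), D = Dm.V v := by
        intro D hD; simpa [suppMB, ht] using hD
      have hw : wtMB (.sig v (.mer ξ t)) (.V v) = 1 := by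
        simp [wtMB, J.ht, ht]
      have e : LitJ (ub lam v) (o (.V v)) (o (.U v)) R ε (.mer ξ t) u ↔
          (u.1 ∈ near (Γ := TF) (o (.V v)) R ξ ∧
            abs (dV (ub lam v) u / dV (ub lam v) u - 1) < ε ∧
            dU (ub lam v) u / dV (ub lam v) u < ε) := by
        simp only [LitJ, ht, if_true]
      rw [e]
      constructor
      · rintro ⟨h1, h2, h3⟩
        have h2' := h2 _ hs _ hs
        rw [eV, hw, div_one] at h2'
        have h3' := h3 _ hs (.U v) (by
          intro S' hS'
          rw [hs' S' hS']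
          exact rfl)
        rw [eV, eU] at h3'
        exact ⟨h1 _ hs _ memV, h2', h3'⟩
      · rintro ⟨h1, h2, h3⟩
        refine ⟨?_, ?_, ?_⟩
        · intro S hS z hz
          obtain rfl := hs' S hS
          rw [memV' z hz]
          exact h1
        · intro S hS S' hS'
          obtain rfl := hs' S hS
          obtain rfl := hs' S' hS'
          rw [eV, hw, div_one]
          exact h2
        · intro S hS T hT
          obtain rfl := hs' S hS
          have hT' : Dorth T (.V v) := hT _ hs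
          cases T with
          | top => exact hT'.elim
          | V v' => exact hT'.elim
          | U v' =>
            have e : v' = v := hT'
            subst e
            rw [eV, eU]
            exact h3
    · have hsV : Dm.V v ∈ suppMB (.sig v (.mer ξ t)) := by simp [suppMB, ht]
      have hsU : Dm.U v ∈ suppMB (.sig v (.mer ξ t)) := by simp [suppMB, ht]
      have hs' : ∀ D ∈ suppMB (.sig v (.mer ξ t)), D = Dm.V v ∨ D = Dm.U v := by
        intro D hD; simpa [suppMB, ht] using hD
      have hwV : wtMB (.sig v (.mer ξ t)) (.V v) = 1 - |t.1| := by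
        simp [wtMB, J.ht]
      have hwU : wtMB (.sig v (.mer ξ t)) (.U v) = |t.1| := by
        simp [wtMB, J.ht]
      have ht0 : |t.1| ≠ 0 := abs_ne_zero.2 ht
      have ht1 : 1 - |t.1| ≠ 0 := by
        have h := t.2
        have : |t.1| < 1 := abs_lt.2 ⟨h.1, h.2⟩
        linarith
      have e : LitJ (ub lam v) (o (.V v)) (o (.U v)) R ε (.mer ξ t) u ↔
          (u.1 ∈ near (Γ := TF) (o (.V v)) R ξ ∧
            u.2 ∈ near (Γ := ZL) (o (.U v)) R (zinf (decide (0 < t.1))) ∧
            abs (dV (ub lam v) u / dV (ub lam v) u - 1) < ε ∧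
            abs (dU (ub lam v) u / dU (ub lam v) u - 1) < ε ∧
            abs (dV (ub lam v) u / dU (ub lam v) u - (1 - |t.1|) / |t.1|) < ε ∧
            abs (dU (ub lam v) u / dV (ub lam v) u - |t.1| / (1 - |t.1|)) < ε) := by
        simp only [LitJ, ht, if_false]
      rw [e]
      constructor
      · rintro ⟨h1, h2, h3⟩
        have a1 := h2 _ hsV _ hsV
        have a2 := h2 _ hsU _ hsU
        have a3 := h2 _ hsV _ hsU
        have a4 := h2 _ hsU _ hsV
        rw [eV, hwV, div_self ht1] at a1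
        rw [eU, hwU, div_self ht0] at a2
        rw [eV, eU, hwV, hwU] at a3 a4
        exact ⟨h1 _ hsV _ memV, h1 _ hsU _ memU, a1, a2, a3, a4⟩
      · rintro ⟨h1, h1', a1, a2, a3, a4⟩
        refine ⟨?_, ?_, ?_⟩
        · intro S hS z hz
          rcases hs' S hS with rfl | rfl
          · rw [memV' z hz]
            exact h1
          · rw [memU' z hz]
            exact h1'
        · intro S hS S' hS'
          rcases hs' S hS with rfl | rfl <;> rcases hs' S' hS' with rfl | rfl
          · rw [eV, hwV, div_self ht1]; exact a1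
          · rw [eV, eU, hwV, hwU]; exact a3
          · rw [eV, eU, hwV, hwU]; exact a4
          · rw [eU, hwU, div_self ht0]; exact a2
        · intro S hS T hT
          exfalso
          have hT1 : Dorth T (.V v) := hT _ hsV
          have hT2 : Dorth T (.U v) := hT _ hsU
          cases T with
          | top => exact hT1
          | V v' => exact hT1
          | U v' => exact hT2

theorem rem_iff (lam : Bool) (v : Wd) (j : J) (o : (D : Dm) → DC D) (R ε : ℝ) (hε : 0 < ε)
    (q : MB) (hq : ∀ j', q ≠ .sig v j') :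
    ofMB lam q ∈ remNhd 1 (ofMB lam (.sig v j)) o R ε ↔
      LitJ (ub lam v) (o (.V v)) (o (.U v)) R ε j (kap lam (gq v q)) := by
  rw [← l3_core lam v j o R ε (kap lam (gq v q)) (bproj (ofMB lam q)) (bproj_V lam v q hq)
    (bproj_U lam v q hq)]
  have hperp : ∀ T : Dm, Perp (ofMB lam (.sig v j)) T → l3At v T := by
    intro T hT
    obtain ⟨S, hS⟩ := suppMB_nonempty (.sig v j)
    have h1 : Dorth T S := hT S hS
    rcases l3_supp_sig hS with rfl | rfl
    · cases T with
      | top => exact h1.elim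
      | V v' => exact h1.elim
      | U v' =>
        have e : v' = v := h1
        subst e
        exact Or.inr rfl
    · cases T with
      | top => exact h1.elim
      | V v' =>
        have e : v' = v := h1
        subst e
        exact Or.inl rfl
      | U v' => exact h1.elim
  constructor
  · rintro ⟨-, h1, -, h2, h3⟩
    refine ⟨h1, h2, fun S hS T hT => ?_⟩
    have hat := hperp T hT
    obtain ⟨W, hW⟩ := suppMB_nonempty q
    exact h3 S hS T hT (fun h => (l3_supp_ne hq h hat).2.2.1 rfl)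
      ⟨W, hW, (l3_supp_ne hq hW hat).1⟩
  · rintro ⟨h1, h2, h3⟩
    refine ⟨remote_sig lam v j q hq, h1, ?_, h2, fun S hS T hT _ _ => h3 S hS T hT⟩
    classical
    refine lt_of_eq_of_lt (Finset.sum_eq_zero fun T hT => ?_) hε
    have hT' := Finset.mem_filter.1 hT
    exact absurd rfl (l3_supp_ne hq hT'.1 (hperp T hT'.2)).2.2.1

theorem int_iff (lam : Bool) (v : Wd) (j : J) (o : (D : Dm) → DC D) (R ε : ℝ) (x : GA) :
    x ∈ intNhd 1 (ofMB lam (.sig v j)) o R ε ↔
      LitJ (ub lam v) (o (.V v)) (o (.U v)) R ε j (kap lam (pg (frame v) x)) :=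
  l3_core lam v j o R ε (kap lam (pg (frame v) x)) (fun D => Dpr lam D x) rfl rfl

/-- The gate at `v` is nearly constant near the points which are not over `v`. -/
private lemma lit3_gate (lam : Bool) (v : Wd) (q : MB) (hq : ∀ j', q ≠ .sig v j') :
    Tr lam q {h | ∃ i : ℤ, |i| ≤ 1 ∧ pg (frame v) h = gq v q * cP ^ i} := by
  cases q with
  | inf ξ =>
    obtain ⟨R, hR⟩ := (inf_gate (frame v) ξ).choose_spec
    refine ⟨R, fun h hh => ⟨0, by norm_num, ?_⟩⟩
    obtain ⟨h1, h2⟩ := hR _ hh
    rw [pg_of_ne h1, h2, zpow_zero, mul_one]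
    rfl
  | sig v' j' =>
    have hv : v' ≠ frame v • v0 := by
      rw [frame_smul]
      rintro rfl
      exact hq j' rfl
    exact Tr_sig_ne lam v' j' (frame v) hv

private lemma lit3_dist (lam : Bool) (p : P) (i : ℤ) (hi : |i| ≤ 1) :
    TF.dist (kap lam p).1 (kap lam (p * cP ^ i)).1 ≤ 1 ∧
      |(kap lam p).2 - (kap lam (p * cP ^ i)).2| ≤ 1 := by
  rw [kap_mul, kap_cP_zpow]
  constructor
  · rw [TF_dist, inv_mul_cancel_left]
    rcases abs_le.1 hi with ⟨h1, h2⟩
    have h3 : i = -1 ∨ i = 0 ∨ i = 1 := by omega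
    rcases h3 with rfl | rfl | rfl
    · rw [_root_.zpow_neg_one, FreeGroup.norm_inv_eq, FreeGroup.norm_of]
    · rw [zpow_zero, FreeGroup.norm_one]
      exact Nat.zero_le _
    · rw [zpow_one, FreeGroup.norm_of]
  · have h1 : (kap lam p).2 - ((kap lam p).2 + lv lam * i) = -(lv lam * i) := by ring
    change |(kap lam p).2 - ((kap lam p).2 + lv lam * i)| ≤ 1
    rw [h1, abs_neg]
    cases lam
    · simp [lv]
    · simpa [lv] using hi

theorem Tr_of_gq (lam : Bool) (v : Wd) (j : J) (R : ℕ) : ∃ R' : ℕ, ∀ q : MB,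
    (∀ j', q ≠ .sig v j') → InJ R' j (kap lam (gq v q)) →
      Tr lam q {h | InJ R j (kap lam (pg (frame v) h))} := by
  obtain ⟨R', hR'⟩ := InJ_coarse j R 1
  refine ⟨R', fun q hq h => (Tr_isTrace lam).mono _ _ _ ?_ (lit3_gate lam v q hq)⟩
  rintro x ⟨i, hi, hx⟩
  have hd := lit3_dist lam (gq v q) i hi
  change InJ R j (kap lam (pg (frame v) x))
  rw [hx]
  exact hR' _ _ h hd.1 (by exact_mod_cast hd.2)

theorem gq_of_Tr (lam : Bool) (v : Wd) (j : J) (R : ℕ) : ∃ R' : ℕ, ∀ q : MB,
    (∀ j', q ≠ .sig v j') → Tr lam q {h | InJ R' j (kap lam (pg (frame v) h))} →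
      InJ R j (kap lam (gq v q)) := by
  obtain ⟨R', hR'⟩ := InJ_coarse j R 1
  refine ⟨R', fun q hq h => ?_⟩
  have h1 := (Tr_isTrace lam).inter _ _ _ h (lit3_gate lam v q hq)
  obtain ⟨x, hx1, i, hi, hx2⟩ : ({h | InJ R' j (kap lam (pg (frame v) h))} ∩
      {h | ∃ i : ℤ, |i| ≤ 1 ∧ pg (frame v) h = gq v q * cP ^ i}).Nonempty := by
    rw [Set.nonempty_iff_ne_empty]
    intro h2
    rw [h2] at h1
    exact (Tr_isTrace lam).ne q h1
  have hd := lit3_dist lam (gq v q) i hi
  have hx1' : InJ R' j (kap lam (pg (frame v) x)) := hx1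
  rw [hx2] at hx1'
  refine hR' _ _ hx1' ?_ ?_
  · rw [SimpleGraph.dist_comm]
    exact hd.1
  · rw [abs_sub_comm]
    exact_mod_cast hd.2

end Pool.Agent.Helper77.HB
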