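import Pool.Agent.Helper77.HB.Lit1
import Pool.Agent.Helper77.HB.Lit3

/-!
# The traces of the neighbourhoods of the boundary points
-/

namespace Pool.Agent.Helper77.HB

open Matrix OnePoint

/-- The distance of two singletons. -/
private lemma Lit4_sdist_singleton {α : Type} (Γ : SimpleGraph α) (a b : α) :
    sdist Γ {a} {b} = Γ.dist a b := by
  have h : {n | ∃ a' ∈ ({a} : Set α), ∃ b' ∈ ({b} : Set α), Γ.dist a' b' = n} =
      {Γ.dist a b} := by
    ext n
    constructor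
    · rintro ⟨a', ha', b', hb', h⟩
      rw [Set.mem_singleton_iff] at ha' hb'
      subst ha' hb'
      exact h.symm
    · intro h
      rw [Set.mem_singleton_iff] at h
      exact ⟨a, rfl, b, rfl, h.symm⟩
  rw [sdist, h]
  exact csInf_singleton _

private lemma Lit4_bdist (lam : Bool) (h : GA) :
    bdist (H := (HH lam).toHHS) (1 : GA) Dm.top ((HH lam).toHHS.pr Dm.top h) =
      (Gr.dist v0 (h • v0) : ℝ) := by
  have h1 : bdist (H := (HH lam).toHHS) (1 : GA) Dm.top ((HH lam).toHHS.pr Dm.top h) =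
      (sdist Gr {(1 : GA) • v0} {h • v0} : ℝ) := rfl
  rw [h1, Lit4_sdist_singleton, one_smul]

private lemma Lit4_int_inf (lam : Bool) (ξ : GBd Gr) (o : (D : Dm) → DC D) (R ε : ℝ) (h : GA) :
    h ∈ intNhd (H := (HH lam).toHHS) (1 : GA) (ofMB lam (.inf ξ)) o R ε ↔
      (h • v0 ∈ near (Γ := Gr) (o Dm.top) R ξ ∧
        |(Gr.dist v0 (h • v0) : ℝ) / Gr.dist v0 (h • v0) - 1| < ε) := by
  constructor
  · rintro ⟨h1, h2, _⟩
    have hS : Dm.top ∈ (ofMB lam (.inf ξ)).supp := by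
      change Dm.top ∈ suppMB (.inf ξ)
      simp [suppMB]
    have a1 := h1 Dm.top hS (h • v0) rfl
    have a2 := h2 Dm.top hS Dm.top hS
    rw [Lit4_bdist] at a2
    have a3 : (ofMB lam (.inf ξ)).wt Dm.top = 1 := rfl
    rw [a3, div_one] at a2
    exact ⟨a1, a2⟩
  · rintro ⟨h1, h2⟩
    have hsupp : ∀ S, S ∈ (ofMB lam (.inf ξ)).supp → S = Dm.top := by
      intro S hS
      have h3 : (S : Dm) ∈ ({Dm.top} : Finset Dm) := hS
      exact Finset.mem_singleton.1 h3
    refine ⟨?_, ?_, ?_⟩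
    · intro S hS z hz
      have := hsupp S hS
      subst this
      have hz' : z = h • v0 := hz
      rw [hz']
      exact h1
    · intro S hS S' hS'
      have e1 := hsupp S hS
      have e2 := hsupp S' hS'
      subst e1 e2
      have a3 : (ofMB lam (.inf ξ)).wt Dm.top = 1 := rfl
      rw [Lit4_bdist, a3, div_one]
      exact h2
    · intro S hS T hT
      exfalso
      have := hsupp S hS
      subst this
      have h3 : Dorth T Dm.top := hT Dm.top hS
      cases T <;> exact h3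

theorem ofMB_tr_inf (lam : Bool) (ξ : GBd Gr) (B : Set GA) :
    InNhd 1 (ofMB lam (.inf ξ)) B ↔ Tr lam (.inf ξ) B := by
  constructor
  · rintro ⟨o, R, ε, hε, hB⟩
    obtain ⟨R', hR'⟩ := exists_nat_ge (max (R + Gr.dist v0 (o Dm.top)) 1)
    refine ⟨R', fun h hh => hB ((Lit4_int_inf lam ξ o R ε h).2 ⟨?_, ?_⟩)⟩
    · exact near_base Gr_connected v0 (o Dm.top) R ξ
        (near_mono ((le_max_left _ _).trans hR') ξ hh)
    · have h1 := near_dist Gr_connected hh
      have h2 : (1 : ℝ) ≤ Gr.dist v0 (h • v0) := ((le_max_right _ _).trans hR').trans h1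
      rw [div_self (by linarith), sub_self, abs_zero]
      exact hε
  · rintro ⟨R, hR⟩
    refine ⟨oStd, R, 1, one_pos, fun h hh => hR h ?_⟩
    exact ((Lit4_int_inf lam ξ oStd R 1 h).1 hh).1

theorem ofMB_tr_sig (lam : Bool) (v : Wd) (j : J) (B : Set GA) :
    InNhd 1 (ofMB lam (.sig v j)) B ↔ Tr lam (.sig v j) B := by
  constructor
  · rintro ⟨o, R, ε, hε, hB⟩
    obtain ⟨R', hR'⟩ := lit_of_InJ (ub lam v) (o (.V v)) (o (.U v)) R ε hε j
    exact ⟨R', fun h hh => hB ((int_iff lam v j o R ε h).2 (hR' _ hh))⟩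
  · rintro ⟨R', hR'⟩
    obtain ⟨R₀, ε₀, hε₀, h0⟩ := InJ_of_lit (ub lam v) j R'
    refine ⟨oStd, R₀, ε₀, hε₀, fun h hh => hR' h ?_⟩
    exact h0 R₀ le_rfl ε₀ le_rfl _ ((int_iff lam v j oStd R₀ ε₀ h).1 hh)

theorem ofMB_tr (lam : Bool) (q : MB) (B : Set GA) :
    InNhd 1 (ofMB lam q) B ↔ Tr lam q B := by
  cases q with
  | inf ξ => exact ofMB_tr_inf lam ξ B
  | sig v j => exact ofMB_tr_sig lam v j B

end Pool.Agent.Helper77.HB
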