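import Pool.Agent.Helper77.HB.Lit2
import Pool.Agent.Helper77.HB.Lit4

/-!
# The literal topology
-/

namespace Pool.Agent.Helper77.HB

open Matrix OnePoint

private theorem lit5_top_of (ξ : GBd Gr) {S : Dm} (hS : S ∈ suppMB (.inf ξ)) : S = Dm.top := by
  simpa [suppMB] using hS

private theorem lit5_top_mem (ξ : GBd Gr) : Dm.top ∈ suppMB (.inf ξ) := by
  simp [suppMB]

private theorem lit5_top_not (v : Wd) (j : J) : Dm.top ∉ suppMB (.sig v j) := by
  cases j with
  | pole s => simp [suppMB]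
  | mer ξ t =>
    by_cases ht : t.1 = 0 <;> simp [suppMB, ht]

private theorem lit5_not_orth (T : Dm) : ¬ Dorth T .top := by
  cases T <;> simp [Dorth]

private theorem lit5_not_orth' (T : Dm) : ¬ Dorth .top T := by
  cases T <;> simp [Dorth]

private theorem lit5_perp (lam : Bool) (ξ : GBd Gr) (T : Dm) :
    ¬ Perp (ofMB lam (.inf ξ)) T := by
  intro h
  exact lit5_not_orth T (h Dm.top (lit5_top_mem ξ))

private theorem lit5_remote (lam : Bool) (ξ : GBd Gr) (v : Wd) (j : J) :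
    Remote (ofMB lam (.inf ξ)) (ofMB lam (.sig v j)) := by
  refine ⟨?_, ?_⟩
  · intro T hT hT'
    have h1 : T = Dm.top := lit5_top_of ξ hT'
    subst h1
    exact lit5_top_not v j hT
  · intro S hS
    have h1 : S = Dm.top := lit5_top_of ξ hS
    subst h1
    obtain ⟨T, hT⟩ := suppMB_nonempty (.sig v j)
    exact ⟨T, hT, lit5_not_orth' T⟩

private theorem lit5_not_remote (lam : Bool) (ξ η : GBd Gr) :
    ¬ Remote (ofMB lam (.inf ξ)) (ofMB lam (.inf η)) := by
  rintro ⟨h, -⟩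
  exact h Dm.top (lit5_top_mem η) (lit5_top_mem ξ)

private theorem lit5_sdist {α : Type} (Γ : SimpleGraph α) (a b : α) :
    sdist Γ {a} {b} = Γ.dist a b := by
  unfold sdist
  have h : {n | ∃ a' ∈ ({a} : Set α), ∃ b' ∈ ({b} : Set α), Γ.dist a' b' = n} =
      {Γ.dist a b} := by
    ext n
    simp only [Set.mem_singleton_iff, exists_eq_left]
    exact eq_comm
  rw [h]
  exact csInf_singleton _

private theorem lit5_rem (lam : Bool) (ξ : GBd Gr) (v : Wd) (j : J) (o : (D : Dm) → DC D)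
    (R ε : ℝ) (hε : 0 < ε) (hv : v ∈ near (Γ := Gr) (o .top) R ξ) (hd : Gr.dist v0 v ≠ 0) :
    ofMB lam (.sig v j) ∈ remNhd 1 (ofMB lam (.inf ξ)) o R ε := by
  classical
  refine ⟨lit5_remote lam ξ v j, ?_, ?_, ?_, ?_⟩
  · intro S hS z hz
    have h1 : S = Dm.top := lit5_top_of ξ hS
    subst h1
    rw [bproj_top] at hz
    have h2 : z = v := hz
    subst h2
    exact hv
  · have h1 : (ofMB lam (.sig v j)).supp.filter
        (fun T => Perp (ofMB lam (.inf ξ)) T) = ∅ := by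
      apply Finset.filter_false_of_mem
      intro T _
      exact lit5_perp lam ξ T
    have h2 : ∑ T ∈ (ofMB lam (.sig v j)).supp.filter
        (fun T => Perp (ofMB lam (.inf ξ)) T), (ofMB lam (.sig v j)).wt T = 0 := by
      rw [h1, Finset.sum_empty]
    convert hε using 1
  · intro S hS S' hS'
    have h1 : S = Dm.top := lit5_top_of ξ hS
    have h1' : S' = Dm.top := lit5_top_of ξ hS'
    subst h1
    subst h1'
    rw [bproj_top]
    have h2 : bdist (H := (HH lam).toHHS) (1 : GA) Dm.top {v} = (Gr.dist v0 v : ℝ) := by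
      have h3 : bdist (H := (HH lam).toHHS) (1 : GA) Dm.top {v} =
          (sdist Gr ({(1 : GA) • v0} : Set Wd) {v} : ℝ) := rfl
      rw [h3, lit5_sdist, one_smul]
    have h4 : (Gr.dist v0 v : ℝ) ≠ 0 := by exact_mod_cast hd
    have h5 : (ofMB lam (.inf ξ)).wt Dm.top = 1 := rfl
    rw [h2, h5, div_self h4]
    simpa using hε
  · intro S hS T hT
    exact absurd hT (lit5_perp lam ξ T)

theorem lit_inf1 (lam : Bool) (ξ : GBd Gr) (o : (D : Dm) → DC D) (R ε : ℝ) (hε : 0 < ε) :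
    ∃ B, Tr lam (.inf ξ) B ∧ ∀ q, Tr lam q B → ofMB lam q ∈
      remNhd 1 (ofMB lam (.inf ξ)) o R ε ∪ nonNhd (ofMB lam (.inf ξ)) o R ε := by
  classical
  obtain ⟨C, hC0, hC⟩ := nearBd_of_near Gr_hyp
  obtain ⟨R', hR'⟩ := exists_nat_ge (max (R + C + Gr.dist v0 (o .top)) 1)
  have hR1 : R + C + Gr.dist v0 (o .top) ≤ (R' : ℝ) := (le_max_left _ _).trans hR'
  have hR2 : (1 : ℝ) ≤ (R' : ℝ) := (le_max_right _ _).trans hR'
  have hbase : ∀ x, x ∈ near (Γ := Gr) v0 (R' : ℝ) ξ → x ∈ near (Γ := Gr) (o .top) (R + C) ξ :=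
    fun x hx => near_base Gr_connected v0 (o .top) (R + C) ξ (near_mono hR1 ξ hx)
  refine ⟨{h | h • v0 ∈ near (Γ := Gr) v0 (R' : ℝ) ξ}, ⟨R', fun h hh => hh⟩, ?_⟩
  intro q hq
  cases q with
  | sig v j =>
    left
    obtain ⟨R1, hR1'⟩ := hq
    obtain ⟨u, hu⟩ := InJ_ne R1 j
    have h1 : v ∈ near (Γ := Gr) v0 (R' : ℝ) ξ := by
      have h2 := hR1' (frame v * iP (kapInv lam u)) (by rw [pg_iP, kap_kapInv]; exact hu)
      have h3 : (frame v * iP (kapInv lam u)) • v0 = v := by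
        rw [mul_smul, iP_smul_v0, frame_smul]
      rw [Set.mem_setOf_eq, h3] at h2
      exact h2
    refine lit5_rem lam ξ v j o R ε hε (near_mono (by linarith) ξ (hbase v h1)) ?_
    have h4 := near_dist Gr_connected h1
    intro h5
    rw [h5] at h4
    push_cast at h4
    linarith
  | inf η =>
    right
    obtain ⟨R1, hR1'⟩ := hq
    obtain ⟨y, hy⟩ := gbd_nonempty η
    obtain ⟨N, hN⟩ := near_seq hy v0 (max (R1 : ℝ) (R + C + Gr.dist v0 (o .top)))
    have h1 := hN N le_rfl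
    have h2 : y N ∈ near (Γ := Gr) v0 (R' : ℝ) ξ := by
      have h3 := hR1' (frame (y N)) (by
        rw [frame_smul]; exact near_mono (le_max_left _ _) η h1)
      rw [Set.mem_setOf_eq, frame_smul] at h3
      exact h3
    have h3 : y N ∈ near (Γ := Gr) (o .top) (R + C) η :=
      near_base Gr_connected v0 (o .top) (R + C) η (near_mono (le_max_right _ _) η h1)
    have h4 : η ∈ nearBd (o .top) R ξ := hC (o .top) R ξ η (y N) (hbase _ h2) h3
    refine ⟨lit5_not_remote lam ξ η, ?_, ?_, ?_⟩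
    · intro T hT hT'
      have h5 : T = Dm.top := lit5_top_of ξ hT
      subst h5
      exact h4
    · intro T hT hT'
      have h5 : T = Dm.top := lit5_top_of ξ hT
      subst h5
      have h6 : (ofMB lam (.inf ξ)).wt Dm.top = 1 := rfl
      have h7 : (ofMB lam (.inf η)).wt Dm.top = 1 := rfl
      rw [h6, h7]
      simpa using hε
    · have h5 : (ofMB lam (.inf η)).supp.filter
          (fun V => V ∉ (ofMB lam (.inf ξ)).supp) = ∅ := by
        apply Finset.filter_false_of_mem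
        intro T hT hT'
        have h6 : T = Dm.top := lit5_top_of η hT
        subst h6
        exact hT' (lit5_top_mem ξ)
      have h6 : ∑ V ∈ (ofMB lam (.inf η)).supp.filter
          (fun V => V ∉ (ofMB lam (.inf ξ)).supp), (ofMB lam (.inf η)).wt V = 0 := by
        rw [h5, Finset.sum_empty]
      convert hε using 1

theorem lit_inf2 (lam : Bool) (ξ : GBd Gr) (B : Set GA) (hB : Tr lam (.inf ξ) B) :
    ∃ (o : (D : Dm) → DC D) (R ε : ℝ), 0 < ε ∧ ∀ q, ofMB lam q ∈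
      remNhd 1 (ofMB lam (.inf ξ)) o R ε ∪ nonNhd (ofMB lam (.inf ξ)) o R ε → Tr lam q B := by
  obtain ⟨R1, hR1⟩ := Tr_inf_sig lam ξ B hB
  obtain ⟨R2, hR2⟩ := hB
  obtain ⟨C, hC0, hC⟩ := near_of_nearBd Gr_hyp
  refine ⟨oStd, max (R1 : ℝ) ((R2 : ℝ) + C), 1, one_pos, ?_⟩
  intro q hq
  cases q with
  | sig v j =>
    rcases hq with hq | hq
    · have h1 := hq.2.1 Dm.top (lit5_top_mem ξ) v (by rw [bproj_top]; rfl)
      exact hR1 v (near_mono (le_max_left _ _) ξ h1) j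
    · exact absurd (lit5_remote lam ξ v j) hq.1
  | inf η =>
    rcases hq with hq | hq
    · exact absurd hq.1 (lit5_not_remote lam ξ η)
    · have h1 : η ∈ nearBd (Γ := Gr) v0 (max (R1 : ℝ) ((R2 : ℝ) + C)) ξ :=
        hq.2.1 Dm.top (lit5_top_mem ξ) (lit5_top_mem η)
      have h2 : η ∈ nearBd (Γ := Gr) v0 ((R2 : ℝ) + C) ξ := by
        obtain ⟨y, hy, z, hz, N, hN⟩ := h1
        exact ⟨y, hy, z, hz, N, fun m hm n hn => (le_max_right _ _).trans (hN m hm n hn)⟩
      have h3 := hC v0 (R2 : ℝ) ξ η h2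
      obtain ⟨R3, hR3⟩ := exists_nat_ge ((R2 : ℝ) + C)
      exact ⟨R3, fun h hh => hR2 h (h3 (near_mono hR3 η hh))⟩

/-- From the trace of `sig v j'` to the trace of `j'`. -/
private lemma TrJ_of_Tr (lam : Bool) (v : Wd) (j' : J) (S : Set (F × ℤ))
    (h : Tr lam (.sig v j') {h | kap lam (pg (frame v) h) ∈ S}) : TrJ j' S := by
  obtain ⟨R, hR⟩ := h
  refine ⟨R, fun u hu => ?_⟩
  have h1 := hR (frame v * iP (kapInv lam u)) (by rw [pg_iP, kap_kapInv]; exact hu)
  have h2 : kap lam (pg (frame v) (frame v * iP (kapInv lam u))) ∈ S := h1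
  rw [pg_iP, kap_kapInv] at h2
  exact h2

theorem lit_sig1 (lam : Bool) (v : Wd) (j : J) (o : (D : Dm) → DC D) (R ε : ℝ) (hε : 0 < ε) :
    ∃ B, Tr lam (.sig v j) B ∧ ∀ q, Tr lam q B → ofMB lam q ∈
      remNhd 1 (ofMB lam (.sig v j)) o R ε ∪ nonNhd (ofMB lam (.sig v j)) o R ε := by
  obtain ⟨R1, hR1⟩ := lit_of_InJ (ub lam v) (o (.V v)) (o (.U v)) R ε hε j
  obtain ⟨R2, hR2⟩ := gq_of_Tr lam v j R1
  obtain ⟨R3, hR3⟩ := non_of_Tr lam v j o R ε hε
  refine ⟨{h | InJ R2 j (kap lam (pg (frame v) h))} ∩ {h | InJ R3 j (kap lam (pg (frame v) h))},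
    (Tr_isTrace lam).inter _ _ _ ⟨R2, fun h hh => hh⟩ ⟨R3, fun h hh => hh⟩, fun q hq => ?_⟩
  by_cases hv : ∃ j', q = .sig v j'
  · obtain ⟨j', rfl⟩ := hv
    refine Or.inr (hR3 j' ?_)
    exact TrJ_of_Tr lam v j' {u | InJ R3 j u}
      ((Tr_isTrace lam).mono _ _ _ Set.inter_subset_right hq)
  · have hv' : ∀ j', q ≠ .sig v j' := fun j' h => hv ⟨j', h⟩
    refine Or.inl ((rem_iff lam v j o R ε hε q hv').2 (hR1 _ (hR2 q hv' ?_)))
    exact (Tr_isTrace lam).mono _ _ _ Set.inter_subset_left hq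

theorem lit_sig2 (lam : Bool) (v : Wd) (j : J) (B : Set GA) (hB : Tr lam (.sig v j) B) :
    ∃ (o : (D : Dm) → DC D) (R ε : ℝ), 0 < ε ∧ ∀ q, ofMB lam q ∈
      remNhd 1 (ofMB lam (.sig v j)) o R ε ∪ nonNhd (ofMB lam (.sig v j)) o R ε →
        Tr lam q B := by
  obtain ⟨R', hR'⟩ := hB
  obtain ⟨R1, hR1⟩ := Tr_of_gq lam v j R'
  obtain ⟨R2, ε2, hε2, hR2⟩ := InJ_of_lit (ub lam v) j R1
  obtain ⟨R3, ε3, hε3, hR3⟩ := Tr_of_non lam v j R'
  have hε : 0 < min ε2 ε3 := lt_min hε2 hε3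
  refine ⟨oStd, max R2 R3, min ε2 ε3, hε, fun q hq => ?_⟩
  by_cases hv : ∃ j', q = .sig v j'
  · obtain ⟨j', rfl⟩ := hv
    rcases hq with hq | hq
    · exact absurd hq.1 (not_remote_sig lam v j j')
    · obtain ⟨R4, hR4⟩ := hR3 _ (le_max_right _ _) _ (min_le_right _ _) j' hq
      exact ⟨R4, fun h hh => hR' h (hR4 _ hh)⟩
  · have hv' : ∀ j', q ≠ .sig v j' := fun j' h => hv ⟨j', h⟩
    rcases hq with hq | hq
    · have h1 := (rem_iff lam v j oStd _ _ hε q hv').1 hq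
      have h2 := hR1 q hv' (hR2 _ (le_max_left _ _) _ (min_le_left _ _) _ h1)
      exact (Tr_isTrace lam).mono _ _ _ (fun h hh => hR' h hh) h2
    · exact absurd (remote_sig lam v j q hv') hq.1

/-- The boundary with the literal topology is homeomorphic to the model. -/
theorem dhs_homeo (lam : Bool) :
    Nonempty (@Homeomorph MB (BPt (HH lam).toHHS) (mbTop lam) (dhsTop (HH lam).toHHS 1)) := by
  have l1 : ∀ (p : MB) (o : (D : Dm) → DC D) (R ε : ℝ), 0 < ε →
      ∃ B, Tr lam p B ∧ ∀ q, Tr lam q B → ofMB lam q ∈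
        remNhd 1 (ofMB lam p) o R ε ∪ nonNhd (ofMB lam p) o R ε := by
    intro p o R ε hε
    cases p with
    | inf ξ => exact lit_inf1 lam ξ o R ε hε
    | sig v j => exact lit_sig1 lam v j o R ε hε
  have l2 : ∀ (p : MB) (B : Set GA), Tr lam p B →
      ∃ (o : (D : Dm) → DC D) (R ε : ℝ), 0 < ε ∧ ∀ q, ofMB lam q ∈
        remNhd 1 (ofMB lam p) o R ε ∪ nonNhd (ofMB lam p) o R ε → Tr lam q B := by
    intro p B hB
    cases p with
    | inf ξ => exact lit_inf2 lam ξ B hB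
    | sig v j => exact lit_sig2 lam v j B hB
  let e : MB ≃ BPt (HH lam).toHHS := Equiv.ofBijective (ofMB lam) (ofMB_bijective lam)
  letI : TopologicalSpace MB := mbTop lam
  letI : TopologicalSpace (BPt (HH lam).toHHS) := dhsTop (HH lam).toHHS 1
  refine ⟨{ toEquiv := e, continuous_toFun := ?_, continuous_invFun := ?_ }⟩
  · refine continuous_generateFrom_iff.2 ?_
    intro O hO
    refine (strict_isOpen_iff (Tr_isTrace lam) (e ⁻¹' O)).2 ?_
    intro q hq
    obtain ⟨o, R, ε, hε, h1⟩ := hO (e q) hq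
    obtain ⟨B, hB, h2⟩ := l1 q o R ε hε
    exact ⟨B, hB, fun q' hq' => h1 (h2 q' hq')⟩
  · refine continuous_generateFrom_iff.2 ?_
    rintro _ ⟨B, rfl⟩
    refine TopologicalSpace.isOpen_generateFrom_of_mem ?_
    intro p hp
    obtain ⟨o, R, ε, hε, h1⟩ := l2 (e.symm p) B hp
    have hep : ofMB lam (e.symm p) = p := e.apply_symm_apply p
    rw [hep] at h1
    refine ⟨o, R, ε, hε, fun p' hp' => ?_⟩
    have hep' : ofMB lam (e.symm p') = p' := e.apply_symm_apply p'
    exact h1 (e.symm p') (by rw [hep']; exact hp')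

/-- The boundary with the strict extension topology is homeomorphic to the model. -/
theorem strict_homeo_mb (lam : Bool) :
    Nonempty (@Homeomorph MB (BPt (HH lam).toHHS) (mbTop lam)
      (strictTop (InNhd (H := (HH lam).toHHS) 1))) :=
  strict_homeo (Equiv.ofBijective (ofMB lam) (ofMB_bijective lam))
    (fun q B => (ofMB_tr lam q B).symm)

end Pool.Agent.Helper77.HB
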