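import Pool.Agent.Helper77.HB.Bij1
import Pool.Agent.Helper77.HB.Dhs
import Pool.Agent.Helper77.HB.JLem
import Pool.Agent.Helper77.HB.GrInf

/-!
# The literal conditions of Durham, Hagen and Sisto, for the points over a vertex
-/

namespace Pool.Agent.Helper77.HB

open Matrix OnePoint

/-- distances to the base point in the two coordinates -/
noncomputable def dV (u₀ u : F × ℤ) : ℝ := (TF.dist u₀.1 u.1 : ℝ)
noncomputable def dU (u₀ u : F × ℤ) : ℝ := (ZL.dist u₀.2 u.2 : ℝ)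

open Classical in
/-- The literal conditions. -/
noncomputable def LitJ (u₀ : F × ℤ) (o₁ : F) (o₂ : ℤ) (R ε : ℝ) : J → F × ℤ → Prop
  | .pole s, u => u.2 ∈ near (Γ := ZL) o₂ R (zinf s) ∧ abs (dU u₀ u / dU u₀ u - 1) < ε ∧
      dV u₀ u / dU u₀ u < ε
  | .mer ξ t, u =>
      if t.1 = 0 then u.1 ∈ near (Γ := TF) o₁ R ξ ∧ abs (dV u₀ u / dV u₀ u - 1) < ε ∧
        dU u₀ u / dV u₀ u < ε
      else u.1 ∈ near (Γ := TF) o₁ R ξ ∧ u.2 ∈ near (Γ := ZL) o₂ R (zinf (decide (0 < t.1))) ∧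
        abs (dV u₀ u / dV u₀ u - 1) < ε ∧ abs (dU u₀ u / dU u₀ u - 1) < ε ∧
        abs (dV u₀ u / dU u₀ u - (1 - |t.1|) / |t.1|) < ε ∧
        abs (dU u₀ u / dV u₀ u - |t.1| / (1 - |t.1|)) < ε

/-- The standard base points. -/
def oStd : (D : Dm) → DC D
  | .top => v0
  | .V _ => (1 : F)
  | .U _ => (0 : ℤ)

/-- The base point of `GA`, as seen at the vertex `v`. -/
noncomputable def ub (lam : Bool) (v : Wd) : F × ℤ := kap lam (pg (frame v) 1)

/-- The gate at the vertex `v` of a boundary point which is not over `v`. -/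
noncomputable def gq (v : Wd) : MB → P
  | .inf ξ => (inf_gate (frame v) ξ).choose
  | .sig v' _ => gt (frame v) v'

end Pool.Agent.Helper77.HB
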