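import Pool.Agent.Helper77.HB.Defs

/-!
# No hyperbolic length function on `ℤ × ℤ`
-/

namespace Pool.Agent.Helper77.HB

open Filter Topology

private lemma NoZ2_lim (L : ℤ × ℤ → ℕ) (h1 : ∀ p q, L (p + q) ≤ L p + L q) (p : ℤ × ℤ) :
    ∃ a : ℝ, Tendsto (fun n : ℕ => (L (n • p) : ℝ) / n) atTop (𝓝 a) := by
  have hs : Subadditive (fun n : ℕ => (L (n • p) : ℝ)) := by
    intro m n
    have := h1 (m • p) (n • p)
    rw [← add_smul] at this
    show (L ((m + n) • p) : ℝ) ≤ L (m • p) + L (n • p)
    exact_mod_cast this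
  refine ⟨hs.lim, hs.tendsto_lim ?_⟩
  refine ⟨0, ?_⟩
  rintro _ ⟨n, rfl⟩
  positivity

private lemma NoZ2_descent (N : ℤ × ℤ → ℝ) (e : ℝ) (he : 0 < e)
    (hQ : ∀ p q, N (p + q) + N (p - q) ≤ 2 * max (N p) (N q))
    (h2 : ∀ p, N (2 • p) = 2 * N p) (hlow : ∀ p, p ≠ 0 → e ≤ N p) :
    ∀ n : ℕ, ∀ p q : ℤ × ℤ, p.1 * q.2 - p.2 * q.1 ≠ 0 → N p + N q ≤ n * e → False := by
  have key : ∀ p q, N p + N q ≤ max (N (p + q)) (N (p - q)) := by
    intro p q
    have h := hQ (p + q) (p - q)
    have e1 : p + q + (p - q) = 2 • p := by rw [two_smul]; abel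
    have e2 : p + q - (p - q) = 2 • q := by rw [two_smul]; abel
    rw [e1, e2, h2, h2] at h
    linarith
  -- one step: the smaller one of the two vectors can be kept
  have step : ∀ n : ℕ, (∀ p q : ℤ × ℤ, p.1 * q.2 - p.2 * q.1 ≠ 0 → N p + N q ≤ n * e → False) →
      ∀ p q : ℤ × ℤ, p.1 * q.2 - p.2 * q.1 ≠ 0 → N p ≤ N q → N p + N q ≤ (n + 1) * e → False := by
    intro n ih p q hdet hle hs
    have hp : p ≠ 0 := by
      rintro rfl
      simp at hdet
    have hlp := hlow p hp
    have k1 := key p q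
    have k2 := hQ p q
    rw [max_eq_right hle] at k2
    rcases le_total (N (p + q)) (N (p - q)) with h | h
    · rw [max_eq_right h] at k1
      refine ih p (p + q) ?_ (by linarith)
      simp only [Prod.fst_add, Prod.snd_add]
      intro h0
      apply hdet
      linarith
    · rw [max_eq_left h] at k1
      refine ih p (p - q) ?_ (by linarith)
      simp only [Prod.fst_sub, Prod.snd_sub]
      intro h0
      apply hdet
      linarith
  intro n
  induction n with
  | zero =>
    intro p q hdet hs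
    have hp : p ≠ 0 := by
      rintro rfl
      simp at hdet
    have hq : q ≠ 0 := by
      rintro rfl
      simp at hdet
    have h1 := hlow p hp
    have h2 := hlow q hq
    simp at hs
    linarith
  | succ n ih =>
    intro p q hdet hs
    push_cast at hs
    rcases le_total (N p) (N q) with h | h
    · exact step n ih p q hdet h hs
    · refine step n ih q p ?_ h (by linarith)
      intro h0
      apply hdet
      linarith

/-- A length function on `ℤ × ℤ` which satisfies the (parallelogram form of the) four point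
condition cannot be bounded below by a multiple of a norm. -/
theorem no_Z2 (L : ℤ × ℤ → ℕ) (C K : ℕ) (h1 : ∀ p q, L (p + q) ≤ L p + L q)
    (h2 : ∀ p, L (-p) = L p)
    (h3 : ∀ p q, L (p + q) + L (p - q) ≤ 2 * max (L p) (L q) + C)
    (h4 : ∀ p : ℤ × ℤ, |p.1| + |p.2| ≤ K * L p) : False := by
  choose N hN using NoZ2_lim L h1
  have hK : 0 < K := by
    rcases Nat.eq_zero_or_pos K with h | h
    · subst h
      have := h4 (1, 0)
      simp at this
    · exact h
  have hK' : (0 : ℝ) < K := by exact_mod_cast hK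
  have hdouble : ∀ p, N (2 • p) = 2 * N p := by
    intro p
    have t1 : Tendsto (fun n : ℕ => (L ((2 * n) • p) : ℝ) / ((2 * n : ℕ) : ℝ)) atTop (𝓝 (N p)) :=
      (hN p).comp (tendsto_id.const_mul_atTop' (by norm_num : 0 < 2))
    have t2 : Tendsto (fun n : ℕ => 2 * ((L ((2 * n) • p) : ℝ) / ((2 * n : ℕ) : ℝ))) atTop
        (𝓝 (2 * N p)) := t1.const_mul 2
    refine tendsto_nhds_unique (hN (2 • p)) (t2.congr' ?_)
    filter_upwards [eventually_gt_atTop 0] with n hn
    have hn' : (n : ℝ) ≠ 0 := by positivity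
    have e1 : (2 * n) • p = n • 2 • p := by rw [smul_smul, mul_comm]
    rw [e1]
    push_cast
    field_simp
  have hQ : ∀ p q, N (p + q) + N (p - q) ≤ 2 * max (N p) (N q) := by
    intro p q
    have t1 := (hN (p + q)).add (hN (p - q))
    have t2 : Tendsto (fun n : ℕ => 2 * max ((L (n • p) : ℝ) / n) ((L (n • q) : ℝ) / n) +
        (C : ℝ) / n) atTop (𝓝 (2 * max (N p) (N q) + 0)) :=
      (((hN p).max (hN q)).const_mul 2).add (tendsto_const_div_atTop_nhds_zero_nat _)
    rw [add_zero] at t2
    refine le_of_tendsto_of_tendsto t1 t2 ?_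
    filter_upwards [eventually_gt_atTop 0] with n hn
    have hn' : (0 : ℝ) < n := by exact_mod_cast hn
    have h := h3 (n • p) (n • q)
    rw [← smul_add, ← smul_sub] at h
    have h' : (L (n • (p + q)) : ℝ) + L (n • (p - q)) ≤
        2 * max (L (n • p) : ℝ) (L (n • q)) + C := by
      exact_mod_cast h
    rw [← add_div, max_div_div_right hn'.le, ← mul_div_assoc, ← add_div]
    exact div_le_div_of_nonneg_right h' hn'.le
  have hlow : ∀ p, p ≠ 0 → 1 / (K : ℝ) ≤ N p := by
    intro p hp
    refine ge_of_tendsto (hN p) ?_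
    filter_upwards [eventually_gt_atTop 0] with n hn
    have hn' : (0 : ℝ) < n := by exact_mod_cast hn
    have h := h4 (n • p)
    have e1 : |(n • p).1| + |(n • p).2| = n * (|p.1| + |p.2|) := by
      simp [abs_mul, mul_add]
    rw [e1] at h
    have hpos : 1 ≤ |p.1| + |p.2| := by
      by_contra hcon
      have a1 := abs_nonneg p.1
      have a2 := abs_nonneg p.2
      have b1 : |p.1| = 0 := by omega
      have b2 : |p.2| = 0 := by omega
      apply hp
      exact Prod.ext (abs_eq_zero.1 b1) (abs_eq_zero.1 b2)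
    have h5 : (n : ℤ) ≤ K * L (n • p) := by nlinarith
    have h6 : (n : ℝ) ≤ K * L (n • p) := by exact_mod_cast h5
    rw [div_le_div_iff₀ hK' hn']
    linarith
  obtain ⟨n, hn⟩ := exists_nat_ge ((N (1, 0) + N (0, 1)) / (1 / (K : ℝ)))
  refine NoZ2_descent N (1 / (K : ℝ)) (by positivity) hQ hdouble hlow n (1, 0) (0, 1) (by simp) ?_
  rwa [div_le_iff₀ (by positivity)] at hn

end Pool.Agent.Helper77.HB
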