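import Pool.Agent.Helper77.HB.Trace
import Pool.Agent.Helper77.HB.Inv
import Pool.Agent.Helper77.HB.Colour

/-!
# The topology of the model of the boundary
-/

namespace Pool.Agent.Helper77.HB

open Matrix OnePoint

lemma Tr_sig_kap (lam : Bool) (v : Wd) (j : J) (B : Set (F × ℤ)) :
    Tr lam (.sig v j) {h | kap lam (pg (frame v) h) ∈ B} ↔ TrJ j B := by
  constructor
  · rintro ⟨R, hR⟩
    refine ⟨R, fun u hu => ?_⟩
    have h1 := hR (frame v * iP (kapInv lam u)) (by rwa [pg_iP, kap_kapInv])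
    rwa [Set.mem_ofPred_eq, pg_iP, kap_kapInv] at h1
  · rintro ⟨R, hR⟩
    exact ⟨R, fun h hh => hR _ hh⟩

/-- The points over a vertex are not regular. -/
theorem not_reg_sig (lam : Bool) (v : Wd) (j : J) : ¬ @RegPt MB (mbTop lam) (.sig v j) := by
  let _ : TopologicalSpace MB := mbTop lam
  intro hreg
  obtain ⟨B, hB, hcross⟩ := J_cross j
  obtain ⟨U, hUo, hzU, hUO, hfin⟩ := hreg {q | Tr lam q {h | kap lam (pg (frame v) h) ∈ B}}
    (strict_isOpen_hat _) ((Tr_sig_kap lam v j B).2 hB)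
  have hcont : Continuous (MB.sig v) := sig_continuous lam v
  have hinf := hcross (MB.sig v ⁻¹' U) (hUo.preimage hcont) hzU
    (fun q hq => (Tr_sig_kap lam v q B).1 (hUO hq))
  obtain ⟨ξ0, -⟩ := hinf.nonempty
  let g : MB → E := fun q => match q with
    | .sig _ (.mer ξ _) => ξ
    | _ => ξ0
  refine hinf ((hfin.image g).subset ?_)
  rintro ξ ⟨t₀, ht₀, t₁, ht₁, h0, h1⟩
  have hcm : Continuous fun t : ℝ => MB.sig v (merR ξ t) := hcont.comp (merR_continuous ξ)
  -- a point of the frontier on the meridian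
  obtain ⟨t, ht, htf⟩ : ∃ t ∈ Set.uIcc t₀ t₁, MB.sig v (merR ξ t) ∈ frontier U := by
    have hne : (Set.uIcc t₀ t₁ ∩ frontier ((fun t : ℝ => MB.sig v (merR ξ t)) ⁻¹' U)).Nonempty := by
      by_contra hcon
      have hpre : IsPreconnected (Set.uIcc t₀ t₁) := isPreconnected_uIcc
      set S : Set ℝ := (fun t : ℝ => MB.sig v (merR ξ t)) ⁻¹' U with hS
      have hSo : IsOpen S := hUo.preimage hcm
      have hcl : Set.uIcc t₀ t₁ ⊆ S ∪ (closure S)ᶜ := by
        intro t ht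
        by_cases hts : t ∈ S
        · exact Or.inl hts
        · right
          intro htc
          exact hcon ⟨t, ht, htc, by rwa [hSo.interior_eq]⟩
      obtain ⟨t, -, ht1, ht2⟩ := hpre S (closure S)ᶜ hSo isClosed_closure.isOpen_compl hcl
        ⟨t₀, Set.left_mem_uIcc, h0⟩ ⟨t₁, Set.right_mem_uIcc, by
          rcases hcl Set.right_mem_uIcc with h | h
          · exact absurd h h1
          · exact h⟩
      exact ht2 (subset_closure ht1)
    obtain ⟨t, ht, htf⟩ := hne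
    exact ⟨t, ht, hcm.frontier_preimage_subset U htf⟩
  refine ⟨MB.sig v (merR ξ t), htf, ?_⟩
  have htI : t ∈ Set.Ioo (-1 : ℝ) 1 := (Set.ordConnected_Ioo.uIcc_subset ht₀ ht₁) ht
  have : merR ξ t = J.mer ξ ⟨t, htI⟩ := by
    unfold merR
    rw [dif_pos htI]
  rw [this]

/-- The points at infinity of `Gr` are regular. -/
theorem reg_inf (lam : Bool) (ξ : GBd Gr) : @RegPt MB (mbTop lam) (.inf ξ) := by
  let _ : TopologicalSpace MB := mbTop lam
  intro O hO hmem
  obtain ⟨B, ⟨R, hR⟩, hBO⟩ := (strict_isOpen_iff (Tr_isTrace lam) O).1 hO _ hmem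
  obtain ⟨g, ⟨R', hR'⟩, hg⟩ := inf_phi ξ R
  have hsub : Phi g ⊆ B := fun h hh => hR h (hg _ hh.1 hh.2)
  refine ⟨{q | Tr lam q (Phi g)}, strict_isOpen_hat _, ⟨R', fun h hh => hR' _ hh⟩,
    fun q hq => hBO ((Tr_isTrace lam).mono q _ _ hsub hq), ?_⟩
  refine Set.Finite.subset (s := {Pt lam (g * xG) true, Pt lam (g * cG * xG) true})
    (Set.toFinite _) ?_
  intro q hq
  obtain ⟨h1, h2⟩ := strict_frontier (Tr_isTrace lam) (Phi g) hq
  rcases Tr_Phi lam g q h1 h2 with h | h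
  · exact Or.inl h
  · exact Or.inr h

/-- The open set of the coset `g ⟨c⟩`. -/
def DD (lam : Bool) (g : GA) : Set MB := {q | Tr lam q {h | pg g h ∈ Cy}}

theorem DD_open (lam : Bool) (g : GA) : @IsOpen MB (mbTop lam) (DD lam g) :=
  strict_isOpen_hat _

theorem DD_disj (lam : Bool) (g : GA) (j : J) : MB.sig (g • v0) j ∉ DD lam g := by
  intro h
  obtain ⟨R, hR⟩ : ∃ R : ℕ, ∀ h : GA, InJ R j (kap lam (pg (frame (g • v0)) h)) →
      h ∈ {h | pg g h ∈ Cy} := h
  have key : ∀ u : F × ℤ, InJ R j u → (cp g v0)⁻¹ * kapInv lam u ∈ Cy := by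
    intro u hu
    have h1 := hR (frame (g • v0) * iP (kapInv lam u)) (by rw [pg_iP, kap_kapInv]; exact hu)
    have h2 : pg g (frame (g • v0) * iP (kapInv lam u)) = (cp g v0)⁻¹ * kapInv lam u := by
      have h3 := pg_frame_mul (frame (g • v0)) (frame (g • v0) * iP (kapInv lam u)) (cp g v0)
      rw [← eq_frame_mul, pg_iP] at h3
      exact h3
    have h4 : pg g (frame (g • v0) * iP (kapInv lam u)) ∈ Cy := h1
    rw [h2] at h4
    exact h4
  obtain ⟨R', hR'⟩ := InJ_coarse j R 1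
  obtain ⟨u, hu⟩ := InJ_ne R' j
  have h1 := key u (hR' u u hu (by rw [SimpleGraph.dist_self]; norm_num) (by simp))
  have h2 := key (u.1, u.2 + 1) (hR' u (u.1, u.2 + 1) hu
    (by rw [SimpleGraph.dist_self]; norm_num) (by simp))
  have h3 : (cp g v0)⁻¹ * kapInv lam (u.1, u.2 + 1) = (cp g v0)⁻¹ * kapInv lam u * bP := by
    rw [mul_assoc]
    congr 1
    ext
    · simp [kapInv, bP]
    · simp only [kapInv, bP, Prod.snd_mul, toAdd_mul, toAdd_ofAdd]
      ring
  rw [h3] at h2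
  exact bP_not_mem ((Subgroup.mul_mem_cancel_left _ h1).1 h2)

theorem DD_cover (lam : Bool) (g : GA) (q : MB) (hq : ∀ j, q ≠ .sig (g • v0) j) :
    ∃ p : P, q ∈ DD lam (g * iP p) := by
  cases q with
  | inf ξ =>
    obtain ⟨p, hp⟩ := Tr_inf_gate lam ξ g
    refine ⟨p, (Tr_isTrace lam).mono _ _ _ ?_ hp⟩
    rintro h ⟨-, h2⟩
    show pg (g * iP p) h ∈ Cy
    rw [pg_frame_mul, h2, inv_mul_cancel]
    exact one_mem_Cy
  | sig v j =>
    have hv : v ≠ g • v0 := fun h => hq j (by rw [h])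
    refine ⟨gt g v, (Tr_isTrace lam).mono _ _ _ ?_ (Tr_sig_ne lam v j g hv)⟩
    rintro h ⟨i, -, h2⟩
    show pg (g * iP (gt g v)) h ∈ Cy
    rw [pg_frame_mul, h2, inv_mul_cancel_left]
    exact zpow_mem_Cy i

/-- The points over `g c ^ n x v0` belong to the open set of `g ⟨c⟩`. -/
theorem DD_mem (lam : Bool) (g : GA) (n : ℤ) (j : J) :
    MB.sig ((g * cG ^ n * xG) • v0) j ∈ DD lam g := by
  have h0 : (cG ^ n * xG) • v0 ≠ v0 := by
    rw [cG_zpow, mul_smul]
    intro h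
    exact xG_v0_ne ((iP_smul_ne _).1 h)
  have h1 : (g * cG ^ n * xG) • v0 ≠ g • v0 := by
    rw [mul_assoc, mul_smul]
    intro h
    exact h0 (smul_left_cancel g h)
  have h2 : gt g ((g * cG ^ n * xG) • v0) = cP ^ n := by
    unfold gt
    rw [← mul_smul, mul_assoc, inv_mul_cancel_left, cG_zpow, mul_smul, fl_iP_smul _ xG_v0_ne,
      xG_v0]
    show cP ^ n * 1 = cP ^ n
    rw [mul_one]
  refine (Tr_isTrace lam).mono _ _ _ ?_ (Tr_sig_ne lam _ j g h1)
  rintro h ⟨i, -, h3⟩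
  show pg g h ∈ Cy
  rw [h3, h2]
  exact mul_mem (zpow_mem_Cy n) (zpow_mem_Cy i)

theorem DD_nonempty (lam : Bool) (g : GA) : (DD lam g).Nonempty :=
  ⟨_, DD_mem lam g 0 (.pole true)⟩

theorem DD_frontier (lam : Bool) (g : GA) :
    @frontier MB (mbTop lam) (DD lam g) ⊆ {Pt lam g true, Pt lam g false} := by
  intro q hq
  obtain ⟨h1, h2⟩ := strict_frontier (Tr_isTrace lam) {h | pg g h ∈ Cy} hq
  by_contra hne
  rw [Set.mem_insert_iff, Set.mem_singleton_iff, not_or] at hne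
  by_cases hv : ∃ j, q = MB.sig (g • v0) j
  · obtain ⟨j, rfl⟩ := hv
    apply h2
    have t1 := Tr_sig_coset lam g j true hne.1
    have t2 := Tr_sig_coset lam g j false hne.2
    have t3 := Tr_sig_fin lam g j {1} (Set.finite_singleton 1)
    have t4 := (Tr_isTrace lam).inter _ _ _ ((Tr_isTrace lam).inter _ _ _ t1 t2) t3
    refine (Tr_isTrace lam).mono _ _ _ ?_ t4
    rintro h ⟨⟨e1, e2⟩, e3⟩
    show ¬ pg g h ∈ Cy
    intro hc
    obtain ⟨n, hn⟩ := hc
    have hn' : pg g h = cP ^ n := hn.symm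
    rcases lt_trichotomy n 0 with h0 | h0 | h0
    · exact e2 n (by simp only [sg]; norm_num; omega) hn'
    · exact e3 (by rw [hn', h0, zpow_zero]; exact Set.mem_singleton 1)
    · exact e1 n (by simp only [sg]; norm_num; omega) hn'
  · push_neg at hv
    obtain ⟨p, hp⟩ := DD_cover lam g q hv
    have hp' : Tr lam q {h | pg (g * iP p) h ∈ Cy} := hp
    by_cases hpc : p ∈ Cy
    · apply h1
      refine (Tr_isTrace lam).mono _ _ _ ?_ hp'
      intro h hh
      have h3 : pg (g * iP p) h ∈ Cy := hh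
      rw [pg_frame_mul] at h3
      exact (Subgroup.mul_mem_cancel_left _ (inv_mem hpc)).1 h3
    · apply h2
      refine (Tr_isTrace lam).mono _ _ _ ?_ hp'
      intro h hh
      have h3 : pg (g * iP p) h ∈ Cy := hh
      rw [pg_frame_mul] at h3
      show ¬ pg g h ∈ Cy
      intro h4
      exact hpc (inv_mem_iff.1 ((Subgroup.mul_mem_cancel_right _ h4).1 h3))

theorem DD_lim (lam : Bool) (g : GA) (s : Bool) :
    Pt lam g s ∈ @closure MB (mbTop lam) (DD lam g) := by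
  refine (strict_mem_closure_iff (Tr_isTrace lam) (DD lam g) _).2 fun B hB => ?_
  obtain ⟨M, hM⟩ := Tr_lim lam g s B hB
  refine ⟨_, DD_mem lam g (sg s * M) (.pole true), hM (sg s * M) ?_ _⟩
  cases s <;> simp [sg]

/-- A vertex of `Vx g`: the points over it belong to `DD g`. -/
lemma dc_sig_mem (lam : Bool) {g : GA} {y : Wd} (hy : y ∈ Vx g) (j : J) :
    MB.sig y j ∈ DD lam g := by
  refine (Tr_isTrace lam).mono _ _ _ ?_ (Tr_sig_ne lam y j g hy.1)
  rintro h ⟨i, -, hi⟩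
  show pg g h ∈ Cy
  rw [hi]
  exact mul_zpow_mem_Cy.2 hy.2

/-- The points of `DD g` over a vertex: the vertex belongs to `Vx g`. -/
lemma dc_mem_Vx (lam : Bool) {g : GA} {y : Wd} {j : J} (h : MB.sig y j ∈ DD lam g) :
    y ∈ Vx g := by
  have hy : y ≠ g • v0 := by
    rintro rfl
    exact DD_disj lam g j h
  refine ⟨hy, ?_⟩
  by_contra hcon
  have h0 : Tr lam (MB.sig y j) {k | pg g k ∈ Cy} := h
  have h1 := (Tr_isTrace lam).inter _ _ _ h0 (Tr_sig_ne lam y j g hy)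
  refine (Tr_isTrace lam).ne (MB.sig y j) ((Tr_isTrace lam).mono _ _ _ ?_ h1)
  rintro k ⟨hk, i, -, hi⟩
  refine hcon ?_
  have hk' : pg g k ∈ Cy := hk
  rw [hi] at hk'
  exact mul_zpow_mem_Cy.1 hk'

/-- Near a point of an open set which belongs to `DD g` there are points over vertices of
`Vx g`. -/
lemma dc_inf (lam : Bool) {g : GA} {ξ : GBd Gr} (h : MB.inf ξ ∈ DD lam g) {y : ℕ → Wd}
    (hy : y ∈ ξ.1) {O : Set MB} (hO : @IsOpen MB (mbTop lam) O) (hξ : MB.inf ξ ∈ O) :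
    ∃ N, ∀ n ≥ N, y n ∈ Vx g ∧ ∀ j, MB.sig (y n) j ∈ O := by
  obtain ⟨B, hB, hBO⟩ := (strict_isOpen_iff (Tr_isTrace lam) O).1 hO _ hξ
  obtain ⟨R, hR⟩ := Tr_inf_sig lam ξ B hB
  obtain ⟨p, R1, hR1⟩ := Tr_inf_gate lam ξ g
  obtain ⟨R2, hR2⟩ := h
  obtain ⟨N, hN⟩ := near_seq hy v0 (R : ℝ)
  obtain ⟨N1, hN1⟩ := near_seq hy v0 (R1 : ℝ)
  obtain ⟨N2, hN2⟩ := near_seq hy v0 (R2 : ℝ)
  refine ⟨max N (max N1 N2), fun n hn => ⟨?_, fun j => hBO (hR _ (hN n (by omega)) j)⟩⟩
  have h1 := hR1 (frame (y n)) (by rw [frame_smul]; exact hN1 n (by omega))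
  have h2 := hR2 (frame (y n)) (by rw [frame_smul]; exact hN2 n (by omega))
  have h3 : pg g (frame (y n)) ∈ Cy := h2
  rw [pg_of_ne h1.1, frame_smul] at h3
  have h4 := h1.1
  rw [frame_smul] at h4
  exact ⟨h4, h3⟩

/-- A sequence of vertices of `Vx g` converging to infinity converges to a point of `DD g`. -/
lemma dc_lim (lam : Bool) {g : GA} {y : ℕ → Wd} (hy : ToInf Gr y) (hv : ∀ n, y n ∈ Vx g) :
    MB.inf (cls Gr y hy) ∈ DD lam g := by
  obtain ⟨p, R, hR⟩ := Tr_inf_gate lam (cls Gr y hy) g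
  obtain ⟨N, hN⟩ := near_seq (mem_cls hy) v0 (R : ℝ)
  have h1 := hR (frame (y N)) (by rw [frame_smul]; exact hN N le_rfl)
  have h2 : p ∈ Cy := by
    have h3 := h1.2
    rw [pg_of_ne h1.1, frame_smul] at h3
    rw [← h3]
    exact (hv N).2
  refine ⟨R, fun h hh => ?_⟩
  have h4 := (hR h hh).2
  show pg g h ∈ Cy
  rw [h4]
  exact h2

theorem DD_conn (lam : Bool) (g : GA) : @IsPreconnected MB (mbTop lam) (DD lam g) := by
  let _ := mbTop lam
  intro A A' hA hA' hcov hmA hmA'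
  by_contra hne
  have hex : ∀ q ∈ DD lam g, q ∈ A → q ∉ A' := fun q hq h1 h2 => hne ⟨q, hq, h1, h2⟩
  -- the points over a vertex are on the same side
  have hside : ∀ y ∈ Vx g, (∀ j, MB.sig y j ∈ A) ∨ (∀ j, MB.sig y j ∈ A') := by
    intro y hy
    have : PathConnectedSpace J := ⟨⟨J.pole true⟩, J_joined⟩
    have h1 : IsPreconnected (Set.range (MB.sig y)) :=
      isPreconnected_range (sig_continuous lam y)
    by_contra hcon
    rw [not_or] at hcon
    obtain ⟨h2, h3⟩ := hcon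
    push Not at h2 h3
    obtain ⟨j, hj⟩ := h2
    obtain ⟨j', hj'⟩ := h3
    have hjA' : MB.sig y j ∈ A' := (hcov (dc_sig_mem lam hy j)).resolve_left hj
    have hjA : MB.sig y j' ∈ A := (hcov (dc_sig_mem lam hy j')).resolve_right hj'
    obtain ⟨q, ⟨i, rfl⟩, h4, h5⟩ := h1 A A' hA hA' (by
      rintro _ ⟨i, rfl⟩
      exact hcov (dc_sig_mem lam hy i)) ⟨_, ⟨j', rfl⟩, hjA⟩ ⟨_, ⟨j, rfl⟩, hjA'⟩
    exact hex _ (dc_sig_mem lam hy i) h4 h5
  set col : Wd → Prop := fun y => MB.sig y (J.pole true) ∈ A with hcol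
  have hcA : ∀ y ∈ Vx g, ∀ j, MB.sig y j ∈ A → col y := by
    intro y hy j hj
    rcases hside y hy with h | h
    · exact h _
    · exact absurd (h j) (hex _ (dc_sig_mem lam hy j) hj)
  have hcA' : ∀ y ∈ Vx g, ∀ j, MB.sig y j ∈ A' → ¬ col y := by
    intro y hy j hj
    rcases hside y hy with h | h
    · exact absurd hj (hex _ (dc_sig_mem lam hy j) (h j))
    · exact fun hc => hex _ (dc_sig_mem lam hy _) hc (h _)
  have hconst := colour g col ?_ ?_
  · -- the conclusion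
    have hA1 : ∃ y ∈ Vx g, col y := by
      obtain ⟨q, hq, hqA⟩ := hmA
      cases q with
      | sig y j => exact ⟨y, dc_mem_Vx lam hq, hcA y (dc_mem_Vx lam hq) j hqA⟩
      | inf ξ =>
        obtain ⟨y, hy⟩ := gbd_nonempty ξ
        obtain ⟨N, hN⟩ := dc_inf lam hq hy hA hqA
        obtain ⟨h1, h2⟩ := hN N le_rfl
        exact ⟨y N, h1, h2 _⟩
    have hA2 : ∃ y ∈ Vx g, ¬ col y := by
      obtain ⟨q, hq, hqA⟩ := hmA'
      cases q with
      | sig y j => exact ⟨y, dc_mem_Vx lam hq, hcA' y (dc_mem_Vx lam hq) j hqA⟩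
      | inf ξ =>
        obtain ⟨y, hy⟩ := gbd_nonempty ξ
        obtain ⟨N, hN⟩ := dc_inf lam hq hy hA' hqA
        obtain ⟨h1, h2⟩ := hN N le_rfl
        exact ⟨y N, h1, hcA' _ h1 _ (h2 (J.pole true))⟩
    obtain ⟨y, hy, h1⟩ := hA1
    obtain ⟨y', hy', h2⟩ := hA2
    exact h2 ((hconst y hy y' hy').1 h1)
  · -- at the ends of the cosets
    intro g' hg' s
    have hP : ∀ O : Set MB, IsOpen O → Pt lam g' s ∈ O → ∃ M : ℤ, ∀ n : ℤ, M ≤ sg s * n →
        ∀ j, MB.sig ((g' * cG ^ n * xG) • v0) j ∈ O := by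
      intro O hO hPO
      obtain ⟨B, hB, hBO⟩ := (strict_isOpen_iff (Tr_isTrace lam) O).1 hO _ hPO
      obtain ⟨M, hM⟩ := Tr_lim lam g' s B hB
      exact ⟨M, fun n hn j => hBO (hM n hn j)⟩
    rcases hside _ hg' with h | h
    · obtain ⟨M, hM⟩ := hP A hA (h _)
      exact ⟨M, fun n hn hv => ⟨fun _ => h _, fun _ => hM n hn _⟩⟩
    · obtain ⟨M, hM⟩ := hP A' hA' (h _)
      refine ⟨M, fun n hn hv => ⟨fun h1 => ?_, fun h1 => ?_⟩⟩
      · exact absurd h1 (hcA' _ hv _ (hM n hn (J.pole true)))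
      · exact absurd h1 (hcA' _ hg' _ (h (J.pole true)))
  · -- at infinity
    intro y hy hv
    have hD := dc_lim lam hy hv
    rcases hcov hD with h | h
    · obtain ⟨N, hN⟩ := dc_inf lam hD (mem_cls hy) hA h
      exact ⟨N, fun n hn => ⟨fun _ => (hN N le_rfl).2 _, fun _ => (hN n hn).2 _⟩⟩
    · obtain ⟨N, hN⟩ := dc_inf lam hD (mem_cls hy) hA' h
      refine ⟨N, fun n hn => ⟨fun h1 => ?_, fun h1 => ?_⟩⟩
      · exact absurd h1 (hcA' _ (hv n) _ ((hN n hn).2 (J.pole true)))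
      · exact absurd h1 (hcA' _ (hv N) _ ((hN N le_rfl).2 (J.pole true)))

theorem isClosed_sig (lam : Bool) (v : Wd) :
    @IsClosed MB (mbTop lam) (Set.range (MB.sig v)) := by
  let _ : TopologicalSpace MB := mbTop lam
  have h : (Set.range (MB.sig v))ᶜ = ⋃ p : P, DD lam (frame v * iP p) := by
    ext q
    simp only [Set.mem_compl_iff, Set.mem_range, Set.mem_iUnion]
    constructor
    · intro hq
      push Not at hq
      refine DD_cover lam (frame v) q (fun j => ?_)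
      rw [frame_smul]
      exact (hq j).symm
    · rintro ⟨p, hp⟩ ⟨j, rfl⟩
      have h1 := DD_disj lam (frame v * iP p) j
      rw [mul_smul, iP_smul_v0, frame_smul] at h1
      exact h1 hp
  rw [← isOpen_compl_iff, h]
  exact isOpen_iUnion fun p => DD_open lam _

instance : Countable F := by
  unfold F FreeGroup
  infer_instance

instance : Countable Wd := by
  unfold Wd
  have : Countable (Multiplicative ℤ) := inferInstanceAs (Countable ℤ)
  infer_instance

/-- The path components of the set of the points which are not regular. -/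
theorem joinedIn_iff (lam : Bool) (v : Wd) (j : J) (q : MB) :
    @JoinedIn MB (mbTop lam) {x | ¬ @RegPt MB (mbTop lam) x} (.sig v j) q ↔
      ∃ j', q = .sig v j' := by
  let _ : TopologicalSpace MB := mbTop lam
  constructor
  · intro h
    have h1 : JoinedIn (⋃ w : Wd, Set.range (MB.sig w)) (.sig v j) q := by
      refine h.mono ?_
      intro x hx
      cases x with
      | inf ξ => exact absurd (reg_inf lam ξ) hx
      | sig w j' => exact Set.mem_iUnion.2 ⟨w, j', rfl⟩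
    have h2 : q ∈ Set.range (MB.sig v) := by
      refine path_countable (fun w : Wd => Set.range (MB.sig w)) (isClosed_sig lam) ?_ h1
        ⟨j, rfl⟩
      intro w w' hww
      refine Set.disjoint_left.2 ?_
      rintro x ⟨j1, rfl⟩ ⟨j2, h3⟩
      exact hww (MB.sig.inj h3).1.symm
    obtain ⟨j', rfl⟩ := h2
    exact ⟨j', rfl⟩
  · rintro ⟨j', rfl⟩
    obtain ⟨γ⟩ := J_joined j j'
    exact ⟨γ.map (sig_continuous lam v), fun t => not_reg_sig lam v _⟩

end Pool.Agent.Helper77.HB
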