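import Pool.Agent.Helper77.HB.Farey

/-!
# The vertex set `Wd` of the coned-off graph, and the group `GG` acting on it

`P = F × ℤ` with `F` free on `a, c`.  A vertex is a finite sequence of letters `(p, θ)`,
`p ∈ P`, `θ ∈ [0, 1) ∩ ℚ`, where all `p` but the first one are not powers of `c`.
-/

namespace Pool.Agent.Helper77.HB

open Matrix OnePoint

abbrev F := FreeGroup Bool
abbrev P := F × Multiplicative ℤ

/-- the generators -/
def aP : P := (FreeGroup.of false, 1)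
def cP : P := (FreeGroup.of true, 1)
def bP : P := (1, Multiplicative.ofAdd 1)

/-- the subgroup generated by `c` -/
def Cy : Subgroup P := Subgroup.zpowers cP

/-- the exponent sum of `c` -/
def phi : F →* Multiplicative ℤ :=
  FreeGroup.lift (fun b => if b then Multiplicative.ofAdd 1 else 1)

/-- the exponent sum of `c`, as an integer -/
def ex (p : P) : ℤ := Multiplicative.toAdd (phi p.1)

lemma ex_mul (p q : P) : ex (p * q) = ex p + ex q := by simp [ex]
lemma ex_one : ex 1 = 0 := by simp [ex]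
lemma ex_cP : ex cP = 1 := by simp [ex, cP, phi]
lemma ex_zpow (n : ℤ) : ex (cP ^ n) = n := by simp [ex, cP, phi]
lemma mem_Cy {p : P} : p ∈ Cy ↔ p = cP ^ ex p := by
  constructor
  · rintro ⟨n, rfl⟩
    simp [ex_zpow]
  · intro h
    rw [h]
    exact ⟨_, rfl⟩
lemma zpow_mem_Cy (n : ℤ) : cP ^ n ∈ Cy := ⟨n, rfl⟩
lemma zpow_mul_mem_Cy {n : ℤ} {p : P} : cP ^ n * p ∈ Cy ↔ p ∈ Cy :=
  Subgroup.mul_mem_cancel_left _ (zpow_mem_Cy n)
lemma mul_zpow_mem_Cy {n : ℤ} {p : P} : p * cP ^ n ∈ Cy ↔ p ∈ Cy :=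
  Subgroup.mul_mem_cancel_right _ (zpow_mem_Cy n)
lemma one_mem_Cy : (1 : P) ∈ Cy := one_mem _
lemma bP_not_mem : bP ∉ Cy := by
  rw [mem_Cy]; intro h
  have := congrArg (fun q : P => Multiplicative.toAdd q.2) h
  simp [bP, cP, ex, phi] at this

/-- letters -/
abbrev Lt := P × Set.Ico (0 : ℚ) 1

/-- Tail words: all letters are outside `Cy`. -/
def Tw : Type := {l : List Lt // ∀ y ∈ l, y.1 ∉ Cy}

/-- The vertices. -/
def Wd : Type := {l : List Lt // ∀ y ∈ l.tail, y.1 ∉ Cy}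

/-- the letter `0` -/
def zt : Set.Ico (0 : ℚ) 1 := ⟨0, by norm_num⟩

/-- the base vertex -/
def v0 : Wd := ⟨[], by simp⟩

/-- A vertex different from the base vertex. -/
def cons (p : P) (θ : Set.Ico (0 : ℚ) 1) (t : Tw) : Wd := ⟨(p, θ) :: t.1, t.2⟩

def tnil : Tw := ⟨[], by simp⟩

lemma wd_cases (l : Wd) : l = v0 ∨ ∃ p θ t, l = cons p θ t := by
  obtain ⟨l, hl⟩ := l
  cases l with
  | nil => exact Or.inl rfl
  | cons y t => exact Or.inr ⟨y.1, y.2, ⟨t, hl⟩, rfl⟩

lemma cons_ne (p θ t) : cons p θ t ≠ v0 := by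
  intro h; simpa [cons, v0] using congrArg Subtype.val h

lemma cons_inj {p θ t p' θ' t'} : cons p θ t = cons p' θ' t' ↔ p = p' ∧ θ = θ' ∧ t = t' := by
  constructor
  · intro h
    have := congrArg Subtype.val h
    simp only [cons, List.cons.injEq, Prod.mk.injEq] at this
    exact ⟨this.1.1, this.1.2, Subtype.ext this.2⟩
  · rintro ⟨rfl, rfl, rfl⟩; rfl

/-- The first letter (its `P`-component); `1` for the base vertex. -/
def fl (l : Wd) : P := (l.1.head?.map Prod.fst).getD 1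

@[simp] lemma fl_cons (p θ t) : fl (cons p θ t) = p := rfl
@[simp] lemma fl_v0 : fl v0 = 1 := rfl

/-- A tail word, as a vertex. -/
def Tw.toWd (t : Tw) : Wd := ⟨t.1, fun y hy => t.2 y (List.mem_of_mem_tail hy)⟩

@[simp] lemma tnil_toWd : tnil.toWd = v0 := rfl

/-! ## The action of `P` -/

/-- The action of `P` on words. -/
def pw (p : P) : Wd → Wd
  | ⟨[], _⟩ => v0
  | ⟨(q, θ) :: t, h⟩ => ⟨(p * q, θ) :: t, h⟩

@[simp] lemma pw_v0 (p : P) : pw p v0 = v0 := rfl
@[simp] lemma pw_cons (p q θ t) : pw p (cons q θ t) = cons (p * q) θ t := rfl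

lemma pw_one (l : Wd) : pw 1 l = l := by
  rcases wd_cases l with rfl | ⟨q, θ, t, rfl⟩ <;> simp

lemma pw_mul (p q : P) (l : Wd) : pw (p * q) l = pw p (pw q l) := by
  rcases wd_cases l with rfl | ⟨q, θ, t, rfl⟩ <;> simp [mul_assoc]

/-- The action of `P` on words, as a homomorphism to permutations. -/
def permP : P →* Equiv.Perm Wd where
  toFun p := ⟨pw p, pw p⁻¹, fun l => by rw [← pw_mul]; simp [pw_one],
    fun l => by rw [← pw_mul]; simp [pw_one]⟩
  map_one' := Equiv.ext fun l => pw_one l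
  map_mul' p q := Equiv.ext fun l => pw_mul p q l

@[simp] lemma permP_apply (p : P) (l : Wd) : permP p l = pw p l := rfl

/-! ## The action of `SL(2, ℤ)` -/

/-- The action of `c ^ m` on tail words. -/
def sh (m : ℤ) : Tw → Tw
  | ⟨[], _⟩ => tnil
  | ⟨(q, θ) :: t, h⟩ => ⟨(cP ^ m * q, θ) :: t, by
      intro y hy
      rcases List.mem_cons.1 hy with rfl | hy
      · simpa only [zpow_mul_mem_Cy] using h (q, θ) (by simp)
      · exact h y (by simp [hy])⟩

lemma sh_zero (t : Tw) : sh 0 t = t := by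
  obtain ⟨l, hl⟩ := t
  cases l with
  | nil => rfl
  | cons y t => apply Subtype.ext; simp [sh]

lemma sh_add (m n : ℤ) (t : Tw) : sh (m + n) t = sh m (sh n t) := by
  obtain ⟨l, hl⟩ := t
  cases l with
  | nil => rfl
  | cons y t => apply Subtype.ext; simp [sh, _root_.zpow_add, mul_assoc]

lemma sh_toWd (m : ℤ) (t : Tw) : (sh m t).toWd = pw (cP ^ m) t.toWd := by
  obtain ⟨l, hl⟩ := t
  cases l with
  | nil => rfl
  | cons y t => rfl

open Classical in
/-- A word as seen from the Farey graph at the base: its Farey coordinate and the rest. -/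
noncomputable def spl : Wd → P1 × Tw
  | ⟨[], _⟩ => (∞, tnil)
  | ⟨(q, θ) :: t, h⟩ =>
      if hq : q ∈ Cy then (((ex q + θ.1 : ℚ) : P1), ⟨t, h⟩)
      else (∞, ⟨(q, θ) :: t, by
        intro y hy
        rcases List.mem_cons.1 hy with rfl | hy
        · exact hq
        · exact h y hy⟩)

/-- the letter with Farey coordinate `r` -/
noncomputable def fr (r : ℚ) : Set.Ico (0 : ℚ) 1 := ⟨Int.fract r, Int.fract_nonneg r, Int.fract_lt_one r⟩

/-- The inverse of `spl`. -/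
noncomputable def jn (x : P1 × Tw) : Wd :=
  OnePoint.elim x.1 x.2.toWd (fun r : ℚ => cons (cP ^ ⌊r⌋) (fr r) x.2)

@[simp] lemma jn_infty (t : Tw) : jn (∞, t) = t.toWd := rfl
@[simp] lemma jn_coe (r : ℚ) (t : Tw) : jn ((r : P1), t) = cons (cP ^ ⌊r⌋) (fr r) t := rfl

@[simp] lemma spl_v0 : spl v0 = (∞, tnil) := rfl

lemma spl_cons_mem {p : P} (hp : p ∈ Cy) (θ t) :
    spl (cons p θ t) = (((ex p + θ.1 : ℚ) : P1), t) := by
  simp only [cons, spl, dif_pos hp]
  rfl

/-- A word whose first letter is not in `Cy`, as a tail word. -/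
def ccons (p : P) (hp : p ∉ Cy) (θ : Set.Ico (0 : ℚ) 1) (t : Tw) : Tw :=
  ⟨(p, θ) :: t.1, by
    intro y hy
    rcases List.mem_cons.1 hy with rfl | hy
    · exact hp
    · exact t.2 y hy⟩

@[simp] lemma ccons_toWd (p hp θ t) : (ccons p hp θ t).toWd = cons p θ t := rfl

lemma spl_cons_not_mem {p : P} (hp : p ∉ Cy) (θ t) :
    spl (cons p θ t) = (∞, ccons p hp θ t) := by
  simp only [cons, spl, dif_neg hp]
  rfl

lemma tw_cases (t : Tw) : t = tnil ∨ ∃ p hp θ s, t = ccons p hp θ s := by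
  obtain ⟨l, hl⟩ := t
  cases l with
  | nil => exact Or.inl rfl
  | cons y t =>
    exact Or.inr ⟨y.1, hl y (by simp), y.2, ⟨t, fun z hz => hl z (by simp [hz])⟩, rfl⟩

lemma sh_tnil (m : ℤ) : sh m tnil = tnil := rfl

lemma sh_ccons (m : ℤ) (p hp θ t) :
    sh m (ccons p hp θ t) = ccons (cP ^ m * p) (by rwa [zpow_mul_mem_Cy]) θ t := rfl

lemma spl_toWd (t : Tw) : spl t.toWd = (∞, t) := by
  rcases tw_cases t with rfl | ⟨p, hp, θ, s, rfl⟩
  · rfl
  · rw [ccons_toWd, spl_cons_not_mem hp]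

lemma spl_jn (x : P1 × Tw) : spl (jn x) = x := by
  obtain ⟨r, t⟩ := x
  induction r using OnePoint.rec with
  | infty => rw [jn_infty, spl_toWd]
  | coe r =>
    rw [jn_coe, spl_cons_mem (zpow_mem_Cy _), ex_zpow]
    simp [fr]

lemma fr_add_int (θ : Set.Ico (0 : ℚ) 1) (n : ℤ) : fr (n + θ.1) = θ := by
  apply Subtype.ext
  simp only [fr, Int.fract_intCast_add]
  exact Int.fract_eq_self.2 θ.2

lemma floor_int_add (θ : Set.Ico (0 : ℚ) 1) (n : ℤ) : ⌊(n + θ.1 : ℚ)⌋ = n := by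
  rw [Int.floor_intCast_add, Int.floor_eq_zero_iff.2 θ.2, add_zero]

lemma jn_spl (l : Wd) : jn (spl l) = l := by
  rcases wd_cases l with rfl | ⟨p, θ, t, rfl⟩
  · rfl
  · by_cases hp : p ∈ Cy
    · rw [spl_cons_mem hp, jn_coe, fr_add_int, floor_int_add, ← mem_Cy.1 hp]
    · rw [spl_cons_not_mem hp, jn_infty, ccons_toWd]

/-- A section of the action of `SL(2, ℤ)` on the finite part of the projective line. -/
noncomputable def sec0 (r : ℚ) : H2 := (exists_fa (r : P1)).choose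

lemma sec0_spec (r : ℚ) : fa (sec0 r) ∞ = (r : P1) := (exists_fa (r : P1)).choose_spec

/-- The section, normalised so that `sec (r + n) = T ^ n * sec r`, `sec ∞ = 1`. -/
noncomputable def sec (r : P1) : H2 :=
  OnePoint.elim r 1 (fun r : ℚ => Tn ⌊r⌋ * sec0 (Int.fract r))

@[simp] lemma sec_infty : sec ∞ = 1 := rfl
lemma sec_coe (r : ℚ) : sec (r : P1) = Tn ⌊r⌋ * sec0 (Int.fract r) := rfl

lemma sec_spec (r : P1) : fa (sec r) ∞ = r := by
  induction r using OnePoint.rec with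
  | infty => simp [fa_one]
  | coe r =>
    rw [sec_coe, fa_mul, sec0_spec, fa_Tn_coe, Int.fract_add_floor]

lemma sec_Ico (θ : Set.Ico (0 : ℚ) 1) : sec (θ.1 : P1) = sec0 θ.1 := by
  rw [sec_coe, Int.floor_eq_zero_iff.2 θ.2, Int.fract_eq_self.2 θ.2, Tn_zero, one_mul]

lemma sec_add (n : ℤ) (r : ℚ) : sec ((n + r : ℚ) : P1) = Tn n * sec (r : P1) := by
  rw [sec_coe, sec_coe, Int.floor_intCast_add, Int.fract_intCast_add, Tn_add, mul_assoc]

/-- The translation part of an element `± T ^ n`. -/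
def tr (h : H2) : ℤ := h 0 1 * h 0 0

lemma tr_Tn (n : ℤ) : tr (Tn n) = n := by simp [tr, Tn_apply]
lemma tr_neg_Tn (n : ℤ) : tr (-Tn n) = n := by simp [tr, Tn_apply]

lemma tr_mul {g h : H2} (hg : fa g ∞ = ∞) (hh : fa h ∞ = ∞) : tr (g * h) = tr g + tr h := by
  obtain ⟨m, rfl | rfl⟩ := fa_stab hg <;> obtain ⟨n, rfl | rfl⟩ := fa_stab hh <;>
  simp only [neg_mul, mul_neg, neg_neg, ← Tn_add, tr_Tn, tr_neg_Tn]

/-- The cocycle. -/
noncomputable def mc (h : H2) (r : P1) : ℤ := tr ((sec (fa h r))⁻¹ * h * sec r)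

lemma fa_inv_apply {h : H2} {r s : P1} (hh : fa h r = s) : fa h⁻¹ s = r := by
  rw [← hh, ← fa_mul, inv_mul_cancel, fa_one]

lemma mc_aux (h : H2) (r : P1) : fa ((sec (fa h r))⁻¹ * h * sec r) ∞ = ∞ := by
  rw [fa_mul, fa_mul, sec_spec]
  exact fa_inv_apply (sec_spec _)

lemma mc_mul (g h : H2) (r : P1) : mc (g * h) r = mc g (fa h r) + mc h r := by
  unfold mc
  rw [← tr_mul (mc_aux g (fa h r)) (mc_aux h r), fa_mul]
  congr 1
  group

lemma mc_one (r : P1) : mc 1 r = 0 := by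
  have := mc_mul 1 1 r
  rw [mul_one, fa_one] at this
  omega

lemma mc_sec (r : P1) : mc (sec r) ∞ = 0 := by
  unfold mc
  rw [sec_spec, sec_infty, inv_mul_cancel, mul_one]
  exact tr_Tn 0

lemma mc_Tn_infty (n : ℤ) : mc (Tn n) ∞ = n := by
  unfold mc
  rw [fa_Tn_infty, sec_infty, inv_one, one_mul, mul_one, tr_Tn]

lemma mc_Tn_coe (n : ℤ) (r : ℚ) : mc (Tn n) (r : P1) = 0 := by
  unfold mc
  rw [fa_Tn_coe, add_comm r, sec_add]
  have : (Tn n * sec (r : P1))⁻¹ * Tn n * sec (r : P1) = Tn 0 := by rw [Tn_zero]; group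
  rw [this, tr_Tn]

/-- The action of `SL(2, ℤ)` on words. -/
noncomputable def hw (h : H2) (l : Wd) : Wd :=
  jn (fa h (spl l).1, sh (mc h (spl l).1) (spl l).2)

lemma hw_jn (h : H2) (r : P1) (t : Tw) : hw h (jn (r, t)) = jn (fa h r, sh (mc h r) t) := by
  rw [hw, spl_jn]

lemma hw_one (l : Wd) : hw 1 l = l := by
  rw [← jn_spl l]
  obtain ⟨r, t⟩ := spl l
  rw [hw_jn, fa_one, mc_one, sh_zero]

lemma hw_mul (g h : H2) (l : Wd) : hw (g * h) l = hw g (hw h l) := by
  rw [← jn_spl l]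
  obtain ⟨r, t⟩ := spl l
  rw [hw_jn, hw_jn, hw_jn, fa_mul, mc_mul, sh_add]

/-- The action of `SL(2, ℤ)` on words, as a homomorphism to permutations. -/
noncomputable def permH : H2 →* Equiv.Perm Wd where
  toFun p := ⟨hw p, hw p⁻¹, fun l => by rw [← hw_mul]; simp [hw_one],
    fun l => by rw [← hw_mul]; simp [hw_one]⟩
  map_one' := Equiv.ext fun l => hw_one l
  map_mul' p q := Equiv.ext fun l => hw_mul p q l

@[simp] lemma permH_apply (p : H2) (l : Wd) : permH p l = hw p l := rfl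

/-- `c ∈ P` and `T ∈ SL(2, ℤ)` act in the same way. -/
lemma hw_Tn (n : ℤ) (l : Wd) : hw (Tn n) l = pw (cP ^ n) l := by
  rw [← jn_spl l]
  obtain ⟨r, t⟩ := spl l
  rw [hw_jn]
  induction r using OnePoint.rec with
  | infty => rw [fa_Tn_infty, mc_Tn_infty, jn_infty, jn_infty, sh_toWd]
  | coe r =>
    rw [fa_Tn_coe, mc_Tn_coe, sh_zero, jn_coe, jn_coe, pw_cons, add_comm r,
      Int.floor_intCast_add, _root_.zpow_add]
    congr 1
    apply Subtype.ext
    simp [fr]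

lemma fa_neg (h : H2) (r : P1) : fa (-h) r = fa h r := by
  induction r using OnePoint.rec with
  | infty => rw [fa_infty, fa_infty]; simp
  | coe r =>
    rw [fa_coe, fa_coe]
    simp only [Matrix.SpecialLinearGroup.coe_neg, Matrix.neg_apply, Int.cast_neg, neg_mul,
      ← neg_add, neg_eq_zero, neg_div_neg_eq]

/-- `-1` acts trivially. -/
lemma hw_neg (h : H2) (l : Wd) : hw (-h) l = hw h l := by
  rw [← jn_spl l]
  obtain ⟨r, t⟩ := spl l
  rw [hw_jn, hw_jn, fa_neg]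
  have : mc (-h) r = mc h r := by
    unfold mc
    rw [fa_neg]
    simp [tr]
  rw [this]

end Pool.Agent.Helper77.HB
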